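import Pool.Agent.MP_5045a8_al.DefsO
import Pool.Agent.Mg.F5045a8.Gcbdcbf

section

/-! Ternary forms: basic definitions and identities. -/

namespace Pool.Agent.MP_5045a8_al.O

open Matrix

/-- Real vectors. -/
abbrev R3 : Type := Fin 3 → ℝ

/-- Real matrices. -/
abbrev RM : Type := Matrix (Fin 3) (Fin 3) ℝ

/-- An integral symmetric nondegenerate indefinite matrix. -/
def Ind (B : M3) : Prop :=
  Bᵀ = B ∧ B.det ≠ 0 ∧ (∃ u : V3, 0 < u ⬝ᵥ B *ᵥ u) ∧ ∃ v : V3, v ⬝ᵥ B *ᵥ v < 0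

/-- The real vector of an integer vector. -/
def rv (x : V3) : R3 := fun i => (x i : ℝ)

/-- The real matrix of an integer matrix. -/
def rm (M : M3) : RM := M.map (Int.castRingHom ℝ)

section ring

variable {R : Type} [CommRing R]

/-- The bilinear form of B. -/
def bf (B : Matrix (Fin 3) (Fin 3) R) (x y : Fin 3 → R) : R := x ⬝ᵥ B *ᵥ y

/-- The form of B normalised to signature (2,1). -/
def nq (B : Matrix (Fin 3) (Fin 3) R) (x y : Fin 3 → R) : R := -B.det * bf B x y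

/-- The matrix of the cross product with c. -/
def crm (c : Fin 3 → R) : Matrix (Fin 3) (Fin 3) R :=
  !![0, -c 2, c 1; c 2, 0, -c 0; -c 1, c 0, 0]

/-- The infinitesimal rotation around c. -/
def Am (B : Matrix (Fin 3) (Fin 3) R) (c : Fin 3 → R) : Matrix (Fin 3) (Fin 3) R :=
  B.adjugate * crm c

/-- The rotation around c given by a solution of the Pell equation. -/
def gm (B : Matrix (Fin 3) (Fin 3) R) (c : Fin 3 → R) (x y : R) : Matrix (Fin 3) (Fin 3) R :=
  1 + (2 * x * y) • Am B c + (2 * y ^ 2) • (Am B c * Am B c)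

variable {B : Matrix (Fin 3) (Fin 3) R}

omit [CommRing R] in
theorem symm_form (h : Bᵀ = B) : ∃ a b c d e f : R, B = !![a, b, c; b, d, e; c, e, f] := by
  refine ⟨B 0 0, B 0 1, B 0 2, B 1 1, B 1 2, B 2 2, ?_⟩
  have h1 : B 1 0 = B 0 1 := congrFun (congrFun h 0) 1
  have h2 : B 2 0 = B 0 2 := congrFun (congrFun h 0) 2
  have h3 : B 2 1 = B 1 2 := congrFun (congrFun h 1) 2
  ext i j
  fin_cases i <;> fin_cases j <;> simp [h1, h2, h3]

theorem bf_comm (h : Bᵀ = B) (x y : Fin 3 → R) : bf B x y = bf B y x := by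
  rw [bf, bf, dotProduct_mulVec, ← mulVec_transpose, h, dotProduct_comm]

theorem nq_comm (h : Bᵀ = B) (x y : Fin 3 → R) : nq B x y = nq B y x := by
  rw [nq, nq, bf_comm h]

theorem bf_add_left (x y z : Fin 3 → R) : bf B (x + y) z = bf B x z + bf B y z := by
  simp [bf]

theorem bf_add_right (x y z : Fin 3 → R) : bf B x (y + z) = bf B x y + bf B x z := by
  simp [bf, mulVec_add]

theorem bf_sub_left (x y z : Fin 3 → R) : bf B (x - y) z = bf B x z - bf B y z := by
  simp [bf]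

theorem bf_sub_right (x y z : Fin 3 → R) : bf B x (y - z) = bf B x y - bf B x z := by
  simp [bf, mulVec_sub]

theorem bf_smul_left (t : R) (x y : Fin 3 → R) : bf B (t • x) y = t * bf B x y := by
  simp [bf]

theorem bf_smul_right (t : R) (x y : Fin 3 → R) : bf B x (t • y) = t * bf B x y := by
  simp [bf, mulVec_smul]

theorem bf_mulVec (M : Matrix (Fin 3) (Fin 3) R) (x y : Fin 3 → R) :
    bf B (M *ᵥ x) (M *ᵥ y) = bf (Mᵀ * B * M) x y := by
  simp only [bf, ← mulVec_mulVec]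
  rw [dotProduct_mulVec x, vecMul_transpose]

theorem crm_mulVec (c x : Fin 3 → R) : crm c *ᵥ x = c ⨯₃ x := by
  ext i
  fin_cases i <;> simp [crm, cross_apply, mulVec, dotProduct, Fin.sum_univ_three] <;> ring

theorem adj_symm (h : Bᵀ = B) : B.adjugateᵀ = B.adjugate := by rw [adjugate_transpose, h]

theorem adj_cross (h : Bᵀ = B) (x y : Fin 3 → R) :
    B.adjugate *ᵥ (x ⨯₃ y) = (B *ᵥ x) ⨯₃ (B *ᵥ y) := by
  obtain ⟨a, b, c, d, e, f, rfl⟩ := symm_form h
  ext i
  fin_cases i <;>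
    simp [adjugate_fin_three, cross_apply, mulVec, dotProduct, Fin.sum_univ_three] <;> ring

theorem gram (h : Bᵀ = B) (x y : Fin 3 → R) :
    bf B.adjugate (x ⨯₃ y) (x ⨯₃ y) = bf B x x * bf B y y - bf B x y ^ 2 := by
  obtain ⟨a, b, c, d, e, f, rfl⟩ := symm_form h
  simp [bf, adjugate_fin_three, cross_apply, mulVec, dotProduct, Fin.sum_univ_three]
  ring

theorem mulVec_adj (x : Fin 3 → R) : B *ᵥ (B.adjugate *ᵥ x) = B.det • x := by
  rw [mulVec_mulVec, mul_adjugate, smul_mulVec, one_mulVec]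

theorem adj_mulVec (x : Fin 3 → R) : B.adjugate *ᵥ (B *ᵥ x) = B.det • x := by
  rw [mulVec_mulVec, adjugate_mul, smul_mulVec, one_mulVec]

theorem bf_adj (x z : Fin 3 → R) : bf B x (B.adjugate *ᵥ z) = B.det * (x ⬝ᵥ z) := by
  rw [bf, mulVec_adj, dotProduct_smul, smul_eq_mul]

theorem det_adj : B.adjugate.det = B.det ^ 2 := by rw [det_adjugate]; simp

theorem adj_adj : B.adjugate.adjugate = B.det • B := by
  rw [adjugate_adjugate _ (by simp)]; simp

theorem am_mulVec (c x : Fin 3 → R) : Am B c *ᵥ x = B.adjugate *ᵥ (c ⨯₃ x) := by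
  rw [Am, ← mulVec_mulVec, crm_mulVec]

theorem am_self (c : Fin 3 → R) : Am B c *ᵥ c = 0 := by
  rw [am_mulVec, cross_self, mulVec_zero]

theorem am_sq (h : Bᵀ = B) (c : Fin 3 → R) :
    Am B c * Am B c = B.det • vecMulVec c (B *ᵥ c) + nq B c c • 1 := by
  obtain ⟨a, b, c', d, e, f, rfl⟩ := symm_form h
  ext i j
  fin_cases i <;> fin_cases j <;>
    simp [Am, crm, nq, bf, adjugate_fin_three, det_fin_three, mul_apply, mulVec, dotProduct,
      Fin.sum_univ_three] <;> ring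

theorem am_cube (h : Bᵀ = B) (c : Fin 3 → R) :
    Am B c * (Am B c * Am B c) = nq B c c • Am B c := by
  rw [am_sq h, Matrix.mul_add, Matrix.mul_smul, Matrix.mul_smul, mul_vecMulVec, am_self,
    zero_vecMulVec, smul_zero, zero_add, Matrix.mul_one]

theorem am_skew (h : Bᵀ = B) (c : Fin 3 → R) : (Am B c)ᵀ * B = -(B * Am B c) := by
  rw [Am, transpose_mul, adj_symm h, Matrix.mul_assoc, adjugate_mul, ← Matrix.mul_assoc,
    mul_adjugate, Matrix.mul_smul, Matrix.smul_mul, ← smul_neg]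
  congr 1
  ext i j
  fin_cases i <;> fin_cases j <;> simp [crm]

theorem gm_fix (c : Fin 3 → R) (x y : R) : gm B c x y *ᵥ c = c := by
  simp [gm, add_mulVec, smul_mulVec, ← mulVec_mulVec, am_self]

end ring

theorem rv_dot (x y : V3) : rv x ⬝ᵥ rv y = ((x ⬝ᵥ y : ℤ) : ℝ) := by
  simp [rv, dotProduct]

theorem rv_mulVec (M : M3) (x : V3) : rv (M *ᵥ x) = rm M *ᵥ rv x := by
  ext i; simp [rv, rm, mulVec, dotProduct]

theorem rm_mul (M N : M3) : rm (M * N) = rm M * rm N := Matrix.map_mul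

theorem rm_one : rm 1 = 1 := by simp [rm]

theorem rm_transpose (M : M3) : rm Mᵀ = (rm M)ᵀ := rfl

theorem rm_det (M : M3) : (rm M).det = (M.det : ℝ) := ((Int.castRingHom ℝ).map_det M).symm

theorem rm_adj (M : M3) : (rm M).adjugate = rm M.adjugate :=
  ((Int.castRingHom ℝ).map_adjugate M).symm

theorem rm_inj : Function.Injective rm := fun M N e => by
  ext i j
  have := congrFun (congrFun e i) j
  simpa [rm] using this

theorem rv_inj : Function.Injective rv := fun x y e => by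
  ext i
  have := congrFun e i
  simpa [rv] using this

theorem rv_add (x y : V3) : rv (x + y) = rv x + rv y := by ext i; simp [rv]

theorem rv_smul (n : ℤ) (x : V3) : rv (n • x) = (n : ℝ) • rv x := by ext i; simp [rv]

theorem rv_ne {x : V3} (h : x ≠ 0) : rv x ≠ 0 := fun e => h (rv_inj (by rw [e]; ext i; simp [rv]))

theorem bf_cast (B : M3) (x y : V3) : bf (rm B) (rv x) (rv y) = ((bf B x y : ℤ) : ℝ) := by
  rw [bf, ← rv_mulVec, rv_dot, bf]

theorem nq_cast (B : M3) (x y : V3) : nq (rm B) (rv x) (rv y) = ((nq B x y : ℤ) : ℝ) := by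
  rw [nq, bf_cast, rm_det, nq]; push_cast; ring

theorem am_cast (B : M3) (c : V3) : rm (Am B c) = Am (rm B) (rv c) := by
  rw [Am, rm_mul, Am, rm_adj]
  congr 1
  ext i j
  fin_cases i <;> fin_cases j <;> simp [crm, rm, rv]

theorem mem_SOq {B : M3} {g : G3} : g ∈ SOq B ↔ (mat g)ᵀ * B * mat g = B := Iff.rfl

theorem Ind.rsymm {B : M3} (h : Ind B) : (rm B)ᵀ = rm B := by rw [← rm_transpose, h.1]

theorem Ind.rdet {B : M3} (h : Ind B) : (rm B).det ≠ 0 := by
  rw [rm_det]; exact_mod_cast h.2.1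

/-- An involution d (σ + 1) = c a with centre c and axis a. -/
def Invo (σ : G3) (d : ℤ) (c a : V3) : Prop :=
  d ≠ 0 ∧ d • (mat σ + 1) = vecMulVec c a ∧ a ⬝ᵥ c = 2 * d

/-- The component of p in the eigendirection ν of the rotation around c. -/
def wv (B : RM) (c p : R3) (ν : ℝ) : R3 := Am B c *ᵥ (Am B c *ᵥ p) + ν • (Am B c *ᵥ p)

/-- The value of the form P on the eigencomponent. -/
noncomputable def wq (B P : RM) (p : R3) (ε : ℝ) (c : R3) : ℝ :=
  bf P (wv B c p (ε * √(nq B c c))) (wv B c p (ε * √(nq B c c)))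

end Pool.Agent.MP_5045a8_al.O

end

section

/-! A rotation axis with prescribed eigendirection. -/

namespace Pool.Agent.MP_5045a8_al.O

open Matrix

theorem axis_ne {B : RM} (hD : B.det ≠ 0) {y : R3} (hy : y ≠ 0) : bf B (B *ᵥ y) y ≠ 0 := by
  intro e
  have h1 : B *ᵥ y = 0 := dotProduct_self_eq_zero.1 e
  have h2 := adj_mulVec (B := B) y
  rw [h1, mulVec_zero] at h2
  exact hy ((smul_eq_zero.1 h2.symm).resolve_left hD)

theorem axis_q {B : RM} (h : Bᵀ = B) (x y : R3) :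
    bf B (B.adjugate *ᵥ (x ⨯₃ y)) (B.adjugate *ᵥ (x ⨯₃ y)) =
      B.det * (bf B x x * bf B y y - bf B x y ^ 2) := by
  rw [bf_adj, dotProduct_comm, ← gram h, bf]

theorem axis_z {B : RM} (h : Bᵀ = B) (hD : B.det ≠ 0) {y p : R3} (hy : y ≠ 0)
    (hy0 : bf B y y = 0) (hp : p ≠ 0) :
    ∃ z : R3, bf B z y ≠ 0 ∧ 2 * bf B z y * bf B z p - bf B z z * bf B y p ≠ 0 := by
  by_cases hβ : bf B y p = 0
  · suffices ∃ z : R3, bf B z y ≠ 0 ∧ bf B z p ≠ 0 by
      obtain ⟨z, h1, h2⟩ := this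
      exact ⟨z, h1, by rw [hβ, mul_zero, sub_zero]; positivity⟩
    have a1 := axis_ne hD hy
    have a2 := axis_ne hD hp
    by_cases c1 : bf B (B *ᵥ y) p = 0
    · by_cases c2 : bf B (B *ᵥ p) y = 0
      · exact ⟨B *ᵥ y + B *ᵥ p, by rwa [bf_add_left, c2, add_zero],
          by rwa [bf_add_left, c1, zero_add]⟩
      · exact ⟨_, c2, a2⟩
    · exact ⟨_, a1, c1⟩
  by_cases hq : bf B p p = 0
  · have e1 : bf B y (B.adjugate *ᵥ (y ⨯₃ p)) = 0 := by rw [bf_adj, dot_self_cross, mul_zero]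
    have e2 : bf B p (B.adjugate *ᵥ (y ⨯₃ p)) = 0 := by rw [bf_adj, dot_cross_self, mul_zero]
    have e3 := axis_q h y p
    generalize B.adjugate *ᵥ (y ⨯₃ p) = e at *
    refine ⟨p + e, ?_, ?_⟩
    · rwa [bf_add_left, bf_comm h e, e1, add_zero, bf_comm h]
    · simp only [bf_add_left, bf_add_right, bf_comm h e p, e2, hq, e3, hy0]
      have : B.det * bf B y p ^ 3 ≠ 0 := by positivity
      intro e
      exact this (by linear_combination e)
  · refine ⟨p, by rwa [bf_comm h], ?_⟩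
    rw [bf_comm h p y]
    intro e
    exact mul_ne_zero hβ hq (by linear_combination e)

theorem axis_am {B : RM} (h : Bᵀ = B) (y y' x : R3) :
    Am B (B.adjugate *ᵥ (y ⨯₃ y')) *ᵥ x = B.det • (bf B x y • y' - bf B x y' • y) := by
  rw [am_mulVec, adj_cross h y y', cross_cross_eq_smul_sub_smul, mulVec_sub, mulVec_smul,
    mulVec_smul, adj_mulVec, adj_mulVec, bf, bf, dotProduct_comm x, dotProduct_comm x]
  module

theorem exists_axis {B : RM} (h : Bᵀ = B) (hD : B.det ≠ 0) {y p : R3} (hy : y ≠ 0)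
    (hy0 : bf B y y = 0) (hp : p ≠ 0) :
    ∃ (c : R3) (ε t : ℝ), (ε = 1 ∨ ε = -1) ∧ 0 < nq B c c ∧ t ≠ 0 ∧
      wv B c p (ε * √(nq B c c)) = t • y := by
  obtain ⟨y', h0, h1, h2⟩ : ∃ y' : R3, bf B y' y' = 0 ∧ bf B y y' ≠ 0 ∧ bf B p y' ≠ 0 := by
    obtain ⟨z, h1, h2⟩ := axis_z h hD hy hy0 hp
    refine ⟨(2 * bf B z y) • z - bf B z z • y, ?_, ?_, ?_⟩
    · simp only [bf_sub_left, bf_sub_right, bf_smul_left, bf_smul_right, bf_comm h y z, hy0]
      ring
    · simp only [bf_sub_right, bf_smul_right, bf_comm h y z, hy0, mul_zero, sub_zero]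
      positivity
    · simpa only [bf_sub_right, bf_smul_right, bf_comm h p z, bf_comm h p y] using h2
  have hN : nq B (B.adjugate *ᵥ (y ⨯₃ y')) (B.adjugate *ᵥ (y ⨯₃ y')) =
      (B.det * bf B y y') ^ 2 := by
    rw [nq, axis_q h, hy0]
    ring
  have hb : B.det * bf B y y' ≠ 0 := mul_ne_zero hD h1
  obtain ⟨ε, hε, e⟩ : ∃ ε : ℝ, (ε = 1 ∨ ε = -1) ∧
      ε * |B.det * bf B y y'| = -(B.det * bf B y y') := by
    rcases le_total 0 (B.det * bf B y y') with g | g
    · exact ⟨-1, Or.inr rfl, by rw [abs_of_nonneg g, neg_one_mul]⟩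
    · exact ⟨1, Or.inl rfl, by rw [abs_of_nonpos g, one_mul]⟩
  refine ⟨B.adjugate *ᵥ (y ⨯₃ y'), ε, 2 * B.det * (B.det * bf B y y') * bf B p y', hε,
    by rw [hN]; positivity, by positivity, ?_⟩
  rw [hN, Real.sqrt_sq_eq_abs, e, wv, axis_am h, axis_am h]
  simp only [bf_sub_left, bf_smul_left, bf_comm h y' y, hy0, h0]
  module

end Pool.Agent.MP_5045a8_al.O

end
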