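import Pool.Agent.Mg.F5045a8a.Gd4655a

section

namespace Pool.Agent.MP_5045a8_al.HX

open Matrix O FT

lemma near_sq_Runge {r w m : ℤ} (h : |w| < r) (hm : r ^ 2 + w = m * m) : w = 0 := by
  rw [← abs_mul_abs_self m] at hm
  have h0 := abs_nonneg m
  obtain ⟨h1, h2⟩ := abs_lt.1 h
  generalize |m| = k at hm h0
  rcases lt_trichotomy k r with h3 | rfl | h3
  · nlinarith
  · linarith
  · nlinarith

lemma lin_Runge {p q g u v : ℤ} (hp : 1 ≤ p)
    (h : ∀ n : ℤ, (p * n ^ 2 + q * n + g) ^ 2 + (u * n + v) ≤ 0 ∨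
      IsSquare ((p * n ^ 2 + q * n + g) ^ 2 + (u * n + v))) : u = 0 ∧ v = 0 := by
  have key : ∀ n : ℤ, |q| + |g| + |u| + |v| + 1 ≤ n → u * n + v = 0 := by
    intro n hn
    have h1 := abs_nonneg q
    have h2 := abs_nonneg g
    have h3 := abs_nonneg u
    have h4 := abs_nonneg v
    have h5 : 1 ≤ n := by linarith
    have h6 : |u * n + v| ≤ |u| * n + |v| := by
      refine (abs_add_le _ _).trans ?_
      rw [abs_mul, abs_of_nonneg (show 0 ≤ n by linarith)]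
    have h7 : |u * n + v| < p * n ^ 2 + q * n + g := by
      have h8 := mul_le_mul_of_nonneg_right (neg_abs_le q) (show 0 ≤ n by linarith)
      have h9 := mul_le_mul_of_nonneg_right hn (show 0 ≤ n by linarith)
      have h10 := mul_le_mul_of_nonneg_left h5 (show 0 ≤ |g| + |v| by linarith)
      nlinarith [neg_abs_le g, mul_le_mul_of_nonneg_right hp (sq_nonneg n)]
    rcases h n with h8 | ⟨m, hm⟩
    · have h9 := abs_nonneg (u * n + v)
      nlinarith [neg_abs_le (u * n + v)]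
    · exact near_sq_Runge h7 hm
  have h1 := key _ le_rfl
  have h2 := key (|q| + |g| + |u| + |v| + 1 + 1) (by linarith)
  have h3 : u = 0 := by linear_combination h2 - h1
  exact ⟨h3, by linear_combination h1 - (|q| + |g| + |u| + |v| + 1) * h3⟩

theorem runge_stmt : RungeStmt := by
  intro a b c d e ha h
  have ha4 : 1 ≤ 8 * a ^ 4 := by
    have : 0 < a ^ 4 := by positivity
    omega
  obtain ⟨hu, hv⟩ := lin_Runge (q := 4 * a ^ 2 * b) (g := 4 * a ^ 2 * c - b ^ 2)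
    (u := 64 * a ^ 6 * d - 8 * a ^ 2 * b * (4 * a ^ 2 * c - b ^ 2))
    (v := 64 * a ^ 6 * e - (4 * a ^ 2 * c - b ^ 2) ^ 2) ha4 fun n => by
      have h1 : (8 * a ^ 4 * n ^ 2 + 4 * a ^ 2 * b * n + (4 * a ^ 2 * c - b ^ 2)) ^ 2 +
          ((64 * a ^ 6 * d - 8 * a ^ 2 * b * (4 * a ^ 2 * c - b ^ 2)) * n +
            (64 * a ^ 6 * e - (4 * a ^ 2 * c - b ^ 2) ^ 2)) =
          (8 * a ^ 3) ^ 2 * (a ^ 2 * n ^ 4 + b * n ^ 3 + c * n ^ 2 + d * n + e) := by ring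
      rw [h1]
      exact (h n).imp (mul_nonpos_of_nonneg_of_nonpos (sq_nonneg _)) (IsSquare.sq _).mul
  have ha' : (a : ℚ) ≠ 0 := Int.cast_ne_zero.2 ha
  have hu' := congrArg (Int.cast : ℤ → ℚ) hu
  have hv' := congrArg (Int.cast : ℤ → ℚ) hv
  push_cast at hu' hv'
  obtain ⟨β, hβ⟩ : ∃ β : ℚ, (b : ℚ) = 2 * a * β := ⟨b / (2 * a), by field_simp⟩
  obtain ⟨γ, hγ⟩ : ∃ γ : ℚ, (c : ℚ) = 2 * a * γ + β ^ 2 := ⟨(c - β ^ 2) / (2 * a), by
    field_simp
    ring⟩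
  refine ⟨β, γ, fun n => mul_left_cancel₀ (show (64 : ℚ) * a ^ 6 ≠ 0 by positivity) ?_⟩
  rw [hβ, hγ] at hu' hv' ⊢
  linear_combination n * hu' + hv'

lemma coef_Runge {p4 p3 p2 p1 p0 A B C : ℚ}
    (h : ∀ n : ℚ, p4 * n ^ 4 + p3 * n ^ 3 + p2 * n ^ 2 + p1 * n + p0 = (A * n ^ 2 + B * n + C) ^ 2) :
    p4 = A ^ 2 ∧ p3 = 2 * A * B ∧ p2 = B ^ 2 + 2 * A * C ∧ p1 = 2 * B * C ∧ p0 = C ^ 2 := by
  have h0 := h 0
  have h1 := h 1
  have h2 := h (-1)
  have h3 := h 2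
  have h4 := h (-2)
  refine ⟨?_, ?_, ?_, ?_, ?_⟩
  · linear_combination (h3 + h4 - 4 * (h1 + h2) + 6 * h0) / 24
  · linear_combination (h3 - h4 - 2 * (h1 - h2)) / 12
  · linear_combination (h1 + h2) / 2 - h0 - (h3 + h4 - 4 * (h1 + h2) + 6 * h0) / 24
  · linear_combination (h1 - h2) / 2 - (h3 - h4 - 2 * (h1 - h2)) / 12
  · linear_combination h0

lemma fin_Runge {c d κ A B C B' C' : ℚ} (hA : A ≠ 0) (hκ : κ ≠ 0) (h1 : c + d = B ^ 2 + 2 * A * C)
    (h2 : 2 * A * B = 2 * A * B') (h3 : 4 * A ^ 2 * κ + c + d = B' ^ 2 + 2 * A * C')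
    (h4 : 4 * A ^ 2 * κ ^ 2 + 2 * c * κ + C ^ 2 = C' ^ 2) : c = 2 * A * C := by
  obtain rfl : B = B' := mul_left_cancel₀ (mul_ne_zero two_ne_zero hA) h2
  obtain rfl : C' = C + 2 * A * κ :=
    mul_left_cancel₀ (mul_ne_zero two_ne_zero hA) (by linear_combination h1 - h3)
  exact mul_left_cancel₀ (mul_ne_zero two_ne_zero hκ) (by linear_combination h4)

theorem alg_stmt : AlgStmt := by
  intro Q α β γ A B C A' B' C' hQ h0 hγ hκ h1 h2
  obtain ⟨a, b, c, d, e, f, rfl⟩ := symm_form hQ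
  obtain ⟨t, rfl⟩ : ∃ t, β = t * γ := ⟨β / γ, by field_simp⟩
  obtain ⟨κ, rfl⟩ : ∃ κ, α = (κ + t ^ 2 / 2) * γ := ⟨α / γ - t ^ 2 / 2, by field_simp; ring⟩
  obtain ⟨A₂, rfl⟩ : ∃ x, A' = x * γ := ⟨A' / γ, by field_simp⟩
  obtain ⟨B₂, rfl⟩ : ∃ x, B' = x * γ := ⟨B' / γ, by field_simp⟩
  obtain ⟨C₂, rfl⟩ : ∃ x, C' = x * γ := ⟨C' / γ, by field_simp⟩
  have hκ' : κ ≠ 0 := fun h => hκ (by rw [h]; ring)
  obtain ⟨k4, k3, k2, k1, k0⟩ := coef_Runge (p4 := a / 4) (p3 := b) (p2 := c + d) (p1 := 2 * e)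
    (p0 := f) (A := A) (B := B) (C := C) fun n => by
      have h3 := h1 n
      simp [bf, mulVec, dotProduct, Fin.sum_univ_three] at h3
      linear_combination h3
  obtain ⟨l4, l3, l2, -, l0⟩ := coef_Runge (p4 := a / 4) (p3 := b) (p2 := a * κ + c + d)
    (p1 := 2 * b * κ + 2 * e) (p0 := a * κ ^ 2 + 2 * c * κ + f) (A := A₂) (B := B₂ - 2 * A₂ * t)
    (C := A₂ * t ^ 2 - B₂ * t + C₂) fun n => by
      have h3 := h2 (n - t)
      simp [bf, mulVec, dotProduct, Fin.sum_univ_three] at h3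
      refine mul_left_cancel₀ (pow_ne_zero 2 hγ) ?_
      linear_combination h3
  obtain rfl : a = 4 * A ^ 2 := by linear_combination 4 * k4
  obtain rfl : e = B * C := by linear_combination k1 / 2
  subst k3 k0
  have hA : A ≠ 0 := fun h => h0 (by simp [h])
  have hc : c = 2 * A * C := by
    rcases sq_eq_sq_iff_eq_or_eq_neg.1 (show A₂ ^ 2 = A ^ 2 by linear_combination -l4) with h | h
    · subst h
      exact fin_Runge hA hκ' k2 l3 l2 l0
    · subst h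
      exact fin_Runge (B' := -(B₂ - 2 * -A * t)) (C' := -(-A * t ^ 2 - B₂ * t + C₂)) hA hκ' k2
        (by linear_combination l3) (by linear_combination l2) (by linear_combination l0)
  obtain rfl : d = B ^ 2 := by linear_combination k2 - hc
  subst hc
  simp [det_fin_three]
  ring

end Pool.Agent.MP_5045a8_al.HX

end

section

/-! A lift with a wandering interval is not maximal. -/

namespace Pool.Agent.MP_5045a8_al.HX

open Matrix O FT

theorem stab_Ext {g : G3} (h : g ∈ P0) :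
    ![0, 0, 1] ᵥ* mat g = ![0, 0, 1] ∨ ![0, 0, 1] ᵥ* mat g = -![0, 0, 1] := by
  rcases Int.eq_one_or_neg_one_of_mul_eq_one' (P0_det h) with e | e
  · left; simp [ext3, vecMul, vecHead, vecTail, h.1, h.2, e.2]
  · right; simp [ext3, vecMul, vecHead, vecTail, h.1, h.2, e.2]

theorem fix_Ext {g : G3} (h : ∀ x, ![0, 0, 1] ⬝ᵥ x = 0 → mat g *ᵥ x = x) :
    ∃ hg : g ∈ P0, pr ⟨g, hg⟩ = 1 := by
  have h0 := h ![1, 0, 0] (by simp)
  have h1 := h ![0, 1, 0] (by simp)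
  simp [ext3, mulVec, vecHead, vecTail] at h0 h1
  refine ⟨⟨h0.2.2, h1.2.2⟩, Units.ext ?_⟩
  rw [pr_val, Units.val_one, one_fin_two]
  simp [h0.1, h0.2.1, h1.1, h1.2.1]

theorem faith_Ext {H : Subgroup G3} (hH : IsPlaneLift ![0, 0, 1] H) {g : P0} (hg : g.1 ∈ H)
    (e : pr g = 1) : g = 1 := by
  obtain ⟨a1, a2, a3, a4, -⟩ := ker_entries (MonoidHom.mem_ker.2 e)
  refine Subtype.ext (hH.2 _ hg fun x hx => ?_)
  have hx' : x 2 = 0 := by simpa [vecHead, vecTail] using hx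
  change mat g *ᵥ x = x
  simp [ext3, mulVec, dot3, a1, a2, a3, a4, hx', g.2.1, g.2.2]

theorem tv_Ext (x φ : Fin 2 → ℤ) (hx : φ ⬝ᵥ x = 0) (c : ℤ) :
    ∃ t : P0, mat t = tv ![x 0, x 1, 0] ![φ 0, φ 1, c] ∧
      ∀ n : ℤ, ((pr (t ^ n) : G2) : Matrix (Fin 2) (Fin 2) ℤ) = 1 + n • vecMulVec x φ := by
  have hd : (tv ![x 0, x 1, 0] ![φ 0, φ 1, c]).det = 1 := by
    rw [det_tv, dot3]
    simpa [dotProduct, Fin.sum_univ_two] using hx
  refine ⟨⟨mk3 _ hd, by simp [mem_P0, mat_mk3, tv_apply]⟩, rfl, fun n => ?_⟩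
  rw [pr_val, Subgroup.coe_zpow, zpow_tv (mat_mk3 _ hd) n]
  ext i j
  rw [Matrix.add_apply, Matrix.smul_apply, vecMulVec_apply]
  fin_cases i <;> fin_cases j <;> simp [tv_apply, mul_assoc]

theorem act_Ext (M : G2) : ∃ x φ : Fin 2 → ℤ, ∀ k c : ℤ,
    ∃ t : P0, mat t = tv ![x 0, x 1, 0] ![k * φ 0, k * φ 1, c] ∧
      ∀ (n : ℤ) (z : Fin 2 → ℤ),
        ((M⁻¹ * pr (t ^ n) * M : G2) : Matrix (Fin 2) (Fin 2) ℤ) *ᵥ z =
          z + (n * k * (z 0 - 2 * z 1)) • ![2, 1] := by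
  refine ⟨M.val *ᵥ ![2, 1], ![1, -2] ᵥ* (M⁻¹).val, fun k c => ?_⟩
  obtain ⟨t, h1, h2⟩ := tv_Ext (M.val *ᵥ ![2, 1]) (k • (![1, -2] ᵥ* (M⁻¹).val)) (by
    rw [smul_dotProduct, dotProduct_mulVec, vecMul_vecMul, Units.inv_mul, vecMul_one]
    simp) c
  refine ⟨t, h1, fun n z => ?_⟩
  rw [Units.val_mul, Units.val_mul, h2, mul_add, add_mul, mul_one, Units.inv_mul, Matrix.mul_smul,
    Matrix.smul_mul, mul_vecMulVec, vecMulVec_mul, mulVec_mulVec, Units.inv_mul, one_mulVec,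
    smul_vecMul, vecMul_vecMul, Units.inv_mul, vecMul_one, add_mulVec, one_mulVec]
  ext i
  fin_cases i <;> simp <;> ring

theorem notMem_Ext {H : Subgroup G3} {M : G2} (hW : Wand (prK H) M) {t : P0} {k : ℤ} (hk : k ≠ 0)
    (ht : ∀ (n : ℤ) (z : Fin 2 → ℤ),
      ((M⁻¹ * pr (t ^ n) * M : G2) : Matrix (Fin 2) (Fin 2) ℤ) *ᵥ z =
        z + (n * k * (z 0 - 2 * z 1)) • ![2, 1]) : t.1 ∉ H := by
  intro hm
  have ht1 := ht 1
  rw [zpow_one] at ht1
  rcases hW (pr t) ⟨t, hm, rfl⟩ with e | e | e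
  · have := congrFun (ht1 ![1, 0]) 1
    simp [e, hk.symm] at this
  · have := congrFun (ht1 ![2, 1]) 1
    simp [e, neg_mulVec] at this
  · refine e ![2, 1] (by simp [Wn]) ?_
    rw [ht1]
    simp [Wn]

theorem neg_Ext {H : Subgroup G3} {M : G2} (hH : IsPlaneLift ![0, 0, 1] H)
    (hW : Wand (prK H) M) {s : P0} (hs : s.1 ∈ H) (e : pr s = -1) :
    ∃ K, IsPlaneLift ![0, 0, 1] K ∧ H < K := by
  have hP : H ≤ P0 := Stab.le_P0 one_ne_zero hH.1
  have e1 := pr_val s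
  rw [e, Units.val_neg, Units.val_one, one_fin_two] at e1
  have a := congrFun (congrFun e1 0) 0
  have b := congrFun (congrFun e1 0) 1
  have c := congrFun (congrFun e1 1) 0
  have d := congrFun (congrFun e1 1) 1
  simp at a b c d
  have f : mat s 2 2 = 1 := by rw [← P0_det' s.2, ← a, ← b, ← d]; simp
  have es : mat s = !![-1, 0, mat s 0 2; 0, -1, mat s 1 2; 0, 0, 1] := by
    conv_lhs => rw [Matrix.eta_fin_three (mat s.1), ← a, ← b, ← c, ← d, f, s.2.1, s.2.2]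
  generalize mat s 0 2 = p at es
  generalize mat s 1 2 = q at es
  have hc : ∀ g : G3, g ∈ Subgroup.centralizer {s.1} ↔ mat s * mat g = mat g * mat s := fun g => by
    rw [Subgroup.mem_centralizer_singleton_iff]
    exact ⟨fun e => (congrArg mat e).symm, fun e => mat_ext e.symm⟩
  obtain ⟨x, φ, hx⟩ := act_Ext M
  obtain ⟨t, h1, h2⟩ := hx 2 (-(p * φ 0 + q * φ 1))
  refine ⟨Subgroup.centralizer {s.1}, ⟨fun g hg => ?_, fun g hg hf => ?_⟩,
    lt_of_le_of_ne (fun g hg => ?_) fun eq => notMem_Ext hW two_ne_zero h2 ?_⟩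
  · rw [hc, es] at hg
    have u := congrFun (congrFun hg 2) 0
    have v := congrFun (congrFun hg 2) 1
    simp [mul_apply, Fin.sum_univ_three] at u v
    exact stab_Ext ⟨by linarith, by linarith⟩
  · obtain ⟨hg0, hg1⟩ := fix_Ext hf
    obtain ⟨a1, a2, a3, a4, a5⟩ := ker_entries (MonoidHom.mem_ker.2 hg1)
    rw [hc, es] at hg
    have u := congrFun (congrFun hg 0) 2
    have v := congrFun (congrFun hg 1) 2
    simp only at a1 a2 a3 a4 a5
    simp [mul_apply, Fin.sum_univ_three, a1, a2, a3, a4, a5] at u v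
    refine mat_ext ?_
    rw [Matrix.eta_fin_three (mat g), a1, a2, a3, a4, a5, hg0.1, hg0.2, mat_one, one_fin_three,
      show mat g 0 2 = 0 by linarith, show mat g 1 2 = 0 by linarith]
  · have := faith_Ext hH (g := ⟨g, hP hg⟩ * s * ⟨g, hP hg⟩⁻¹ * s⁻¹)
      (H.mul_mem (H.mul_mem (H.mul_mem hg hs) (H.inv_mem hg)) (H.inv_mem hs))
      (by simp only [map_mul, map_inv, e]; simp)
    have e2 : g * s.1 * g⁻¹ * s.1⁻¹ = 1 := congrArg Subtype.val this
    rw [Subgroup.mem_centralizer_singleton_iff]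
    calc g * s.1 = g * s.1 * g⁻¹ * s.1⁻¹ * (s.1 * g) := by group
      _ = s.1 * g := by rw [e2, one_mul]
  · rw [eq, hc, es, h1]
    ext i j
    fin_cases i <;> fin_cases j <;> simp [mul_apply, Fin.sum_univ_three, tv_apply] <;> ring

/-- The action of the parabolic subgroup on the plane in the coordinates given by M. -/
@[reducible] noncomputable def mact_Ext (M : G2) : MulAction P0 (Fin 2 → ℤ) where
  smul g z := ((M⁻¹ * pr g * M : G2) : Matrix (Fin 2) (Fin 2) ℤ) *ᵥ z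
  one_smul z := by
    change ((M⁻¹ * pr 1 * M : G2) : Matrix (Fin 2) (Fin 2) ℤ) *ᵥ z = z
    simp
  mul_smul a b z := by
    change ((M⁻¹ * pr (a * b) * M : G2) : Matrix (Fin 2) (Fin 2) ℤ) *ᵥ z =
      ((M⁻¹ * pr a * M : G2) : Matrix (Fin 2) (Fin 2) ℤ) *ᵥ
        (((M⁻¹ * pr b * M : G2) : Matrix (Fin 2) (Fin 2) ℤ) *ᵥ z)
    rw [mulVec_mulVec, ← Units.val_mul, map_mul]
    congr 2
    group

theorem ext_stmt (h : PPStmt) : ExtStmt := by
  intro H M hH hW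
  by_cases hs : ∃ s : P0, s.1 ∈ H ∧ pr s = -1
  · obtain ⟨s, hs, e⟩ := hs
    exact neg_Ext hH hW hs e
  have hP : H ≤ P0 := Stab.le_P0 one_ne_zero hH.1
  obtain ⟨x, φ, hx⟩ := act_Ext M
  obtain ⟨t, -, h2⟩ := hx 5 0
  let _ := mact_Ext M
  have hsm : ∀ (g : P0) (z : Fin 2 → ℤ),
      g • z = ((M⁻¹ * pr g * M : G2) : Matrix (Fin 2) (Fin 2) ℤ) *ᵥ z := fun _ _ => rfl
  have key := h P0 (Fin 2 → ℤ) (H.subgroupOf P0) t {z | z ≠ 0} {z | Wn z}
    {z | 4 * |z 0 - 2 * z 1| < |z 0|} ![3, 1] (fun g z hz e => hz (by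
      rw [← inv_smul_smul g z, e, hsm, mulVec_zero]))
    (fun z hz => by
      have h0 : (4 * (z 0 - 2 * z 1)) ^ 2 < z 0 ^ 2 := by
        rw [sq_lt_sq, abs_mul]; exact hz
      constructor <;> nlinarith [sq_nonneg (z 0), sq_nonneg (z 1), sq_nonneg (z 0 - 2 * z 1),
        sq_nonneg (z 0 - 4 * z 1), sq_nonneg (2 * z 0 - 5 * z 1)])
    (by simp) (by simp [Wn]) (by simp)
    (fun g hg h1 z hz => by
      rcases hW (pr g) ⟨g, hg, rfl⟩ with e | e | e
      · exact absurd (faith_Ext hH hg e) h1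
      · exact absurd ⟨g, hg, e⟩ hs
      · exact e z hz)
    (fun n hn z hz hz' => by
      rw [hsm, h2]
      simp only [Set.mem_ofPred_eq, not_lt] at hz hz' ⊢
      have e1 : (z + (n * 5 * (z 0 - 2 * z 1)) • ![2, 1] : Fin 2 → ℤ) 0 =
          z 0 + 10 * n * (z 0 - 2 * z 1) := by simp; ring
      have e2 : (z + (n * 5 * (z 0 - 2 * z 1)) • ![2, 1] : Fin 2 → ℤ) 1 =
          z 1 + 5 * n * (z 0 - 2 * z 1) := by simp [mul_comm]
      rw [e1, e2, show z 0 + 10 * n * (z 0 - 2 * z 1) - 2 * (z 1 + 5 * n * (z 0 - 2 * z 1)) =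
        z 0 - 2 * z 1 by ring]
      have hD : z 0 - 2 * z 1 ≠ 0 := fun e => hz (by
        rw [e, abs_zero, mul_zero, abs_nonpos_iff] at hz'
        ext i
        fin_cases i
        · exact hz'
        · change z 1 = 0
          omega)
      generalize z 0 - 2 * z 1 = D at hD hz' ⊢
      have h3 := abs_add_le (z 0 + 10 * n * D) (-z 0)
      rw [show z 0 + 10 * n * D + -z 0 = 10 * n * D by ring, abs_neg, abs_mul, abs_mul] at h3
      have h4 : 1 ≤ |n| := Int.one_le_abs hn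
      have h5 : 0 < |D| := abs_pos.2 hD
      have h6 : |(10 : ℤ)| = 10 := rfl
      rw [h6] at h3
      nlinarith)
  refine ⟨(H.subgroupOf P0 ⊔ Subgroup.zpowers t).map P0.subtype, ⟨?_, ?_⟩,
    lt_of_le_of_ne (fun g hg => ⟨⟨g, hP hg⟩, Subgroup.mem_sup_left hg, rfl⟩)
      fun eq => notMem_Ext hW (by norm_num) h2 ?_⟩
  · rintro _ ⟨g, -, rfl⟩
    exact stab_Ext g.2
  · rintro _ ⟨g, hg, rfl⟩ hf
    obtain ⟨hg0, hg1⟩ := fix_Ext hf
    have e : pr g = 1 := hg1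
    rw [key g hg (by rw [hsm, e]; simp), map_one]
  · rw [eq]
    exact ⟨t, Subgroup.mem_sup_right (Subgroup.mem_zpowers t), rfl⟩

end Pool.Agent.MP_5045a8_al.HX

end

section

/-! Complex versions of the span, weight and shape lemmas. -/

namespace Pool.Agent.MP_5045a8_al.HX

open Matrix O FT

theorem perp_SpanC {a b u v : C3} (hw : u ⨯₃ v ≠ 0) (h1 : a ⬝ᵥ u = 0) (h2 : a ⬝ᵥ v = 0)
    (h3 : b ⬝ᵥ u = 0) (h4 : b ⬝ᵥ v = 0) : a ⨯₃ b = 0 := by
  obtain ⟨i, hi⟩ := Function.ne_iff.1 hw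
  simp only [dotProduct, Fin.sum_univ_three] at h1 h2 h3 h4
  funext j
  refine (mul_eq_zero.1 (?_ : (a ⨯₃ b) j * (u ⨯₃ v) i = 0)).resolve_right hi
  have e : ∀ k l : Fin 3, a k * (u ⨯₃ v) l = a l * (u ⨯₃ v) k := by
    intro k l
    fin_cases k <;> fin_cases l <;> simp [cross_apply] <;>
      first
        | linear_combination (u 0) * h2 - (v 0) * h1
        | linear_combination (v 0) * h1 - (u 0) * h2
        | linear_combination (u 1) * h2 - (v 1) * h1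
        | linear_combination (v 1) * h1 - (u 1) * h2
        | linear_combination (u 2) * h2 - (v 2) * h1
        | linear_combination (v 2) * h1 - (u 2) * h2
  have f : ∀ k l : Fin 3, b k * (u ⨯₃ v) l = b l * (u ⨯₃ v) k := by
    intro k l
    fin_cases k <;> fin_cases l <;> simp [cross_apply] <;>
      first
        | linear_combination (u 0) * h4 - (v 0) * h3
        | linear_combination (v 0) * h3 - (u 0) * h4
        | linear_combination (u 1) * h4 - (v 1) * h3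
        | linear_combination (v 1) * h3 - (u 1) * h4
        | linear_combination (u 2) * h4 - (v 2) * h3
        | linear_combination (v 2) * h3 - (u 2) * h4
  have g : ∀ k l : Fin 3, (a k * b l - a l * b k) * (u ⨯₃ v) i = 0 := by
    intro k l
    linear_combination (b l) * e k i - (b k) * e l i + (a i) * f l k
  fin_cases j
  · simpa [cross_apply] using g 1 2
  · simpa [cross_apply] using g 2 0
  · simpa [cross_apply] using g 0 1

theorem spanC_stmt : SpanCStmt := by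
  intro H c φ hH hc hφ
  obtain ⟨h, hh, h1⟩ := (hH c hc).1
  obtain ⟨g, hg, h2⟩ := (hH φ hφ).2
  by_contra hn
  push Not at hn
  refine h2 (perp_SpanC h1 ?_ ?_ (hn h hh) ?_)
  · rw [← dotProduct_mulVec, mulVec_mulVec, ← map_mul]
    exact hn _ (H.mul_mem hg hh)
  · rw [← dotProduct_mulVec]
    exact hn _ hg
  · simpa only [map_one, one_mulVec] using hn 1 H.one_mem

theorem e01_SpanC : (single 0 1 1 : CM) = !![0, 1, 0; 0, 0, 0; 0, 0, 0] := by
  ext i j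
  fin_cases i <;> fin_cases j <;> simp

theorem e10_SpanC : (single 1 0 1 : CM) = !![0, 0, 0; 1, 0, 0; 0, 0, 0] := by
  ext i j
  fin_cases i <;> fin_cases j <;> simp

theorem e02_SpanC : (single 0 2 1 : CM) = !![0, 0, 1; 0, 0, 0; 0, 0, 0] := by
  ext i j
  fin_cases i <;> fin_cases j <;> simp

theorem wt1_SpanC (L : Submodule ℂ CM) (hL : ∀ Y ∈ L, ∀ Z ∈ L, Y * Z - Z * Y ∈ L)
    (h01 : !![0, 1, 0; 0, 0, 0; 0, 0, 0] ∈ L) (h10 : !![0, 0, 0; 1, 0, 0; 0, 0, 0] ∈ L)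
    (Y : CM) (hY : Y ∈ L) : !![0, 0, Y 0 2; 0, 0, 0; 0, Y 2 1, 0] ∈ L := by
  have hD : !![1, 0, 0; 0, -1, 0; 0, 0, 0] ∈ L := by
    have := hL _ h01 _ h10
    simp only [mul_fin_three] at this
    refine (congrArg (· ∈ L) ?_).mp this
    ext i j
    fin_cases i <;> fin_cases j <;> simp
  have hT : ∀ Z ∈ L, !![0, 2 * Z 0 1, Z 0 2; -2 * Z 1 0, 0, -Z 1 2; -Z 2 0, Z 2 1, 0] ∈ L := by
    intro Z hZ
    refine (congrArg (· ∈ L) ?_).mp (hL _ hD _ hZ)
    ext i j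
    fin_cases i <;> fin_cases j <;> simp [mul_apply, Fin.sum_univ_three, vecMul, dotProduct] <;>
      ring
  have h1 := hT _ hY
  have h2 := hT _ h1
  refine (congrArg (· ∈ L) ?_).mp (L.smul_mem (1 / 2) (L.sub_mem (L.sub_mem (L.add_mem h1 h2)
    (L.smul_mem (6 * Y 0 1) h01)) (L.smul_mem (2 * Y 1 0) h10)))
  ext i j
  fin_cases i <;> fin_cases j <;> simp <;> ring

theorem wt2_SpanC (L : Submodule ℂ CM) (hL : ∀ Y ∈ L, ∀ Z ∈ L, Y * Z - Z * Y ∈ L)
    (h10 : !![0, 0, 0; 1, 0, 0; 0, 0, 0] ∈ L) (a b : ℂ) (ha : a ≠ 0)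
    (hW : !![0, 0, a; 0, 0, 0; 0, b, 0] ∈ L) : !![0, 0, 1; 0, 0, 0; 0, 0, 0] ∈ L := by
  by_cases hb : b = 0
  · refine (congrArg (· ∈ L) ?_).mp (L.smul_mem a⁻¹ hW)
    ext i j
    fin_cases i <;> fin_cases j <;> simp [ha, hb]
  · have h1 : !![0, 0, 0; 0, 0, a; -b, 0, 0] ∈ L := by
      refine (congrArg (· ∈ L) ?_).mp (hL _ h10 _ hW)
      ext i j
      fin_cases i <;> fin_cases j <;> simp
    have h2 : !![-(a * b), 0, 0; 0, -(a * b), 0; 0, 0, 2 * (a * b)] ∈ L := by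
      refine (congrArg (· ∈ L) ?_).mp (hL _ hW _ h1)
      ext i j
      fin_cases i <;> fin_cases j <;> simp <;> ring
    have h3 : (6 * a ^ 2 * b) • !![0, 0, 1; 0, 0, 0; 0, 0, 0] ∈ L := by
      refine (congrArg (· ∈ L) ?_).mp (L.sub_mem (L.smul_mem (3 * (a * b)) hW) (hL _ h2 _ hW))
      ext i j
      fin_cases i <;> fin_cases j <;> simp <;> ring
    exact (L.smul_mem_iff (mul_ne_zero (mul_ne_zero (by norm_num) (pow_ne_zero 2 ha)) hb)).1 h3

theorem wtC_stmt : WtCStmt := by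
  intro L Y hL h01 h10 hY h
  rw [e01_SpanC] at h01
  rw [e10_SpanC] at h10
  rw [e02_SpanC]
  rcases h with h | h
  · exact wt2_SpanC L hL h10 _ _ h (wt1_SpanC L hL h01 h10 Y hY)
  · refine wt2_SpanC L hL h10 _ _ ?_ (wt1_SpanC L hL h01 h10 _ (hL _ h01 _ hY))
    simpa [mul_apply, Fin.sum_univ_three, vecMul, dotProduct] using h

lemma key_SpanC {L : Submodule ℂ CM} (hn : single 0 2 1 ∉ L) {r : ℂ}
    (h : (!![0, 0, r; 0, 0, 0; 0, 0, 0] : CM) ∈ L) : r = 0 := by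
  by_contra hr
  apply hn
  have h1 := L.smul_mem r⁻¹ h
  refine Eq.mpr (congrArg (fun x => x ∈ L) ?_) h1
  ext i j
  fin_cases i <;> fin_cases j <;> simp [hr]

lemma cong_SpanC {L : Submodule ℂ CM} {Y Z : CM} (h : Y ∈ L) (e : Z = Y) : Z ∈ L := e ▸ h

lemma ad_SpanC {L : Submodule ℂ CM} (hb : ∀ Y ∈ L, ∀ Z ∈ L, Y * Z - Z * Y ∈ L) (hX : XC ∈ L)
    {a b c d e f g h i : ℂ} (hY : (!![a, b, c; d, e, f; g, h, i] : CM) ∈ L) :
    (!![d, e - a, f - b; g, h - d, i - e; 0, -g, -h] : CM) ∈ L := by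
  refine cong_SpanC (hb _ hX _ hY) ?_
  ext i j
  fin_cases i <;> fin_cases j <;> simp [XC, mul_apply, Fin.sum_univ_three]

lemma shape_SpanC {L : Submodule ℂ CM} (hb : ∀ Y ∈ L, ∀ Z ∈ L, Y * Z - Z * Y ∈ L)
    (ht : ∀ Y ∈ L, trace Y = 0) (hX : XC ∈ L) (hn : single 0 2 1 ∉ L)
    {a b c d e f g h i : ℂ} (hY : (!![a, b, c; d, e, f; g, h, i] : CM) ∈ L) :
    g = 0 ∧ h = d ∧ e = 0 ∧ i = -a ∧ (!![d, 0, f - b; 0, 0, 0; 0, 0, -d] : CM) ∈ L := by
  have h1 := ad_SpanC hb hX hY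
  have h2 := ad_SpanC hb hX h1
  have h3 := ad_SpanC hb hX h2
  have h4 := ad_SpanC hb hX h3
  have e4 : 6 * g = 0 := key_SpanC hn (cong_SpanC h4 (by
    ext i j
    fin_cases i <;> fin_cases j <;> simp <;> ring))
  have hg : g = 0 := by linear_combination e4 / 6
  subst hg
  have e3 : 3 * (d - h) = 0 := key_SpanC hn (cong_SpanC h3 (by
    ext i j
    fin_cases i <;> fin_cases j <;> simp <;> ring))
  have hh : h = d := by linear_combination -e3 / 3
  subst hh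
  have e2 : a - 2 * e + i = 0 := key_SpanC hn (cong_SpanC (L.add_mem h2 (L.smul_mem h hX)) (by
    ext i j
    fin_cases i <;> fin_cases j <;> simp [XC] <;> ring))
  have e1 : a + e + i = 0 := by
    have := ht _ hY
    simpa [trace_fin_three] using this
  have he : e = 0 := by linear_combination (e1 - e2) / 3
  have hi : i = -a := by linear_combination e1 - he
  subst he hi
  refine ⟨rfl, rfl, rfl, rfl, cong_SpanC (L.add_mem h1 (L.smul_mem a hX)) ?_⟩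
  ext i j
  fin_cases i <;> fin_cases j <;> simp [XC]

theorem soC_stmt : SoCStmt := by
  intro L hb ht hX hn
  by_cases h0 : ∀ Y ∈ L, Y 1 0 = 0
  · left
    intro Y hY
    refine ⟨h0 Y hY, ?_⟩
    rw [eta_fin_three Y] at hY
    exact (shape_SpanC hb ht hX hn hY).1
  right
  push Not at h0
  obtain ⟨Y0, hY0, hr⟩ := h0
  rw [eta_fin_three Y0] at hY0
  have hs := (shape_SpanC hb ht hX hn hY0).2.2.2.2
  have hD : DC ((Y0 1 2 - Y0 0 1) / Y0 1 0) ∈ L := by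
    refine cong_SpanC (L.smul_mem (Y0 1 0)⁻¹ hs) ?_
    ext i j
    fin_cases i <;> fin_cases j <;> simp [DC, hr]
    field_simp
  generalize (Y0 1 2 - Y0 0 1) / Y0 1 0 = κ at hD
  refine ⟨κ, hD, fun Y hY => ?_⟩
  rw [eta_fin_three Y] at hY ⊢
  generalize Y 0 0 = a, Y 0 1 = b, Y 0 2 = c, Y 1 0 = d, Y 1 1 = e, Y 1 2 = f, Y 2 0 = g,
    Y 2 1 = h, Y 2 2 = i at hY ⊢
  obtain ⟨rfl, rfl, rfl, rfl, h5⟩ := shape_SpanC hb ht hX hn hY
  have e5 : f - b - h * κ = 0 := key_SpanC hn (cong_SpanC (L.sub_mem h5 (L.smul_mem h hD)) (by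
    ext i j
    fin_cases i <;> fin_cases j <;> simp [DC]))
  obtain rfl : f = b + h * κ := by linear_combination e5
  have h6 : (!![0, 0, c - κ * a; h, 0, h * κ; 0, h, 0] : CM) ∈ L := by
    refine cong_SpanC (L.sub_mem (L.sub_mem hY (L.smul_mem a hD)) (L.smul_mem b hX)) ?_
    ext i j
    fin_cases i <;> fin_cases j <;> simp [DC, XC]
    ring
  have e6 : 3 * (c - κ * a) = 0 := key_SpanC hn (cong_SpanC
    (L.sub_mem (L.add_mem (hb _ hD _ h6) h6) (L.smul_mem (κ * h) hX)) (by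
      ext i j
      fin_cases i <;> fin_cases j <;> simp [DC, XC, mul_apply, Fin.sum_univ_three] <;> ring))
  obtain rfl : c = κ * a := by linear_combination e6 / 3
  ext i j
  fin_cases i <;> fin_cases j <;> simp [BC, mul_apply, Fin.sum_univ_three] <;> ring

end Pool.Agent.MP_5045a8_al.HX

end
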