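import Pool.Agent.Mg.F5045a8a.Gd4655a

section

/-! Irreducible subgroups move points off lines; weight vectors of a Lie algebra. -/

namespace Pool.Agent.MP_5045a8_al.HX

open Matrix O FT

/-- The rational vector of an integer vector. -/
def qv_Span (v : V3) : Q3 := fun i => (v i : ℚ)

theorem clear_Span (c : Q3) (hc : c ≠ 0) :
    ∃ (v : V3) (r : ℚ), v ≠ 0 ∧ r ≠ 0 ∧ c = r • qv_Span v := by
  obtain ⟨b, hb⟩ := IsLocalization.exist_integer_multiples_of_finite (nonZeroDivisors ℤ) c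
  choose v hv using hb
  have h0 : ((b : ℤ) : ℚ) ≠ 0 := Int.cast_ne_zero.2 (nonZeroDivisors.coe_ne_zero b)
  have e : c = ((b : ℤ) : ℚ)⁻¹ • qv_Span v := by
    funext i
    have h1 : (v i : ℚ) = (b : ℤ) * c i := by simpa using hv i
    rw [Pi.smul_apply, qv_Span, h1, smul_eq_mul, inv_mul_cancel_left₀ h0]
  refine ⟨v, _, fun h => hc ?_, inv_ne_zero h0, e⟩
  rw [e, h]
  funext i
  simp [qv_Span]

theorem mulVec_Span (h : G3) (v : V3) : qm h *ᵥ qv_Span v = qv_Span (mat h *ᵥ v) := by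
  funext i
  simp [mulVec, dotProduct, qv_Span, qm_apply, mat]

theorem dot_Span (a b : V3) : qv_Span a ⬝ᵥ qv_Span b = ((a ⬝ᵥ b : ℤ) : ℚ) := by
  simp [dotProduct, qv_Span]

theorem cr_Span (a b : V3) : qv_Span a ⨯₃ qv_Span b = qv_Span (cr a b) := by
  funext i
  fin_cases i <;> simp [cross_apply, qv_Span, cr]

theorem int_Span (H : Subgroup G3) (v ψ : V3) (hH : Irr H) (hv : v ≠ 0) (hψ : ψ ≠ 0) :
    (∃ h ∈ H, ψ ⬝ᵥ mat h *ᵥ v ≠ 0) ∧ ∃ h ∈ H, cr (mat h *ᵥ v) v ≠ 0 := by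
  have h2 : ∃ h ∈ H, cr (mat h *ᵥ v) v ≠ 0 := by
    by_contra hn
    push Not at hn
    refine (hH v hv).2 fun g hg => par_unit hv g (cr_comm_zero ?_)
    have := hn _ (mem_tr.1 hg)
    rwa [mat_transpose, mulVec_transpose] at this
  refine ⟨?_, h2⟩
  obtain ⟨h, hh, h1⟩ := h2
  by_contra hn
  push Not at hn
  have key : ∀ g ∈ H, cr (ψ ᵥ* mat g) (cr (mat h *ᵥ v) v) = 0 := fun g hg => by
    refine cr_of_perp ?_ ?_
    · rw [← dotProduct_mulVec, mulVec_mulVec, ← mat_mul]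
      exact hn _ (H.mul_mem hg hh)
    · rw [← dotProduct_mulVec]
      exact hn _ hg
  refine (hH ψ hψ).1 fun g hg => par_unit hψ g (cr_trans h1 ?_ (key g hg))
  simpa only [mat_one, vecMul_one] using key 1 H.one_mem

theorem span_stmt : SpanStmt := by
  intro H c φ hH hc hφ
  obtain ⟨v, r, hv, hr, rfl⟩ := clear_Span c hc
  obtain ⟨ψ, s, hψ, hs, rfl⟩ := clear_Span φ hφ
  obtain ⟨⟨h, hh, h1⟩, g, hg, h2⟩ := int_Span H v ψ hH hv hψ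
  refine ⟨⟨h, hh, ?_⟩, g, hg, ?_⟩
  · rw [mulVec_smul, smul_dotProduct, dotProduct_smul, mulVec_Span, dot_Span]
    exact mul_ne_zero hs (mul_ne_zero hr (Int.cast_ne_zero.2 h1))
  · rw [mulVec_smul, map_smul, LinearMap.map_smul₂, mulVec_Span, cr_Span]
    refine smul_ne_zero hr (smul_ne_zero hr fun e => h2 ?_)
    funext i
    exact Int.cast_injective (α := ℚ) ((congrFun e i).trans Int.cast_zero.symm)

theorem e01_Span : (single 0 1 1 : QM) = !![0, 1, 0; 0, 0, 0; 0, 0, 0] := by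
  ext i j
  fin_cases i <;> fin_cases j <;> simp

theorem e10_Span : (single 1 0 1 : QM) = !![0, 0, 0; 1, 0, 0; 0, 0, 0] := by
  ext i j
  fin_cases i <;> fin_cases j <;> simp

theorem e02_Span : (single 0 2 1 : QM) = !![0, 0, 1; 0, 0, 0; 0, 0, 0] := by
  ext i j
  fin_cases i <;> fin_cases j <;> simp

theorem wt1_Span (L : Submodule ℚ QM) (hL : ∀ Y ∈ L, ∀ Z ∈ L, Y * Z - Z * Y ∈ L)
    (h01 : !![0, 1, 0; 0, 0, 0; 0, 0, 0] ∈ L) (h10 : !![0, 0, 0; 1, 0, 0; 0, 0, 0] ∈ L)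
    (Y : QM) (hY : Y ∈ L) : !![0, 0, Y 0 2; 0, 0, 0; 0, Y 2 1, 0] ∈ L := by
  have hD : !![1, 0, 0; 0, -1, 0; 0, 0, 0] ∈ L := by
    have := hL _ h01 _ h10
    simp only [mul_fin_three] at this
    refine (congrArg (· ∈ L) ?_).mp this
    ext i j
    fin_cases i <;> fin_cases j <;> simp
  have hT : ∀ Z ∈ L, !![0, 2 * Z 0 1, Z 0 2; -2 * Z 1 0, 0, -Z 1 2; -Z 2 0, Z 2 1, 0] ∈ L := by
    intro Z hZ
    refine (congrArg (· ∈ L) ?_).mp (hL _ hD _ hZ)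
    ext i j
    fin_cases i <;> fin_cases j <;> simp [mul_apply, Fin.sum_univ_three, vecMul, dotProduct] <;>
      ring
  have h1 := hT _ hY
  have h2 := hT _ h1
  refine (congrArg (· ∈ L) ?_).mp (L.smul_mem (1 / 2) (L.sub_mem (L.sub_mem (L.add_mem h1 h2)
    (L.smul_mem (6 * Y 0 1) h01)) (L.smul_mem (2 * Y 1 0) h10)))
  ext i j
  fin_cases i <;> fin_cases j <;> simp <;> ring

theorem wt2_Span (L : Submodule ℚ QM) (hL : ∀ Y ∈ L, ∀ Z ∈ L, Y * Z - Z * Y ∈ L)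
    (h10 : !![0, 0, 0; 1, 0, 0; 0, 0, 0] ∈ L) (a b : ℚ) (ha : a ≠ 0)
    (hW : !![0, 0, a; 0, 0, 0; 0, b, 0] ∈ L) : !![0, 0, 1; 0, 0, 0; 0, 0, 0] ∈ L := by
  by_cases hb : b = 0
  · refine (congrArg (· ∈ L) ?_).mp (L.smul_mem a⁻¹ hW)
    ext i j
    fin_cases i <;> fin_cases j <;> simp [ha, hb]
  · have h1 : !![0, 0, 0; 0, 0, a; -b, 0, 0] ∈ L := by
      refine (congrArg (· ∈ L) ?_).mp (hL _ h10 _ hW)
      ext i j
      fin_cases i <;> fin_cases j <;> simp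
    have h2 : !![-(a * b), 0, 0; 0, -(a * b), 0; 0, 0, 2 * (a * b)] ∈ L := by
      refine (congrArg (· ∈ L) ?_).mp (hL _ hW _ h1)
      ext i j
      fin_cases i <;> fin_cases j <;> simp <;> ring
    have h3 : (6 * a ^ 2 * b) • !![0, 0, 1; 0, 0, 0; 0, 0, 0] ∈ L := by
      refine (congrArg (· ∈ L) ?_).mp (L.sub_mem (L.smul_mem (3 * (a * b)) hW) (hL _ h2 _ hW))
      ext i j
      fin_cases i <;> fin_cases j <;> simp <;> ring
    exact (L.smul_mem_iff (by positivity)).1 h3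

theorem wt_stmt : WtStmt := by
  intro L Y hL h01 h10 hY h
  rw [e01_Span] at h01
  rw [e10_Span] at h10
  rw [e02_Span]
  rcases h with h | h
  · exact wt2_Span L hL h10 _ _ h (wt1_Span L hL h01 h10 Y hY)
  · refine wt2_Span L hL h10 _ _ ?_ (wt1_Span L hL h01 h10 _ (hL _ h01 _ hY))
    simpa [mul_apply, Fin.sum_univ_three, vecMul, dotProduct] using h

end Pool.Agent.MP_5045a8_al.HX

end

section

/-! An interval of slopes is wandering as soon as all scalar products are positive. -/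

namespace Pool.Agent.MP_5045a8_al.HX

open Matrix O FT

lemma sign_Tri {a b c d : ℤ} (h : a * d - b * c = 1 ∨ a * d - b * c = -1) :
    ((0 ≤ a ∧ 0 ≤ b ∧ 0 ≤ c ∧ 0 ≤ d) ∨ (0 ≤ a ∧ b ≤ 0 ∧ c ≤ 0 ∧ 0 ≤ d) ∨
      (0 ≤ a ∧ b ≤ 0 ∧ 0 ≤ c ∧ d ≤ 0) ∨ (0 ≤ a ∧ 0 ≤ b ∧ c ≤ 0 ∧ d ≤ 0)) ∨
    ((0 ≤ -a ∧ 0 ≤ -b ∧ 0 ≤ -c ∧ 0 ≤ -d) ∨ (0 ≤ -a ∧ -b ≤ 0 ∧ -c ≤ 0 ∧ 0 ≤ -d) ∨
      (0 ≤ -a ∧ -b ≤ 0 ∧ 0 ≤ -c ∧ -d ≤ 0) ∨ (0 ≤ -a ∧ 0 ≤ -b ∧ -c ≤ 0 ∧ -d ≤ 0)) := by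
  have h1 : ¬ (0 < a * d ∧ b * c < 0) := by generalize a * d = x, b * c = y at h; omega
  have h2 : ¬ (a * d < 0 ∧ 0 < b * c) := by generalize a * d = x, b * c = y at h; omega
  rw [mul_pos_iff, mul_neg_iff] at h1 h2
  omega

lemma bt_mul_Tri (M P : G2) : bt (M * P) = (M 0 0 ^ 2 + M 1 0 ^ 2) * (P 0 0 * P 0 1) +
    bt M * (P 0 0 * P 1 1 + P 1 0 * P 0 1) + (M 0 1 ^ 2 + M 1 1 ^ 2) * (P 1 0 * P 1 1) := by
  simp only [bt, Units.val_mul, Matrix.mul_apply, Fin.sum_univ_two]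
  ring

lemma neg_app_Tri (P : G2) (i j : Fin 2) : (-P : G2) i j = - P i j := rfl

lemma bt_neg_Tri (M P : G2) : bt (M * -P) = bt (M * P) := by
  simp only [bt_mul_Tri, neg_app_Tri]
  ring

/-- all powers have a positive scalar product -/
def T_Tri (M P : G2) : Prop := ∀ n : ℕ, 0 < bt (M * P ^ n) ∧ 0 < bt (M * (P ^ n)⁻¹)

/-- the conclusion -/
def C_Tri (P : G2) : Prop :=
  P = 1 ∨ P = -1 ∨ ∀ x, Wn x → ¬ Wn ((P : Matrix (Fin 2) (Fin 2) ℤ) *ᵥ x)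

lemma T_neg_Tri {M P : G2} (h : T_Tri M P) : T_Tri M (-P) := fun n => by
  rcases n.even_or_odd with hn | hn
  · rw [hn.neg_pow]; exact h n
  · rw [hn.neg_pow, inv_neg, bt_neg_Tri, bt_neg_Tri]; exact h n

lemma T_inv_Tri {M P : G2} (h : T_Tri M P) : T_Tri M P⁻¹ := fun n => by
  rw [inv_pow, inv_inv]; exact (h n).symm

lemma C_neg_Tri {P : G2} (h : C_Tri (-P)) : C_Tri P := by
  rcases h with h | h | h
  · exact Or.inr (Or.inl (neg_eq_iff_eq_neg.1 h))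
  · exact Or.inl (neg_injective h)
  · refine Or.inr (Or.inr fun x hx hw => h x hx ?_)
    rw [Units.val_neg, Matrix.neg_mulVec]
    simpa only [Wn, Pi.neg_apply, neg_mul_neg, neg_sq] using hw

lemma swap_Tri {P : G2} (h : (P : Matrix (Fin 2) (Fin 2) ℤ) = !![0, 1; 1, 0]) : C_Tri P := by
  refine Or.inr (Or.inr fun x hx hw => ?_)
  rw [h] at hw
  have h1 := hw.2
  have h2 := hx.2
  simp [Matrix.mulVec, dotProduct, Fin.sum_univ_two] at h1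
  omega

lemma pos_Tri (h : PosMatStmt) {M P : G2} (hT : T_Tri M P) (h1 : 0 ≤ P 0 0) (h2 : 0 ≤ P 0 1)
    (h3 : 0 ≤ P 1 0) (h4 : 0 ≤ P 1 1) : C_Tri P ∧ C_Tri P⁻¹ := by
  rcases h M P (fun i j => by fin_cases i <;> fin_cases j <;> assumption) fun n => (hT n).2
    with h5 | h5
  · exact ⟨Or.inl h5, Or.inl (inv_eq_one.2 h5)⟩
  · have h6 : P * P = 1 := Units.ext (by rw [Units.val_mul, h5]; decide)
    rw [inv_eq_of_mul_eq_one_right h6]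
    exact ⟨swap_Tri h5, swap_Tri h5⟩

lemma inv_Tri (P : G2) :
    (P 0 0 * P 1 1 - P 0 1 * P 1 0 = 1 ∨ P 0 0 * P 1 1 - P 0 1 * P 1 0 = -1) ∧
    (P 0 0 * P 1 1 - P 0 1 * P 1 0) * (P⁻¹ : G2) 0 0 = P 1 1 ∧
    (P 0 0 * P 1 1 - P 0 1 * P 1 0) * (P⁻¹ : G2) 0 1 = - P 0 1 ∧
    (P 0 0 * P 1 1 - P 0 1 * P 1 0) * (P⁻¹ : G2) 1 0 = - P 1 0 ∧
    (P 0 0 * P 1 1 - P 0 1 * P 1 0) * (P⁻¹ : G2) 1 1 = P 0 0 := by
  have h := P.mul_inv
  have e := fun i j => congrFun (congrFun h i) j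
  have e1 := e 0 0
  have e2 := e 0 1
  have e3 := e 1 0
  have e4 := e 1 1
  simp only [Matrix.mul_apply, Fin.sum_univ_two, Matrix.one_apply_eq,
    Matrix.one_apply_ne (by decide : (0 : Fin 2) ≠ 1),
    Matrix.one_apply_ne (by decide : (1 : Fin 2) ≠ 0)] at e1 e2 e3 e4
  refine ⟨Int.eq_one_or_neg_one_of_mul_eq_one (v := (P⁻¹ : G2) 0 0 * (P⁻¹ : G2) 1 1 -
    (P⁻¹ : G2) 0 1 * (P⁻¹ : G2) 1 0) ?_, ?_, ?_, ?_, ?_⟩
  · linear_combination (P 1 0 * (P⁻¹ : G2) 0 1 + P 1 1 * (P⁻¹ : G2) 1 1) * e1 + e4 -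
      (P 1 0 * (P⁻¹ : G2) 0 0 + P 1 1 * (P⁻¹ : G2) 1 0) * e2
  · linear_combination P 1 1 * e1 - P 0 1 * e3
  · linear_combination P 1 1 * e2 - P 0 1 * e4
  · linear_combination P 0 0 * e3 - P 1 0 * e1
  · linear_combination P 0 0 * e4 - P 1 0 * e2

lemma key_Tri (h : PosMatStmt) {M P : G2} (hT : T_Tri M P)
    (hs : (0 ≤ P 0 0 ∧ 0 ≤ P 0 1 ∧ 0 ≤ P 1 0 ∧ 0 ≤ P 1 1) ∨
      (0 ≤ P 0 0 ∧ P 0 1 ≤ 0 ∧ P 1 0 ≤ 0 ∧ 0 ≤ P 1 1) ∨
      (0 ≤ P 0 0 ∧ P 0 1 ≤ 0 ∧ 0 ≤ P 1 0 ∧ P 1 1 ≤ 0) ∨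
      (0 ≤ P 0 0 ∧ 0 ≤ P 0 1 ∧ P 1 0 ≤ 0 ∧ P 1 1 ≤ 0)) : C_Tri P := by
  rcases hs with ⟨h1, h2, h3, h4⟩ | ⟨h1, h2, h3, h4⟩ | ⟨h1, h2, h3, h4⟩ | ⟨h1, h2, h3, h4⟩
  · exact (pos_Tri h hT h1 h2 h3 h4).1
  · obtain ⟨g0, g1, g2, g3, g4⟩ := inv_Tri P
    rcases g0 with g0 | g0 <;> rw [g0] at g1 g2 g3 g4
    · have := (pos_Tri h (T_inv_Tri hT) (by omega) (by omega) (by omega) (by omega)).2
      rwa [inv_inv] at this
    · have := (pos_Tri h (T_neg_Tri (T_inv_Tri hT)) (by rw [neg_app_Tri]; omega)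
        (by rw [neg_app_Tri]; omega) (by rw [neg_app_Tri]; omega) (by rw [neg_app_Tri]; omega)).2
      rw [inv_neg, inv_inv] at this
      exact C_neg_Tri this
  · exfalso
    have g0 := (hT 0).1
    have g1 := (hT 1).1
    rw [pow_zero, mul_one] at g0
    rw [pow_one, bt_mul_Tri] at g1
    have g2 := mul_nonpos_of_nonneg_of_nonpos (add_nonneg (sq_nonneg (M 0 0)) (sq_nonneg (M 1 0)))
      (mul_nonpos_of_nonneg_of_nonpos h1 h2)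
    have g3 := mul_nonpos_of_nonneg_of_nonpos (add_nonneg (sq_nonneg (M 0 1)) (sq_nonneg (M 1 1)))
      (mul_nonpos_of_nonneg_of_nonpos h3 h4)
    have g4 := mul_nonpos_of_nonneg_of_nonpos g0.le (add_nonpos
      (mul_nonpos_of_nonneg_of_nonpos h1 h4) (mul_nonpos_of_nonneg_of_nonpos h3 h2))
    linarith
  · refine Or.inr (Or.inr fun x hx hw => ?_)
    have g0 := hw.1
    simp only [Matrix.mulVec, dotProduct, Fin.sum_univ_two] at g0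
    have g2 := mul_nonpos_of_nonneg_of_nonpos (sq_nonneg (x 0))
      (mul_nonpos_of_nonneg_of_nonpos h1 h3)
    have g3 := mul_nonpos_of_nonneg_of_nonpos (sq_nonneg (x 1))
      (mul_nonpos_of_nonneg_of_nonpos h2 h4)
    have g4 := mul_nonpos_of_nonneg_of_nonpos hx.1.le (add_nonpos
      (mul_nonpos_of_nonneg_of_nonpos h1 h4) (mul_nonpos_of_nonneg_of_nonpos h2 h3))
    linarith

theorem tri_stmt (h : PosMatStmt) : TriStmt := by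
  intro Λ M hM γ hγ
  have hT : T_Tri M (M⁻¹ * γ * M) := fun n => by
    have e : (M⁻¹ * γ * M) ^ n = M⁻¹ * γ ^ n * M := by
      have := conj_pow (a := M⁻¹) (b := γ) (i := n)
      rwa [inv_inv] at this
    have h1 := hM _ (Λ.pow_mem hγ n)
    have h2 := hM _ (Λ.inv_mem (Λ.pow_mem hγ n))
    rw [e]
    constructor
    · rwa [show M * (M⁻¹ * γ ^ n * M) = γ ^ n * M by group]
    · rwa [show M * (M⁻¹ * γ ^ n * M)⁻¹ = (γ ^ n)⁻¹ * M by group]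
  have hC : C_Tri (M⁻¹ * γ * M) := (sign_Tri (inv_Tri (M⁻¹ * γ * M)).1).elim (key_Tri h hT)
    fun hs => C_neg_Tri (key_Tri h (T_neg_Tri hT) hs)
  have e : γ = M * (M⁻¹ * γ * M) * M⁻¹ := by group
  rcases hC with h1 | h1 | h1
  · exact Or.inl (by rw [e, h1, mul_one, mul_inv_cancel])
  · exact Or.inr (Or.inl (by rw [e, h1, mul_neg, mul_one, neg_mul, mul_inv_cancel]))
  · exact Or.inr (Or.inr h1)

end Pool.Agent.MP_5045a8_al.HX

end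

section

/-! Rank one nilpotent matrices in a complex Lie algebra generate all traceless matrices. -/

namespace Pool.Agent.MP_5045a8_al.HX

open Matrix O FT

theorem cm_inv_FullC (g : G3) (x : C3) : cm g⁻¹ *ᵥ (cm g *ᵥ x) = x := by
  rw [mulVec_mulVec, ← map_mul, inv_mul_cancel, map_one, one_mulVec]

theorem cm_ne_FullC (g : G3) {x : C3} (hx : x ≠ 0) : cm g *ᵥ x ≠ 0 := fun h => hx <| by
  rw [← cm_inv_FullC g x, h, mulVec_zero]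

theorem dot_FullC (ψ : C3) (M : CM) (x : C3) : (ψ ᵥ* M) ⬝ᵥ x = ψ ⬝ᵥ (M *ᵥ x) :=
  (dotProduct_mulVec ψ M x).symm

theorem ex_FullC {n : C3} (h : n ≠ 0) : ∃ x : C3, x ⬝ᵥ n ≠ 0 := by
  by_contra k
  push Not at k
  exact h (dotProduct_eq_zero n fun x => by rw [dotProduct_comm, k])

theorem two_FullC {c μ ν w η : C3} (hc : c ≠ 0) (hμ : μ ≠ 0) (h1 : μ ⬝ᵥ c = 0) (h2 : ν ⬝ᵥ c = 0)
    (h3 : η ⬝ᵥ c = 0) (h4 : μ ⬝ᵥ w = 0) (h5 : ν ⬝ᵥ w ≠ 0) : ∃ a b : ℂ, η = a • μ + b • ν := by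
  have k1 : μ ⨯₃ ν ⨯₃ c = 0 := by rw [cross_cross_eq_smul_sub_smul, h1, h2]; simp
  have k2 : η ⬝ᵥ (μ ⨯₃ ν) = 0 := by
    have e := cross_cross_eq_smul_sub_smul' η (μ ⨯₃ ν) c
    rw [k1, h3, map_zero, zero_smul, zero_sub, eq_comm, neg_eq_zero, smul_eq_zero] at e
    rw [dotProduct_comm]
    exact e.resolve_right hc
  have k0 : μ ⨯₃ ν ≠ 0 := by
    intro h
    have e := cross_cross_eq_smul_sub_smul μ ν w
    rw [h, h4, map_zero, LinearMap.zero_apply, zero_smul, zero_sub,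
      eq_comm, neg_eq_zero, smul_eq_zero] at e
    exact e.elim h5 hμ
  obtain ⟨x, k3⟩ := ex_FullC k0
  have k4 : (x ⬝ᵥ (μ ⨯₃ ν)) • η = (x ⬝ᵥ (η ⨯₃ ν)) • μ + (x ⬝ᵥ (μ ⨯₃ η)) • ν +
      (η ⬝ᵥ (μ ⨯₃ ν)) • x := by
    simp_rw [cross_apply, vec3_dotProduct]
    ext i
    fin_cases i <;> simp <;> ring
  rw [k2, zero_smul, add_zero] at k4
  refine ⟨(x ⬝ᵥ (μ ⨯₃ ν))⁻¹ * (x ⬝ᵥ (η ⨯₃ ν)), (x ⬝ᵥ (μ ⨯₃ ν))⁻¹ * (x ⬝ᵥ (μ ⨯₃ η)), ?_⟩
  rw [mul_smul, mul_smul, ← smul_add, ← k4, inv_smul_smul₀ k3]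

theorem core_FullC (hW : WtCStmt) (L : Submodule ℂ CM)
    (hbr : ∀ Y ∈ L, ∀ Z ∈ L, Y * Z - Z * Y ∈ L) (P Q : CM) (hQP : Q * P = 1)
    (h01 : P * single 0 1 1 * Q ∈ L) (h10 : P * single 1 0 1 * Q ∈ L) (a b : C3)
    (hab : vecMulVec a b ∈ L) (ha : a ≠ 0) (hd : b ⬝ᵥ a = 0) (hb : (b ᵥ* P) 2 ≠ 0) :
    P * single 0 2 1 * Q ∈ L := by
  have hPQ : P * Q = 1 := mul_eq_one_comm.1 hQP
  let f : CM →ₗ[ℂ] CM := (LinearMap.mulRight ℂ Q).comp (LinearMap.mulLeft ℂ P)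
  have hf : ∀ Y, Y ∈ L.comap f ↔ P * Y * Q ∈ L := fun Y => Iff.rfl
  rw [← hf]
  refine hW (L.comap f) (vecMulVec (Q *ᵥ a) (b ᵥ* P)) ?_ h01 h10 ?_ ?_
  · intro Y hY Z hZ
    have e : ∀ Y Z : CM, P * (Y * Z) * Q = P * Y * Q * (P * Z * Q) := fun Y Z => by
      calc P * (Y * Z) * Q = P * Y * (Q * P) * Z * Q := by rw [hQP]; simp only [mul_assoc, mul_one]
        _ = _ := by simp only [mul_assoc]
    rw [hf, mul_sub, sub_mul, e, e]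
    exact hbr _ hY _ hZ
  · rwa [hf, mul_vecMulVec, vecMulVec_mul, mulVec_mulVec, vecMul_vecMul, hPQ, one_mulVec,
      vecMul_one]
  · by_contra h
    rw [not_or, not_not, not_not, vecMulVec_apply, vecMulVec_apply] at h
    have a0 := (mul_eq_zero.1 h.1).resolve_right hb
    have a1 := (mul_eq_zero.1 h.2).resolve_right hb
    have e : (b ᵥ* P) ⬝ᵥ (Q *ᵥ a) = 0 := by
      rwa [dot_FullC, mulVec_mulVec, hPQ, one_mulVec]
    rw [vec3_dotProduct, a0, a1, mul_zero, mul_zero, zero_add, zero_add] at e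
    have a2 := (mul_eq_zero.1 e).resolve_left hb
    have e0 : Q *ᵥ a = 0 := by
      ext i
      fin_cases i
      exacts [a0, a1, a2]
    refine ha ?_
    rw [← one_mulVec a, ← hPQ, ← mulVec_mulVec, e0, mulVec_zero]

theorem conj_FullC (p r : Fin 3 → C3) (i j : Fin 3) :
    (Matrix.of p)ᵀ * single i j (1 : ℂ) * Matrix.of r = vecMulVec (p i) (r j) := by
  rw [single_eq_single_vecMulVec_single, mul_vecMulVec, vecMulVec_mul, mulVec_single_one,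
    single_one_vecMul]
  rfl

theorem ad_FullC {H : Subgroup G3} {L : Submodule ℂ CM} (hL : LieC H L) {h : G3} (hh : h ∈ H)
    {c μ : C3} (hd : μ ⬝ᵥ c = 0) (hm : vecMulVec c μ ∈ L) :
    vecMulVec (cm h *ᵥ c) (μ ᵥ* cm h⁻¹) ∈ L ∧ (μ ᵥ* cm h⁻¹) ⬝ᵥ (cm h *ᵥ c) = 0 := by
  refine ⟨?_, by rwa [dot_FullC, cm_inv_FullC]⟩
  have := hL.ad h hh _ hm
  rwa [mul_vecMulVec, vecMulVec_mul] at this

theorem fullC_stmt (hS : SpanCStmt) (hW : WtCStmt) : FullCStmt := by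
  intro H L c μ hL hI hc hμ hd hm η hη
  suffices h : ∃ ν w : C3, vecMulVec c ν ∈ L ∧ ν ⬝ᵥ c = 0 ∧ μ ⬝ᵥ w = 0 ∧ ν ⬝ᵥ w ≠ 0 by
    obtain ⟨ν, w, h1, h2, h3, h4⟩ := h
    obtain ⟨a, b, rfl⟩ := two_FullC hc hμ hd h2 hη h3 h4
    rw [vecMulVec_add, vecMulVec_smul, vecMulVec_smul]
    exact L.add_mem (L.smul_mem _ hm) (L.smul_mem _ h1)
  obtain ⟨h, hh, hα⟩ := hS H c μ hI hc hμ
  obtain ⟨hm2, hd2⟩ := ad_FullC hL hh hd hm
  have hμ2 : μ ᵥ* cm h⁻¹ ≠ 0 := by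
    intro e
    refine hμ ?_
    rw [← vecMul_one μ, ← map_one cm, ← inv_mul_cancel h, map_mul, ← vecMul_vecMul, e, zero_vecMul]
  generalize cm h *ᵥ c = c2 at hα hm2 hd2
  generalize μ ᵥ* cm h⁻¹ = μ2 at hm2 hd2 hμ2
  by_cases hβ : μ2 ⬝ᵥ c = 0
  · have e := hL.br _ hm _ hm2
    rw [vecMulVec_mul_vecMulVec, vecMulVec_mul_vecMulVec, hβ, zero_smul, vecMulVec_zero, sub_zero,
      vecMulVec_smul] at e
    have e' := L.smul_mem (μ ⬝ᵥ c2)⁻¹ e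
    rw [inv_smul_smul₀ hα] at e'
    by_cases hw : μ ⨯₃ μ2 = 0
    · exfalso
      have k := cross_cross_eq_smul_sub_smul μ μ2 c2
      rw [hw, hd2, map_zero, LinearMap.zero_apply, zero_smul, sub_zero, eq_comm,
        smul_eq_zero] at k
      exact k.elim hα hμ2
    · obtain ⟨x, k⟩ := ex_FullC hw
      refine ⟨μ2, x ⨯₃ μ, e', hβ, dot_cross_self _ _, ?_⟩
      rwa [triple_product_permutation]
  · obtain ⟨w, hw⟩ : ∃ w : C3, w = (-((μ2 ⬝ᵥ c) * (μ ⬝ᵥ c2)))⁻¹ • (μ ⨯₃ μ2) := ⟨_, rfl⟩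
    have w1 : μ ⬝ᵥ w = 0 := by rw [hw, dotProduct_smul, dot_self_cross, smul_zero]
    have w2 : μ2 ⬝ᵥ w = 0 := by rw [hw, dotProduct_smul, dot_cross_self, smul_zero]
    have w3 : (c ⨯₃ c2) ⬝ᵥ w = 1 := by
      rw [hw, dotProduct_smul, cross_dot_cross, dotProduct_comm c μ, hd, dotProduct_comm c μ2,
        dotProduct_comm c2 μ, zero_mul, zero_sub, smul_eq_mul]
      exact inv_mul_cancel₀ (neg_ne_zero.2 (mul_ne_zero hβ hα))
    have w4 : (c ⨯₃ c2) ⬝ᵥ c = 0 := by rw [dotProduct_comm, dot_self_cross]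
    have w5 : (c ⨯₃ c2) ⬝ᵥ c2 = 0 := by rw [dotProduct_comm, dot_cross_self]
    have w0 : w ≠ 0 := by
      rintro rfl
      simp at w3
    obtain ⟨g, hg, hγ⟩ := hS H w μ hI w0 hμ
    obtain ⟨hm3, hd3⟩ := ad_FullC hL (H.inv_mem hg) hd hm
    rw [inv_inv] at hm3 hd3
    have key := core_FullC hW L hL.br (Matrix.of ![c, c2, w])ᵀ
      (Matrix.of ![(μ2 ⬝ᵥ c)⁻¹ • μ2, (μ ⬝ᵥ c2)⁻¹ • μ, c ⨯₃ c2]) ?_ ?_ ?_ _ _ hm3
      (cm_ne_FullC _ hc) hd3 ?_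
    · rw [conj_FullC] at key
      exact ⟨c ⨯₃ c2, w, key, w4, w1, by rw [w3]; exact one_ne_zero⟩
    · ext i j
      change (![(μ2 ⬝ᵥ c)⁻¹ • μ2, (μ ⬝ᵥ c2)⁻¹ • μ, c ⨯₃ c2] i) ⬝ᵥ (![c, c2, w] j) = _
      fin_cases i <;> fin_cases j <;> simp [hd, hd2, w1, w2, w3, w4, w5, hα, hβ]
    · rw [conj_FullC]
      change vecMulVec c ((μ ⬝ᵥ c2)⁻¹ • μ) ∈ L
      rw [vecMulVec_smul]
      exact L.smul_mem _ hm
    · rw [conj_FullC]
      change vecMulVec c2 ((μ2 ⬝ᵥ c)⁻¹ • μ2) ∈ L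
      rw [vecMulVec_smul]
      exact L.smul_mem _ hm2
    · change (μ ᵥ* cm g) ⬝ᵥ w ≠ 0
      rwa [dot_FullC]

/-- A bracket closed space with all off diagonal units contains every traceless matrix. -/
theorem traceless_FullC (L : Submodule ℂ CM) (br : ∀ Y ∈ L, ∀ Z ∈ L, Y * Z - Z * Y ∈ L)
    (hE : ∀ a b : Fin 3, a ≠ b → single a b (1 : ℂ) ∈ L) (Y : CM) (hY : trace Y = 0) : Y ∈ L := by
  have h01 := hE 0 1 (by decide)
  have h02 := hE 0 2 (by decide)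
  have h10 := hE 1 0 (by decide)
  have h12 := hE 1 2 (by decide)
  have h20 := hE 2 0 (by decide)
  have h21 := hE 2 1 (by decide)
  have d0 := br _ h01 _ h10
  have d1 := br _ h12 _ h21
  rw [single_mul_single_same, single_mul_single_same] at d0 d1
  rw [trace_fin_three] at hY
  have e : Y = Y 0 1 • single 0 1 (1 : ℂ) + Y 0 2 • single 0 2 (1 : ℂ) +
      Y 1 0 • single 1 0 (1 : ℂ) + Y 1 2 • single 1 2 (1 : ℂ) + Y 2 0 • single 2 0 (1 : ℂ) +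
      Y 2 1 • single 2 1 (1 : ℂ) +
      Y 0 0 • (single 0 0 ((1 : ℂ) * 1) - single 1 1 ((1 : ℂ) * 1)) +
      (Y 0 0 + Y 1 1) • (single 1 1 ((1 : ℂ) * 1) - single 2 2 ((1 : ℂ) * 1)) := by
    ext i j
    fin_cases i <;> fin_cases j <;> simp [single]
    linear_combination hY
  rw [e]
  refine L.add_mem (L.add_mem (L.add_mem (L.add_mem (L.add_mem (L.add_mem (L.add_mem ?_ ?_) ?_)
    ?_) ?_) ?_) ?_) ?_ <;> apply L.smul_mem <;> assumption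

/-- Three independent full centres give all off diagonal units. -/
theorem three_FullC (L : Submodule ℂ CM) (br : ∀ Y ∈ L, ∀ Z ∈ L, Y * Z - Z * Y ∈ L) (M : CM)
    (hM : M.det ≠ 0) (hc : ∀ (a : Fin 3) (η : C3), η ⬝ᵥ M a = 0 → vecMulVec (M a) η ∈ L)
    (Y : CM) (hY : trace Y = 0) : Y ∈ L := by
  have hu : IsUnit (Mᵀ).det := by rw [det_transpose]; exact isUnit_iff_ne_zero.2 hM
  obtain ⟨Q, hPQ, hQP⟩ : ∃ Q : CM, Mᵀ * Q = 1 ∧ Q * Mᵀ = 1 :=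
    ⟨(Mᵀ)⁻¹, mul_nonsing_inv _ hu, nonsing_inv_mul _ hu⟩
  let L' : Submodule ℂ CM :=
    { carrier := {Z | Mᵀ * Z * Q ∈ L}
      add_mem' := fun {a b} ha hb => by
        show Mᵀ * (a + b) * Q ∈ L
        rw [Matrix.mul_add, Matrix.add_mul]
        exact L.add_mem ha hb
      zero_mem' := by
        show Mᵀ * 0 * Q ∈ L
        rw [Matrix.mul_zero, Matrix.zero_mul]
        exact L.zero_mem
      smul_mem' := fun r a ha => by
        show Mᵀ * (r • a) * Q ∈ L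
        rw [Matrix.mul_smul, Matrix.smul_mul]
        exact L.smul_mem r ha }
  have key : ∀ A B : CM, Mᵀ * A * Q * (Mᵀ * B * Q) = Mᵀ * (A * B) * Q := fun A B => by
    calc _ = Mᵀ * A * (Q * Mᵀ) * B * Q := by simp only [Matrix.mul_assoc]
      _ = _ := by rw [hQP]; simp only [Matrix.mul_assoc, Matrix.mul_one]
  have h : Q * Y * Mᵀ ∈ L' := by
    refine traceless_FullC L' (fun A hA B hB => ?_) (fun a b hab => ?_) _ ?_
    · have := br _ hA _ hB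
      rw [key, key, ← Matrix.sub_mul, ← Matrix.mul_sub] at this
      exact this
    · show Mᵀ * single a b (1 : ℂ) * Q ∈ L
      have e : Mᵀ * single a b (1 : ℂ) * Q = vecMulVec (M a) (Q b) := by
        ext i j
        fin_cases a <;> fin_cases b <;>
          simp [Matrix.mul_apply, Fin.sum_univ_three, single, vecMulVec_apply]
      rw [e]
      refine hc a _ ?_
      have := congrFun (congrFun hQP b) a
      rw [one_apply_ne hab.symm] at this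
      exact this
    · rw [trace_mul_cycle, hPQ, Matrix.one_mul, hY]
  have h' : Mᵀ * (Q * Y * Mᵀ) * Q ∈ L := h
  have e : Mᵀ * (Q * Y * Mᵀ) * Q = Y := by
    calc _ = Mᵀ * Q * Y * (Mᵀ * Q) := by simp only [Matrix.mul_assoc]
      _ = _ := by rw [hPQ, Matrix.one_mul, Matrix.mul_one]
  rwa [e] at h'

/-- Full centres are moved by the group. -/
theorem move_FullC {H : Subgroup G3} {L : Submodule ℂ CM} (hL : LieC H L) {c : C3}
    (hc : ∀ η : C3, η ⬝ᵥ c = 0 → vecMulVec c η ∈ L) {h : G3} (hh : h ∈ H) (η : C3)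
    (hη : η ⬝ᵥ (cm h *ᵥ c) = 0) : vecMulVec (cm h *ᵥ c) η ∈ L := by
  have h1 := hL.ad h hh _ (hc (η ᵥ* cm h) (by rw [dot_FullC]; exact hη))
  rwa [mul_vecMulVec, vecMulVec_mul, vecMul_vecMul, ← map_mul, mul_inv_cancel, map_one,
    vecMul_one] at h1

theorem r1C_stmt (hS : SpanCStmt) (hF : FullCStmt) : R1CStmt := by
  intro H L c μ hL hI hc hμ hμc hm i j hij
  have h0 := hF H L c μ hL hI hc hμ hμc hm
  obtain ⟨h, hh, h1⟩ := (hI c hc).1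
  obtain ⟨h', hh', h2⟩ := hS H c _ hI hc h1
  rw [dotProduct_comm, triple_product_eq_det] at h2
  refine three_FullC L hL.br (of ![cm h' *ᵥ c, cm h *ᵥ c, c]) h2 (fun a => ?_) _
    (trace_single_eq_of_ne _ _ _ hij)
  fin_cases a
  · exact move_FullC hL h0 hh'
  · exact move_FullC hL h0 hh
  · exact h0

end Pool.Agent.MP_5045a8_al.HX

end
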