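import Pool.Agent.Mg.F5045a8a.Gd4655a

section

namespace Pool.Agent.MP_5045a8_al.HX

open Matrix O FT

theorem shape_Hex {i j k : Fin 3} (hij : i ≠ j) (hjk : j ≠ k) (hik : i ≠ k) {N : QM}
    (h1 : ∀ m, N m i = 0) (h2 : ∀ m, N k m = 0) (h3 : N ^ 3 = 0) (h4 : N ^ 2 ≠ 0) :
    ∃ a c d : ℚ, a ≠ 0 ∧ d ≠ 0 ∧ N = single i j a + single i k c + single j k d ∧
      N ^ 2 = single i k (a * d) := by
  have hm : ∀ m, m = i ∨ m = j ∨ m = k := by
    intro m
    omega
  have hs : ∀ f : Fin 3 → ℚ, ∑ m, f m = f i + f j + f k := by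
    intro f
    have e : (Finset.univ : Finset (Fin 3)) = {i, j, k} := by
      ext m
      simpa using hm m
    rw [e, Finset.sum_insert (by simp [hij, hik]), Finset.sum_pair hjk, add_assoc]
  have h5 : N j j = 0 := by
    have := congrFun (congrFun h3 j) j
    simp only [pow_succ, pow_zero, one_mul, mul_apply, hs, h1, h2, zero_mul, mul_zero, add_zero,
      zero_add, Matrix.zero_apply] at this
    simpa using this
  have h6 : N ^ 2 = single i k (N i j * N j k) := by
    ext x y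
    rw [sq, mul_apply, hs]
    rcases hm x with rfl | rfl | rfl <;> rcases hm y with rfl | rfl | rfl <;>
      simp [h1, h2, h5, hij, hjk, hik, hij.symm, hjk.symm, hik.symm]
  refine ⟨N i j, N i k, N j k, fun h => h4 (by simp [h6, h]), fun h => h4 (by simp [h6, h]), ?_, h6⟩
  ext x y
  rcases hm x with rfl | rfl | rfl <;> rcases hm y with rfl | rfl | rfl <;>
    simp [h1, h2, h5, hij, hjk, hik, hij.symm, hjk.symm, hik.symm]

/-- The rational vector of an integer vector. -/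
def qv_Hex (x : V3) : Q3 := fun i => (x i : ℚ)

theorem qm_Hex (g : G3) : qm g = (Int.castRingHom ℚ).mapMatrix (mat g) := rfl

theorem inj_Hex : Function.Injective ((Int.castRingHom ℚ).mapMatrix : M3 → QM) :=
  fun _ _ e => Matrix.ext fun i j => Int.cast_injective (α := ℚ) (congrFun (congrFun e i) j)

theorem clear_Hex {K : Subgroup G3} {g : G3} (hg : g ∈ K) {p f f' : V3} (h : f ⬝ᵥ p = 0)
    (h' : f' ⬝ᵥ p = 0) {x y : ℚ}
    (e : qm g = 1 + vecMulVec (qv_Hex p) (x • qv_Hex f + y • qv_Hex f')) :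
    ∃ (n : ℚ) (A B : ℤ), n ≠ 0 ∧ (A : ℚ) = n * x ∧ (B : ℚ) = n * y ∧
      Mem K (tv p (A • f + B • f')) := by
  have d1 : ∀ {f : V3}, f ⬝ᵥ p = 0 → qv_Hex f ⬝ᵥ qv_Hex p = 0 := fun {f} h => by
    simp only [dotProduct, qv_Hex] at h ⊢
    exact_mod_cast h
  have e1 : ∀ n : ℕ, qm (g ^ n) =
      1 + (n : ℚ) • vecMulVec (qv_Hex p) (x • qv_Hex f + y • qv_Hex f') := by
    intro n
    induction n with
    | zero => simp
    | succ n ih =>
      rw [pow_succ, map_mul, ih, e, add_mul, one_mul, mul_add, mul_one, smul_mul_assoc,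
        vecMulVec_mul_vecMulVec, add_dotProduct, smul_dotProduct, smul_dotProduct, d1 h, d1 h']
      simp only [smul_zero, add_zero, zero_smul, vecMulVec_zero, Nat.cast_succ, add_smul, one_smul]
      abel
  have a1 : ((x.num * y.den : ℤ) : ℚ) = (x.den * y.den : ℕ) * x := by
    push_cast
    rw [← Rat.mul_den_eq_num x]
    ring
  have a2 : ((y.num * x.den : ℤ) : ℚ) = (x.den * y.den : ℕ) * y := by
    push_cast
    rw [← Rat.mul_den_eq_num y]
    ring
  refine ⟨(x.den * y.den : ℕ), _, _, by exact_mod_cast mul_ne_zero x.den_nz y.den_nz, a1, a2,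
    g ^ (x.den * y.den), K.pow_mem hg _, inj_Hex ?_⟩
  rw [← qm_Hex, e1, tv, map_add, map_one]
  generalize x.num * y.den = A at a1
  generalize y.num * x.den = B at a2
  congr 1
  ext i j
  simp only [Matrix.smul_apply, vecMulVec_apply, qv_Hex, Pi.add_apply, Pi.smul_apply, smul_eq_mul,
    RingHom.mapMatrix_apply, map_apply, eq_intCast, Int.cast_mul, Int.cast_add, a1, a2]
  ring

theorem hex_stmt (hR : RegStmt) (h : HexQStmt) : HexStmt := by
  intro K p ψ hdet hfl
  obtain ⟨P, hP⟩ : ∃ P : QM, P = (Int.castRingHom ℚ).mapMatrix (Matrix.of ψ) := ⟨_, rfl⟩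
  have hPa : ∀ m x, P m x = (ψ m x : ℚ) := fun m x => by rw [hP]; rfl
  have hu : IsUnit P.det := by
    rw [hP, ← RingHom.map_det, isUnit_iff_ne_zero, eq_intCast]
    exact_mod_cast hdet
  have hd : ∀ i m, i ≠ m → ψ m ⬝ᵥ p i = 0 := fun i m him => by
    obtain ⟨u, -, hu⟩ := hfl i m him
    exact hR.dot hu
  have hp0 : ∀ i, p i ≠ 0 := fun i => by
    obtain ⟨m, hm⟩ := exists_ne i
    obtain ⟨u, -, hu⟩ := hfl i m hm.symm
    exact hu.2.2.1
  have hv : ∀ i, P *ᵥ qv_Hex (p i) = Pi.single i ((ψ i ⬝ᵥ p i : ℤ) : ℚ) := fun i => by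
    funext m
    have : (P *ᵥ qv_Hex (p i)) m = ((ψ m ⬝ᵥ p i : ℤ) : ℚ) := by
      simp [mulVec, dotProduct, hPa, qv_Hex]
    rw [this]
    by_cases hm : m = i
    · rw [hm, Pi.single_eq_same]
    · rw [Pi.single_eq_of_ne hm, hd i m (Ne.symm hm), Int.cast_zero]
  have hc : ∀ i, ((ψ i ⬝ᵥ p i : ℤ) : ℚ) ≠ 0 := fun i h0 => hp0 i (by
    have h1 := hv i
    rw [h0, Pi.single_zero] at h1
    have h2 := eq_zero_of_mulVec_eq_zero hu.ne_zero h1
    funext x
    exact Int.cast_eq_zero.1 (congrFun h2 x))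
  let S : Submonoid QM :=
    { carrier := {A | ∃ g ∈ K, A * P = P * qm g}
      one_mem' := ⟨1, K.one_mem, by simp⟩
      mul_mem' := by
        rintro A B ⟨g, hg, e⟩ ⟨g', hg', e'⟩
        exact ⟨g * g', K.mul_mem hg hg', by
          rw [mul_assoc, e', ← mul_assoc, e, map_mul, mul_assoc]⟩ }
  obtain ⟨a, b, a', b', hab, h1, h2⟩ := h S (by
    intro i j k hij hjk hik
    obtain ⟨u, huK, r⟩ := hfl i k hik
    obtain ⟨N, hN⟩ : ∃ N : QM, N * P = P * (qm u - 1) :=
      ⟨P * (qm u - 1) * P⁻¹, nonsing_inv_mul_cancel_right P _ hu⟩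
    have hNp : ∀ n : ℕ, N ^ n * P = P * (qm u - 1) ^ n := fun n =>
      (SemiconjBy.pow_right (a := P) (x := qm u - 1) (y := N) hN.symm n).symm
    have hq : ∀ n : ℕ, (qm u - 1) ^ n = (Int.castRingHom ℚ).mapMatrix ((mat u - 1) ^ n) :=
      fun n => by rw [map_pow, map_sub, map_one, qm_Hex]
    have can : ∀ X Y : QM, X * P = Y * P → X = Y := fun X Y e => by
      rw [← mul_nonsing_inv_cancel_right P X hu, e, mul_nonsing_inv_cancel_right P Y hu]
    obtain ⟨a, c, d, ha, hd', e1, e2⟩ := shape_Hex hij hjk hik (N := N) (fun m => by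
        have b1 : qm u *ᵥ qv_Hex (p i) = qv_Hex (p i) := by
          funext x
          have := congrFun r.2.2.2.2.1 x
          simp only [mulVec, dotProduct, qv_Hex, qm_apply, mat] at this ⊢
          exact_mod_cast this
        have b2 := congrFun (congrArg (· *ᵥ qv_Hex (p i)) hN) m
        simp only [← mulVec_mulVec, sub_mulVec, one_mulVec, b1, sub_self, mulVec_zero, hv,
          mulVec_single, Pi.zero_apply] at b2
        simpa [hc i] using (mul_eq_zero.1 b2).resolve_right (hc i))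
      (fun m => by
        have b1 : ∀ x, (N * P) k x = 0 := fun x => by
          have := congrFun r.2.2.2.2.2 x
          rw [hN, mul_sub, mul_one, Matrix.sub_apply, sub_eq_zero]
          simp only [vecMul, mul_apply, dotProduct, hPa, qm_apply, mat] at this ⊢
          exact_mod_cast this
        rw [← mul_nonsing_inv_cancel_right P N hu, mul_apply]
        simp [b1])
      (can _ _ (by rw [hNp, hq, r.1, map_zero, mul_zero, zero_mul]))
      (fun h0 => r.2.1 (inj_Hex (by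
        have b1 := hNp 2
        rw [h0, zero_mul, hq] at b1
        rw [map_zero, ← nonsing_inv_mul_cancel_left P (RingHom.mapMatrix _ _) hu, ← b1, mul_zero])))
    refine ⟨a, c, d, ha, hd', fun n => ⟨u ^ n, K.zpow_mem huK n, ?_⟩⟩
    have b1 := congrArg ((Int.castRingHom ℚ).mapMatrix : M3 → QM) (hR.pow r.1 n)
    simp only [map_add, map_zsmul, map_one, ← hq, map_sub, ← qm_Hex] at b1
    have b2 : qm (u ^ n) = 1 + (n : ℚ) • (qm u - 1) + ((n : ℚ) * (n - 1) / 2) • (qm u - 1) ^ 2 := by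
      ext x y
      have := congrFun (congrFun b1 x) y
      simp only [Matrix.add_apply, Matrix.smul_apply] at this ⊢
      simp only [smul_eq_mul, zsmul_eq_mul] at this ⊢
      push_cast at this
      linarith
    have b3 : hz i j k (n * a) (n * c + n * (n - 1) / 2 * a * d) (n * d) =
        1 + (n : ℚ) • N + ((n : ℚ) * (n - 1) / 2) • N ^ 2 := by
      rw [e2, e1, hz, single_add, mul_assoc _ a d]
      simp only [smul_add, smul_single, smul_eq_mul]
      abel
    rw [b2, b3]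
    simp only [add_mul, mul_add, smul_mul_assoc, mul_smul_comm, hN, hNp, one_mul, mul_one])
  have key : ∀ a b : ℚ, 1 + single 0 1 a + single 0 2 b ∈ S →
      ∃ (n : ℚ) (A B : ℤ), n ≠ 0 ∧ (A : ℚ) = n * (a / (ψ 0 ⬝ᵥ p 0 : ℤ)) ∧
        (B : ℚ) = n * (b / (ψ 0 ⬝ᵥ p 0 : ℤ)) ∧ Mem K (tv (p 0) (A • ψ 1 + B • ψ 2)) := by
    rintro a b ⟨g, hg, e⟩
    refine clear_Hex hg (hd 0 1 (by decide)) (hd 0 2 (by decide)) ?_
    rw [← nonsing_inv_mul_cancel_left P (qm g) hu, ← e,
      ← nonsing_inv_mul_cancel_left P (1 + vecMulVec _ _) hu, mul_add, mul_one, mul_vecMulVec, hv]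
    congr 1
    have := hc 0
    generalize ((ψ 0 ⬝ᵥ p 0 : ℤ) : ℚ) = c at this
    ext x y
    fin_cases x <;> simp [add_mul, vecMulVec_apply, hPa, qv_Hex]
    field_simp
    ring
  obtain ⟨n, A, B, hn, hA, hB, m1⟩ := key a b h1
  obtain ⟨n', A', B', hn', hA', hB', m2⟩ := key a' b' h2
  refine lat_of_two m1.tr_tv m2.tr_tv (hp0 0) fun e => ?_
  have e1 : cr (A • ψ 1 + B • ψ 2) (A' • ψ 1 + B' • ψ 2) = (A * B' - A' * B) • cr (ψ 1) (ψ 2) := by
    simp only [ext3, cr0, cr1, cr2, Pi.add_apply, Pi.smul_apply, smul_eq_mul]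
    refine ⟨?_, ?_, ?_⟩ <;> ring
  rw [e1, smul_eq_zero] at e
  rcases e with e | e
  · have e2 : (A : ℚ) * B' - A' * B = 0 := by exact_mod_cast e
    rw [hA, hB, hA', hB'] at e2
    have := hc 0
    have e3 : n * n' * (a * b' - a' * b) = 0 := by
      field_simp at e2
      linear_combination e2
    exact hab (sub_eq_zero.1 ((mul_eq_zero.1 e3).resolve_left (mul_ne_zero hn hn')))
  · apply hdet
    have e2 : (Matrix.of ψ).det = ψ 0 ⬝ᵥ cr (ψ 1) (ψ 2) := by
      simp only [det_fin_three, of_apply, dot3, cr0, cr1, cr2]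
      ring
    rw [e2, e, dotProduct_zero]

end Pool.Agent.MP_5045a8_al.HX

end

section

namespace Pool.Agent.MP_5045a8_al.HX

open Matrix O FT

theorem basis_R2 {Y : QM} (h3 : Y ^ 3 = 0) (h2 : Y ^ 2 ≠ 0) :
    ∃ P Q : QM, P * Q = 1 ∧ Q * P = 1 ∧ Y * P = P * X0 := by
  obtain ⟨e, he⟩ : ∃ e : Q3, Y ^ 2 *ᵥ e ≠ 0 := by
    by_contra hn
    push Not at hn
    exact h2 (Matrix.ext_of_mulVec_single fun i => by rw [hn, zero_mulVec])
  set P : QM := (Matrix.of ![Y ^ 2 *ᵥ e, Y *ᵥ e, e])ᵀ with hP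
  have hv : ∀ v : Q3, P *ᵥ v = v 0 • (Y ^ 2 *ᵥ e) + v 1 • (Y *ᵥ e) + v 2 • e := by
    intro v
    ext i
    simp [hP, mulVec, dotProduct, Fin.sum_univ_three, mul_comm]
  have a1 : Y *ᵥ (Y *ᵥ e) = Y ^ 2 *ᵥ e := by rw [mulVec_mulVec, sq]
  have a2 : Y *ᵥ (Y ^ 2 *ᵥ e) = 0 := by rw [mulVec_mulVec, ← pow_succ', h3, zero_mulVec]
  have hY : ∀ v : Q3, Y *ᵥ (P *ᵥ v) = v 1 • (Y ^ 2 *ᵥ e) + v 2 • (Y *ᵥ e) := by
    intro v
    rw [hv, mulVec_add, mulVec_add, mulVec_smul, mulVec_smul, mulVec_smul, a1, a2, smul_zero,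
      zero_add]
  have hdet : P.det ≠ 0 := by
    intro h0
    obtain ⟨v, hv0, hPv⟩ := Matrix.exists_mulVec_eq_zero_iff.2 h0
    have b1 := hY v
    rw [hPv, mulVec_zero] at b1
    have b2 := congrArg (fun x => Y *ᵥ x) b1
    simp only [mulVec_zero, mulVec_add, mulVec_smul, a1, a2, smul_zero, zero_add] at b2
    have v2 : v 2 = 0 := (smul_eq_zero.1 b2.symm).resolve_right he
    rw [v2, zero_smul, add_zero] at b1
    have v1 : v 1 = 0 := (smul_eq_zero.1 b1.symm).resolve_right he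
    rw [hv, v1, v2, zero_smul, zero_smul, add_zero, add_zero] at hPv
    have v0 : v 0 = 0 := (smul_eq_zero.1 hPv).resolve_right he
    exact hv0 (funext fun i => by fin_cases i <;> assumption)
  refine ⟨P, P⁻¹, mul_nonsing_inv _ hdet.isUnit, nonsing_inv_mul _ hdet.isUnit, ?_⟩
  refine Matrix.ext_of_mulVec_single fun i => ?_
  rw [← mulVec_mulVec, ← mulVec_mulVec, hY, hv]
  fin_cases i <;> simp [X0]

theorem form_R2 {B : QM} {κ : ℚ} (hs : Bᵀ = B) (h1 : X0ᵀ * B + B * X0 = 0)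
    (h2 : (Dk κ)ᵀ * B + B * Dk κ = 0) (hd : B.det = 1) : B = Bk κ := by
  have s : ∀ i j, B j i = B i j := fun i j => congrFun (congrFun hs i) j
  have x : ∀ i j, (X0ᵀ * B + B * X0) i j = 0 := fun i j => by rw [h1]; rfl
  have y : ∀ i j, ((Dk κ)ᵀ * B + B * Dk κ) i j = 0 := fun i j => by rw [h2]; rfl
  have x01 := x 0 1
  have x02 := x 0 2
  have x12 := x 1 2
  have x22 := x 2 2
  have y22 := y 2 2
  simp [X0, Dk, Matrix.mul_apply, Fin.sum_univ_three] at x01 x02 x12 x22 y22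
  have s01 := s 0 1
  have s02 := s 0 2
  have s12 := s 1 2
  have e11 : B 1 1 = -B 0 2 := by linarith
  have e12 : B 1 2 = 0 := by linarith
  have e22 : B 2 2 = κ * B 0 2 := by rw [s02] at y22; linarith
  rw [det_fin_three, s01, s02, s12, x01, x02, e11, e12, e22] at hd
  have c : B 0 2 = 1 := by
    have : (B 0 2 - 1) * (B 0 2 ^ 2 + B 0 2 + 1) = 0 := by linear_combination hd
    have h3 : B 0 2 ^ 2 + B 0 2 + 1 ≠ 0 := by nlinarith [sq_nonneg (2 * B 0 2 + 1)]
    linarith [(mul_eq_zero.1 this).resolve_right h3]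
  ext i j
  fin_cases i <;> fin_cases j <;> simp [Bk, s01, s02, s12, x01, x02, e11, e12, e22, c]

theorem int_R2 {ι : Type} [Finite ι] (f : ι → ℚ) :
    ∃ n : ℤ, n ≠ 0 ∧ ∃ z : ι → ℤ, ∀ i, (z i : ℚ) = n * f i := by
  obtain ⟨b, hb⟩ := IsLocalization.exist_integer_multiples_of_finite (nonZeroDivisors ℤ) f
  choose z hz using hb
  exact ⟨b, nonZeroDivisors.coe_ne_zero b, z, fun i => by simpa using hz i⟩

theorem cast_R2 {BQ : QM} {p : Q3} (H : Subgroup G3) (hs : BQᵀ = BQ) (hd : BQ.det ≠ 0)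
    (hp : p ≠ 0) (hi : p ⬝ᵥ BQ *ᵥ p = 0) (hH : ∀ h ∈ H, (qm h)ᵀ * BQ * qm h = BQ) :
    ∃ B : M3, Iso B ∧ H ≤ SOq B := by
  obtain ⟨n, hn, z, hz⟩ := int_R2 fun ij : Fin 3 × Fin 3 => BQ ij.1 ij.2
  obtain ⟨m, hm, q, hq⟩ := int_R2 p
  set B : M3 := Matrix.of fun i j => z (i, j) with hB
  have e : B.map (Int.castRingHom ℚ) = (n : ℚ) • BQ := by
    ext i j; simpa [hB] using hz (i, j)
  have inj : ∀ A A' : M3, A.map (Int.castRingHom ℚ) = A'.map (Int.castRingHom ℚ) → A = A' :=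
    fun A A' h => Matrix.ext fun i j => by
      have := congrFun (congrFun h i) j
      simpa using this
  refine ⟨B, ⟨inj _ _ ?_, fun h0 => ?_, q, fun h0 => hp ?_, ?_⟩, fun h hh => inj _ _ ?_⟩
  · rw [transpose_map, e, transpose_smul, hs]
  · have := (Int.castRingHom ℚ).map_det B
    rw [h0, map_zero, RingHom.mapMatrix_apply, e, det_smul] at this
    exact mul_ne_zero (pow_ne_zero _ (by exact_mod_cast hn)) hd this.symm
  · ext i
    have := hq i
    rw [h0] at this
    have hm' : (m : ℚ) ≠ 0 := by exact_mod_cast hm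
    simpa [hm'] using this.symm
  · have : ((q ⬝ᵥ B *ᵥ q : ℤ) : ℚ) = n * m ^ 2 * (p ⬝ᵥ BQ *ᵥ p) := by
      simp only [dotProduct, mulVec, Fin.sum_univ_three, hB, Matrix.of_apply]
      push_cast
      simp only [hz, hq]
      ring
    rw [hi, mul_zero] at this
    exact_mod_cast this
  · rw [Matrix.map_mul, Matrix.map_mul, transpose_map, e]
    change (qm h)ᵀ * ((n : ℚ) • BQ) * qm h = _
    rw [Matrix.mul_smul, Matrix.smul_mul, hH h hh]

theorem r2_stmt (hS : SpanStmt) (hO : SoStmt) : R2Stmt := by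
  intro H L Y hL hI hY h3 h2
  obtain ⟨P, Q, hPQ, hQP, hX⟩ := basis_R2 h3 fun h0 => h2 (h0 ▸ L.zero_mem)
  have c1 : ∀ Z : QM, Q * (P * Z) = Z := fun Z => by rw [← Matrix.mul_assoc, hQP, Matrix.one_mul]
  have c2 : ∀ Z : QM, P * (Q * Z) = Z := fun Z => by rw [← Matrix.mul_assoc, hPQ, Matrix.one_mul]
  set L' : Submodule ℚ QM := L.comap (LinearMap.mulLeftRight ℚ (P, Q)) with hL'
  have mem : ∀ Z, Z ∈ L' ↔ P * Z * Q ∈ L := fun Z => by
    rw [hL', Submodule.mem_comap, LinearMap.mulLeftRight_apply]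
  have hX0 : P * X0 * Q = Y := by rw [← hX, Matrix.mul_assoc, hPQ, Matrix.mul_one]
  have m0 : X0 ∈ L' := (mem _).2 (hX0 ▸ hY)
  have ad : ∀ h ∈ H, ∀ Z ∈ L', (Q * qm h * P) * Z * (Q * qm h⁻¹ * P) ∈ L' := by
    intro h hh Z hZ
    have := hL.ad h hh _ ((mem _).1 hZ)
    rw [mem]
    simpa only [Matrix.mul_assoc, c1, c2, hPQ, Matrix.mul_one] using this
  have inv : ∀ h : G3, (Q * qm h⁻¹ * P) * (Q * qm h * P) = 1 := fun h => by
    simp only [Matrix.mul_assoc, c2]
    rw [← Matrix.mul_assoc (qm h⁻¹), ← map_mul, inv_mul_cancel, map_one, Matrix.one_mul, hQP]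
  have p0 : P *ᵥ Pi.single 0 1 ≠ 0 := fun h0 => by
    have := congrArg (fun x => (Q *ᵥ x) 0) h0
    simp only [mulVec_mulVec, hQP] at this
    simp at this
  rcases hO L' (fun A hA B hB => by
      have := hL.br _ ((mem _).1 hA) _ ((mem _).1 hB)
      rw [mem]
      simpa only [Matrix.mul_assoc, c1, Matrix.mul_sub, Matrix.sub_mul] using this)
    (fun A hA => by
      have := hL.tr0 _ ((mem _).1 hA)
      rwa [trace_mul_comm, c1] at this) m0
    (fun h0 => h2 (by
      have e : (single 0 2 1 : QM) = X0 * X0 := by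
        ext i j; fin_cases i <;> fin_cases j <;> simp [X0, Matrix.mul_apply, Fin.sum_univ_three]
      have := (mem _).1 h0
      rw [e] at this
      rw [← hX0, sq]
      simpa only [Matrix.mul_assoc, c1] using this)) with hl | ⟨κ, hκ, hB⟩
  · exfalso
    obtain ⟨h, hh, hc⟩ := (hS H _ _ hI p0 p0).2
    have h1 := hl _ (ad h⁻¹ (H.inv_mem hh) _ m0)
    rw [inv_inv] at h1
    have h4 := inv h⁻¹
    rw [inv_inv] at h4
    set g := Q * qm h * P with hg
    set Z := Q * qm h⁻¹ * P * X0 * g with hZ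
    have h5 : g * Z = X0 * g := by
      rw [hZ, Matrix.mul_assoc _ X0, ← Matrix.mul_assoc g, h4, Matrix.one_mul]
    have k0 := congrFun (congrFun h5 0) 0
    have k1 := congrFun (congrFun h5 1) 0
    have k2 := congrFun (congrFun h5 2) 0
    simp [X0, Matrix.mul_apply, Fin.sum_univ_three, h1.1, h1.2] at k0 k1 k2
    have g2 : g 2 0 = 0 := by
      rcases k2 with k2 | k2
      · exact k2
      · rw [← k1, k2, mul_zero]
    have g1 : g 1 0 = 0 := by
      rw [g2] at k1
      rcases mul_eq_zero.1 k1 with k | k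
      · exact k
      · rw [← k0, k, mul_zero]
    have h6 : g *ᵥ Pi.single 0 1 = g 0 0 • Pi.single 0 1 := by
      ext i; fin_cases i <;> simp [g1, g2]
    have h7 : qm h *ᵥ (P *ᵥ Pi.single 0 1) = g 0 0 • (P *ᵥ Pi.single 0 1) := by
      rw [← mulVec_smul, ← h6, mulVec_mulVec, mulVec_mulVec, hg, Matrix.mul_assoc, c2]
    exact hc (by rw [h7, map_smul, LinearMap.smul_apply, cross_self, smul_zero])
  · have sB : (Bk κ)ᵀ = Bk κ := by ext i j; fin_cases i <;> fin_cases j <;> simp [Bk]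
    have dB : (Bk κ).det = 1 := by simp [Bk, det_fin_three]
    have dQ : Q.det * P.det = 1 := by rw [← det_mul, hQP, det_one]
    refine cast_R2 (BQ := Qᵀ * Bk κ * Q) H ?_ ?_ p0 ?_ fun h hh => ?_
    · simp only [transpose_mul, transpose_transpose, sB, Matrix.mul_assoc]
    · rw [det_mul, det_mul, det_transpose, dB, mul_one]
      exact mul_self_ne_zero.2 (left_ne_zero_of_mul_eq_one dQ)
    · rw [← mulVec_mulVec, ← mulVec_mulVec, dotProduct_mulVec, vecMul_transpose,
        mulVec_mulVec, hQP, one_mulVec]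
      simp [Bk, dotProduct, Fin.sum_univ_three]
    · have h4 := inv h
      set g := Q * qm h * P with hg
      set g' := Q * qm h⁻¹ * P with hg'
      have key : ∀ Z ∈ L', Zᵀ * (gᵀ * Bk κ * g) + gᵀ * Bk κ * g * Z = 0 := by
        intro Z hZ
        have h5 := congrArg (fun A => gᵀ * A * g) (hB _ (ad h hh Z hZ))
        have h6 : gᵀ * g'ᵀ = 1 := by rw [← transpose_mul, h4, transpose_one]
        have h7 : ∀ A : QM, gᵀ * (g'ᵀ * A) = A := fun A => by
          rw [← Matrix.mul_assoc, h6, Matrix.one_mul]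
        simpa only [← hg, ← hg', transpose_mul, Matrix.mul_add, Matrix.add_mul, Matrix.mul_assoc,
          h7, h4, Matrix.mul_one, Matrix.mul_zero, Matrix.zero_mul] using h5
      have dg : g.det = 1 := by rw [hg, det_mul, det_mul, det_qm, mul_one, dQ]
      have e := form_R2 (B := gᵀ * Bk κ * g)
        (by simp only [transpose_mul, transpose_transpose, sB, Matrix.mul_assoc])
        (key _ m0) (key _ hκ) (by rw [det_mul, det_mul, det_transpose, dg, dB]; norm_num)
      have h8 : Q * qm h = g * Q := by rw [hg, Matrix.mul_assoc _ P, hPQ, Matrix.mul_one]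
      calc (qm h)ᵀ * (Qᵀ * Bk κ * Q) * qm h = (Q * qm h)ᵀ * Bk κ * (Q * qm h) := by
            simp only [transpose_mul, Matrix.mul_assoc]
        _ = Qᵀ * (gᵀ * Bk κ * g) * Q := by
            rw [h8]; simp only [transpose_mul, Matrix.mul_assoc]
        _ = _ := by rw [e]

end Pool.Agent.MP_5045a8_al.HX

end

section

namespace Pool.Agent.MP_5045a8_al.HX

open Matrix O FT

section ring

variable {R : Type} [CommRing R] {B : Matrix (Fin 3) (Fin 3) R}

theorem skew_Quart (h : Bᵀ = B) (c a b : Fin 3 → R) :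
    bf B (Am B c *ᵥ a) b = -bf B a (Am B c *ᵥ b) := by
  rw [bf, bf, mulVec_mulVec, ← dotProduct_neg, ← neg_mulVec, ← am_skew h, ← mulVec_mulVec,
    dotProduct_mulVec a, vecMul_transpose]

theorem aa_Quart (h : Bᵀ = B) {c : Fin 3 → R} (hc : bf B c c = 0) (v : Fin 3 → R) :
    Am B c *ᵥ (Am B c *ᵥ v) = (B.det * bf B c v) • c := by
  rw [mulVec_mulVec, am_sq h, nq, hc, mul_zero, zero_smul, add_zero, smul_mulVec,
    vecMulVec_mulVec, bf_comm h, bf, dotProduct_comm, op_smul_eq_smul, smul_smul]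

theorem gm_Quart (h : Bᵀ = B) {c : Fin 3 → R} (hc : bf B c c = 0) (v : Fin 3 → R) (n y : R) :
    gm B c 1 (n * y) *ᵥ v
      = v + n • ((2 * y) • (Am B c *ᵥ v)) + n ^ 2 • ((2 * y ^ 2 * B.det * bf B c v) • c) := by
  rw [gm, add_mulVec, add_mulVec, one_mulVec, smul_mulVec, smul_mulVec, ← mulVec_mulVec,
    aa_Quart h hc, smul_smul, smul_smul, smul_smul]
  congr 2 <;> ring

theorem exp_Quart (h : Bᵀ = B) (v v1 c : Fin 3 → R) (n k : R) :
    bf B (v + n • v1 + n ^ 2 • (k • c)) (v + n • v1 + n ^ 2 • (k • c))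
      = k ^ 2 * bf B c c * n ^ 4 + 2 * k * bf B v1 c * n ^ 3
        + (bf B v1 v1 + 2 * k * bf B v c) * n ^ 2 + 2 * bf B v v1 * n + bf B v v := by
  simp only [bf_add_left, bf_add_right, bf_smul_left, bf_smul_right, bf_comm h c v,
    bf_comm h c v1, bf_comm h v1 v]
  ring

end ring

theorem rat_Quart (hA : AlgStmt) {B P : QM} {c x z : Q3} {y a b e a' b' e' : ℚ} (h : Bᵀ = B)
    (hP : Pᵀ = P) (hD : B.det ≠ 0) (hy : y ≠ 0) (hc : bf B c c = 0) (hx : bf B x x = 0)
    (hcx : bf B c x ≠ 0) (hz : bf B z z ≠ 0) (hcz : bf B c z ≠ 0) (hs : bf P c c ≠ 0)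
    (h1 : ∀ n, bf P (gm B c 1 (n * y) *ᵥ x) (gm B c 1 (n * y) *ᵥ x) = (a * n ^ 2 + b * n + e) ^ 2)
    (h2 : ∀ n, bf P (gm B c 1 (n * y) *ᵥ z) (gm B c 1 (n * y) *ᵥ z)
      = (a' * n ^ 2 + b' * n + e') ^ 2) : P.det = 0 := by
  obtain ⟨k, hk⟩ : ∃ k, k = 4 * y ^ 2 * B.det * bf B c x := ⟨_, rfl⟩
  have k0 : k ≠ 0 := by rw [hk]; positivity
  obtain ⟨u, hu⟩ : ∃ u, u = (2 * y) • (Am B c *ᵥ x) := ⟨_, rfl⟩
  obtain ⟨E, hE⟩ : ∃ E : QM, E = (Matrix.of ![k • c, u, x])ᵀ := ⟨_, rfl⟩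
  have hEv : ∀ r s t, E *ᵥ ![r, s, t] = r • (k • c) + s • u + t • x := by
    intro r s t
    ext i
    simp [hE, mulVec, dotProduct, Fin.sum_univ_three]
    ring
  have g1 : bf B c u = 0 := by
    have := skew_Quart h c c x
    rw [am_self] at this
    rw [hu, bf_smul_right, ← neg_eq_zero, ← mul_neg, ← this]
    simp [bf]
  have g2 : bf B x u = 0 := by
    have := skew_Quart h c x x
    rw [bf_comm h] at this
    rw [hu, bf_smul_right, show bf B x (Am B c *ᵥ x) = 0 by linarith, mul_zero]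
  have g3 : bf B u u = -(k * bf B c x) := by
    rw [hu, bf_smul_left, bf_smul_right, skew_Quart h, aa_Quart h hc, bf_smul_right,
      bf_comm h x c, hk]
    ring
  have g4 : ∀ r s t r' s' t', bf B (E *ᵥ ![r, s, t]) (E *ᵥ ![r', s', t'])
      = k * bf B c x * (r * t' + t * r' - s * s') := by
    intro r s t r' s' t'
    simp only [hEv, bf_add_left, bf_add_right, bf_smul_left, bf_smul_right, hc, hx, g1, g2, g3,
      bf_comm h x c, bf_comm h u c, bf_comm h u x]
    ring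
  have dE : E.det ≠ 0 := by
    intro h0
    obtain ⟨w, w0, hw⟩ := exists_mulVec_eq_zero_iff.2 h0
    have e1 : w = ![w 0, w 1, w 2] := by ext i; fin_cases i <;> rfl
    have e2 : ∀ r s t, w 0 * t + w 2 * r - w 1 * s = 0 := by
      intro r s t
      have := g4 (w 0) (w 1) (w 2) r s t
      rw [← e1, hw] at this
      simpa [bf, k0, hcx, show c ⬝ᵥ B *ᵥ x ≠ 0 from hcx] using this
    apply w0
    have a0 := e2 0 0 1
    have a1 := e2 0 1 0
    have a2 := e2 1 0 0
    ext i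
    fin_cases i <;> simp <;> linarith
  obtain ⟨α, β, γ, hw⟩ : ∃ α β γ, z = E *ᵥ ![α, β, γ] := by
    refine ⟨(E⁻¹ *ᵥ z) 0, (E⁻¹ *ᵥ z) 1, (E⁻¹ *ᵥ z) 2, ?_⟩
    have e1 : ![(E⁻¹ *ᵥ z) 0, (E⁻¹ *ᵥ z) 1, (E⁻¹ *ᵥ z) 2] = E⁻¹ *ᵥ z := by
      ext i; fin_cases i <;> rfl
    rw [e1, mulVec_mulVec, mul_nonsing_inv _ (isUnit_iff_ne_zero.2 dE), one_mulVec]
  have c1 : bf B c z = γ * bf B c x := by
    rw [hw, hEv]
    simp only [bf_add_right, bf_smul_right, hc, g1]
    ring
  have c2 : (2 * y) • (Am B c *ᵥ z) = β • (k • c) + γ • u := by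
    rw [hw, hEv, hu]
    simp only [mulVec_add, mulVec_smul, am_self, aa_Quart h hc, hk]
    module
  have h3 := hA (Eᵀ * P * E) α β γ a b e a' b' e' (by
      rw [transpose_mul, transpose_mul, transpose_transpose, hP, Matrix.mul_assoc]) ?_
    (fun h0 => hcz (by rw [c1, h0, zero_mul])) (fun h0 => hz (by
      rw [hw, g4]; linear_combination (-(k * bf B c x)) * h0)) (fun n => ?_) fun n => ?_
  · rw [det_mul, det_mul, det_transpose] at h3
    simpa [dE] using h3
  · have e1 : (Eᵀ * P * E) 0 0 = bf (Eᵀ * P * E) ![1, 0, 0] ![1, 0, 0] := by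
      simp [bf, mulVec, dotProduct, Fin.sum_univ_three]
    rw [e1, ← bf_mulVec, hEv]
    simp only [zero_smul, add_zero, one_smul, bf_smul_left, bf_smul_right]
    positivity
  · have e1 : E *ᵥ ![n ^ 2 / 2, n, 1] = gm B c 1 (n * y) *ᵥ x := by
      rw [hEv, gm_Quart h hc, ← hu, hk]
      module
    rw [← bf_mulVec, e1, h1]
  · have e1 : E *ᵥ ![α + n * β + n ^ 2 / 2 * γ, β + n * γ, γ] = gm B c 1 (n * y) *ᵥ z := by
      rw [gm_Quart h hc, c2, c1, hw, hEv, hEv, hk]
      module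
    rw [← bf_mulVec, e1, h2]

/-- The rational vector of an integer vector. -/
def qv_Quart (x : V3) : Q3 := fun i => (x i : ℚ)

/-- The rational matrix of an integer matrix. -/
def qM_Quart (M : M3) : QM := M.map (Int.castRingHom ℚ)

theorem mv_Quart (M : M3) (x : V3) : qv_Quart (M *ᵥ x) = qM_Quart M *ᵥ qv_Quart x := by
  ext i; simp [qv_Quart, qM_Quart, mulVec, dotProduct]

theorem bf_Quart (B : M3) (x y : V3) :
    bf (qM_Quart B) (qv_Quart x) (qv_Quart y) = ((bf B x y : ℤ) : ℚ) := by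
  rw [bf, ← mv_Quart, bf]
  simp [qv_Quart, dotProduct]

theorem det_Quart (M : M3) : (qM_Quart M).det = (M.det : ℚ) :=
  ((Int.castRingHom ℚ).map_det M).symm

theorem am_Quart (B : M3) (c : V3) : qM_Quart (Am B c) = Am (qM_Quart B) (qv_Quart c) := by
  have e : (qM_Quart B).adjugate = qM_Quart B.adjugate :=
    ((Int.castRingHom ℚ).map_adjugate B).symm
  rw [Am, Am, e, qM_Quart, Matrix.map_mul]
  congr 1
  ext i j
  fin_cases i <;> fin_cases j <;> simp [crm, qv_Quart]

theorem smul_Quart (n : ℤ) (x : V3) : qv_Quart (n • x) = (n : ℚ) • qv_Quart x := by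
  ext i; simp [qv_Quart]

theorem run_Quart (hR : RungeStmt) {B P : M3} {c v : V3} {y s : ℤ} (h : Bᵀ = B) (hP : Pᵀ = P)
    (hD : B.det ≠ 0) (hy : y ≠ 0) (hc : bf B c c = 0) (hv : bf B c v ≠ 0) (hs : s ≠ 0)
    (hs' : bf P c c = s ^ 2) (h1 : ∀ n, bf P (gm B c 1 (n * y) *ᵥ v) (gm B c 1 (n * y) *ᵥ v) ≤ 0 ∨
      IsSquare (bf P (gm B c 1 (n * y) *ᵥ v) (gm B c 1 (n * y) *ᵥ v))) :
    ∃ a b e : ℚ, ∀ n : ℚ, bf (qM_Quart P) (gm (qM_Quart B) (qv_Quart c) 1 (n * y) *ᵥ qv_Quart v)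
      (gm (qM_Quart B) (qv_Quart c) 1 (n * y) *ᵥ qv_Quart v) = (a * n ^ 2 + b * n + e) ^ 2 := by
  simp only [gm_Quart h hc, exp_Quart hP, hs', ← mul_pow] at h1
  obtain ⟨b, e, h2⟩ := hR _ _ _ _ _ (by positivity) h1
  refine ⟨_, b, e, fun n => Eq.trans ?_ (h2 n)⟩
  have hq : (qM_Quart B)ᵀ = qM_Quart B := by rw [qM_Quart, ← transpose_map, h]
  have hq' : (qM_Quart P)ᵀ = qM_Quart P := by rw [qM_Quart, ← transpose_map, hP]
  have e1 : (2 * (y : ℚ)) • (Am (qM_Quart B) (qv_Quart c) *ᵥ qv_Quart v)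
      = qv_Quart ((2 * y) • (Am B c *ᵥ v)) := by
    rw [smul_Quart, mv_Quart, am_Quart]; push_cast; rfl
  rw [gm_Quart hq (by rw [bf_Quart, hc, Int.cast_zero]), exp_Quart hq', e1]
  simp only [bf_Quart, det_Quart, hs']
  push_cast
  ring

theorem quart_stmt (hR : RungeStmt) (hA : AlgStmt) : QuartStmt := by
  intro B g c x z y h hD hy hc hx hcx hz hcz h0 ⟨s, hs⟩
  by_contra hn
  push Not at hn
  obtain ⟨P, hP⟩ : ∃ P : M3, P = -B.det • ((mat g)ᵀ * B * mat g) := ⟨_, rfl⟩
  have e1 : ∀ w, nq B (mat g *ᵥ w) (mat g *ᵥ w) = bf P w w := by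
    intro w
    rw [nq, bf_mulVec, hP, bf, bf, smul_mulVec, dotProduct_smul, smul_eq_mul]
  have e2 : Pᵀ = P := by
    rw [hP, transpose_smul, transpose_mul, transpose_mul, transpose_transpose, h,
      Matrix.mul_assoc]
  have e3 : P.det ≠ 0 := by
    have : (mat g).det = 1 := g.det_coe
    rw [hP, det_smul, det_mul, det_mul, det_transpose, this]
    simpa using hD
  simp only [e1] at hn h0 hs
  have s0 : s ≠ 0 := by
    rintro rfl
    rw [hs] at h0
    simp at h0
  obtain ⟨a, b, e, h1⟩ := run_Quart hR h e2 hD hy hc hcx s0 (hs.trans (sq s).symm) fun n =>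
    (le_or_gt _ 0).imp_right (hn n _ (Or.inl rfl))
  obtain ⟨a', b', e', h2⟩ := run_Quart hR h e2 hD hy hc hcz s0 (hs.trans (sq s).symm) fun n =>
    (le_or_gt _ 0).imp_right (hn n _ (Or.inr rfl))
  have h3 := rat_Quart hA (by rw [qM_Quart, ← transpose_map, h])
    (by rw [qM_Quart, ← transpose_map, e2]) (by rw [det_Quart]; exact_mod_cast hD)
    (by exact_mod_cast hy) (by rw [bf_Quart]; exact_mod_cast hc)
    (by rw [bf_Quart]; exact_mod_cast hx) (by rw [bf_Quart]; exact_mod_cast hcx)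
    (by rw [bf_Quart]; exact_mod_cast hz) (by rw [bf_Quart]; exact_mod_cast hcz)
    (by rw [bf_Quart]; exact_mod_cast h0.ne') h1 h2
  rw [det_Quart] at h3
  exact e3 (by exact_mod_cast h3)

end Pool.Agent.MP_5045a8_al.HX

end

section

/-! Regular semisimple polynomials in an element of SL(3,Z), and the rational Lie algebra. -/

namespace Pool.Agent.MP_5045a8_al.HX

open Matrix O FT

/-- the complex vector of a rational vector -/
def vc_Good (v : Q3) : C3 := fun i => (v i : ℂ)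

lemma qc_eq_Good (Y : QM) : qc Y = (Rat.castHom ℂ).mapMatrix Y := rfl

lemma qc_mul_Good (Y Z : QM) : qc (Y * Z) = qc Y * qc Z := by
  simp only [qc_eq_Good, map_mul]

lemma qc_inj_Good {Y Z : QM} (h : qc Y = qc Z) : Y = Z := by
  ext i j
  have : (Y i j : ℂ) = Z i j := congrFun (congrFun h i) j
  exact_mod_cast this

lemma qc_qm_Good (g : G3) : qc (qm g) = cm g := by
  ext i j
  exact Rat.cast_intCast _

lemma qc_vec_Good (Y : QM) (v : Q3) : qc Y *ᵥ vc_Good v = vc_Good (Y *ᵥ v) := by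
  funext i
  simp [qc, vc_Good, mulVec, dotProduct]

lemma trace_Good (Y : QM) : trace (qc Y) = (trace Y : ℚ) := by
  simp [qc, trace]

lemma cancel_Good {P M N : CM} (hP : P.det ≠ 0) (h : M * P = N * P) : M = N := by
  have := congrArg (· * P⁻¹) h
  simpa only [mul_assoc, mul_nonsing_inv P hP.isUnit, mul_one] using this

lemma tr_diag_Good {P M : CM} {d : C3} (hP : P.det ≠ 0) (h : M * P = P * diagonal d) :
    trace M = ∑ i, d i := by
  have e : M = P * diagonal d * P⁻¹ := by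
    rw [← h, mul_assoc, mul_nonsing_inv P hP.isUnit, mul_one]
  rw [e, trace_mul_comm, ← mul_assoc, nonsing_inv_mul P hP.isUnit, one_mul, trace_diagonal]

lemma mul_diag_Good {P M N : CM} {d d' : C3} (h : M * P = P * diagonal d)
    (h' : N * P = P * diagonal d') : M * N * P = P * diagonal fun i => d i * d' i := by
  rw [mul_assoc, h', ← mul_assoc, h, mul_assoc, diagonal_mul_diagonal]

/-- an eigenvector of a simple eigenvalue is a multiple of a column -/
lemma col_Good {P : CM} {y : C3} {Y : QM} (hP : P.det ≠ 0) (hY : qc Y * P = P * diagonal y)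
    {v : Q3} {ρ : ℚ} (hv : v ≠ 0) (he : Y *ᵥ v = ρ • v)
    (h1 : ∀ i j, y i = ρ → y j = ρ → i = j) :
    ∃ k t, y k = ρ ∧ ∀ i, (v i : ℂ) = P i k * t := by
  obtain ⟨u, hu⟩ : ∃ u, u = P⁻¹ *ᵥ vc_Good v := ⟨_, rfl⟩
  have e1 : P *ᵥ u = vc_Good v := by
    rw [hu, mulVec_mulVec, mul_nonsing_inv P hP.isUnit, one_mulVec]
  have e2 : P *ᵥ (diagonal y *ᵥ u) = P *ᵥ ((ρ : ℂ) • u) := by
    rw [mulVec_mulVec, ← hY, ← mulVec_mulVec, mulVec_smul, e1, qc_vec_Good, he]
    funext i
    simp [vc_Good]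
  have e3 : diagonal y *ᵥ u = (ρ : ℂ) • u := by
    have := congrArg (P⁻¹ *ᵥ ·) e2
    simpa only [mulVec_mulVec, ← mul_assoc, nonsing_inv_mul P hP.isUnit, one_mul, one_mulVec]
      using this
  have e4 : ∀ i, u i ≠ 0 → y i = ρ := fun i hi => by
    have := congrFun e3 i
    rw [mulVec_diagonal, Pi.smul_apply, smul_eq_mul] at this
    exact mul_right_cancel₀ hi this
  obtain ⟨k, hk⟩ : ∃ k, u k ≠ 0 := by
    by_contra hn
    push Not at hn
    apply hv
    funext i
    have : vc_Good v i = 0 := by rw [← e1, show u = 0 from funext hn, mulVec_zero]; rfl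
    exact Rat.cast_eq_zero.1 this
  refine ⟨k, u k, e4 k hk, fun i => ?_⟩
  have : (P *ᵥ u) i = P i k * u k := by
    rw [mulVec, dotProduct, Finset.sum_eq_single k (fun j _ hj => ?_) (by simp)]
    have : u j = 0 := by_contra fun h => hj (h1 j k (e4 j h) (e4 k hk))
    rw [this, mul_zero]
  rw [← this, e1]
  rfl

/-- a rational eigenvector of g has eigenvalue 1 or -1 -/
lemma unit_Good {g : G3} {v : Q3} {s : ℂ} (hv : v ≠ 0) (h : cm g *ᵥ vc_Good v = s • vc_Good v) :
    qm g *ᵥ v = v ∨ qm g *ᵥ v = -v := by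
  rw [← qc_qm_Good, qc_vec_Good] at h
  obtain ⟨n, hn⟩ := IsLocalization.exist_integer_multiples_of_finite (nonZeroDivisors ℤ) v
  choose f hf using hn
  have hn0 : ((n : ℤ) : ℚ) ≠ 0 := Int.cast_ne_zero.2 (nonZeroDivisors.coe_ne_zero n)
  have hf' : ∀ i, (f i : ℚ) = (n : ℤ) * v i := fun i => by simpa using hf i
  have hf0 : f ≠ 0 := fun e => hv (funext fun i => by
    have := hf' i
    rw [e] at this
    exact (mul_eq_zero.1 (by simpa using this.symm)).resolve_left hn0)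
  have hm : ∀ i, ((mat g *ᵥ f) i : ℚ) = (n : ℤ) * (qm g *ᵥ v) i := fun i => by
    simp only [mulVec, dotProduct, Fin.sum_univ_three, qm_apply, mat]
    push_cast
    rw [hf', hf', hf']
    ring
  have hc : ∀ i j, f i * (mat g *ᵥ f) j - f j * (mat g *ᵥ f) i = 0 := fun i j => by
    have a1 : (((qm g *ᵥ v) i : ℚ) : ℂ) = s * v i := congrFun h i
    have a2 : (((qm g *ᵥ v) j : ℚ) : ℂ) = s * v j := congrFun h j
    have a3 : v i * (qm g *ᵥ v) j - v j * (qm g *ᵥ v) i = 0 := by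
      have : ((v i * (qm g *ᵥ v) j - v j * (qm g *ᵥ v) i : ℚ) : ℂ) = 0 := by
        push_cast; rw [a1, a2]; ring
      exact_mod_cast this
    have : ((f i * (mat g *ᵥ f) j - f j * (mat g *ᵥ f) i : ℤ) : ℚ) = 0 := by
      push_cast
      rw [hm, hm, hf', hf']
      linear_combination ((n : ℤ) : ℚ) ^ 2 * a3
    exact_mod_cast this
  have hp := par_unit hf0 g.transpose (by
    rw [mat_transpose, vecMul_transpose, ext3]
    exact ⟨hc 1 2, hc 2 0, hc 0 1⟩)
  rw [mat_transpose, vecMul_transpose] at hp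
  refine hp.imp (fun e => funext fun i => mul_left_cancel₀ hn0 ?_)
    (fun e => funext fun i => mul_left_cancel₀ hn0 ?_)
  · rw [← hm, e, hf']
  · rw [← hm, e, Pi.neg_apply, Pi.neg_apply, Int.cast_neg, hf', mul_neg]

lemma third_Good {i j : Fin 3} (h : i ≠ j) : ∃ k, (∀ m, m = i ∨ m = j ∨ m = k) ∧
    ∀ f : C3, ∑ m, f m = f i + f j + f k := by
  obtain ⟨k, h1, h2, h3⟩ : ∃ k, i ≠ k ∧ j ≠ k ∧ ∀ m, m = i ∨ m = j ∨ m = k := by
    revert i j; decide
  refine ⟨k, h3, fun f => ?_⟩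
  have : (Finset.univ : Finset (Fin 3)) = {i, j, k} := by ext m; simpa using h3 m
  rw [this, Finset.sum_insert (by simp [h, h1]), Finset.sum_pair h2, add_assoc]

theorem good_stmt : GoodStmt := by
  rintro g P e Y ⟨hP, -, hg⟩ ⟨hY0, htr, ⟨a, b, c, hY⟩, hk⟩
  obtain ⟨y, hy⟩ : ∃ y : C3, qc Y * P = P * diagonal y := by
    refine ⟨fun i => a + b * e i + c * (e i * e i), ?_⟩
    have e1 : qc Y = (a : ℂ) • (1 : CM) + (b : ℂ) • cm g + (c : ℂ) • (cm g * cm g) := by
      rw [← qc_qm_Good, ← qc_mul_Good, ← sq, hY]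
      ext i j
      by_cases h : i = j <;> simp [qc, one_apply, h]
    rw [e1, add_mul, add_mul, smul_mul_assoc, smul_mul_assoc, smul_mul_assoc, mul_diag_Good hg hg,
      hg, one_mul]
    ext i j
    simp only [Matrix.add_apply, Matrix.smul_apply, mul_diagonal, smul_eq_mul]
    ring
  have key : ∀ (v : Q3) (ρ : ℚ), v ≠ 0 → Y *ᵥ v = ρ • v →
      (∀ i j, y i = ρ → y j = ρ → i = j) → ρ = 0 := fun v ρ hv he h1 => by
    obtain ⟨k, t, -, ht⟩ := col_Good hP hy hv he h1
    have h2 : cm g *ᵥ vc_Good v = e k • vc_Good v := by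
      funext i
      have := congrFun (congrFun hg i) k
      rw [mul_diagonal, mul_apply] at this
      simp only [mulVec, dotProduct, vc_Good, ht, ← mul_assoc, ← Finset.sum_mul, this,
        Pi.smul_apply, smul_eq_mul]
      ring
    rw [hk v (unit_Good hv h2)] at he
    exact (smul_eq_zero.1 he.symm).resolve_right hv
  have hinj : Function.Injective y := fun i j hij => by
    by_contra hne
    obtain ⟨k, hall, hsum⟩ := third_Good hne
    have t1 := tr_diag_Good hP hy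
    have t2 := tr_diag_Good hP (mul_diag_Good hy hy)
    have t3 := tr_diag_Good hP (mul_diag_Good (mul_diag_Good hy hy) hy)
    rw [trace_Good, htr, hsum, ← hij] at t1
    rw [← qc_mul_Good, trace_Good, hsum, ← hij] at t2
    rw [← qc_mul_Good, ← qc_mul_Good, trace_Good, hsum, ← hij] at t3
    have hk2 : y k = -2 * y i := by
      rw [Rat.cast_zero] at t1; linear_combination -t1
    have hs : y i ≠ 0 := fun h0 => by
      have : y = 0 := funext fun m => by
        rcases hall m with rfl | rfl | rfl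
        · exact h0
        · rw [← hij]; exact h0
        · rw [hk2, h0, mul_zero]; rfl
      rw [this] at hy
      refine hY0 (qc_inj_Good (cancel_Good hP ?_))
      rw [hy, qc_eq_Good, map_zero, zero_mul]
      simp
    rw [hk2] at t2 t3
    obtain ⟨r, hr⟩ : ∃ r : ℚ, (r : ℂ) = y k := by
      refine ⟨2 * trace (Y * Y * Y) / trace (Y * Y), ?_⟩
      push_cast
      rw [t2, t3, hk2, div_eq_iff]
      · ring
      · have : y i * y i + y i * y i + -2 * y i * (-2 * y i) = 6 * (y i * y i) := by ring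
        rw [this]
        exact mul_ne_zero (by norm_num) (mul_ne_zero hs hs)
    have hd : (Y - r • (1 : QM)).det = 0 := by
      have e1 : qc (Y - r • (1 : QM)) * P = P * diagonal fun m => y m - r := by
        have : qc (Y - r • (1 : QM)) = qc Y - (r : ℂ) • (1 : CM) := by
          ext i j
          by_cases h : i = j <;> simp [qc, one_apply, h]
        rw [this, sub_mul, hy, smul_mul_assoc, one_mul]
        ext i j
        simp only [Matrix.sub_apply, Matrix.smul_apply, mul_diagonal, smul_eq_mul]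
        ring
      have e2 := congrArg det e1
      rw [det_mul, det_mul, det_diagonal,
        Finset.prod_eq_zero (Finset.mem_univ k) (by rw [hr, sub_self]), mul_zero, qc_eq_Good,
        ← RingHom.map_det] at e2
      exact Rat.cast_eq_zero.1 ((mul_eq_zero.1 e2).resolve_right hP)
    obtain ⟨v, hv, hv'⟩ := exists_mulVec_eq_zero_iff.2 hd
    rw [sub_mulVec, smul_mulVec, one_mulVec, sub_eq_zero] at hv'
    have hne' : y i ≠ r := fun h => hs (by rw [hr, hk2] at h; linear_combination h / 3)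
    have h3 : ∀ m, y m = r → m = k := fun m hm => by
      rcases hall m with rfl | rfl | rfl
      · exact absurd hm hne'
      · exact absurd (hij.trans hm) hne'
      · rfl
    have := key v r hv hv' fun m m' h h' => (h3 m h).trans (h3 m' h').symm
    rw [this, hk2, Rat.cast_zero] at hr
    exact hs (by linear_combination hr / 2)
  have h1 : ∀ (ρ : ℚ) i j, y i = ρ → y j = ρ → i = j := fun ρ i j h h' => hinj (h.trans h'.symm)
  refine ⟨⟨P, y, hP, hy⟩, fun v ρ hv he => key v ρ hv he (h1 ρ), fun v w hv hw => ?_,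
    fun A B hA hB => ?_⟩
  · by_cases v0 : v = 0
    · simp [v0]
    by_cases w0 : w = 0
    · simp [w0]
    obtain ⟨k, t, hk, ht⟩ := col_Good (ρ := 0) hP hy v0 (by rw [hv, zero_smul]) (h1 0)
    obtain ⟨k', t', hk', ht'⟩ := col_Good (ρ := 0) hP hy w0 (by rw [hw, zero_smul]) (h1 0)
    obtain rfl := h1 0 k k' hk hk'
    have hc : ∀ i j, w i * v j - w j * v i = 0 := fun i j => by
      have : ((w i * v j - w j * v i : ℚ) : ℂ) = 0 := by
        push_cast; rw [ht, ht, ht', ht']; ring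
      exact_mod_cast this
    rw [cross_apply, hc, hc, hc]
    simp
  · have hd : ∀ A : QM, A * Y = Y * A → ∃ d : C3, qc A * P = P * diagonal d := fun A hA => by
      have e1 : P⁻¹ * qc A * P * diagonal y = diagonal y * (P⁻¹ * qc A * P) := by
        have e2 : diagonal y * P⁻¹ = P⁻¹ * qc Y := by
          refine cancel_Good hP ?_
          rw [mul_assoc, nonsing_inv_mul P hP.isUnit, mul_one, mul_assoc, hy, ← mul_assoc,
            nonsing_inv_mul P hP.isUnit, one_mul]
        rw [mul_assoc, ← hy, ← mul_assoc, ← mul_assoc, ← mul_assoc, e2, mul_assoc _ (qc A),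
          mul_assoc _ (qc Y), ← qc_mul_Good, ← qc_mul_Good, hA]
      refine ⟨diag (P⁻¹ * qc A * P), ?_⟩
      have e3 : diagonal (diag (P⁻¹ * qc A * P)) = P⁻¹ * qc A * P := by
        generalize P⁻¹ * qc A * P = M at e1
        ext i j
        by_cases h : i = j
        · rw [h, diagonal_apply_eq, diag_apply]
        · have := congrFun (congrFun e1 i) j
          rw [mul_diagonal, diagonal_mul] at this
          have h2 : M i j * (y j - y i) = 0 := by linear_combination this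
          rw [diagonal_apply_ne _ h]
          exact ((mul_eq_zero.1 h2).resolve_right
            (sub_ne_zero.2 fun e => h (hinj e).symm)).symm
      rw [e3, ← mul_assoc, ← mul_assoc, mul_nonsing_inv P hP.isUnit, one_mul]
    obtain ⟨d, hd1⟩ := hd A hA
    obtain ⟨d', hd2⟩ := hd B hB
    refine qc_inj_Good (cancel_Good hP ?_)
    rw [qc_mul_Good, qc_mul_Good, mul_diag_Good hd1 hd2, mul_diag_Good hd2 hd1]
    simp only [mul_comm]

lemma qr_eq_Good (Y : QM) : qr Y = (Rat.castHom ℝ).mapMatrix Y := rfl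

lemma qr_smul_Good (c : ℚ) (Y : QM) : qr (c • Y) = (c : ℝ) • qr Y := by
  ext i j; simp [qr]

lemma qr_qm_Good (h : G3) : qr (qm h) = rm (mat h) := by
  ext i j; simp [qr, qm_apply, rm, mat]

theorem lie2_stmt (h1 : LieBrStmt) (h2 : LieAdStmt) (h4 : LieExpStmt) (hZ : ZdStmt) :
    Lie2Stmt := by
  intro H
  have g0 : GR H 0 := fun P _ h _ => by
    have : Dv 0 P = 0 := by
      have e : Dv 0 = 0 := MvPolynomial.derivation_ext fun ij => by
        simp [Dv, MvPolynomial.mkDerivation_X]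
      rw [e]; rfl
    rw [this, ev, map_zero]
  let L : Submodule ℚ QM :=
    { carrier := {Y | trace Y = 0 ∧ GR H (qr Y)}
      add_mem' := fun {Y Z} hY hZ => ⟨by rw [trace_add, hY.1, hZ.1, add_zero], by
        rw [qr_eq_Good, map_add]; exact (h1 H _ _ 0 hY.2 hZ.2).2.1⟩
      zero_mem' := ⟨trace_zero _ _, by rw [qr_eq_Good, map_zero]; exact g0⟩
      smul_mem' := fun c Y hY => ⟨by rw [trace_smul, hY.1, smul_zero], by
        rw [qr_smul_Good]; exact (h1 H _ _ c hY.2 hY.2).2.2.1⟩ }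
  have hL : ∀ Y, Y ∈ L ↔ trace Y = 0 ∧ GR H (qr Y) := fun _ => Iff.rfl
  refine ⟨L, ⟨fun Y hY Z hZ => (hL _).2 ⟨?_, ?_⟩, fun h hh Y hY => (hL _).2 ⟨?_, ?_⟩,
    fun Y hY => ((hL _).1 hY).1⟩, fun Y ht hY => (hL _).2 ⟨ht, hY⟩,
    fun hs => hZ H fun i j c hij => ?_⟩
  · rw [trace_sub, trace_mul_comm, sub_self]
  · rw [qr_eq_Good, map_sub, map_mul, map_mul]
    exact (h1 H _ _ 0 ((hL _).1 hY).2 ((hL _).1 hZ).2).2.2.2
  · rw [trace_mul_comm, ← mul_assoc, ← map_mul, inv_mul_cancel, map_one, one_mul]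
    exact ((hL _).1 hY).1
  · rw [qr_eq_Good, map_mul, map_mul, ← qr_eq_Good, ← qr_eq_Good, ← qr_eq_Good, qr_qm_Good,
      qr_qm_Good]
    exact h2 H _ h hh ((hL _).1 hY).2
  · have := h4 H _ c ((hL _).1 (hs i j hij)).2 (by
      rw [qr_eq_Good, ← map_mul, single_mul_single_of_ne _ _ _ _ hij.symm _, map_zero])
    have e2 : (1 : RM) + c • qr (single i j 1) = transvection i j c := by
      rw [transvection]
      congr 1
      ext k l
      simp only [qr, Matrix.smul_apply, map_apply, single_apply, smul_eq_mul]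
      split_ifs <;> simp
    rwa [e2] at this

end Pool.Agent.MP_5045a8_al.HX

end
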