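import Pool.Agent.Mg.F5045a8a.G1d6757

section

/-! The rotations given by the Pell equation. -/

namespace Pool.Agent.MP_5045a8_al.O

open Matrix

section ring

variable {R : Type} [CommRing R] {B : Matrix (Fin 3) (Fin 3) R}

theorem gm_det_aux (A : Matrix (Fin 3) (Fin 3) R) (a b t e d : R) (ht : A 0 0 + A 1 1 + A 2 2 = t)
    (he : A 0 0 * A 1 1 - A 0 1 * A 1 0 + (A 0 0 * A 2 2 - A 0 2 * A 2 0) +
      (A 1 1 * A 2 2 - A 1 2 * A 2 1) = e) (hd : A.det = d) :
    (1 + a • A + b • (A * A)).det = 1 + a * t + b * (t ^ 2 - 2 * e) + a ^ 2 * e +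
      a * b * (t * e - 3 * d) + b ^ 2 * (e ^ 2 - 2 * t * d) + a ^ 3 * d + a ^ 2 * b * t * d +
      a * b ^ 2 * e * d + b ^ 3 * d ^ 2 := by
  subst ht he hd
  simp [det_fin_three, mul_apply, Fin.sum_univ_three, one_apply]
  ring

theorem gm_det (h : Bᵀ = B) (c : Fin 3 → R) {x y : R} (hp : x ^ 2 - nq B c c * y ^ 2 = 1) :
    (gm B c x y).det = 1 := by
  have hd : (Am B c).det = 0 := by
    have : (crm c).det = 0 := by simp [crm, det_fin_three]; ring
    rw [Am, det_mul, this, mul_zero]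
  rw [gm, gm_det_aux (Am B c) _ _ 0 (-nq B c c) 0 ?_ ?_ hd]
  · linear_combination (-4 * nq B c c * y ^ 2) * hp
  · obtain ⟨a, b, c', d, e, f, rfl⟩ := symm_form h
    simp [Am, crm, adjugate_fin_three, mul_apply, Fin.sum_univ_three]
    ring
  · obtain ⟨a, b, c', d, e, f, rfl⟩ := symm_form h
    simp [Am, crm, nq, bf, adjugate_fin_three, det_fin_three, mul_apply, mulVec, dotProduct,
      Fin.sum_univ_three]
    ring

theorem gm_mul_aux (h : Bᵀ = B) (c : Fin 3 → R) {x y x' y' : R}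
    (hp : x ^ 2 - nq B c c * y ^ 2 = 1) (hp' : x' ^ 2 - nq B c c * y' ^ 2 = 1) :
    gm B c x y * gm B c x' y' = gm B c (x * x' + nq B c c * (y * y')) (x * y' + y * x') := by
  have h3 := am_cube h c
  have h3' : Am B c * Am B c * Am B c = nq B c c • Am B c := by rw [Matrix.mul_assoc, h3]
  have h4 : Am B c * Am B c * (Am B c * Am B c) = nq B c c • (Am B c * Am B c) := by
    rw [← Matrix.mul_assoc, h3', Matrix.smul_mul]
  simp only [gm, Matrix.mul_add, Matrix.add_mul, Matrix.smul_mul, Matrix.mul_smul, Matrix.one_mul,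
    Matrix.mul_one, h3, h3', h4]
  generalize Am B c * Am B c = A2
  match_scalars
  · ring
  · linear_combination (-2 * x' * y') * hp - (2 * x * y) * hp'
  · linear_combination (-2 * y' ^ 2) * hp - (2 * y ^ 2) * hp'

theorem gm_one (c : Fin 3 → R) : gm B c 1 0 = 1 := by simp [gm]

theorem gm_orth (h : Bᵀ = B) (c : Fin 3 → R) {x y : R} (hp : x ^ 2 - nq B c c * y ^ 2 = 1) :
    (gm B c x y)ᵀ * B * gm B c x y = B := by
  have h1 := am_skew h c
  have h2 : (Am B c * Am B c)ᵀ * B = B * (Am B c * Am B c) := by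
    rw [transpose_mul, Matrix.mul_assoc, h1, Matrix.mul_neg, ← Matrix.mul_assoc, h1,
      Matrix.neg_mul, neg_neg, Matrix.mul_assoc]
  have h3 : (gm B c x y)ᵀ * B = B * gm B c x (-y) := by
    simp only [gm, transpose_add, transpose_smul, transpose_one, Matrix.mul_add, Matrix.add_mul,
      Matrix.smul_mul, Matrix.mul_smul, Matrix.one_mul, Matrix.mul_one, h1, h2]
    module
  rw [h3, Matrix.mul_assoc, gm_mul_aux h c (by rw [← hp]; ring) hp,
    show x * x + nq B c c * (-y * y) = 1 by rw [← hp]; ring, show x * y + -y * x = 0 by ring,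
    gm_one, Matrix.mul_one]

theorem gm_mul (h : Bᵀ = B) (c : Fin 3 → R) {x y x' y' : R}
    (hp : x ^ 2 - nq B c c * y ^ 2 = 1) (hp' : x' ^ 2 - nq B c c * y' ^ 2 = 1) :
    gm B c x y * gm B c x' y' = gm B c (x * x' + nq B c c * (y * y')) (x * y' + y * x') :=
  gm_mul_aux h c hp hp'

end ring

/-- The rotations as a homomorphism on the solutions of the Pell equation. -/
def gm_hom {B : M3} (h : Bᵀ = B) (c : V3) : Pell.Solution₁ (nq B c c) →* G3 where
  toFun a := ⟨gm B c a.x a.y, gm_det h c a.prop⟩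
  map_one' := Subtype.ext (gm_one c)
  map_mul' a b := Subtype.ext (by
    show gm B c (a * b).x (a * b).y = gm B c a.x a.y * gm B c b.x b.y
    rw [gm_mul h c a.prop b.prop, Pell.Solution₁.x_mul, Pell.Solution₁.y_mul])

theorem gm_y_ge {d : ℤ} {a : Pell.Solution₁ d} (hx : 0 < a.x) (hy : 0 < a.y) (n : ℕ) :
    (n : ℤ) ≤ (a ^ n).y := by
  induction n with
  | zero => simp
  | succ n ih =>
    rw [pow_succ, Pell.Solution₁.y_mul]
    have h1 := Pell.Solution₁.x_pow_pos hx n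
    have h2 : (0 : ℤ) ≤ n := by positivity
    push_cast
    nlinarith [mul_pos h1 hy, mul_nonneg (h2.trans ih) (show 0 ≤ a.x - 1 by omega)]

theorem exists_gm {B : M3} (h : Bᵀ = B) {c : V3} (hN : 0 < nq B c c)
    (hsq : ¬ IsSquare (nq B c c)) {K : Subgroup G3} (hK : K.relIndex (SOq B) ≠ 0) (Y : ℤ) :
    ∃ x y : ℤ, 0 < x ∧ Y < y ∧ x ^ 2 - nq B c c * y ^ 2 = 1 ∧
      ∃ g ∈ K, mat g = gm B c x y ∧ mat g⁻¹ = gm B c x (-y) := by
  obtain ⟨a, hx, hy⟩ := Pell.Solution₁.exists_pos_of_not_isSquare hN hsq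
  have hx0 : 0 < a.x := by omega
  obtain ⟨k, hk, -, hm⟩ := Subgroup.exists_pow_mem_of_relIndex_ne_zero hK (a := gm_hom h c a)
    (mem_SOq.2 (gm_orth h c a.prop))
  refine ⟨(a ^ (k * (Y.toNat + 1))).x, (a ^ (k * (Y.toNat + 1))).y, Pell.Solution₁.x_pow_pos hx0 _,
    lt_of_lt_of_le ?_ (gm_y_ge hx0 hy _), Pell.Solution₁.prop _,
    gm_hom h c (a ^ (k * (Y.toNat + 1))), ?_, rfl, ?_⟩
  · have h1 : Y.toNat + 1 ≤ k * (Y.toNat + 1) := Nat.le_mul_of_pos_left _ hk
    omega
  · rw [map_pow, pow_mul]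
    exact K.pow_mem hm.1 _
  · rw [← map_inv]
    rfl

end Pool.Agent.MP_5045a8_al.O

end

section

/-! Signature (2,1). -/

namespace Pool.Agent.MP_5045a8_al.O

open Matrix

variable {B : M3}

theorem Ind.exists_neg (h : Ind B) : ∃ v : V3, nq B v v < 0 := by
  obtain ⟨-, hd, ⟨u, hu⟩, v, hv⟩ := h
  rcases lt_or_gt_of_ne hd with hd | hd
  · exact ⟨v, mul_neg_of_pos_of_neg (neg_pos.2 hd) hv⟩
  · exact ⟨u, mul_neg_of_neg_of_pos (neg_neg_of_pos hd) hu⟩

theorem Ind.exists_pos (h : Ind B) : ∃ u : V3, 0 < nq B u u := by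
  obtain ⟨-, hd, ⟨u, hu⟩, v, hv⟩ := h
  rcases lt_or_gt_of_ne hd with hd | hd
  · exact ⟨u, mul_pos (neg_pos.2 hd) hu⟩
  · exact ⟨v, mul_pos_of_neg_of_neg (neg_neg_of_pos hd) hv⟩

theorem lor_gram {C : RM} (h : Cᵀ = C) (x y v : R3) :
    bf C x x * (bf C y y * bf C v v - bf C y v ^ 2) - bf C x y ^ 2 * bf C v v +
      2 * bf C x y * bf C y v * bf C x v - bf C y y * bf C x v ^ 2 =
      C.det * (x ⬝ᵥ (y ⨯₃ v)) ^ 2 := by
  obtain ⟨a, b, c, d, e, f, rfl⟩ := symm_form h
  simp [bf, det_fin_three, cross_apply, mulVec, dotProduct, Fin.sum_univ_three]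
  ring

theorem lor_gram' {C : RM} (h : Cᵀ = C) {x v : R3} (h0 : nq C x v = 0) (y : R3) :
    nq C x x * (nq C y y * nq C v v - nq C y v ^ 2) ≤ nq C x y ^ 2 * nq C v v := by
  have e : nq C x x * (nq C y y * nq C v v - nq C y v ^ 2) - nq C x y ^ 2 * nq C v v +
      2 * nq C x y * nq C y v * nq C x v - nq C y y * nq C x v ^ 2 =
      -(C.det ^ 2 * (x ⬝ᵥ (y ⨯₃ v))) ^ 2 := by
    simp only [nq]
    linear_combination (-C.det ^ 3) * lor_gram h x y v
  rw [h0] at e
  nlinarith [sq_nonneg (C.det ^ 2 * (x ⬝ᵥ (y ⨯₃ v)))]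

theorem Ind.pos_of_perp (h : Ind B) {v x : R3} (hv : nq (rm B) v v < 0) (hx : x ≠ 0)
    (h0 : nq (rm B) x v = 0) : 0 < nq (rm B) x x := by
  obtain ⟨u, hu⟩ := h.exists_pos
  have hu' : 0 < nq (rm B) (rv u) (rv u) := by rw [nq_cast]; exact_mod_cast hu
  have h1 : 0 ≤ nq (rm B) x x := by
    by_contra hn
    have hn := not_le.1 hn
    have k := lor_gram' h.rsymm h0 (rv u)
    have k1 : nq (rm B) (rv u) (rv u) * nq (rm B) v v - nq (rm B) (rv u) v ^ 2 < 0 := by
      have := mul_neg_of_pos_of_neg hu' hv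
      nlinarith [sq_nonneg (nq (rm B) (rv u) v)]
    have k2 := mul_pos_of_neg_of_neg hn k1
    have k3 := mul_nonpos_of_nonneg_of_nonpos (sq_nonneg (nq (rm B) x (rv u))) hv.le
    linarith
  refine lt_of_le_of_ne h1 fun e => hx ?_
  have h2 : ∀ y, nq (rm B) x y = 0 := by
    intro y
    have k := lor_gram' h.rsymm h0 y
    rw [← e, zero_mul] at k
    by_contra hne
    have := mul_neg_of_pos_of_neg (sq_pos_of_ne_zero hne) hv
    linarith
  have h3 := h2 ((rm B).adjugate *ᵥ x)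
  rw [nq, bf_adj] at h3
  have hd := h.rdet
  have h4 : x ⬝ᵥ x = 0 := by simpa [hd] using h3
  exact dotProduct_self_eq_zero.1 h4

theorem Ind.rcs (h : Ind B) {v : R3} (hv : nq (rm B) v v < 0) (x : R3) :
    nq (rm B) v v * nq (rm B) x x ≤ nq (rm B) x v ^ 2 := by
  have hc := bf_comm h.rsymm v x
  have h0 : nq (rm B) (nq (rm B) v v • x - nq (rm B) x v • v) v = 0 := by
    simp only [nq, bf_sub_left, bf_smul_left]
    ring
  have e : nq (rm B) (nq (rm B) v v • x - nq (rm B) x v • v)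
      (nq (rm B) v v • x - nq (rm B) x v • v) =
      nq (rm B) v v * (nq (rm B) v v * nq (rm B) x x - nq (rm B) x v ^ 2) := by
    simp only [nq, bf_sub_left, bf_smul_left, bf_sub_right, bf_smul_right, hc]
    ring
  have h1 : 0 ≤ nq (rm B) v v * (nq (rm B) v v * nq (rm B) x x - nq (rm B) x v ^ 2) := by
    rw [← e]
    by_cases hz : nq (rm B) v v • x - nq (rm B) x v • v = 0
    · rw [hz]
      simp [nq, bf]
    · exact (h.pos_of_perp hv hz h0).le
  by_contra hn
  have := mul_neg_of_neg_of_pos hv (sub_pos.2 (not_le.1 hn))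
  linarith

theorem Ind.adj (h : Ind B) : Ind B.adjugate := by
  have e : ∀ x : V3, (B *ᵥ x) ⬝ᵥ B.adjugate *ᵥ (B *ᵥ x) = -nq B x x := by
    intro x
    rw [adj_mulVec, dotProduct_smul, smul_eq_mul, nq, bf, dotProduct_comm]
    ring
  obtain ⟨u, hu⟩ := h.exists_pos
  obtain ⟨v, hv⟩ := h.exists_neg
  refine ⟨adj_symm h.1, ?_, ⟨B *ᵥ v, ?_⟩, B *ᵥ u, ?_⟩
  · rw [det_adj]
    exact pow_ne_zero _ h.2.1
  · rw [e]
    linarith
  · rw [e]
    linarith

theorem lor_step {C : M3} {g : G3} (hg : g ∈ SOq C) : g.transpose ∈ SOq C.adjugate := by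
  have h1 := congrArg adjugate (mem_SOq.1 hg)
  have h2 : (mat g).adjugate = mat g⁻¹ := rfl
  rw [adjugate_mul_distrib, adjugate_mul_distrib, ← adjugate_transpose, h2,
    ← Matrix.mul_assoc] at h1
  have h3 : (g⁻¹).transpose ∈ SOq C.adjugate := by
    rw [mem_SOq, mat_transpose, transpose_transpose]
    exact h1
  rw [transpose_inv'] at h3
  exact inv_mem_iff.1 h3

theorem tr_SOq (h : Ind B) : tr (SOq B) = SOq B.adjugate := by
  ext g
  rw [mem_tr]
  refine ⟨fun hg => ?_, fun hg => ?_⟩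
  · have h1 := lor_step hg
    rwa [transpose_transpose'] at h1
  have h1 := mem_SOq.1 (lor_step hg)
  rw [adj_adj, Matrix.mul_smul, Matrix.smul_mul] at h1
  exact mem_SOq.2 (smul_right_injective _ h.2.1 h1)

end Pool.Agent.MP_5045a8_al.O

end

section

/-! Congruence conditions. -/

namespace Pool.Agent.MP_5045a8_al.O

open Matrix

theorem exists_modulus {n : ℤ} (hn : n < 0) :
    ∃ M : ℕ, 0 < M ∧ ∀ m : ℤ, (M : ℤ) ∣ m - n → ¬ IsSquare m := by
  refine ⟨4 * n.natAbs ^ 2, by have := Int.natAbs_pos.2 hn.ne; positivity, ?_⟩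
  rintro m ⟨t, ht⟩ ⟨r, hr⟩
  rw [Nat.cast_mul, Nat.cast_pow, Int.natCast_natAbs, sq_abs] at ht
  push_cast at ht
  have e : (-1 - 4 * n * t) * (-n) = r ^ 2 := by linear_combination hr - ht
  have hc : IsCoprime (-1 - 4 * n * t) (-n) := ⟨-1, 4 * t, by ring⟩
  obtain ⟨s, hs | hs⟩ := Int.sq_of_isCoprime hc e
  · have h4 : ((s : ZMod 4)) ^ 2 = -1 := by
      have := congrArg (Int.cast : ℤ → ZMod 4) hs
      push_cast at this
      rw [← this, show (4 : ZMod 4) = 0 from rfl]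
      ring
    revert h4
    generalize (s : ZMod 4) = a
    revert a
    decide
  · have h0 : s ≠ 0 := by
      rintro rfl
      have h1 : 4 * (n * t) = -1 := by linear_combination -hs
      omega
    have h1 : 0 < s ^ 2 := by positivity
    rw [hs] at e
    nlinarith [sq_nonneg r, mul_pos h1 (neg_pos.2 hn)]

theorem exists_congr {K S : Subgroup G3} (hK : K.relIndex S ≠ 0) {M : ℕ} (hM : 0 < M) :
    ∃ K' ≤ K, K'.relIndex S ≠ 0 ∧ ∀ g ∈ K', ∀ p : V3, ∃ z : V3, mat g *ᵥ p = p + (M : ℤ) • z := by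
  have : NeZero M := ⟨hM.ne'⟩
  let ρ : G3 →* SpecialLinearGroup (Fin 3) (ZMod M) :=
    SpecialLinearGroup.map (Int.castRingHom (ZMod M))
  have hk : ρ.ker.index ≠ 0 := by
    rw [Subgroup.index_ker]
    exact Nat.card_pos.ne'
  have hk' : ρ.ker.relIndex S ≠ 0 := fun h => hk (Subgroup.index_eq_zero_of_relIndex_eq_zero h)
  refine ⟨K ⊓ ρ.ker, inf_le_left, Subgroup.relIndex_inf_ne_zero hK hk', fun g hg p => ?_⟩
  have e : ρ g = ρ 1 := by rw [map_one]; exact hg.2
  have hd : ∀ i j, ∃ c : ℤ, mat g i j - (1 : M3) i j = M * c := fun i j => by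
    have e' : ((g i j : ℤ) : ZMod M) = (((1 : G3) i j : ℤ) : ZMod M) :=
      congrArg (fun A : SpecialLinearGroup (Fin 3) (ZMod M) => A i j) e
    exact (ZMod.intCast_eq_intCast_iff_dvd_sub _ _ _).1 e'.symm
  choose C hC using hd
  refine ⟨Matrix.of C *ᵥ p, ?_⟩
  have e2 : mat g = 1 + (M : ℤ) • Matrix.of C := by
    ext i j
    rw [Matrix.add_apply, Matrix.smul_apply, Matrix.of_apply, smul_eq_mul, ← hC]
    ring
  rw [e2, add_mulVec, one_mulVec, smul_mulVec]

theorem nq_congr (B P : M3) (p z : V3) (M : ℤ) :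
    M ∣ nq B (P *ᵥ (p + M • z)) (P *ᵥ (p + M • z)) - nq B (P *ᵥ p) (P *ᵥ p) := by
  refine ⟨-B.det * (bf B (P *ᵥ p) (P *ᵥ z) + bf B (P *ᵥ z) (P *ᵥ p) +
    M * bf B (P *ᵥ z) (P *ᵥ z)), ?_⟩
  simp only [nq, mulVec_add, mulVec_smul, bf_add_left, bf_add_right, bf_smul_left, bf_smul_right]
  ring

end Pool.Agent.MP_5045a8_al.O

end

section

/-! Integral axes with non-square norm are dense. -/

namespace Pool.Agent.MP_5045a8_al.O

open Matrix

theorem good_am_smul (B : RM) (t : ℝ) (c : R3) : Am B (t • c) = t • Am B c := by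
  rw [Am, Am, ← Matrix.mul_smul]
  congr 1
  ext i j
  fin_cases i <;> fin_cases j <;> simp [crm]

theorem good_nq_smul (B : RM) (t : ℝ) (c : R3) : nq B (t • c) (t • c) = t ^ 2 * nq B c c := by
  rw [nq, nq, bf_smul_left, bf_smul_right]
  ring

theorem good_wq_smul (B P : RM) (p : R3) (ε : ℝ) {t : ℝ} (ht : 0 ≤ t) (c : R3) :
    wq B P p ε (t • c) = t ^ 4 * wq B P p ε c := by
  have e : wv B (t • c) p (ε * √(nq B (t • c) (t • c))) =
      t ^ 2 • wv B c p (ε * √(nq B c c)) := by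
    rw [good_nq_smul, Real.sqrt_mul (sq_nonneg t), Real.sqrt_sq ht, wv, wv, good_am_smul]
    simp only [smul_mulVec, mulVec_smul, smul_add, smul_smul]
    congr 2 <;> ring
  rw [wq, wq, e, bf_smul_left, bf_smul_right]
  ring

theorem good_cont (B P : RM) (p : R3) (ε : ℝ) :
    (Continuous fun c : R3 => nq B c c) ∧ Continuous (wq B P p ε) := by
  have h0 : ∀ (Q : RM) (f : R3 → R3), Continuous f → Continuous fun c => bf Q (f c) (f c) :=
    fun Q f hf => hf.dotProduct (continuous_const.matrix_mulVec hf)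
  have h1 : Continuous fun c : R3 => nq B c c := continuous_const.mul (h0 B _ continuous_id)
  have h2 : Continuous fun c : R3 => Am B c := by
    refine continuous_const.matrix_mul (continuous_matrix fun i j => ?_)
    fin_cases i <;> fin_cases j <;> simp [crm] <;> fun_prop
  have h3 := h2.matrix_mulVec (continuous_const (y := p))
  exact ⟨h1, h0 P _ ((h2.matrix_mulVec h3).add ((continuous_const.mul h1.sqrt).smul h3))⟩

theorem exists_good {B : M3} (h : Ind B) (P : RM) {p c₀ : R3} {ε : ℝ}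
    (h0 : 0 < nq (rm B) c₀ c₀) (hw : 0 < wq (rm B) P p ε c₀) :
    ∃ c : V3, 0 < nq B c c ∧ ¬ IsSquare (nq B c c) ∧ 0 < wq (rm B) P p ε (rv c) := by
  obtain ⟨v, hv⟩ := h.exists_neg
  obtain ⟨M, M0, hM⟩ := exists_modulus hv
  obtain ⟨c1, c2⟩ := good_cont (rm B) P p ε
  obtain ⟨δ, δ0, hδ⟩ := Metric.isOpen_iff.1
    ((isOpen_lt continuous_const c1).inter (isOpen_lt continuous_const c2)) c₀ ⟨h0, hw⟩
  have M1 : (0 : ℝ) < M := by exact_mod_cast M0
  obtain ⟨t, ht⟩ := exists_nat_gt ((‖rv v‖ + M) / (M * δ))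
  have t0 : (0 : ℝ) < t := lt_of_le_of_lt (by positivity) ht
  have s0 : (0 : ℝ) < M * t := mul_pos M1 t0
  obtain ⟨z, hz⟩ : ∃ z : V3, ∀ i, |t * c₀ i - z i| ≤ 1 / 2 :=
    ⟨fun i => round (t * c₀ i), fun i => abs_sub_round _⟩
  have key : ((M : ℝ) * t)⁻¹ • rv (v + (M : ℤ) • z) ∈ Metric.ball c₀ δ := by
    rw [Metric.mem_ball, dist_pi_lt_iff δ0]
    intro i
    have a1 : |(v i : ℝ)| ≤ ‖rv v‖ := norm_le_pi_norm (rv v) i
    have e : (((M : ℝ) * t)⁻¹ • rv (v + (M : ℤ) • z)) i - c₀ i =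
        (v i - M * (t * c₀ i - z i)) / (M * t) := by
      simp only [rv, Pi.smul_apply, Pi.add_apply, smul_eq_mul]
      push_cast
      field_simp
      ring
    rw [Real.dist_eq, e, abs_div, abs_of_pos s0, div_lt_iff₀ s0]
    rw [div_lt_iff₀ (by positivity)] at ht
    have a2 := abs_sub (v i : ℝ) (M * (t * c₀ i - z i))
    rw [abs_mul, abs_of_pos M1] at a2
    have a3 := mul_le_mul_of_nonneg_left (hz i) M1.le
    linarith
  obtain ⟨k1, k2⟩ := hδ key
  rw [Set.mem_ofPred_eq, good_nq_smul, nq_cast] at k1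
  rw [Set.mem_ofPred_eq, good_wq_smul _ _ _ _ (inv_pos.2 s0).le] at k2
  refine ⟨v + (M : ℤ) • z, ?_, hM _ ?_, (mul_pos_iff_of_pos_left (by positivity)).1 k2⟩
  · exact_mod_cast (mul_pos_iff_of_pos_left (by positivity)).1 k1
  · simpa only [one_mulVec] using nq_congr B 1 v z M

end Pool.Agent.MP_5045a8_al.O

end

section

/-! Orbits accumulate at every isotropic direction. -/

namespace Pool.Agent.MP_5045a8_al.O

open Matrix

theorem big_real {W : ℝ} (hW : 0 < W) (a b c d e T : ℝ) :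
    ∃ Y : ℝ, ∀ τ s : ℝ, Y ≤ τ → |s| ≤ 2 →
      T < τ ^ 2 * W + τ * (a + s * b) + (c + s * d + s ^ 2 * e) := by
  refine ⟨(|a| + 2 * |b| + (|c| + 2 * |d| + 4 * |e|) + |T| + 1) / W + 1, fun τ s hτ hs => ?_⟩
  have ha := abs_nonneg a
  have hb := abs_nonneg b
  have hc := abs_nonneg c
  have hd := abs_nonneg d
  have he := abs_nonneg e
  have hT := abs_nonneg T
  have hq : 0 ≤ (|a| + 2 * |b| + (|c| + 2 * |d| + 4 * |e|) + |T| + 1) / W := by positivity
  have h1 : 1 ≤ τ := by linarith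
  have h2 : |a| + 2 * |b| + (|c| + 2 * |d| + 4 * |e|) + |T| + 1 ≤ τ * W := by
    rw [← div_le_iff₀ hW]
    linarith
  have h3 : -(2 * |b|) ≤ s * b := by
    have : |s * b| ≤ 2 * |b| := by
      rw [abs_mul]
      exact mul_le_mul_of_nonneg_right hs hb
    exact (abs_le.1 this).1
  have h4 : -(2 * |d|) ≤ s * d := by
    have : |s * d| ≤ 2 * |d| := by
      rw [abs_mul]
      exact mul_le_mul_of_nonneg_right hs hd
    exact (abs_le.1 this).1
  have h5 : -(4 * |e|) ≤ s ^ 2 * e := by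
    have h6 : |s ^ 2| ≤ 4 := by
      rw [abs_pow]
      nlinarith [abs_nonneg s]
    have : |s ^ 2 * e| ≤ 4 * |e| := by
      rw [abs_mul]
      exact mul_le_mul_of_nonneg_right h6 he
    exact (abs_le.1 this).1
  have h7 : -(|a| + 2 * |b|) ≤ a + s * b := by linarith [neg_abs_le a]
  have h8 : τ * -(|a| + 2 * |b|) ≤ τ * (a + s * b) :=
    mul_le_mul_of_nonneg_left h7 (by linarith)
  have h9 : τ * (|a| + 2 * |b| + (|c| + 2 * |d| + 4 * |e|) + |T| + 1) ≤ τ * (τ * W) :=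
    mul_le_mul_of_nonneg_left h2 (by linarith)
  have h10 : 1 * ((|c| + 2 * |d| + 4 * |e|) + |T| + 1) ≤
      τ * ((|c| + 2 * |d| + 4 * |e|) + |T| + 1) :=
    mul_le_mul_of_nonneg_right h1 (by positivity)
  nlinarith [neg_abs_le c, le_abs_self T]

theorem big_bound (P : RM) {w : R3} (hW : 0 < bf P w w) (p q : R3) (T : ℝ) :
    ∃ Y : ℝ, ∀ τ s : ℝ, Y ≤ τ → |s| ≤ 2 →
      T < bf P (τ • w + (p + s • q)) (τ • w + (p + s • q)) := by
  obtain ⟨Y, hY⟩ := big_real hW (bf P w p + bf P p w) (bf P w q + bf P q w) (bf P p p)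
    (bf P p q + bf P q p) (bf P q q) T
  refine ⟨Y, fun τ s hτ hs => (hY τ s hτ hs).trans_eq ?_⟩
  simp only [bf_add_left, bf_add_right, bf_smul_left, bf_smul_right]
  ring

theorem big_cast (B : M3) (c : V3) (x y : ℤ) :
    rm (gm B c x y) = gm (rm B) (rv c) (x : ℝ) (y : ℝ) := by
  rw [gm, gm, ← am_cast, ← rm_mul, ← rm_one]
  ext i j
  simp only [rm, map_apply, Matrix.add_apply, Matrix.smul_apply, smul_eq_mul, eq_intCast]
  push_cast
  ring

theorem big_vec (B : RM) (c p : R3) (x y ν : ℝ) :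
    gm B c x y *ᵥ p =
      (2 * y ^ 2) • wv B c p ν + (p + (2 * x * y - 2 * y ^ 2 * ν) • (Am B c *ᵥ p)) := by
  rw [gm, add_mulVec, add_mulVec, one_mulVec, smul_mulVec, smul_mulVec, ← mulVec_mulVec, wv]
  module

theorem big_pell {n x y : ℝ} (hn : 1 ≤ n) (hx : 0 < x) (hy : 0 < y)
    (h : x ^ 2 - n * y ^ 2 = 1) : |2 * x * y - 2 * y ^ 2 * √n| ≤ 2 := by
  have h1 : 1 ≤ √n := Real.one_le_sqrt.2 hn
  have h2 : √n ^ 2 = n := Real.sq_sqrt (by linarith)
  have h3 : (x - √n * y) * (x + √n * y) = 1 := by nlinarith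
  have h4 : y ≤ √n * y := by nlinarith
  have h5 : 0 < x + √n * y := by linarith
  have h6 : 0 < x - √n * y := by
    by_contra hc
    have := mul_nonpos_of_nonpos_of_nonneg (not_lt.1 hc) h5.le
    linarith
  have h7 : (x - √n * y) * y ≤ (x - √n * y) * (x + √n * y) :=
    mul_le_mul_of_nonneg_left (by linarith) h6.le
  have h8 : 0 < (x - √n * y) * y := mul_pos h6 hy
  rw [abs_le]
  constructor <;> nlinarith

theorem exists_big {B : M3} (h : Ind B) {K : Subgroup G3} (hK : K.relIndex (SOq B) ≠ 0)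
    (P : RM) {y : R3} (hy0 : bf (rm B) y y = 0) (hy : 0 < bf P y y) {p : V3} (hp : p ≠ 0)
    (T : ℝ) : ∃ g ∈ K, T < bf P (rv (mat g *ᵥ p)) (rv (mat g *ᵥ p)) := by
  have hyne : y ≠ 0 := by
    rintro rfl
    simp [bf] at hy
  obtain ⟨c₀, ε, t, hε, h0, ht, hw⟩ := exists_axis h.rsymm h.rdet hyne hy0 (rv_ne hp)
  have hw0 : 0 < wq (rm B) P (rv p) ε c₀ := by
    rw [wq, hw, bf_smul_left, bf_smul_right, ← mul_assoc]
    exact mul_pos (mul_self_pos.2 ht) hy
  obtain ⟨c, hN, hsq, hW⟩ := exists_good h P h0 hw0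
  rw [wq] at hW
  obtain ⟨Y, hY⟩ := big_bound P hW (rv p) (Am (rm B) (rv c) *ᵥ rv p) T
  obtain ⟨x, z, hx, hz, hpell, g, hg, e1, e2⟩ := exists_gm h.1 hN hsq hK (max ⌈Y⌉ 0)
  have hz0 : 0 < z := (le_max_right _ _).trans_lt hz
  have hzY : Y ≤ (z : ℝ) := by
    have : ((⌈Y⌉ : ℤ) : ℝ) ≤ z := by exact_mod_cast ((le_max_left _ _).trans hz.le)
    exact (Int.le_ceil Y).trans this
  have hz1 : (1 : ℝ) ≤ z := by exact_mod_cast hz0
  have hτ : Y ≤ 2 * (z : ℝ) ^ 2 := by nlinarith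
  have hn : (1 : ℝ) ≤ nq (rm B) (rv c) (rv c) := by
    rw [nq_cast]
    exact_mod_cast hN
  have hpr : (x : ℝ) ^ 2 - nq (rm B) (rv c) (rv c) * (z : ℝ) ^ 2 = 1 := by
    rw [nq_cast]
    exact_mod_cast hpell
  have hs := big_pell hn (by exact_mod_cast hx) (by exact_mod_cast hz0) hpr
  rcases hε with rfl | rfl
  · refine ⟨g, hg, ?_⟩
    rw [rv_mulVec, e1, big_cast, big_vec _ _ _ _ _ (1 * √(nq (rm B) (rv c) (rv c)))]
    refine hY _ _ hτ ?_
    rwa [one_mul]
  · refine ⟨g⁻¹, K.inv_mem hg, ?_⟩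
    rw [rv_mulVec, e2, big_cast, big_vec _ _ _ _ _ (-1 * √(nq (rm B) (rv c) (rv c)))]
    refine hY _ _ (by push_cast; rwa [neg_sq]) ?_
    rw [← abs_neg]
    refine le_of_eq_of_le (congrArg _ ?_) hs
    push_cast
    ring

end Pool.Agent.MP_5045a8_al.O

end

section

/-! The isotropic cone determines the form. -/

namespace Pool.Agent.MP_5045a8_al.O

open Matrix

variable {B : M3}

theorem iso_roots {A b C : ℝ} (hA : 0 < A) (hC : C < 0) :
    ∃ s t : ℝ, s ≠ t ∧ A + 2 * s * b + s ^ 2 * C = 0 ∧ A + 2 * t * b + t ^ 2 * C = 0 := by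
  have hd : 0 < b ^ 2 - A * C := by nlinarith [sq_nonneg b, mul_pos hA (neg_pos.2 hC)]
  have h1 := Real.sqrt_pos.2 hd
  have h2 := Real.sq_sqrt hd.le
  have hC' := hC.ne
  refine ⟨(-b + √(b ^ 2 - A * C)) / C, (-b - √(b ^ 2 - A * C)) / C, fun e => ?_, ?_, ?_⟩
  · have := (div_left_inj' hC').1 e
    linarith
  · field_simp
    linear_combination h2
  · field_simp
    linear_combination h2

theorem iso_expand {Q : RM} (h : Qᵀ = Q) (x v : R3) (t : ℝ) :
    bf Q (x + t • v) (x + t • v) = bf Q x x + 2 * t * bf Q x v + t ^ 2 * bf Q v v := by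
  rw [bf_add_left, bf_add_right, bf_add_right, bf_smul_left, bf_smul_left, bf_smul_right,
    bf_smul_right, bf_comm h v x]
  ring

theorem iso_signs (h : Ind B) : ∃ u v : R3, 0 < bf (rm B) u u ∧ bf (rm B) v v < 0 := by
  obtain ⟨-, -, ⟨u, hu⟩, v, hv⟩ := h
  refine ⟨rv u, rv v, ?_, ?_⟩
  · rw [bf_cast]
    exact_mod_cast hu
  · rw [bf_cast]
    exact_mod_cast hv

theorem iso_ratio {P Q : RM} (hP : Pᵀ = P) (hQ : Qᵀ = Q) (h : ∀ y, bf Q y y = 0 → bf P y y = 0)
    {x v : R3} (hx : 0 < bf Q x x) (hv : bf Q v v < 0) :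
    bf P x x * bf Q v v = bf Q x x * bf P v v := by
  obtain ⟨s, t, hst, hs, ht⟩ := iso_roots (b := bf Q x v) hx hv
  have h1 := h (x + s • v) (by rw [iso_expand hQ, hs])
  have h2 := h (x + t • v) (by rw [iso_expand hQ, ht])
  rw [iso_expand hP] at h1 h2
  refine mul_left_cancel₀ (sub_ne_zero.2 hst) ?_
  linear_combination (s * h2 - t * h1) * bf Q v v - (s * ht - t * hs) * bf P v v

theorem iso_ext {P Q : RM} (hP : Pᵀ = P) (hQ : Qᵀ = Q) (h : ∀ y, bf P y y = bf Q y y) : P = Q := by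
  obtain ⟨a, b, c, d, e, f, rfl⟩ := symm_form hP
  obtain ⟨a', b', c', d', e', f', rfl⟩ := symm_form hQ
  have h1 := h ![1, 0, 0]
  have h2 := h ![0, 1, 0]
  have h3 := h ![0, 0, 1]
  have h4 := h ![1, 1, 0]
  have h5 := h ![1, 0, 1]
  have h6 := h ![0, 1, 1]
  simp [bf, mulVec, dotProduct, Fin.sum_univ_three] at h1 h2 h3 h4 h5 h6
  rw [h1, h2, h3, show b = b' by linarith, show c = c' by linarith, show e = e' by linarith]

theorem Ind.exists_iso (h : Ind B) : ∃ y : R3, y ≠ 0 ∧ bf (rm B) y y = 0 := by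
  obtain ⟨u, v, hu, hv⟩ := iso_signs h
  obtain ⟨s, -, -, hs, -⟩ := iso_roots (b := bf (rm B) u v) hu hv
  refine ⟨u + s • v, fun e => ?_, by rw [iso_expand h.rsymm, hs]⟩
  have e1 : u = (-s) • v := by rw [neg_smul]; exact eq_neg_of_add_eq_zero_left e
  rw [e1, bf_smul_left, bf_smul_right] at hu
  nlinarith [sq_nonneg s]

theorem Ind.exists_moved (h : Ind B) {k : G3} (hk : k ∉ SOq B) :
    ∃ y : R3, bf (rm B) y y = 0 ∧ bf (rm B) (rm (mat k) *ᵥ y) (rm (mat k) *ᵥ y) ≠ 0 := by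
  by_contra hc
  push Not at hc
  simp only [bf_mulVec] at hc
  obtain ⟨P, hP⟩ : ∃ P, P = (rm (mat k))ᵀ * rm B * rm (mat k) := ⟨_, rfl⟩
  rw [← hP] at hc
  have hQ := h.rsymm
  have hPs : Pᵀ = P := by
    rw [hP, transpose_mul, transpose_mul, transpose_transpose, hQ, Matrix.mul_assoc]
  obtain ⟨u, v, hu, hv⟩ := iso_signs h
  have h0 := iso_ratio hPs hQ hc hu hv
  have h1 : P = (bf P v v / bf (rm B) v v) • rm B := by
    refine iso_ext hPs (by rw [transpose_smul, hQ]) fun y => ?_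
    have e : bf ((bf P v v / bf (rm B) v v) • rm B) y y =
        bf P v v / bf (rm B) v v * bf (rm B) y y := by
      rw [bf, smul_mulVec, dotProduct_smul, smul_eq_mul]
      rfl
    rw [e, div_mul_eq_mul_div, eq_div_iff hv.ne]
    rcases lt_trichotomy (bf (rm B) y y) 0 with hy | hy | hy
    · have h2 := iso_ratio hPs hQ hc hu hy
      refine mul_left_cancel₀ hu.ne' ?_
      linear_combination bf (rm B) y y * h0 - bf (rm B) v v * h2
    · rw [hc y hy, hy, zero_mul, mul_zero]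
    · rw [iso_ratio hPs hQ hc hy hv, mul_comm]
  obtain ⟨l, hl⟩ : ∃ l, l = bf P v v / bf (rm B) v v := ⟨_, rfl⟩
  rw [← hl] at h1
  have hd : (rm (mat k)).det = 1 := by
    rw [rm_det, show (mat k).det = 1 from k.2, Int.cast_one]
  have h3 : l ^ 3 = 1 := by
    have e := congrArg det (hP.symm.trans h1)
    rw [det_mul, det_mul, det_transpose, hd, det_smul, Fintype.card_fin, one_mul, mul_one] at e
    exact mul_right_cancel₀ h.rdet (e.symm.trans (one_mul _).symm)
  have h4 : l = 1 := (Odd.pow_inj (by decide : Odd 3)).1 (h3.trans (one_pow 3).symm)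
  rw [h4, one_smul] at h1
  exact hk (mem_SOq.2 (rm_inj (by rw [rm_mul, rm_mul, rm_transpose, ← hP, h1])))

end Pool.Agent.MP_5045a8_al.O

end

section

/-! Involutions of SL(3,Z). -/

namespace Pool.Agent.MP_5045a8_al.O

open Matrix

variable {σ : G3} {d : ℤ} {c a : V3} {B : M3}

theorem inv_ch {R : Type} [CommRing R] (S : Matrix (Fin 3) (Fin 3) R) :
    S * S * S - S.trace • (S * S) + S.adjugate.trace • S - S.det • 1 = 0 := by
  ext i j
  fin_cases i <;> fin_cases j <;>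
    simp [mul_apply, trace, adjugate_fin_three, det_fin_three, Fin.sum_univ_three] <;> ring

theorem inv_adj {R : Type} [CommRing R] (S : Matrix (Fin 3) (Fin 3) R) : (2 : R) • S.adjugate =
    (2 : R) • (S * S - S.trace • S) + (S.trace ^ 2 - (S * S).trace) • 1 := by
  ext i j
  fin_cases i <;> fin_cases j <;>
    simp [mul_apply, trace, adjugate_fin_three, Fin.sum_univ_three] <;> ring

theorem inv_minor {E : M3} (h : E.adjugate = 0) (i j k l : Fin 3) :
    E i j * E k l = E k j * E i l := by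
  have e := fun i j => congrFun (congrFun h i) j
  have e00 := e 0 0
  have e01 := e 0 1
  have e02 := e 0 2
  have e10 := e 1 0
  have e11 := e 1 1
  have e12 := e 1 2
  have e20 := e 2 0
  have e21 := e 2 1
  have e22 := e 2 2
  simp [adjugate_fin_three] at e00 e01 e02 e10 e11 e12 e20 e21 e22
  fin_cases i <;> fin_cases j <;> fin_cases k <;> fin_cases l <;> simp <;> linarith

theorem inv_zpow {g : G3} (hW : (mat g - 1) * (mat g - 1) = 0) (n : ℤ) :
    mat (g ^ n) = 1 + n • (mat g - 1) := by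
  have h1 : mat g = 1 + (mat g - 1) := by simp
  have h2 := mat_mul_inv g
  generalize mat g - 1 = W at h1 hW
  have h3 : mat g⁻¹ = 1 - W := by
    have h4 : (1 - W) * mat g = 1 := by
      rw [h1, sub_mul, mul_add, mul_add, hW]
      simp
    calc mat g⁻¹ = (1 - W) * mat g * mat g⁻¹ := by rw [h4, one_mul]
      _ = 1 - W := by rw [mul_assoc, h2, mul_one]
  induction n using Int.induction_on with
  | zero => simp [mat_one]
  | succ n ih =>
    rw [_root_.zpow_add_one, mat_mul, ih, h1, add_mul, mul_add, mul_add, smul_mul_assoc,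
      smul_mul_assoc, hW]
    simp only [mul_one, one_mul, smul_zero, add_smul, one_smul]
    abel
  | pred n ih =>
    rw [_root_.zpow_sub_one, mat_mul, ih, h3, add_mul, mul_sub, mul_sub, smul_mul_assoc,
      smul_mul_assoc, hW]
    simp only [mul_one, one_mul, smul_zero, sub_smul, one_smul]
    abel

theorem exists_invo (h1 : σ ≠ 1) (h2 : σ ^ 2 = 1) : ∃ d c a, Invo σ d c a := by
  have hS : mat σ * mat σ = 1 := by rw [← mat_mul, ← sq, h2, mat_one]
  have hd := mat_det σ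
  have hA : (mat σ).adjugate = mat σ := by
    have := mul_adjugate (mat σ)
    rw [hd, one_smul] at this
    calc (mat σ).adjugate = mat σ * mat σ * (mat σ).adjugate := by rw [hS, one_mul]
      _ = mat σ := by rw [mul_assoc, this, mul_one]
  have h3 := inv_ch (mat σ)
  rw [hS, hA, hd, one_mul, one_smul] at h3
  have h4 : (1 + (mat σ).trace) • (mat σ - 1) = 0 := by
    rw [← h3, add_smul, one_smul, smul_sub]
    abel
  have h5 : (mat σ).trace = -1 := by
    rcases smul_eq_zero.1 h4 with h | h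
    · linarith
    · exact absurd (mat_ext (sub_eq_zero.1 h)) h1
  have hE : (mat σ + 1) * (mat σ + 1) = (2 : ℤ) • (mat σ + 1) := by
    rw [add_mul, mul_add, mul_add, hS, two_smul]
    simp only [mul_one, one_mul]
    abel
  have ht : (mat σ + 1).trace = 2 := by
    rw [trace_add, h5, trace_one]
    simp
  have h6 := inv_adj (mat σ + 1)
  rw [hE, trace_smul, ht, sub_self, smul_zero, zero_add] at h6
  have h7 : (mat σ + 1).adjugate = 0 := by
    rw [show (2 : ℤ) ^ 2 - (2 : ℤ) • (2 : ℤ) = 0 by norm_num, zero_smul] at h6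
    exact (smul_eq_zero.1 h6).resolve_left two_ne_zero
  have h8 : ∃ i j, (mat σ + 1) i j ≠ 0 := by
    by_contra hc
    push Not at hc
    have : mat σ + 1 = 0 := by
      ext i j
      exact hc i j
    rw [this, trace_zero] at ht
    exact absurd ht (by norm_num)
  obtain ⟨i, j, hij⟩ := h8
  refine ⟨(mat σ + 1) i j, fun k => (mat σ + 1) k j, fun l => (mat σ + 1) i l, hij, ?_, ?_⟩
  · ext k l
    exact inv_minor h7 i j k l
  · exact congrFun (congrFun hE i) j

theorem Invo.ne (h : Invo σ d c a) : c ≠ 0 := by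
  rintro rfl
  have := h.2.2
  rw [dotProduct_zero] at this
  exact h.1 (by omega)

theorem Invo.conj (h : Invo σ d c a) (g : G3) :
    Invo (g * σ * g⁻¹) d (mat g *ᵥ c) (a ᵥ* mat g⁻¹) := by
  refine ⟨h.1, ?_, ?_⟩
  · rw [← vecMulVec_mul, ← mul_vecMulVec, ← h.2.1, mat_mul, mat_mul, Matrix.mul_smul,
      Matrix.smul_mul, mul_add, add_mul, mul_one, mat_mul_inv]
  · rw [← dotProduct_mulVec, mulVec_mulVec, mat_inv_mul, one_mulVec, h.2.2]

theorem Invo.transpose (h : Invo σ d c a) : Invo σ.transpose d a c := by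
  refine ⟨h.1, ?_, ?_⟩
  · rw [← transpose_vecMulVec, ← h.2.1, mat_transpose, transpose_smul, transpose_add,
      transpose_one]
  · rw [dotProduct_comm, h.2.2]

theorem inv_bound (hd : d ≠ 0) (hD : B.det ≠ 0) {k : ℤ}
    (e : bf B c c * k = 4 * d ^ 2 * B.det) : |nq B c c| ≤ 4 * d ^ 2 * B.det ^ 2 := by
  have h1 : |bf B c c| ≤ |4 * d ^ 2 * B.det| :=
    Int.le_of_dvd (abs_pos.2 (by positivity)) ((abs_dvd_abs _ _).2 ⟨k, e.symm⟩)
  rw [abs_mul, abs_of_nonneg (show 0 ≤ 4 * d ^ 2 by positivity)] at h1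
  rw [nq, abs_mul, abs_neg, ← sq_abs B.det]
  nlinarith [abs_nonneg B.det]

theorem Invo.bound (h : Invo σ d c a) (hB : Bᵀ = B) (hD : B.det ≠ 0)
    (e : (2 * d) • B *ᵥ c - bf B c c • a = 0) : |nq B c c| ≤ 4 * d ^ 2 * B.det ^ 2 := by
  have _ := hB
  refine inv_bound h.1 hD (k := bf B.adjugate a a) ?_
  have e1 := congrArg (fun x => a ⬝ᵥ B.adjugate *ᵥ x) (sub_eq_zero.1 e)
  simp only [mulVec_smul, adj_mulVec, dotProduct_smul, smul_eq_mul, h.2.2] at e1
  rw [bf.eq_1 B.adjugate]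
  linear_combination -e1

theorem Invo.bound' (h : Invo σ d c a) (hB : Bᵀ = B) (hD : B.det ≠ 0)
    (e : (2 * d) • B.adjugate *ᵥ a - bf B.adjugate a a • c = 0) :
    |nq B c c| ≤ 4 * d ^ 2 * B.det ^ 2 := by
  have _ := hB
  refine inv_bound h.1 hD (k := bf B.adjugate a a) ?_
  have e1 := congrArg (fun x => c ⬝ᵥ B *ᵥ x) (sub_eq_zero.1 e)
  simp only [mulVec_smul, mulVec_adj, dotProduct_smul, smul_eq_mul, dotProduct_comm c a,
    h.2.2] at e1
  rw [bf.eq_1 B]
  linear_combination -e1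

theorem Invo.cone (h : Invo σ d c a) (hB : Bᵀ = B) {y : R3} (hy : bf (rm B) y y = 0) :
    (d : ℝ) ^ 2 * bf (rm B) (rm (mat σ) *ᵥ y) (rm (mat σ) *ᵥ y) =
      -((rv a ⬝ᵥ y) * (rv ((2 * d) • B *ᵥ c - bf B c c • a) ⬝ᵥ y)) := by
  have hs : (rm B)ᵀ = rm B := by rw [← rm_transpose, hB]
  have e1 : (d : ℝ) • (rm (mat σ) + 1) = vecMulVec (rv c) (rv a) := by
    ext i j
    have := congrArg (Int.cast : ℤ → ℝ) (congrFun (congrFun h.2.1 i) j)
    by_cases hij : i = j <;> simpa [rm, rv, vecMulVec_apply, one_apply, hij] using this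
  have e2 : (d : ℝ) • rm (mat σ) *ᵥ y = (rv a ⬝ᵥ y) • rv c - (d : ℝ) • y := by
    have := congrArg (· *ᵥ y) e1
    simp only [smul_mulVec, add_mulVec, one_mulVec, vecMulVec_mulVec, op_smul_eq_smul,
      smul_add] at this
    exact eq_sub_of_add_eq this
  have e3 : rv ((2 * d) • B *ᵥ c - bf B c c • a) ⬝ᵥ y =
      2 * d * bf (rm B) y (rv c) - bf (rm B) (rv c) (rv c) * (rv a ⬝ᵥ y) := by
    rw [sub_eq_add_neg, ← neg_smul, rv_add, rv_smul, rv_smul, rv_mulVec, bf_cast, add_dotProduct,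
      smul_dotProduct, smul_dotProduct, bf.eq_1 (rm B) y, dotProduct_comm y]
    push_cast
    simp only [smul_eq_mul]
    ring
  rw [sq, mul_assoc, ← bf_smul_left, ← bf_smul_right, e2, e3]
  simp only [bf_sub_left, bf_sub_right, bf_smul_left, bf_smul_right, hy,
    bf_comm hs (rv c) y]
  ring

/-- The product of two involutions with the same centre. -/
theorem Invo.mem_tv (h : Invo σ d c a) {σ' : G3} {a' : V3} (h' : Invo σ' d c a')
    {K : Subgroup G3} (hσ : σ ∈ K) (hσ' : σ' ∈ K) : Mem K (tv c (a' - a)) := by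
  have e1 : d • mat σ = vecMulVec c a - d • 1 := by rw [← h.2.1, smul_add, add_sub_cancel_right]
  have e2 : d • mat σ' = vecMulVec c a' - d • 1 := by
    rw [← h'.2.1, smul_add, add_sub_cancel_right]
  have e3 : d • (mat (σ * σ') - 1) = vecMulVec c (a' - a) := by
    refine smul_right_injective M3 h.1 ?_
    have e4 : d • d • mat (σ * σ') = (d • mat σ) * (d • mat σ') := by
      rw [mat_mul, smul_mul_assoc, mul_smul_comm]
    change d • d • (mat (σ * σ') - 1) = d • vecMulVec c (a' - a)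
    rw [smul_sub, smul_sub, e4, e1, e2, sub_mul, mul_sub, mul_sub, vecMulVec_mul_vecMulVec, h.2.2,
      vecMulVec_smul, vecMulVec_sub]
    simp only [mul_smul_comm, smul_mul_assoc, mul_one, one_mul]
    module
  have hW : (mat (σ * σ') - 1) * (mat (σ * σ') - 1) = 0 := by
    have : (d • (mat (σ * σ') - 1)) * (d • (mat (σ * σ') - 1)) = 0 := by
      rw [e3, vecMulVec_mul_vecMulVec, sub_dotProduct, h.2.2, h'.2.2, sub_self, zero_smul,
        vecMulVec_zero]
    rw [smul_mul_smul_comm] at this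
    exact (smul_eq_zero.1 this).resolve_left (mul_ne_zero h.1 h.1)
  exact ⟨(σ * σ') ^ d, K.zpow_mem (K.mul_mem hσ hσ') d, by rw [inv_zpow hW, e3, tv]⟩

end Pool.Agent.MP_5045a8_al.O

end

section

/-! An involution with a good centre is impossible. -/

namespace Pool.Agent.MP_5045a8_al.O

open Matrix

theorem core_sq {B : M3} (h : Bᵀ = B) (c v : V3) :
    v ᵥ* Am B c ᵥ* Am B c = (B.det * (v ⬝ᵥ c)) • B *ᵥ c + nq B c c • v := by
  rw [vecMul_vecMul, am_sq h, vecMul_add, vecMul_smul, vecMul_smul, vecMul_one, vecMul_vecMulVec,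
    smul_smul]

theorem core_gm (B : M3) (c v : V3) (x y : ℤ) : v ᵥ* gm B c x y =
    v + (2 * x * y) • v ᵥ* Am B c + (2 * y ^ 2) • v ᵥ* Am B c ᵥ* Am B c := by
  rw [gm, vecMul_add, vecMul_add, vecMul_smul, vecMul_smul, vecMul_one, vecMul_vecMul]

theorem core {B : M3} (h : Ind B) {K : Subgroup G3} (hHP : HP K)
    (hK : K.relIndex (SOq B) ≠ 0) {σ : G3} {d : ℤ} {c a : V3} (hσ : σ ∈ K) (hI : Invo σ d c a)
    (hN : 4 * d ^ 2 * B.det ^ 2 < nq B c c) (hsq : ¬ IsSquare (nq B c c)) : False := by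
  obtain ⟨x, y, hx, hy, hp, g, hg, e1, e2⟩ :=
    exists_gm h.1 (lt_of_le_of_lt (by positivity) hN) hsq hK 0
  have hc : mat g *ᵥ c = c := by rw [e1, gm_fix]
  have hI' := hI.conj g
  rw [hc] at hI'
  have m1 := hI.mem_tv hI' hσ (K.mul_mem (K.mul_mem hg hσ) (K.inv_mem hg))
  have p0 : (a ᵥ* mat g⁻¹ - a) ⬝ᵥ c = 0 := by rw [sub_dotProduct, hI'.2.2, hI.2.2, sub_self]
  have p1 : a ᵥ* mat g⁻¹ - a ≠ 0 := by
    intro e
    have k3 : a ᵥ* Am B c ᵥ* Am B c ᵥ* Am B c = nq B c c • a ᵥ* Am B c := by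
      rw [vecMul_vecMul, vecMul_vecMul, am_cube h.1, vecMul_smul]
    have k1 : x • a ᵥ* Am B c = y • a ᵥ* Am B c ᵥ* Am B c := by
      rw [e2, core_gm] at e
      apply smul_right_injective V3 (show 2 * y ≠ 0 by omega)
      linear_combination (exp := 1) -e
    have k2 := congrArg (· ᵥ* Am B c) k1
    simp only [smul_vecMul, k3] at k2
    have k4 : a ᵥ* Am B c = 0 := by
      have : (x ^ 2 - nq B c c * y ^ 2) • a ᵥ* Am B c = 0 := by
        linear_combination (exp := 1) x • k1 + y • k2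
      rwa [hp, one_smul] at this
    have k5 := core_sq h.1 c a
    rw [k4, zero_vecMul, hI.2.2, nq] at k5
    have := hI.bound h.1 h.2.1 (by
      apply smul_right_injective V3 h.2.1
      linear_combination (exp := 1) -k5)
    exact absurd (le_abs_self _) (not_le.2 (this.trans_lt hN))
  generalize a ᵥ* mat g⁻¹ - a = φ at m1 p0 p1
  have m2 := m1.conj hg
  rw [hc] at m2
  have q1 := core_sq h.1 c φ
  rw [p0, mul_zero, zero_smul, zero_add] at q1
  have p2 : cr φ (φ ᵥ* mat g⁻¹) ≠ 0 := by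
    intro e
    have k1 : cr φ (φ ᵥ* Am B c) = 0 := by
      rw [e2, core_gm, q1] at e
      apply smul_right_injective V3 (show 2 * x * y ≠ 0 by positivity)
      generalize φ ᵥ* Am B c = t at e
      simp only [ext3, cr0, cr1, cr2, Pi.add_apply, Pi.smul_apply, smul_eq_mul, Pi.zero_apply] at e ⊢
      exact ⟨by linear_combination -e.1, by linear_combination -e.2.1, by linear_combination -e.2.2⟩
    have k2 := par_dot k1 φ
    have k3 := congrArg (· ᵥ* Am B c) k2
    simp only [smul_vecMul, q1] at k3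
    have hs := (dot_self_pos p1).ne'
    generalize φ ⬝ᵥ φ = s at k2 k3 hs
    generalize φ ᵥ* Am B c ⬝ᵥ φ = m at k2 k3
    have k4 : s ^ 2 * nq B c c = m ^ 2 := by
      apply smul_left_injective ℤ p1
      linear_combination (exp := 1) s • k3 + m • k2
    obtain ⟨k, rfl⟩ := (Int.pow_dvd_pow_iff two_ne_zero).1 ⟨_, k4.symm⟩
    exact hsq ⟨k, mul_left_cancel₀ (pow_ne_zero 2 hs) (by linear_combination k4)⟩
  have st := (lat_of_two m1.tr_tv m2.tr_tv hI.ne p2).stab hHP.tr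
  obtain ⟨z, hz, hz0⟩ := h.exists_iso
  obtain ⟨k, hk, hlt⟩ := exists_big h hK 1 hz0
    (by rw [bf, one_mulVec]; exact dotProduct_self_star_pos_iff.2 hz) hI.ne (rv c ⬝ᵥ rv c)
  have := st k.transpose hk
  rw [mat_transpose, vecMul_transpose] at this
  rw [bf, one_mulVec, rv_dot, rv_dot] at hlt
  rcases this with e | e <;> simp [e] at hlt

end Pool.Agent.MP_5045a8_al.O

end

section

/-! An element moving the conic across itself is impossible. -/

namespace Pool.Agent.MP_5045a8_al.O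

open Matrix

theorem cross_smul (t : ℝ) (P : RM) (x : R3) : bf (t • P) x x = t * bf P x x := by
  rw [bf, bf, smul_mulVec, dotProduct_smul, smul_eq_mul]

theorem cross_cast (B : M3) (k : G3) (t : ℝ) (p : V3) :
    bf ((t * -(rm B).det) • ((rm (mat k))ᵀ * rm B * rm (mat k))) (rv p) (rv p) =
      t * ((nq B (mat k *ᵥ p) (mat k *ᵥ p) : ℤ) : ℝ) := by
  rw [cross_smul, ← bf_mulVec, ← nq_cast, rv_mulVec, nq, mul_assoc]

theorem cross {B : M3} (h : Ind B) {K : Subgroup G3} (hHP : HP K)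
    (hK : K.relIndex (SOq B) ≠ 0) {σ : G3} {d : ℤ} {c a : V3} (hσ : σ ∈ K) (hI : Invo σ d c a)
    {k : G3} (hk : k ∈ K) {y₁ y₂ : R3} (h1 : bf (rm B) y₁ y₁ = 0) (h2 : bf (rm B) y₂ y₂ = 0)
    (p1 : 0 < bf (rm B) (rm (mat k) *ᵥ y₁) (rm (mat k) *ᵥ y₁))
    (p2 : bf (rm B) (rm (mat k) *ᵥ y₂) (rm (mat k) *ᵥ y₂) < 0) : False := by
  rw [bf_mulVec] at p1 p2
  have hy : ∀ s : ℝ, s ≠ 0 → ∃ y : R3, bf (rm B) y y = 0 ∧
      0 < bf (s • ((rm (mat k))ᵀ * rm B * rm (mat k))) y y := by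
    intro s hs
    rcases hs.lt_or_gt with hs | hs
    · exact ⟨y₂, h2, by rw [cross_smul]; exact mul_pos_of_neg_of_neg hs p2⟩
    · exact ⟨y₁, h1, by rw [cross_smul]; exact mul_pos hs p1⟩
  have hD : -(rm B).det ≠ 0 := neg_ne_zero.mpr h.rdet
  obtain ⟨y, hy0, hy1⟩ := hy (-1 * -(rm B).det) (mul_ne_zero (by norm_num) hD)
  obtain ⟨y', hy0', hy1'⟩ := hy (1 * -(rm B).det) (mul_ne_zero one_ne_zero hD)
  obtain ⟨g₀, hg₀, hn⟩ := exists_big h hK _ hy0 hy1 hI.ne 0
  rw [cross_cast] at hn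
  have hn' : nq B (mat k *ᵥ (mat g₀ *ᵥ c)) (mat k *ᵥ (mat g₀ *ᵥ c)) < 0 := by
    have : ((nq B (mat k *ᵥ (mat g₀ *ᵥ c)) (mat k *ᵥ (mat g₀ *ᵥ c)) : ℤ) : ℝ) < 0 := by linarith
    exact_mod_cast this
  obtain ⟨M, hM, hM'⟩ := exists_modulus hn'
  obtain ⟨K', hle, hK', hc⟩ := exists_congr hK hM
  obtain ⟨g, hg, hT⟩ := exists_big h hK' _ hy0' hy1' (mulVec_ne hI.ne g₀)
    ((4 * d ^ 2 * B.det ^ 2 : ℤ) : ℝ)
  rw [cross_cast, one_mul, Int.cast_lt] at hT
  have e : mat (k * g * g₀) *ᵥ c = mat k *ᵥ (mat g *ᵥ (mat g₀ *ᵥ c)) := by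
    rw [mat_mul, mat_mul, mulVec_mulVec, mulVec_mulVec]
  have hm : k * g * g₀ ∈ K := K.mul_mem (K.mul_mem hk (hle hg)) hg₀
  refine core h hHP hK (K.mul_mem (K.mul_mem hm hσ) (K.inv_mem hm)) (hI.conj (k * g * g₀))
    (by rwa [e]) ?_
  obtain ⟨z, hz⟩ := hc g hg (mat g₀ *ᵥ c)
  rw [e, hz]
  exact hM' _ (nq_congr B (mat k) _ z M)

end Pool.Agent.MP_5045a8_al.O

end

section

/-! Properness of the action on the hyperboloid. -/

namespace Pool.Agent.MP_5045a8_al.O

open Matrix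

/-- The positive definite form attached to a negative vector. -/
def finP {R : Type} [CommRing R] (B : Matrix (Fin 3) (Fin 3) R) (w x : Fin 3 → R) : R :=
  2 * nq B x w ^ 2 - nq B w w * nq B x x

theorem fin_coer {B : M3} (h : Ind B) {w : R3} (hw : nq (rm B) w w < 0) :
    ∃ ε : ℝ, 0 < ε ∧ ∀ x : R3, ε * ‖x‖ ^ 2 ≤ finP (rm B) w x := by
  have h1 : ∀ (t : ℝ) (x : R3), finP (rm B) w (t • x) = t ^ 2 * finP (rm B) w x := fun t x => by
    simp only [finP, nq, bf_smul_left, bf_smul_right]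
    ring
  have h2 : Continuous (finP (rm B) w) := by
    unfold finP nq bf
    fun_prop
  obtain ⟨u, hu, hm⟩ := (isCompact_sphere (0 : R3) 1).exists_isMinOn
    (NormedSpace.sphere_nonempty.2 zero_le_one) h2.continuousOn
  have hu0 : u ≠ 0 := fun e => by simp [e] at hu
  refine ⟨finP (rm B) w u, ?_, fun x => ?_⟩
  · unfold finP
    by_cases h0 : nq (rm B) u w = 0
    · nlinarith [mul_pos (neg_pos.2 hw) (h.pos_of_perp hw hu0 h0)]
    · linarith [h.rcs hw u, pow_pos (abs_pos.2 h0) 2, sq_abs (nq (rm B) u w)]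
  · by_cases hx : x = 0
    · rw [hx, ← zero_smul ℝ (0 : R3), h1]
      simp
    · have h3 := norm_pos_iff.2 hx
      have h4 : finP (rm B) w u ≤ finP (rm B) w (‖x‖⁻¹ • x) :=
        hm (show ‖x‖⁻¹ • x ∈ Metric.sphere (0 : R3) 1 by simp [norm_smul, h3.ne'])
      rwa [h1, inv_pow, inv_mul_eq_div, le_div_iff₀ (pow_pos h3 2)] at h4

theorem fin_set {B : M3} (h : Ind B) {w : V3} (hw : nq B w w < 0) (C : ℤ) :
    {x : V3 | finP B w x ≤ C}.Finite := by
  obtain ⟨ε, h0, h1⟩ := fin_coer h (w := rv w) (by rw [nq_cast]; exact_mod_cast hw)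
  refine (finite_of_entries (C / ε)).subset fun x hx i => ?_
  have h2 := h1 (rv x)
  have h3 : finP (rm B) (rv w) (rv x) ≤ C := by
    simp only [finP, nq_cast]
    exact_mod_cast hx
  have h4 := pow_le_pow_left₀ (norm_nonneg _) (norm_le_pi_norm (rv x) i) 2
  rw [Real.norm_eq_abs, sq_abs] at h4
  rw [le_div_iff₀' h0]
  exact (mul_le_mul_of_nonneg_left h4 h0.le).trans (h2.trans h3)

theorem fin_inv {B : M3} (g : SOq B) (x y : V3) : nq B (mat g *ᵥ x) (mat g *ᵥ y) = nq B x y := by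
  rw [nq, bf_mulVec, mem_SOq.1 g.2, nq]

theorem Ind.finite_near {B : M3} (h : Ind B) {v : V3} (hv : nq B v v < 0) (C : ℤ) :
    {g : SOq B | |nq B (mat g *ᵥ v) v| ≤ C}.Finite := by
  have h1 : ∀ w ∈ {w : V3 | finP B v w ≤ 2 * C ^ 2}, {g : SOq B | mat g *ᵥ v = w}.Finite := by
    intro w _
    rcases Set.eq_empty_or_nonempty {g : SOq B | mat g *ᵥ v = w} with e | ⟨g₀, rfl⟩
    · rw [e]
      exact Set.finite_empty
    refine ((Set.Finite.pi' fun i : Fin 3 => fin_set h ((fin_inv g₀ v v).trans_lt hv)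
      (finP B v (Pi.single i 1))).preimage
      (f := fun (g : SOq B) i => mat g *ᵥ Pi.single i 1) fun g _ g' _ e => ?_).subset
        fun g hg i => ?_
    · refine Subtype.ext (mat_ext (Matrix.ext fun i j => ?_))
      simpa using congrFun (congrFun e j) i
    · rw [← show mat g *ᵥ v = mat g₀ *ᵥ v from hg]
      simp only [Set.mem_ofPred_eq, finP, fin_inv, le_refl]
  refine ((fin_set h hv _).biUnion h1).subset fun g hg => Set.mem_biUnion (x := mat g *ᵥ v) ?_ rfl
  have h2 := pow_le_pow_left₀ (abs_nonneg _) (show |nq B (mat g *ᵥ v) v| ≤ C from hg) 2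
  rw [sq_abs] at h2
  change finP B v _ ≤ _
  rw [finP, fin_inv]
  linarith [mul_self_nonneg (nq B v v)]

end Pool.Agent.MP_5045a8_al.O

end

section

/-! SO(B,Z) has the Haagerup property. -/

namespace Pool.Agent.MP_5045a8_al.O

open Matrix

theorem hp_nq_sum (P : RM) {ι : Type} [Fintype ι] (c : ι → ℝ) (x : ι → R3) :
    nq P (∑ i, c i • x i) (∑ i, c i • x i) = ∑ i, ∑ j, c i * c j * nq P (x i) (x j) := by
  simp only [nq, bf, sum_dotProduct, mulVec_sum, dotProduct_sum, mulVec_smul, smul_dotProduct,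
    dotProduct_smul, smul_eq_mul, Finset.mul_sum]
  rw [Finset.sum_comm]
  refine Finset.sum_congr rfl fun i _ => Finset.sum_congr rfl fun j _ => by ring

theorem hp_nq_inv {B : M3} (g : SOq B) (x y : V3) :
    nq B (mat g *ᵥ x) (mat g *ᵥ y) = nq B x y := by
  rw [nq, bf_mulVec, mem_SOq.1 g.2, nq]

theorem hp_of_kernel {Γ : Type} [Group Γ] {a : Γ → ℝ} {L : Γ → Γ → ℝ} (hL : KP L)
    (ha : ∀ g, 1 ≤ |a g|) (h1 : a 1 = 1) (hd : ∀ g, L g g < 1)
    (hkey : ∀ g h, a (g⁻¹ * h) = a g * a h * (1 - L g h))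
    (hfin : ∀ R : ℝ, {g | |a g| ≤ R}.Finite) : HP Γ := by
  have hlt : ∀ g h, |L g h| < 1 := fun g h => by
    have e1 := hL.le_of_diag g h
    have e2 := hL.2 (Fin 2) ![g, h] ![1, 1]
    simp only [Fin.sum_univ_two, Matrix.cons_val_zero, Matrix.cons_val_one] at e2
    rw [hL.1 h g] at e2
    rw [abs_lt]
    constructor <;> linarith [hd g, hd h]
  have hlog : ∀ g h : Γ, Real.log |a (g⁻¹ * h)| =
      Real.log |a g| + Real.log |a h| + Real.log (1 - L g h) := by
    intro g h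
    have e1 := ha g
    have e2 := ha h
    have e3 := (abs_lt.1 (hlt g h)).2
    rw [← Real.log_mul (by positivity) (by positivity),
      ← Real.log_mul (by positivity) (by linarith), hkey, abs_mul, abs_mul,
      abs_of_pos (show 0 < 1 - L g h by linarith)]
  have hK : KP fun g h : Γ => -Real.log (1 - L g h) := by
    refine KP.of_hasSum (K := fun n g h => ((n : ℝ) + 1)⁻¹ * L g h ^ (n + 1))
      (fun n => (hL.pow _).smul (by positivity)) fun g h => ?_
    have := Real.hasSum_pow_div_log_of_abs_lt_one (hlt g h)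
    simpa only [div_eq_inv_mul] using this
  refine Haagerup.hp ⟨fun g => Real.log |a g|, fun g => Real.log_nonneg (ha g), by simp [h1],
    fun g => ?_, fun n g c hc => ?_, fun R => ?_⟩
  · have e1 := hkey g 1
    have e2 := hkey 1 g
    simp only [mul_one, inv_one, one_mul] at e1 e2
    show Real.log |a g⁻¹| = Real.log |a g|
    rw [e1, hL.1 g 1, mul_comm (a g) (a 1), ← e2]
  · have h3 := hK.2 _ g c
    simp only [hlog]
    let u : Fin n → ℝ := fun i => Real.log |a (g i)|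
    have e : ∑ i, ∑ j, c i * c j * (u i + u j + Real.log (1 - L (g i) (g j))) =
        (∑ i, c i * u i) * (∑ j, c j) + (∑ i, c i) * (∑ j, c j * u j) -
          ∑ i, ∑ j, c i * c j * -Real.log (1 - L (g i) (g j)) := by
      rw [Finset.sum_mul_sum, Finset.sum_mul_sum, ← Finset.sum_add_distrib,
        ← Finset.sum_sub_distrib]
      refine Finset.sum_congr rfl fun i _ => ?_
      rw [← Finset.sum_add_distrib, ← Finset.sum_sub_distrib]
      refine Finset.sum_congr rfl fun j _ => by ring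
    rw [e, hc]; linarith
  · refine (hfin (Real.exp R)).subset fun g hg => ?_
    have hg' : Real.log |a g| ≤ R := hg
    have e1 := ha g
    show |a g| ≤ Real.exp R
    rw [← Real.exp_log (x := |a g|) (by positivity)]
    exact Real.exp_le_exp.2 hg'

theorem hp_SOq {B : M3} (h : Ind B) : HP (SOq B) := by
  obtain ⟨v, hv⟩ := h.exists_neg
  have hs := h.rsymm
  let m : ℝ := nq (rm B) (rv v) (rv v)
  have hm : m < 0 := by
    show nq (rm B) (rv v) (rv v) < 0
    rw [nq_cast]; exact_mod_cast hv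
  have hm0 : m ≠ 0 := hm.ne
  let w : SOq B → R3 := fun g => rv (mat g *ᵥ v)
  have hww : ∀ g k : SOq B, nq (rm B) (w (g⁻¹ * k)) (rv v) = nq (rm B) (w g) (w k) := by
    intro g k
    obtain ⟨l, rfl⟩ : ∃ l, k = g * l := ⟨g⁻¹ * k, by simp⟩
    rw [inv_mul_cancel_left]
    simp only [w, nq_cast]
    have e : mat ((g * l : SOq B) : G3) *ᵥ v = mat g *ᵥ (mat l *ᵥ v) := by
      rw [mulVec_mulVec]; rfl
    rw [e, hp_nq_inv, nq_comm h.1]
  have hw1 : w 1 = rv v := by
    show rv (mat 1 *ᵥ v) = rv v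
    rw [mat_one, one_mulVec]
  have hwd : ∀ g, nq (rm B) (w g) (w g) = m := fun g => by
    rw [← hww, inv_mul_cancel, hw1]
  let a : SOq B → ℝ := fun g => nq (rm B) (w g) (rv v) / m
  have hae : ∀ g, nq (rm B) (w g) (rv v) = a g * m := fun g => by
    simp only [a]; field_simp
  have ha2 : ∀ g, 1 ≤ a g ^ 2 := fun g => by
    have e := h.rcs hm (w g)
    rw [hwd, hae] at e
    have e2 : 0 < m ^ 2 := by positivity
    change m * m ≤ _ at e
    nlinarith
  have ha : ∀ g, 1 ≤ |a g| := fun g => by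
    rw [← sq_le_sq₀ zero_le_one (abs_nonneg _), sq_abs, one_pow]; exact ha2 g
  have ha0 : ∀ g, a g ≠ 0 := fun g e => by
    have := ha2 g
    rw [e] at this; norm_num at this
  let u : SOq B → R3 := fun g => (a g)⁻¹ • w g - rv v
  have hup : ∀ g, nq (rm B) (u g) (rv v) = 0 := fun g => by
    have e := hae g
    have e0 := ha0 g
    simp only [u, nq, bf_sub_left, bf_smul_left] at e ⊢
    have : m = -(rm B).det * bf (rm B) (rv v) (rv v) := rfl
    field_simp
    linear_combination e + a g * this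
  have huu : ∀ g k, nq (rm B) (u g) (u k) = (a g * a k)⁻¹ * nq (rm B) (w g) (w k) - m := by
    intro g k
    have e := hae g
    have e' := hae k
    rw [nq_comm hs] at e'
    have e0 := ha0 g
    have e1 := ha0 k
    simp only [u, nq, bf_sub_left, bf_smul_left, bf_sub_right, bf_smul_right] at e e' ⊢
    have : m = -(rm B).det * bf (rm B) (rv v) (rv v) := rfl
    field_simp
    linear_combination (-a k) * e - a g * e' - a g * a k * this
  refine hp_of_kernel (a := a) (L := fun g k => nq (rm B) (u g) (u k) / (-m))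
    ⟨fun g k => congrArg (· / (-m)) (nq_comm hs _ _), fun ι _ x c => ?_⟩ ha ?_ (fun g => ?_) (fun g k => ?_)
    fun R => ?_
  · have e : ∑ i, ∑ j, c i * c j * (nq (rm B) (u (x i)) (u (x j)) / (-m)) =
        nq (rm B) (∑ i, c i • u (x i)) (∑ i, c i • u (x i)) / (-m) := by
      rw [hp_nq_sum, Finset.sum_div]
      refine Finset.sum_congr rfl fun i _ => ?_
      rw [Finset.sum_div]
      refine Finset.sum_congr rfl fun j _ => by ring
    rw [e]
    refine div_nonneg ?_ (by linarith)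
    by_cases h0 : ∑ i, c i • u (x i) = 0
    · rw [h0]; simp [nq, bf]
    · refine (h.pos_of_perp hm h0 ?_).le
      have : ∀ i, bf (rm B) (u (x i)) (rv v) = 0 := fun i => by
        have := hup (x i)
        rw [nq, mul_eq_zero, neg_eq_zero] at this
        exact this.resolve_left h.rdet
      simp only [bf] at this
      simp only [nq, bf, sum_dotProduct, smul_dotProduct, this, smul_zero, Finset.sum_const_zero,
        mul_zero]
  · simp only [a, hw1]
    exact div_self hm0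
  · have e0 := ha0 g
    have : 0 < (a g * a g)⁻¹ := inv_pos.2 (mul_self_pos.2 e0)
    rw [huu, hwd, div_lt_one (by linarith)]
    nlinarith
  · have e0 := ha0 g
    have e1 := ha0 k
    show nq (rm B) (w (g⁻¹ * k)) (rv v) / m = _
    rw [huu, hww]
    field_simp
    ring
  · refine (h.finite_near hv ⌈R * (-m)⌉).subset fun g hg => ?_
    have hg' : |a g| ≤ R := hg
    show |nq B (mat g *ᵥ v) v| ≤ ⌈R * (-m)⌉
    have e := hae g
    simp only [w, nq_cast] at e
    have : ((|nq B (mat g *ᵥ v) v| : ℤ) : ℝ) ≤ R * (-m) := by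
      rw [Int.cast_abs, e, abs_mul, abs_of_neg hm]
      exact mul_le_mul_of_nonneg_right hg' (by linarith)
    exact_mod_cast this.trans (Int.le_ceil _)

end Pool.Agent.MP_5045a8_al.O

end
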