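import Pool.Agent.Mg.F5045a8a.Gefe78a
import Pool.Agent.Mg.F5045a8.G1db804
import Mathlib

section

/-! Calculus of transvections. -/

namespace Pool.Agent.MP_5045a8_al.FT

open Matrix

variable {W : Subgroup G3} {p φ : Q3}

theorem tv_vv (a α b β : Q3) :
    vecMulVec a α * vecMulVec b β = (α ⬝ᵥ b) • vecMulVec a β := by
  ext i j
  simp [mul_apply, vecMulVec_apply, dotProduct, Fin.sum_univ_three]
  ring

theorem tv_mul (hφ : φ ⬝ᵥ p = 0) (a b : ℚ) :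
    (1 + a • vecMulVec p φ) * (1 + b • vecMulVec p φ) = (1 : QM) + (a + b) • vecMulVec p φ := by
  rw [add_mul, mul_add, mul_add, one_mul, one_mul, mul_one, smul_mul_smul_comm, tv_vv, hφ,
    zero_smul, smul_zero, add_zero, add_smul]
  abel

theorem tv_inv {g : G3} {r : ℚ} (hφ : φ ⬝ᵥ p = 0) (hg : qm g = 1 + r • vecMulVec p φ) :
    qm g⁻¹ = 1 + (-r) • vecMulVec p φ := by
  have h1 : qm g * (1 + (-r) • vecMulVec p φ) = 1 := by
    rw [hg, tv_mul hφ, add_neg_cancel, zero_smul, add_zero]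
  calc qm g⁻¹ = qm g⁻¹ * (qm g * (1 + (-r) • vecMulVec p φ)) := by rw [h1, mul_one]
    _ = 1 + (-r) • vecMulVec p φ := by
      rw [← mul_assoc, ← map_mul, inv_mul_cancel, map_one, one_mul]

theorem tv_zpow {g : G3} {r : ℚ} (hφ : φ ⬝ᵥ p = 0) (hg : qm g = 1 + r • vecMulVec p φ)
    (j : ℤ) : qm (g ^ j) = 1 + ((j : ℚ) * r) • vecMulVec p φ := by
  induction j using Int.induction_on with
  | zero => simp
  | succ n ih =>
    rw [_root_.zpow_add_one, map_mul, ih, hg, tv_mul hφ]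
    congr 2
    push_cast
    ring
  | pred n ih =>
    rw [_root_.zpow_sub_one, map_mul, ih, tv_inv hφ hg, tv_mul hφ]
    congr 2
    push_cast
    ring

theorem TvIn.mono {W' : Subgroup G3} (h : TvIn W p φ) (hle : W ≤ W') : TvIn W' p φ := by
  obtain ⟨r, hr, g, hg, e⟩ := h
  exact ⟨r, hr, g, hle hg, e⟩

theorem TvIn.large (h : TvIn W p φ) (hφ : φ ⬝ᵥ p = 0) (R : ℝ) :
    ∃ r : ℚ, R < |(r : ℝ)| ∧ ∃ g ∈ W, qm g = 1 + r • vecMulVec p φ := by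
  obtain ⟨r, hr, g, hg, e⟩ := h
  have hr' : 0 < |(r : ℝ)| := abs_pos.2 (by exact_mod_cast hr)
  obtain ⟨n, hn⟩ := exists_nat_gt (R / |(r : ℝ)|)
  refine ⟨((n : ℤ) : ℚ) * r, ?_, g ^ (n : ℤ), W.zpow_mem hg _, tv_zpow hφ e _⟩
  rw [div_lt_iff₀ hr'] at hn
  push_cast
  rw [abs_mul, Nat.abs_cast]
  exact hn

theorem tv_clear (v : Q3) : ∃ c : ℤ, c ≠ 0 ∧ ∃ w : Fin 3 → ℤ, ∀ i, (w i : ℚ) = c * v i := by
  refine ⟨(v 0).den * (v 1).den * (v 2).den, by positivity,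
    ![(v 0).num * (v 1).den * (v 2).den, (v 0).den * (v 1).num * (v 2).den,
      (v 0).den * (v 1).den * (v 2).num], fun i => ?_⟩
  fin_cases i
  · simp only [Fin.zero_eta, cons_val_zero]
    push_cast
    rw [← Rat.mul_den_eq_num (v 0)]
    ring
  · simp only [Fin.mk_one, cons_val_one, cons_val_zero]
    push_cast
    rw [← Rat.mul_den_eq_num (v 1)]
    ring
  · simp only [Fin.reduceFinMk, cons_val]
    push_cast
    rw [← Rat.mul_den_eq_num (v 2)]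
    ring

theorem tvIn_top (hφ : φ ⬝ᵥ p = 0) : TvIn ⊤ p φ := by
  obtain ⟨c, hc, w, hw⟩ := tv_clear p
  obtain ⟨d, hd, ψ, hψ⟩ := tv_clear φ
  have hz : ψ 0 * w 0 + ψ 1 * w 1 + ψ 2 * w 2 = 0 := by
    have : ((ψ 0 * w 0 + ψ 1 * w 1 + ψ 2 * w 2 : ℤ) : ℚ) = 0 := by
      push_cast
      simp only [hw, hψ]
      simp only [dotProduct, Fin.sum_univ_three] at hφ
      linear_combination (c : ℚ) * d * hφ
    exact_mod_cast this
  have hdet : (1 + vecMulVec w ψ : Matrix (Fin 3) (Fin 3) ℤ).det = 1 := by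
    rw [det_fin_three]
    simp [vecMulVec_apply]
    linear_combination hz
  refine ⟨(c : ℚ) * d, mul_ne_zero (by exact_mod_cast hc) (by exact_mod_cast hd),
    ⟨1 + vecMulVec w ψ, hdet⟩, Subgroup.mem_top _, ?_⟩
  ext i j
  rw [qm_apply]
  change (((1 + vecMulVec w ψ : Matrix (Fin 3) (Fin 3) ℤ) i j : ℤ) : ℚ) = _
  simp only [Matrix.add_apply, vecMulVec_apply, Matrix.smul_apply, smul_eq_mul, Matrix.one_apply]
  push_cast
  rw [hw, hψ]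
  split_ifs <;> ring

theorem tvIn_of_index (hW : W.index ≠ 0) (hφ : φ ⬝ᵥ p = 0) : TvIn W p φ := by
  obtain ⟨r, hr, g, -, e⟩ := tvIn_top hφ
  obtain ⟨n, hn, -, hg⟩ := Subgroup.exists_pow_mem_of_index_ne_zero hW g
  refine ⟨((n : ℤ) : ℚ) * r, mul_ne_zero (by exact_mod_cast hn.ne') hr, g ^ (n : ℤ), ?_,
    tv_zpow hφ e _⟩
  rwa [zpow_natCast]

theorem TvIn.conj {h : G3} (hh : h ∈ W) (ht : TvIn W p φ) :
    TvIn W (qm h *ᵥ p) (φ ᵥ* qm h⁻¹) := by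
  obtain ⟨r, hr, g, hg, e⟩ := ht
  refine ⟨r, hr, h * g * h⁻¹, W.mul_mem (W.mul_mem hh hg) (W.inv_mem hh), ?_⟩
  rw [map_mul, map_mul, e, mul_add, add_mul, mul_one, ← map_mul, mul_inv_cancel, map_one,
    Matrix.mul_smul, Matrix.smul_mul, mul_vecMulVec, vecMulVec_mul]

theorem TvIn.smul (ht : TvIn W p φ) {c d : ℚ} (hc : c ≠ 0) (hd : d ≠ 0) :
    TvIn W (c • p) (d • φ) := by
  obtain ⟨r, hr, g, hg, e⟩ := ht
  refine ⟨r / (c * d), div_ne_zero hr (mul_ne_zero hc hd), g, hg, ?_⟩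
  rw [e]
  ext i j
  simp only [Matrix.add_apply, vecMulVec_apply, Matrix.smul_apply, smul_eq_mul, Pi.smul_apply]
  field_simp

theorem TvIn.comm {a α b β : Q3} (ha : TvIn W a α) (hb : TvIn W b β) (h1 : α ⬝ᵥ a = 0)
    (h2 : β ⬝ᵥ b = 0) (h3 : β ⬝ᵥ a = 0) (h4 : α ⬝ᵥ b ≠ 0) : TvIn W a β := by
  obtain ⟨r, hr, g, hg, e⟩ := ha
  obtain ⟨s, hs, k, hk, f⟩ := hb
  refine ⟨r * s * (α ⬝ᵥ b), mul_ne_zero (mul_ne_zero hr hs) h4, g * k * g⁻¹ * k⁻¹,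
    W.mul_mem (W.mul_mem (W.mul_mem hg hk) (W.inv_mem hg)) (W.inv_mem hk), ?_⟩
  rw [map_mul, map_mul, map_mul, tv_inv h1 e, tv_inv h2 f, e, f]
  simp only [add_mul, mul_add, one_mul, mul_one, Matrix.smul_mul, Matrix.mul_smul, tv_vv, h1, h2,
    h3, zero_smul, smul_zero, add_zero, smul_smul]
  module

end Pool.Agent.MP_5045a8_al.FT

end

section

/-! Open sets of rational vectors and general position. -/

namespace Pool.Agent.MP_5045a8_al.FT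

open Matrix Metric Filter Topology

theorem top_dot (ψ x : Q3) (i : Fin 3) (hi : x i ≠ 0) :
    (ψ - (ψ ⬝ᵥ x / x i) • (Pi.single i 1 : Q3)) ⬝ᵥ x = 0 := by
  rw [sub_dotProduct, smul_dotProduct, single_one_dotProduct, smul_eq_mul, div_mul_cancel₀ _ hi,
    sub_self]

theorem isOpen_inc {V : Set Q3} (hV : IsOpen V) :
    IsOpen {x : Q3 | x ≠ 0 ∧ ∃ ψ ∈ V, ψ ⬝ᵥ x = 0} := by
  rw [isOpen_iff_mem_nhds]
  rintro x ⟨hx, ψ, hψ, h0⟩
  obtain ⟨i, hi⟩ := Function.ne_iff.mp hx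
  have hi' : x i ≠ 0 := hi
  have hc : ContinuousAt (fun y : Q3 => ψ - (ψ ⬝ᵥ y / y i) • (Pi.single i 1 : Q3)) x := by
    have c1 : ContinuousAt (fun y : Q3 => ψ ⬝ᵥ y) x :=
      (continuous_const.dotProduct continuous_id).continuousAt
    have c2 : ContinuousAt (fun y : Q3 => y i) x := (continuous_apply i).continuousAt
    have c3 : ContinuousAt (fun y : Q3 => ψ ⬝ᵥ y / y i) x := c1.div c2 hi'
    exact continuousAt_const.sub (c3.smul continuousAt_const)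
  have h1 : ∀ᶠ y in 𝓝 x, ψ - (ψ ⬝ᵥ y / y i) • (Pi.single i 1 : Q3) ∈ V := by
    refine hc.eventually_mem (hV.mem_nhds ?_)
    simpa [h0] using hψ
  have h2 : ∀ᶠ y : Q3 in 𝓝 x, y i ≠ 0 := (continuous_apply i).continuousAt.eventually_ne hi'
  filter_upwards [h1, h2] with y hy1 hy2
  exact ⟨fun h => hy2 (by rw [h]; rfl), _, hy1, top_dot ψ y i hy2⟩

theorem continuous_mulVec (M : QM) : Continuous fun x : Q3 => M *ᵥ x :=
  continuous_const.matrix_mulVec continuous_id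

theorem continuous_vecMul (M : QM) : Continuous fun x : Q3 => x ᵥ* M :=
  continuous_id.matrix_vecMul continuous_const

theorem top_small {ε : ℝ} (hε : 0 < ε) : ∀ᶠ δ in 𝓝[>] (0 : ℝ), δ < ε :=
  mem_nhdsWithin_of_mem_nhds (gt_mem_nhds hε)

theorem nz {φ p : Q3} (M : QM) (h : φ ⬝ᵥ (M *ᵥ p) ≠ 0) :
    ∀ᶠ δ in 𝓝[>] (0 : ℝ), ∀ φ' ∈ ball φ δ, ∀ p' ∈ ball p δ, φ' ⬝ᵥ (M *ᵥ p') ≠ 0 := by
  have hc : Continuous fun z : Q3 × Q3 => z.1 ⬝ᵥ (M *ᵥ z.2) :=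
    continuous_fst.dotProduct ((continuous_mulVec M).comp continuous_snd)
  have h1 : ∀ᶠ z : Q3 × Q3 in 𝓝 (φ, p), z.1 ⬝ᵥ (M *ᵥ z.2) ≠ 0 :=
    hc.continuousAt.eventually_ne h
  obtain ⟨ε, hε, h2⟩ := Metric.eventually_nhds_iff_ball.mp h1
  filter_upwards [top_small hε] with δ hδ φ' hφ' p' hp'
  refine h2 (φ', p') ?_
  rw [← ball_prod_same]
  exact ⟨ball_subset_ball hδ.le hφ', ball_subset_ball hδ.le hp'⟩

theorem ball_sub {U : Set Q3} (hU : IsOpen U) {x : Q3} (hx : x ∈ U) :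
    ∀ᶠ δ in 𝓝[>] (0 : ℝ), ball x δ ⊆ U := by
  obtain ⟨ε, hε, h⟩ := Metric.isOpen_iff.mp hU x hx
  filter_upwards [top_small hε] with δ hδ
  exact (ball_subset_ball hδ.le).trans h

theorem top_norm (q : ℚ) : ‖q‖ = |(q : ℝ)| := by
  rw [← Rat.norm_cast_real, Real.norm_eq_abs]

/-- A large multiple of a rank one matrix attracts everything off a neighbourhood of its axis. -/
theorem basic (p φ : Q3) {δ : ℝ} (hδ : 0 < δ) : ∃ R : ℝ, 0 ≤ R ∧ ∀ r : ℚ, R < |(r : ℝ)| →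
    ∀ x ∈ Av (ball φ δ), (1 + r • vecMulVec p φ) *ᵥ x ∈ Cone (ball p δ) := by
  refine ⟨1 / δ ^ 2, by positivity, fun r hr x hx => ?_⟩
  have hφ : φ ⬝ᵥ x ≠ 0 := hx φ (mem_ball_self hδ)
  have hx0 : x ≠ 0 := fun h => hφ (by rw [h, dotProduct_zero])
  have hr0 : 0 < |(r : ℝ)| := lt_trans (by positivity) hr
  have hr1 : r ≠ 0 := by
    rintro rfl
    simp at hr0
  obtain ⟨i, hi⟩ := Finite.exists_max fun j : Fin 3 => |(x j : ℝ)|
  have hxi : x i ≠ 0 := by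
    intro h
    apply hx0
    funext j
    have := hi j
    rw [h, Rat.cast_zero, abs_zero] at this
    exact_mod_cast abs_nonpos_iff.mp this
  have hxi' : 0 < |(x i : ℝ)| := abs_pos.mpr (Rat.cast_ne_zero.mpr hxi)
  have hφ' : 0 < |((φ ⬝ᵥ x : ℚ) : ℝ)| := abs_pos.mpr (Rat.cast_ne_zero.mpr hφ)
  have key : δ * |(x i : ℝ)| ≤ |((φ ⬝ᵥ x : ℚ) : ℝ)| := by
    by_contra hlt
    refine hx _ ?_ (top_dot φ x i hxi)
    rw [mem_ball, dist_eq_norm, sub_sub_cancel_left, norm_neg, pi_norm_lt_iff hδ]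
    intro j
    rw [top_norm]
    by_cases hj : j = i
    · subst hj
      simp only [Pi.smul_apply, Pi.single_eq_same, smul_eq_mul, mul_one, Rat.cast_div, abs_div]
      rw [div_lt_iff₀ hxi']
      exact not_le.mp hlt
    · simpa [Pi.single_eq_of_ne hj] using hδ
  have hc : r * (φ ⬝ᵥ x) ≠ 0 := mul_ne_zero hr1 hφ
  refine ⟨r * (φ ⬝ᵥ x), hc, p + (r * (φ ⬝ᵥ x))⁻¹ • x, ?_, ?_⟩
  · rw [mem_ball, dist_eq_norm, add_sub_cancel_left, pi_norm_lt_iff hδ]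
    intro j
    rw [top_norm]
    simp only [Pi.smul_apply, smul_eq_mul, Rat.cast_mul, Rat.cast_inv, abs_mul, abs_inv]
    rw [inv_mul_lt_iff₀ (mul_pos hr0 hφ')]
    rw [div_lt_iff₀ (by positivity)] at hr
    have h1 : |(x i : ℝ)| < |(r : ℝ)| * δ ^ 2 * |(x i : ℝ)| := by nlinarith
    have h2 : |(r : ℝ)| * δ * (δ * |(x i : ℝ)|) ≤ |(r : ℝ)| * δ * |((φ ⬝ᵥ x : ℚ) : ℝ)| :=
      mul_le_mul_of_nonneg_left key (by positivity)
    nlinarith [hi j]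
  · rw [add_mulVec, one_mulVec, smul_mulVec, vecMulVec_mulVec, smul_add, smul_smul,
      mul_inv_cancel₀ hc, one_smul, add_comm]
    congr 1
    funext j
    simp [mul_comm, mul_left_comm]

end Pool.Agent.MP_5045a8_al.FT

end

section

/-! The abstract extension lemma. -/

namespace Pool.Agent.MP_5045a8_al.FT

open Matrix

variable {F : Type} [Group F]

/-- Alternating words whose tails move U off the planes of V. -/
inductive altS (π : F →* G3) (Γ : Subgroup F) (t : F) (U V : Set Q3) : F → Prop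
  | base (g : F) (hg : g ∈ Γ) : altS π Γ t U V g
  | step (g : F) (hg : g ∈ Γ) (j : ℤ) (hj : j ≠ 0) (r : F) (hr : altS π Γ t U V r)
      (hT : ∀ x ∈ U, qm (π r) *ᵥ x ∈ Av V) : altS π Γ t U V (g * (t ^ j * r))

theorem alt_cone {π : F →* G3} {Γ : Subgroup F} {U V W A : Set Q3} (hA : Adm π Γ U V)
    (hAU : A ⊆ U) (hW : W ⊆ V) {g : F} (hg : g ∈ Γ) (h1 : g = 1 → A ⊆ Av W) {y : Q3}
    (hy : y ∈ Cone A) : qm (π g) *ᵥ y ∈ Av W := by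
  obtain ⟨c, hc, a, ha, rfl⟩ := hy
  intro ψ hψ
  rw [mulVec_smul, dotProduct_smul, smul_eq_mul]
  refine mul_ne_zero hc ?_
  by_cases h : g = 1
  · have := h1 h ha ψ hψ
    rwa [h, map_one, map_one, one_mulVec]
  · exact hA g hg h a (hAU ha) ψ (hW hψ)

theorem adm_sup {π : F →* G3} {Γ : Subgroup F} {U V V' A U₁ V₁ : Set Q3} (hA : Adm π Γ U V)
    (t : F) (ht : ∀ j : ℤ, j ≠ 0 → ∀ x ∈ Av V', qm (π t ^ j) *ᵥ x ∈ Cone A)
    (hAU : A ⊆ U) (hV' : V' ⊆ V) (hU₁ : U₁ ⊆ U) (hU₁' : U₁ ⊆ Av V') (hV₁ : V₁ ⊆ V)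
    (hA₁ : A ⊆ Av V₁) : Adm π (Γ ⊔ Subgroup.zpowers t) U₁ V₁ := by
  have hstep : ∀ (g : F) (j : ℤ) (r : F) (x : Q3), qm (π (g * (t ^ j * r))) *ᵥ x =
      qm (π g) *ᵥ (qm (π t ^ j) *ᵥ (qm (π r) *ᵥ x)) := by
    intro g j r x
    rw [map_mul π, map_mul π, map_zpow π, qm_mul_mulVec, qm_mul_mulVec]
  have h1 : ∀ g ∈ Γ, ∀ w, altS π Γ t U₁ V' w → altS π Γ t U₁ V' (g * w) := by
    intro g hg w hw
    cases hw with
    | base _ h => exact altS.base _ (Γ.mul_mem hg h)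
    | step g' hg' j hj r hr hT =>
      rw [← mul_assoc]
      exact altS.step _ (Γ.mul_mem hg hg') j hj r hr hT
  have h2 : ∀ (i : ℤ) (w : F), altS π Γ t U₁ V' w → altS π Γ t U₁ V' (t ^ i * w) := by
    intro i w hw
    by_cases hi : i = 0
    · rwa [hi, zpow_zero, one_mul]
    have hw' := hw
    cases hw with
    | base _ h =>
      rw [← one_mul (t ^ i * w)]
      refine altS.step 1 Γ.one_mem i hi w hw' fun x hx => ?_
      by_cases e : w = 1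
      · rw [e, map_one, map_one, one_mulVec]
        exact hU₁' hx
      · exact fun ψ hψ => hA w h e x (hU₁ hx) ψ (hV' hψ)
    | step g hg j hj r hr hT =>
      by_cases e : g = 1
      · rw [e, one_mul, ← mul_assoc, ← _root_.zpow_add]
        by_cases hij : i + j = 0
        · rwa [hij, zpow_zero, one_mul]
        · rw [← one_mul (t ^ (i + j) * r)]
          exact altS.step 1 Γ.one_mem _ hij r hr hT
      · rw [← one_mul (t ^ i * (g * (t ^ j * r)))]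
        refine altS.step 1 Γ.one_mem i hi _ hw' fun x hx => ?_
        rw [hstep]
        exact alt_cone hA hAU hV' hg (fun h => absurd h e) (ht j hj _ (hT x hx))
  have h3 : ∀ w ∈ Γ ⊔ Subgroup.zpowers t, altS π Γ t U₁ V' w := by
    intro w hw
    rw [Subgroup.sup_eq_closure] at hw
    have h4 : ∀ g ∈ (Γ : Set F) ∪ (Subgroup.zpowers t : Set F), ∀ w, altS π Γ t U₁ V' w →
        altS π Γ t U₁ V' (g * w) ∧ altS π Γ t U₁ V' (g⁻¹ * w) := by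
      rintro g (hg | ⟨i, rfl⟩) w hw
      · exact ⟨h1 g hg w hw, h1 _ (Γ.inv_mem hg) w hw⟩
      · refine ⟨h2 i w hw, ?_⟩
        show altS π Γ t U₁ V' ((t ^ i)⁻¹ * w)
        rw [← _root_.zpow_neg]
        exact h2 _ w hw
    induction hw using Subgroup.closure_induction_left with
    | one => exact altS.base 1 Γ.one_mem
    | mul_left g hg w _ ih => exact (h4 g hg w ih).1
    | inv_mul_cancel g hg w _ ih => exact (h4 g hg w ih).2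
  intro w hw hw1 x hx ψ hψ
  have hw' := h3 w hw
  cases hw' with
  | base _ h => exact hA w h hw1 x (hU₁ hx) ψ (hV₁ hψ)
  | step g hg j hj r hr hT =>
    rw [hstep]
    exact alt_cone hA hAU hV₁ hg (fun _ => hA₁) (ht j hj _ (hT x hx)) ψ hψ

end Pool.Agent.MP_5045a8_al.FT

end

section

/-! Adding a high power of a transvection. -/

namespace Pool.Agent.MP_5045a8_al.FT

open Matrix

variable {F : Type} [Group F]

theorem ext_tv {π : F →* G3} (hπ : Function.Surjective π) {Γ : Subgroup F} {U V : Set Q3}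
    (hU : IsOpen U) (hV : IsOpen V) (hA : Adm π Γ U V) {p φ : Q3} (hp : p ∈ U) (hφ : φ ∈ V)
    (hφp : φ ⬝ᵥ p = 0) (P Φ : List Q3) (hP : ∀ x ∈ P, x ∈ U ∧ φ ⬝ᵥ x ≠ 0)
    (hΦ : ∀ ψ ∈ Φ, ψ ∈ V ∧ ψ ⬝ᵥ p ≠ 0) :
    ∃ Γ' : Subgroup F, Γ ≤ Γ' ∧ TvIn (Γ'.map π) p φ ∧ ∃ U₁ V₁ : Set Q3, IsOpen U₁ ∧ IsOpen V₁ ∧
      (∀ x ∈ P, x ∈ U₁) ∧ (∀ ψ ∈ Φ, ψ ∈ V₁) ∧ Adm π Γ' U₁ V₁ := by
  have e1 := ball_sub hU hp
  have e2 := ball_sub hV hφ
  have e3 := (Filter.eventually_all_finite (List.finite_toSet P)).2 fun x hx =>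
    (ball_sub hU (hP x hx).1).and (nz (φ := φ) (p := x) 1 (by rw [one_mulVec]; exact (hP x hx).2))
  have e4 := (Filter.eventually_all_finite (List.finite_toSet Φ)).2 fun ψ hψ =>
    (ball_sub hV (hΦ ψ hψ).1).and (nz (φ := ψ) (p := p) 1 (by rw [one_mulVec]; exact (hΦ ψ hψ).2))
  obtain ⟨δ, ⟨⟨h1, h2⟩, h3, h4⟩, hδ⟩ :=
    (((e1.and e2).and (e3.and e4)).and self_mem_nhdsWithin).exists
  have hδ0 : 0 < δ := hδ
  obtain ⟨R, hR0, hR⟩ := basic p φ hδ0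
  obtain ⟨r, hr, g, -, hg⟩ := (tvIn_top hφp).large hφp R
  obtain ⟨t, rfl⟩ := hπ g
  have hr0 : r ≠ 0 := by
    rintro rfl
    rw [Rat.cast_zero, abs_zero] at hr
    exact absurd hr (not_lt.2 hR0)
  refine ⟨Γ ⊔ Subgroup.zpowers t, le_sup_left, ⟨r, hr0, π t, Subgroup.mem_map_of_mem π
    (Subgroup.mem_sup_right (Subgroup.mem_zpowers t)), hg⟩,
    ⋃ x ∈ {x | x ∈ P}, Metric.ball x δ, ⋃ ψ ∈ {ψ | ψ ∈ Φ}, Metric.ball ψ δ,
    isOpen_biUnion fun _ _ => Metric.isOpen_ball, isOpen_biUnion fun _ _ => Metric.isOpen_ball,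
    fun x hx => Set.mem_biUnion hx (Metric.mem_ball_self hδ0),
    fun x hx => Set.mem_biUnion hx (Metric.mem_ball_self hδ0), ?_⟩
  refine adm_sup (V' := Metric.ball φ δ) (A := Metric.ball p δ) hA t (fun j hj x hx => ?_) h1 h2
    (Set.iUnion₂_subset fun x hx => (h3 x hx).1) (Set.iUnion₂_subset fun x hx y hy ψ hψ => ?_)
    (Set.iUnion₂_subset fun x hx => (h4 x hx).1) fun y hy ψ hψ => ?_
  · rw [tv_zpow hφp hg j]
    refine hR _ (hr.trans_le ?_) x hx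
    have h5 : (1 : ℝ) ≤ |(j : ℝ)| := by exact_mod_cast Int.one_le_abs hj
    push_cast
    rw [abs_mul]
    exact le_mul_of_one_le_left (abs_nonneg _) h5
  · have := (h3 x hx).2 ψ hψ y hy
    rwa [one_mulVec] at this
  · obtain ⟨ψ₀, h5, h6⟩ := Set.mem_iUnion₂.1 hψ
    have := (h4 ψ₀ h5).2 ψ h6 y hy
    rwa [one_mulVec] at this

end Pool.Agent.MP_5045a8_al.FT

end

section

/-! General position in open sets of rational vectors. -/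

namespace Pool.Agent.MP_5045a8_al.FT

open Matrix Metric Filter Topology

theorem gen_small {U : Set Q3} (hU : IsOpen U) {x₀ : Q3} (h0 : x₀ ∈ U) (ξ : Q3) :
    ∃ t : ℚ, t ≠ 0 ∧ x₀ + t • ξ ∈ U ∧ x₀ + (2 * t) • ξ ∈ U := by
  have c1 : Continuous fun t : ℚ => x₀ + t • ξ := by fun_prop
  have c2 : Continuous fun t : ℚ => x₀ + (2 * t) • ξ := by fun_prop
  have e1 : ∀ᶠ t : ℚ in 𝓝 0, x₀ + t • ξ ∈ U :=
    c1.continuousAt.eventually_mem (hU.mem_nhds (by simpa using h0))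
  have e2 : ∀ᶠ t : ℚ in 𝓝 0, x₀ + (2 * t) • ξ ∈ U :=
    c2.continuousAt.eventually_mem (hU.mem_nhds (by simpa using h0))
  have e3 : ∀ᶠ t : ℚ in 𝓝[>] 0, 0 < t ∧ x₀ + t • ξ ∈ U ∧ x₀ + (2 * t) • ξ ∈ U :=
    (eventually_mem_nhdsWithin (s := Set.Ioi (0 : ℚ))).and
      ((e1.and e2).filter_mono nhdsWithin_le_nhds)
  obtain ⟨t, ht, h1, h2⟩ := e3.exists
  exact ⟨t, ht.ne', h1, h2⟩

theorem gen_open_dot (y : Q3) : IsOpen {φ : Q3 | φ ⬝ᵥ y ≠ 0} := by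
  have c : Continuous fun φ : Q3 => φ ⬝ᵥ y := by
    unfold dotProduct
    fun_prop
  exact isOpen_ne_fun c continuous_const

theorem gen_open_cross (y : Q3) : IsOpen {x : Q3 | x ⨯₃ y ≠ 0} := by
  have c : Continuous fun x : Q3 => x ⨯₃ y := by
    simp only [cross_apply]
    refine continuous_pi fun i => ?_
    fin_cases i <;> simp <;> fun_prop
  exact isOpen_ne_fun c continuous_const

theorem gen_cross_ne {ψ x y : Q3} (hx : ψ ⬝ᵥ x ≠ 0) (hy : ψ ⬝ᵥ y = 0) (hy0 : y ≠ 0) :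
    x ⨯₃ y ≠ 0 := by
  intro h
  have e := cross_cross_eq_smul_sub_smul' ψ x y
  rw [h, map_zero, hy, zero_smul, zero_sub, eq_comm, neg_eq_zero, smul_eq_zero] at e
  rcases e with e | e
  · exact hx (by rwa [dotProduct_comm])
  · exact hy0 e

theorem gen_exists_cross {a : Q3} (ha : a ≠ 0) : ∃ e : Q3, a ⨯₃ e ≠ 0 := by
  by_contra h
  push Not at h
  have h0 := h ![1, 0, 0]
  have h1 := h ![0, 1, 0]
  simp [cross_apply] at h0 h1
  apply ha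
  ext i
  fin_cases i <;> simp [h0.1, h0.2, h1.2]

/-- Planes through c in an open set, missing finitely many points. -/
theorem pencil {V : Set Q3} (hV : IsOpen V) {φ₀ c : Q3} (h0 : φ₀ ∈ V) (hc : φ₀ ⬝ᵥ c = 0)
    (Y : List Q3) (hY : ∀ y ∈ Y, c ⨯₃ y ≠ 0) :
    ∃ φ ∈ V, φ ⬝ᵥ c = 0 ∧ ∀ y ∈ Y, φ ⬝ᵥ y ≠ 0 := by
  induction Y generalizing V φ₀ with
  | nil => exact ⟨φ₀, h0, hc, by simp⟩
  | cons y Y ih =>
    have one : ∃ φ ∈ V, φ ⬝ᵥ c = 0 ∧ φ ⬝ᵥ y ≠ 0 := by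
      by_cases hy : φ₀ ⬝ᵥ y = 0
      · obtain ⟨t, ht, h1, -⟩ := gen_small hV h0 ((c ⨯₃ y) ⨯₃ c)
        have e1 : ((c ⨯₃ y) ⨯₃ c) ⬝ᵥ c = 0 := by rw [dotProduct_comm, dot_cross_self]
        have e2 : ((c ⨯₃ y) ⨯₃ c) ⬝ᵥ y = (c ⨯₃ y) ⬝ᵥ (c ⨯₃ y) := by
          rw [dotProduct_comm, triple_product_permutation]
        refine ⟨_, h1, ?_, ?_⟩
        · rw [add_dotProduct, smul_dotProduct, hc, e1, smul_zero, add_zero]
        · rw [add_dotProduct, smul_dotProduct, hy, e2, zero_add, smul_eq_mul]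
          exact mul_ne_zero ht fun h =>
            hY y List.mem_cons_self (dotProduct_self_eq_zero.mp h)
      · exact ⟨φ₀, h0, hc, hy⟩
    obtain ⟨φ₁, h1, h2, h3⟩ := one
    obtain ⟨φ, hφ, h4, h5⟩ := ih (hV.inter (gen_open_dot y)) (φ₀ := φ₁) ⟨h1, h3⟩ h2
      fun z hz => hY z (List.mem_cons_of_mem _ hz)
    refine ⟨φ, hφ.1, h4, fun z hz => ?_⟩
    rcases List.mem_cons.mp hz with rfl | hz
    · exact hφ.2
    · exact h5 z hz

/-- Points on the plane L in an open set, not proportional to a. -/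
theorem pencil₂ {U : Set Q3} (hU : IsOpen U) {x₀ L a : Q3} (h0 : x₀ ∈ U) (hL : L ⬝ᵥ x₀ = 0)
    (ha : a ≠ 0) : ∃ x ∈ U, L ⬝ᵥ x = 0 ∧ x ⨯₃ a ≠ 0 := by
  by_cases hx : x₀ ⨯₃ a = 0
  swap
  · exact ⟨x₀, h0, hL, hx⟩
  have hξ : ∃ ξ : Q3, L ⬝ᵥ ξ = 0 ∧ ξ ≠ 0 ∧ ξ ⬝ᵥ a = 0 := by
    by_cases hLa : L ⨯₃ a = 0
    · obtain ⟨e, he⟩ := gen_exists_cross ha
      refine ⟨a ⨯₃ e, ?_, he, by rw [dotProduct_comm, dot_self_cross]⟩
      rw [← triple_product_permutation, hLa, dotProduct_zero]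
    · exact ⟨L ⨯₃ a, dot_self_cross _ _, hLa, by rw [dotProduct_comm, dot_cross_self]⟩
  obtain ⟨ξ, h1, h2, h3⟩ := hξ
  have h4 : ξ ⨯₃ a ≠ 0 := gen_cross_ne (fun h => h2 (dotProduct_self_eq_zero.mp h)) h3 ha
  obtain ⟨t, ht, h5, -⟩ := gen_small hU h0 ξ
  refine ⟨_, h5, ?_, ?_⟩
  · rw [dotProduct_add, dotProduct_smul, hL, h1, smul_zero, add_zero]
  · rw [map_add, map_smul, LinearMap.add_apply, LinearMap.smul_apply, hx, zero_add]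
    exact smul_ne_zero ht h4

theorem gen_list (L : List Q3) (S : Q3 → Set Q3) (ho : ∀ a ∈ L, IsOpen (S a))
    (hd : ∀ a ∈ L, Dense (S a)) :
    IsOpen {x | ∀ a ∈ L, x ∈ S a} ∧ Dense {x | ∀ a ∈ L, x ∈ S a} := by
  induction L with
  | nil => simp
  | cons a L ih =>
    obtain ⟨h1, h2⟩ := ih (fun b hb => ho b (List.mem_cons_of_mem _ hb))
      fun b hb => hd b (List.mem_cons_of_mem _ hb)
    have e : {x | ∀ b ∈ a :: L, x ∈ S b} = S a ∩ {x | ∀ b ∈ L, x ∈ S b} := by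
      ext x
      simp
    rw [e]
    exact ⟨(ho a List.mem_cons_self).inter h1,
      (hd a List.mem_cons_self).inter_of_isOpen_right h2 h1⟩

/-- An open subset in general position with respect to finitely many points and planes. -/
theorem avoid {U : Set Q3} (hU : IsOpen U) (hne : U.Nonempty) (Y Ψ : List Q3)
    (hY : ∀ y ∈ Y, y ≠ 0) (hΨ : ∀ ψ ∈ Ψ, ψ ≠ 0) :
    ∃ U' ⊆ U, IsOpen U' ∧ U'.Nonempty ∧
      ∀ x ∈ U', (∀ y ∈ Y, x ⨯₃ y ≠ 0) ∧ ∀ ψ ∈ Ψ, ψ ⬝ᵥ x ≠ 0 := by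
  obtain ⟨o1, d1⟩ := gen_list Y (fun y => {x | x ⨯₃ y ≠ 0}) (fun y _ => gen_open_cross y) (by
    intro y hy
    rw [dense_iff_inter_open]
    rintro W hW ⟨x₀, h0⟩
    obtain ⟨x, h1, -, h2⟩ := pencil₂ hW (L := 0) h0 (zero_dotProduct _) (hY y hy)
    exact ⟨x, h1, h2⟩)
  obtain ⟨o2, d2⟩ := gen_list Ψ (fun ψ => {x | x ⬝ᵥ ψ ≠ 0}) (fun ψ _ => gen_open_dot ψ) (by
    intro ψ hψ
    rw [dense_iff_inter_open]
    rintro W hW ⟨x₀, h0⟩
    by_cases hx : x₀ ⬝ᵥ ψ = 0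
    · obtain ⟨t, ht, h1, -⟩ := gen_small hW h0 ψ
      refine ⟨_, h1, ?_⟩
      change (x₀ + t • ψ) ⬝ᵥ ψ ≠ 0
      rw [add_dotProduct, smul_dotProduct, hx, zero_add, smul_eq_mul]
      exact mul_ne_zero ht fun h => hΨ ψ hψ (dotProduct_self_eq_zero.mp h)
    · exact ⟨x₀, h0, hx⟩)
  refine ⟨U ∩ (_ ∩ _), Set.inter_subset_left, hU.inter (o1.inter o2),
    (d1.inter_of_isOpen_right d2 o2).inter_open_nonempty U hU hne, ?_⟩
  rintro x ⟨-, h1, h2⟩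
  exact ⟨h1, fun ψ hψ => by rw [dotProduct_comm]; exact h2 ψ hψ⟩

theorem gen_exists_nonscalar {k : G3} (hk : k ≠ 1) : ∃ e : Q3, (qm k *ᵥ e) ⨯₃ e ≠ 0 := by
  by_contra h
  push Not at h
  have h0 := h ![1, 0, 0]
  have h1 := h ![0, 1, 0]
  have h2 := h ![0, 0, 1]
  have h3 := h ![1, 1, 0]
  have h4 := h ![1, 0, 1]
  have hd := det_qm k
  rw [det_fin_three] at hd
  generalize hM : qm k = M at h0 h1 h2 h3 h4 hd
  simp [cross_apply, mulVec, dotProduct, Fin.sum_univ_three] at h0 h1 h2 h3 h4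
  obtain ⟨a20, a10⟩ := h0
  obtain ⟨a21, a01⟩ := h1
  obtain ⟨a12, a02⟩ := h2
  have b1 : M 1 1 = M 0 0 := by linarith [h3.2.2]
  have b2 : M 2 2 = M 0 0 := by linarith [h4.2.1]
  rw [a20, a10, a21, a01, a12, a02, b1, b2] at hd
  have b0 : M 0 0 = 1 := by
    have e : (M 0 0 - 1) * (M 0 0 ^ 2 + M 0 0 + 1) = 0 := by linarith
    rcases mul_eq_zero.mp e with e | e
    · linarith
    · nlinarith [sq_nonneg (2 * M 0 0 + 1)]
  apply hk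
  apply qm_inj
  rw [hM, map_one]
  ext i j
  fin_cases i <;> fin_cases j <;> simp [a20, a10, a21, a01, a12, a02, b1, b2, b0]

theorem nonscalar {k : G3} (hk : k ≠ 1) {U : Set Q3} (hU : IsOpen U) (hne : U.Nonempty) :
    ∃ p ∈ U, (qm k *ᵥ p) ⨯₃ p ≠ 0 := by
  obtain ⟨e, he⟩ := gen_exists_nonscalar hk
  obtain ⟨p, hp⟩ := hne
  obtain ⟨t, ht, h1, h2⟩ := gen_small hU hp e
  by_contra h
  push Not at h
  have f0 := h _ hp
  have f1 := h _ h1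
  have f2 := h _ h2
  have key : (qm k *ᵥ (p + (2 * t) • e)) ⨯₃ (p + (2 * t) • e) -
      (2 : ℚ) • ((qm k *ᵥ (p + t • e)) ⨯₃ (p + t • e)) + (qm k *ᵥ p) ⨯₃ p =
      (2 * t ^ 2) • ((qm k *ᵥ e) ⨯₃ e) := by
    simp only [mulVec_add, mulVec_smul, map_add, map_smul, LinearMap.add_apply,
      LinearMap.smul_apply]
    module
  rw [f0, f1, f2, smul_zero, sub_zero, add_zero, eq_comm] at key
  exact smul_ne_zero (by positivity) he key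

theorem cross_qm_ne {g : G3} {x y : Q3} (h : x ⨯₃ y ≠ 0) :
    (qm g *ᵥ x) ⨯₃ (qm g *ᵥ y) ≠ 0 := by
  rw [crossProduct_ne_zero_iff_linearIndependent, LinearIndependent.pair_iff] at h ⊢
  intro s t e
  refine h s t ?_
  rw [← mulVec_smul, ← mulVec_smul, ← mulVec_add] at e
  by_contra h0
  exact qm_mulVec_ne_zero g h0 e

theorem cross_ne_of_dot {ψ x y : Q3} (hx : ψ ⬝ᵥ x ≠ 0) (hy : ψ ⬝ᵥ y = 0) (hy0 : y ≠ 0) :
    x ⨯₃ y ≠ 0 := gen_cross_ne hx hy hy0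

theorem cross_ne_comm {x y : Q3} (h : x ⨯₃ y ≠ 0) : y ⨯₃ x ≠ 0 := by
  rw [← cross_anticomm]
  exact neg_ne_zero.mpr h

end Pool.Agent.MP_5045a8_al.FT

end

section

/-! Full centres and full axes. -/

namespace Pool.Agent.MP_5045a8_al.FT

open Matrix

variable {W : Subgroup G3} {p φ : Q3}

theorem full_span {φ₁ φ₂ : Q3} (hp : p ≠ 0) (e1 : φ₁ ⬝ᵥ p = 0) (e2 : φ₂ ⬝ᵥ p = 0)
    (e : φ ⬝ᵥ p = 0) (hx : φ₁ ⨯₃ φ₂ ≠ 0) : ∃ a b : ℚ, φ = a • φ₁ + b • φ₂ := by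
  have h0 : φ ⬝ᵥ (φ₁ ⨯₃ φ₂) = 0 := by
    by_contra h
    apply hp
    simp only [dotProduct, Fin.sum_univ_three, cross_apply, cons_val_zero, cons_val_one,
      cons_val_two, head_cons, tail_cons] at h e e1 e2
    funext i
    refine (mul_eq_zero.1 ?_).resolve_left h
    fin_cases i
    · change _ * p 0 = 0
      linear_combination (φ₁ 1 * φ₂ 2 - φ₁ 2 * φ₂ 1) * e + (φ₂ 1 * φ 2 - φ₂ 2 * φ 1) * e1 +
        (φ 1 * φ₁ 2 - φ 2 * φ₁ 1) * e2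
    · change _ * p 1 = 0
      linear_combination (φ₁ 2 * φ₂ 0 - φ₁ 0 * φ₂ 2) * e + (φ₂ 2 * φ 0 - φ₂ 0 * φ 2) * e1 +
        (φ 2 * φ₁ 0 - φ 0 * φ₁ 2) * e2
    · change _ * p 2 = 0
      linear_combination (φ₁ 0 * φ₂ 1 - φ₁ 1 * φ₂ 0) * e + (φ₂ 0 * φ 1 - φ₂ 1 * φ 0) * e1 +
        (φ 0 * φ₁ 1 - φ 1 * φ₁ 0) * e2
  have hn : (φ₁ ⨯₃ φ₂) ⬝ᵥ (φ₁ ⨯₃ φ₂) ≠ 0 := fun h => hx (dotProduct_self_eq_zero.1 h)
  have key : ((φ₁ ⨯₃ φ₂) ⬝ᵥ (φ₁ ⨯₃ φ₂)) • φ = ((φ ⨯₃ φ₂) ⬝ᵥ (φ₁ ⨯₃ φ₂)) • φ₁ +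
      ((φ₁ ⨯₃ φ) ⬝ᵥ (φ₁ ⨯₃ φ₂)) • φ₂ + (φ ⬝ᵥ (φ₁ ⨯₃ φ₂)) • (φ₁ ⨯₃ φ₂) := by
    funext i
    fin_cases i <;>
      simp [dotProduct, Fin.sum_univ_three, cross_apply] <;> ring
  rw [h0, zero_smul, add_zero] at key
  refine ⟨((φ₁ ⨯₃ φ₂) ⬝ᵥ (φ₁ ⨯₃ φ₂))⁻¹ * ((φ ⨯₃ φ₂) ⬝ᵥ (φ₁ ⨯₃ φ₂)),
    ((φ₁ ⨯₃ φ₂) ⬝ᵥ (φ₁ ⨯₃ φ₂))⁻¹ * ((φ₁ ⨯₃ φ) ⬝ᵥ (φ₁ ⨯₃ φ₂)), ?_⟩
  rw [mul_smul, mul_smul, ← smul_add, ← key, inv_smul_smul₀ hn]

theorem full_comb {p₁ p₂ φ₁ φ₂ : Q3} (h1 : TvIn W p₁ φ₁) (h2 : TvIn W p₂ φ₂)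
    (e1 : φ₁ ⬝ᵥ p₁ = 0) (e2 : φ₂ ⬝ᵥ p₂ = 0) (e : φ₁ ⬝ᵥ p₂ = 0) (a b : ℚ) :
    ∃ r : ℚ, r ≠ 0 ∧ ∃ g ∈ W, qm g = 1 + r • (a • vecMulVec p₁ φ₁ + b • vecMulVec p₂ φ₂) := by
  obtain ⟨r₁, hr₁, g₁, hg₁, q1⟩ := h1
  obtain ⟨r₂, hr₂, g₂, hg₂, q2⟩ := h2
  have d1 : ((a / r₁).den : ℚ) ≠ 0 := Nat.cast_ne_zero.2 (a / r₁).den_nz
  have d2 : ((b / r₂).den : ℚ) ≠ 0 := Nat.cast_ne_zero.2 (b / r₂).den_nz
  have n1 : ((a / r₁).num : ℚ) * r₁ = (a / r₁).den * a := by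
    rw [← Rat.den_mul_eq_num, mul_assoc, div_mul_cancel₀ _ hr₁]
  have n2 : ((b / r₂).num : ℚ) * r₂ = (b / r₂).den * b := by
    rw [← Rat.den_mul_eq_num, mul_assoc, div_mul_cancel₀ _ hr₂]
  refine ⟨(a / r₁).den * (b / r₂).den, mul_ne_zero d1 d2,
    g₁ ^ ((a / r₁).num * (b / r₂).den) * g₂ ^ ((b / r₂).num * (a / r₁).den),
    mul_mem (zpow_mem hg₁ _) (zpow_mem hg₂ _), ?_⟩
  have hz : vecMulVec p₁ φ₁ * vecMulVec p₂ φ₂ = 0 := by
    rw [vecMulVec_mul_vecMulVec, e, zero_smul, vecMulVec_zero]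
  rw [map_mul, tv_zpow e1 q1, tv_zpow e2 q2, add_mul, mul_add, mul_add, one_mul, one_mul, mul_one,
    smul_mul_smul_comm, hz, smul_zero, add_zero, smul_add, smul_smul, smul_smul, add_assoc,
    add_comm (_ • vecMulVec p₂ φ₂)]
  congr 3
  · push_cast
    linear_combination ((b / r₂).den : ℚ) * n1
  · push_cast
    linear_combination ((a / r₁).den : ℚ) * n2

theorem fullC_of_two {φ₁ φ₂ : Q3} (hp : p ≠ 0) (h1 : TvIn W p φ₁) (h2 : TvIn W p φ₂)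
    (e1 : φ₁ ⬝ᵥ p = 0) (e2 : φ₂ ⬝ᵥ p = 0) (hx : φ₁ ⨯₃ φ₂ ≠ 0) : FullC W p := by
  intro φ e
  obtain ⟨a, b, rfl⟩ := full_span hp e1 e2 e hx
  obtain ⟨r, hr, g, hg, q⟩ := full_comb h1 h2 e1 e2 e1 a b
  exact ⟨r, hr, g, hg, by rw [q, vecMulVec_add, vecMulVec_smul, vecMulVec_smul]⟩

theorem fullA_of_two {L v₁ v₂ : Q3} (hL : L ≠ 0) (h1 : TvIn W v₁ L) (h2 : TvIn W v₂ L)
    (e1 : L ⬝ᵥ v₁ = 0) (e2 : L ⬝ᵥ v₂ = 0) (hx : v₁ ⨯₃ v₂ ≠ 0) : FullA W L := by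
  intro v e
  obtain ⟨a, b, rfl⟩ := full_span hL ((dotProduct_comm _ _).trans e1)
    ((dotProduct_comm _ _).trans e2) ((dotProduct_comm _ _).trans e) hx
  obtain ⟨r, hr, g, hg, q⟩ := full_comb h1 h2 e1 e2 e2 a b
  exact ⟨r, hr, g, hg, by rw [q, add_vecMulVec, smul_vecMulVec, smul_vecMulVec]⟩

theorem FullC.conj {h : G3} (hh : h ∈ W) (hp : FullC W p) : FullC W (qm h *ᵥ p) := by
  intro φ e
  have := (hp (φ ᵥ* qm h) (by rw [vecMul_dot, e])).conj hh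
  rwa [vecMul_vecMul, ← map_mul, mul_inv_cancel, map_one, vecMul_one] at this

theorem FullA.conj {h : G3} {L : Q3} (hh : h ∈ W) (hL : FullA W L) :
    FullA W (L ᵥ* qm h) := by
  intro v e
  have := (hL (qm h *ᵥ v) (by rw [← vecMul_dot, e])).conj (inv_mem hh)
  rwa [qm_inv_mulVec, inv_inv] at this

theorem FullC.smul (hp : FullC W p) {c : ℚ} (hc : c ≠ 0) : FullC W (c • p) := by
  intro φ e
  rw [dotProduct_smul, smul_eq_mul] at e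
  have := (hp φ ((mul_eq_zero.1 e).resolve_left hc)).smul hc one_ne_zero
  rwa [one_smul] at this

end Pool.Agent.MP_5045a8_al.FT

end

section

/-! Two new transvections linked by an outside element give a full centre and a full axis. -/

namespace Pool.Agent.MP_5045a8_al.FT

open Matrix

variable {F : Type} [Group F] {π : F →* G3} {Γ : Subgroup F}

theorem link (hπ : Function.Surjective π) {U V : Set Q3} (h : Box π Γ U V) {k : G3}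
    (hk : k ≠ 1) {x ψ : Q3} (hx : x ∈ U) (hψ : ψ ∈ V) (hinc : ψ ⬝ᵥ (qm k *ᵥ x) = 0) :
    ∃ Γ' : Subgroup F, Γ ≤ Γ' ∧ Good π Γ' ∧ ∀ W : Subgroup G3, Γ'.map π ≤ W → k ∈ W →
      ∃ p L : Q3, FullC W p ∧ FullA W L ∧ L ⬝ᵥ p ≠ 0 := by
  obtain ⟨hU, hV, hA, hne, hUx, hVx⟩ := h
  have hU0 : IsOpen (U ∩ (fun y : Q3 => qm k *ᵥ y) ⁻¹' {y : Q3 | y ≠ 0 ∧ ∃ φ ∈ V, φ ⬝ᵥ y = 0}) :=
    hU.inter ((isOpen_inc hV).preimage (continuous_mulVec _))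
  obtain ⟨p, ⟨hp, hkp0, ψ₀, hψ₀, e₀⟩, hkp⟩ :=
    nonscalar hk hU0 ⟨x, hx, qm_mulVec_ne_zero k (hUx x hx).1, ψ, hψ, hinc⟩
  obtain ⟨L, hL, hLk, hLY⟩ := pencil hV hψ₀ e₀ [p] (by simpa using hkp)
  have hLp : L ⬝ᵥ p ≠ 0 := hLY p (by simp)
  obtain ⟨hL0, x₀, hx₀, hLx₀⟩ := hVx L hL
  obtain ⟨q, hq, hLq, hqk⟩ := pencil₂ hU hx₀ hLx₀ hkp0
  obtain ⟨hp0, φ₀, hφ₀, hφp⟩ := hUx p hp
  have hq0 : q ≠ 0 := (hUx q hq).1
  have c1 : p ⨯₃ q ≠ 0 := cross_ne_of_dot hLp hLq hq0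
  have c2 : p ⨯₃ (qm k⁻¹ *ᵥ q) ≠ 0 := by
    have := cross_qm_ne (g := k⁻¹) (cross_ne_comm hqk)
    rwa [qm_inv_mulVec] at this
  obtain ⟨M, hM, hMp, hMY⟩ := pencil hV hφ₀ hφp [q, qm k⁻¹ *ᵥ q] (by simp [c1, c2])
  have hMq : M ⬝ᵥ q ≠ 0 := hMY q (by simp)
  have hMk : M ⬝ᵥ (qm k⁻¹ *ᵥ q) ≠ 0 := hMY _ (by simp)
  have hM0 : M ≠ 0 := (hVx M hM).1
  obtain ⟨U', hU', -, ⟨x₁, hx₁⟩, hav⟩ := avoid hU hne [p, q] [M, L] (by simp [hp0, hq0])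
    (by simp [hM0, hL0])
  obtain ⟨hY, hΨ⟩ := hav x₁ hx₁
  obtain ⟨hx10, φ₁, hφ₁, hφx⟩ := hUx x₁ (hU' hx₁)
  obtain ⟨ψ₁, hψ₁, hψx, hψY⟩ := pencil hV hφ₁ hφx [p, q] hY
  obtain ⟨Γ₁, l1, t1, U₁, V₁, hU₁, hV₁, m1, n1, hA₁⟩ := ext_tv hπ hU hV hA hp hM hMp [q, x₁]
    [L, ψ₁] (by simp [hq, hMq, hU' hx₁, hΨ M (by simp)])
    (by simp [hL, hLp, hψ₁, hψY p (by simp)])
  obtain ⟨Γ₂, l2, t2, U₂, V₂, hU₂, hV₂, m2, n2, hA₂⟩ := ext_tv hπ hU₁ hV₁ hA₁ (m1 q (by simp))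
    (n1 L (by simp)) hLq [x₁] [ψ₁] (by simp [m1 x₁ (by simp), hΨ L (by simp)])
    (by simp [n1 ψ₁ (by simp), hψY q (by simp)])
  refine ⟨Γ₂, l1.trans l2, ⟨U₂, V₂, hU₂, hV₂, hA₂, x₁, m2 x₁ (by simp), ψ₁, n2 ψ₁ (by simp), hx10,
    (hVx ψ₁ hψ₁).1, hψx⟩, fun W hW hkW => ?_⟩
  have s1 : TvIn W p M := t1.mono ((Subgroup.map_mono l2).trans hW)
  have s2 : TvIn W q L := t2.mono hW
  have s3 := s1.conj hkW
  have e1 : (M ᵥ* qm k⁻¹) ⬝ᵥ (qm k *ᵥ p) = 0 := by rw [vecMul_dot, qm_inv_mulVec, hMp]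
  have e2 : (M ᵥ* qm k⁻¹) ⬝ᵥ q ≠ 0 := by rwa [vecMul_dot]
  have s4 : TvIn W (qm k *ᵥ p) L := s3.comm s2 e1 hLq hLk e2
  have f1 : FullC W (qm k *ᵥ p) := fullC_of_two hkp0 s3 s4 e1 hLk
    (cross_ne_of_dot (ψ := q) (by rwa [dotProduct_comm]) (by rwa [dotProduct_comm]) hL0)
  have f2 := f1.conj (W.inv_mem hkW)
  rw [qm_inv_mulVec] at f2
  exact ⟨p, L, f2, fullA_of_two hL0 s4 s2 hLk hLq (cross_ne_comm hqk), hLp⟩

end Pool.Agent.MP_5045a8_al.FT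

end

section

/-! Adding an element of a prescribed double coset. -/

namespace Pool.Agent.MP_5045a8_al.FT

open Matrix

variable {F : Type} [Group F]

theorem extg_cone {M : QM} {A V : Set Q3} (h : ∀ φ ∈ V, ∀ p ∈ A, φ ⬝ᵥ (M *ᵥ p) ≠ 0) {y : Q3}
    (hy : y ∈ Cone A) : M *ᵥ y ∈ Av V := by
  obtain ⟨c, hc, p, hp, rfl⟩ := hy
  intro φ hφ
  rw [mulVec_smul, dotProduct_smul, smul_eq_mul]
  exact mul_ne_zero hc (h φ hφ p hp)

theorem extg_cone_mono {A B : Set Q3} (h : A ⊆ B) : Cone A ⊆ Cone B := by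
  rintro y ⟨c, hc, p, hp, rfl⟩
  exact ⟨c, hc, p, h hp, rfl⟩

theorem extg_pow {g : G3} {A V : Set Q3} (h1 : ∀ y ∈ Av V, qm g *ᵥ y ∈ Cone A)
    (h2 : ∀ y ∈ Cone A, y ∈ Av V) (n : ℕ) : ∀ y ∈ Av V, qm (g ^ (n + 1)) *ᵥ y ∈ Cone A := by
  induction n with
  | zero => intro y hy; rw [zero_add, pow_one]; exact h1 y hy
  | succ n ih =>
    intro y hy
    rw [pow_succ', qm_mul_mulVec]
    exact h1 _ (h2 _ (ih y hy))

theorem extg_inv {g : G3} {p φ : Q3} {r : ℚ} (hφ : φ ⬝ᵥ p = 0)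
    (hg : qm g = 1 + r • vecMulVec p φ) : qm g⁻¹ = 1 + (-r) • vecMulVec p φ := by
  have := tv_zpow hφ hg (-1)
  rw [_root_.zpow_neg_one] at this
  rw [this]
  simp

theorem ext_gen {π : F →* G3} (hπ : Function.Surjective π) {Γ : Subgroup F} {U V : Set Q3}
    (hU : IsOpen U) (hV : IsOpen V) (hA : Adm π Γ U V) {W : Subgroup G3} (s : G3)
    {a α b β x ψ : Q3} (ha : a ∈ U) (hb : b ∈ U) (hα : α ∈ V) (hβ : β ∈ V) (hx : x ∈ U)
    (hψ : ψ ∈ V) (hαa : α ⬝ᵥ a = 0) (hβb : β ⬝ᵥ b = 0) (hWa : TvIn W a α) (hWb : TvIn W b β)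
    (n1 : α ⬝ᵥ (qm s *ᵥ b) ≠ 0) (n2 : β ⬝ᵥ (qm s⁻¹ *ᵥ a) ≠ 0) (n3 : α ⬝ᵥ b ≠ 0)
    (n4 : β ⬝ᵥ a ≠ 0) (n5 : α ⬝ᵥ x ≠ 0) (n6 : β ⬝ᵥ x ≠ 0) (n7 : ψ ⬝ᵥ a ≠ 0) (n8 : ψ ⬝ᵥ b ≠ 0) :
    ∃ Γ' : Subgroup F, Γ ≤ Γ' ∧ s ∈ Γ'.map π ⊔ W ∧ ∃ U₁ V₁ : Set Q3, IsOpen U₁ ∧ IsOpen V₁ ∧
      x ∈ U₁ ∧ ψ ∈ V₁ ∧ Adm π Γ' U₁ V₁ := by
  have one : ∀ {φ p : Q3}, φ ⬝ᵥ p ≠ 0 → φ ⬝ᵥ ((1 : QM) *ᵥ p) ≠ 0 := fun h => by
    rwa [one_mulVec]
  obtain ⟨δ, ⟨⟨⟨⟨ba, bb⟩, bx⟩, ⟨⟨bα, bβ⟩, bψ⟩⟩, ⟨⟨⟨m1, m2⟩, ⟨m3, m4⟩⟩, ⟨⟨m5, m6⟩, ⟨m7, m8⟩⟩⟩⟩,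
      hδ⟩ :=
    ((((((ball_sub hU ha).and (ball_sub hU hb)).and (ball_sub hU hx)).and
      (((ball_sub hV hα).and (ball_sub hV hβ)).and (ball_sub hV hψ))).and
      ((((nz _ n1).and (nz _ n2)).and ((nz _ (one n3)).and (nz _ (one n4)))).and
        (((nz _ (one n5)).and (nz _ (one n6))).and ((nz _ (one n7)).and (nz _ (one n8)))))).and
      self_mem_nhdsWithin).exists
  have hδ0 : 0 < δ := hδ
  simp only [one_mulVec] at m5 m6 m7 m8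
  obtain ⟨Ra, -, hRa⟩ := basic a α hδ0
  obtain ⟨Rb, -, hRb⟩ := basic b β hδ0
  obtain ⟨ra, hra, ga, hga, ega⟩ := hWa.large hαa Ra
  obtain ⟨rb, hrb, gb, hgb, egb⟩ := hWb.large hβb Rb
  obtain ⟨t, ht⟩ := hπ (ga * s * gb)
  have hra' : Ra < |((-ra : ℚ) : ℝ)| := by rwa [Rat.cast_neg, abs_neg]
  have hrb' : Rb < |((-rb : ℚ) : ℝ)| := by rwa [Rat.cast_neg, abs_neg]
  have f1 : ∀ y ∈ Av (Metric.ball β δ), qm (π t) *ᵥ y ∈ Cone (Metric.ball a δ) := by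
    intro y hy
    rw [ht, qm_mul_mulVec, qm_mul_mulVec, ega, egb]
    exact hRa ra hra _ (extg_cone m1 (hRb rb hrb y hy))
  have f2 : ∀ y ∈ Cone (Metric.ball a δ), y ∈ Av (Metric.ball β δ) := by
    intro y hy
    have := extg_cone m4 hy
    rwa [one_mulVec] at this
  have f3 : ∀ y ∈ Av (Metric.ball α δ), qm (π t)⁻¹ *ᵥ y ∈ Cone (Metric.ball b δ) := by
    intro y hy
    rw [ht, _root_.mul_inv_rev, _root_.mul_inv_rev, qm_mul_mulVec, qm_mul_mulVec,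
      extg_inv hαa ega, extg_inv hβb egb]
    exact hRb _ hrb' _ (extg_cone m2 (hRa _ hra' y hy))
  have f4 : ∀ y ∈ Cone (Metric.ball b δ), y ∈ Av (Metric.ball α δ) := by
    intro y hy
    have := extg_cone m3 hy
    rwa [one_mulVec] at this
  refine ⟨Γ ⊔ Subgroup.zpowers t, le_sup_left, ?_, Metric.ball x δ, Metric.ball ψ δ,
    Metric.isOpen_ball, Metric.isOpen_ball, Metric.mem_ball_self hδ0, Metric.mem_ball_self hδ0, ?_⟩
  · have e : s = ga⁻¹ * π t * gb⁻¹ := by rw [ht]; group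
    rw [e]
    refine Subgroup.mul_mem _ (Subgroup.mul_mem _ ?_ ?_) ?_
    · exact Subgroup.mem_sup_right (W.inv_mem hga)
    · exact Subgroup.mem_sup_left
        (Subgroup.mem_map_of_mem π (Subgroup.mem_sup_right (Subgroup.mem_zpowers t)))
    · exact Subgroup.mem_sup_right (W.inv_mem hgb)
  · refine adm_sup (V' := Metric.ball α δ ∪ Metric.ball β δ)
      (A := Metric.ball a δ ∪ Metric.ball b δ) hA t ?_ (Set.union_subset ba bb)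
      (Set.union_subset bα bβ) bx ?_ bψ ?_
    · intro j hj y hy
      have hyα : y ∈ Av (Metric.ball α δ) := fun φ hφ => hy φ (Or.inl hφ)
      have hyβ : y ∈ Av (Metric.ball β δ) := fun φ hφ => hy φ (Or.inr hφ)
      cases j with
      | ofNat n =>
        cases n with
        | zero => exact absurd rfl hj
        | succ n =>
          rw [Int.ofNat_eq_natCast, zpow_natCast]
          exact extg_cone_mono Set.subset_union_left (extg_pow f1 f2 n y hyβ)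
      | negSucc n =>
        rw [zpow_negSucc, ← inv_pow]
        exact extg_cone_mono Set.subset_union_right (extg_pow f3 f4 n y hyα)
    · rintro y hy φ (hφ | hφ)
      · exact m5 φ hφ y hy
      · exact m6 φ hφ y hy
    · rintro y (hy | hy) φ hφ
      · exact m7 φ hφ y hy
      · exact m8 φ hφ y hy

end Pool.Agent.MP_5045a8_al.FT

end

section

/-! Boxes, branching and the absence of full centres. -/

namespace Pool.Agent.MP_5045a8_al.FT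

open Matrix

variable {F : Type} [Group F] {π : F →* G3} {Γ : Subgroup F}

theorem good_bot : Good π ⊥ := by
  refine ⟨Set.univ, Set.univ, isOpen_univ, isOpen_univ,
    fun w hw h1 => absurd (Subgroup.mem_bot.1 hw) h1, Pi.single 0 1, trivial, Pi.single 1 1,
    trivial, ?_, ?_, ?_⟩ <;> simp

theorem Good.box (h : Good π Γ) : ∃ U V, Box π Γ U V := by
  obtain ⟨U, V, hU, hV, hA, x, hx, ψ, hψ, hx0, hψ0, hi⟩ := h
  refine ⟨U ∩ {x | x ≠ 0 ∧ ∃ ψ ∈ V ∩ {ψ | ψ ≠ 0}, ψ ⬝ᵥ x = 0},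
    V ∩ {ψ | ψ ≠ 0 ∧ ∃ x ∈ U ∩ {x | x ≠ 0}, x ⬝ᵥ ψ = 0},
    hU.inter (isOpen_inc (hV.inter isOpen_ne)), hV.inter (isOpen_inc (hU.inter isOpen_ne)),
    fun w hw h1 y hy φ hφ => hA w hw h1 y hy.1 φ hφ.1, ⟨x, hx, hx0, ψ, ⟨hψ, hψ0⟩, hi⟩, ?_, ?_⟩
  · rintro y ⟨hy, hy0, φ, ⟨hφ, hφ0⟩, h0⟩
    exact ⟨hy0, φ, ⟨hφ, hφ0, y, ⟨hy, hy0⟩, (dotProduct_comm _ _).trans h0⟩, h0⟩
  · rintro φ ⟨hφ, hφ0, y, ⟨hy, hy0⟩, h0⟩
    have h1 := (dotProduct_comm _ _).trans h0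
    exact ⟨hφ0, y, ⟨hy, hy0, φ, ⟨hφ, hφ0⟩, h1⟩, h1⟩

theorem Good.inj (h : Good π Γ) : ∀ w ∈ Γ, π w = 1 → w = 1 := by
  obtain ⟨U, V, -, -, hA, x, hx, ψ, hψ, -, -, hi⟩ := h
  intro w hw h1
  by_contra h2
  refine hA w hw h2 x hx ψ hψ ?_
  rw [h1, map_one, one_mulVec, hi]

theorem bx_pt {U : Set Q3} (hU : IsOpen U) (hne : U.Nonempty) {p : Q3} (hp : p ≠ 0) :
    ∃ x ∈ U, x ⨯₃ p ≠ 0 := by
  obtain ⟨U', h1, -, ⟨x, hx⟩, h2⟩ := avoid hU hne [p] [] (by simpa using hp) (by simp)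
  exact ⟨x, h1 hx, (h2 x hx).1 p (by simp)⟩

theorem Good.not_fullC (h : Good π Γ) {p : Q3} (hp : p ≠ 0) : ¬ FullC (Γ.map π) p := by
  obtain ⟨U, V, hU, -, hA, hne, h1, -⟩ := h.box
  obtain ⟨x, hx, hxp⟩ := bx_pt hU hne hp
  obtain ⟨-, ψ, hψ, hi⟩ := h1 x hx
  intro hF
  obtain ⟨r, hr, g, ⟨w, hw, rfl⟩, hg⟩ := hF (p ⨯₃ x)
    ((dotProduct_comm _ _).trans (dot_self_cross p x))
  have h2 : (p ⨯₃ x) ⬝ᵥ x = 0 := (dotProduct_comm _ _).trans (dot_cross_self p x)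
  refine hA w hw (fun h3 => ?_) x hx ψ hψ ?_
  · rw [h3, map_one, map_one, left_eq_add, smul_eq_zero, vecMulVec_eq_zero] at hg
    rcases hg with hg | hg | hg
    exacts [hr hg, hp hg, cross_ne_comm hxp hg]
  · rw [hg, add_mulVec, one_mulVec, smul_mulVec, vecMulVec_mulVec, h2]
    simpa using hi

theorem Good.branch (hπ : Function.Surjective π) (h : Good π Γ) :
    ∃ (Δ : Bool → Subgroup F) (p : Q3) (φ : Bool → Q3), p ≠ 0 ∧ φ false ⨯₃ φ true ≠ 0 ∧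
      ∀ i, Γ ≤ Δ i ∧ Good π (Δ i) ∧ φ i ⬝ᵥ p = 0 ∧ TvIn ((Δ i).map π) p (φ i) := by
  obtain ⟨U, V, hU, hV, hA, ⟨p, hp⟩, h1, h2⟩ := h.box
  obtain ⟨hp0, φ', hφ', hφp⟩ := h1 p hp
  obtain ⟨x, hx, hxp⟩ := bx_pt hU ⟨p, hp⟩ hp0
  obtain ⟨hx0, ψ', hψ', hψx⟩ := h1 x hx
  obtain ⟨ψ, hψ, a1, a2⟩ := pencil hV hψ' hψx [p] (by simpa using hxp)
  obtain ⟨φ₀, hφ₀, b1, b2⟩ := pencil hV hφ' hφp [x] (by simpa using cross_ne_comm hxp)
  have ho : IsOpen (V ∩ {φ : Q3 | φ ⬝ᵥ x ≠ 0}) :=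
    hV.inter (isOpen_ne_fun (continuous_id.dotProduct continuous_const) continuous_const)
  obtain ⟨φ₁, ⟨hφ₁, c0⟩, c1, c2⟩ := pencil₂ (L := p) ho ⟨hφ₀, b2 x (by simp)⟩
    ((dotProduct_comm _ _).trans b1) (h2 φ₀ hφ₀).1
  have key : ∀ φ ∈ V, φ ⬝ᵥ p = 0 → φ ⬝ᵥ x ≠ 0 → ∃ Δ : Subgroup F,
      Γ ≤ Δ ∧ Good π Δ ∧ φ ⬝ᵥ p = 0 ∧ TvIn (Δ.map π) p φ := fun φ hφ e1 e2 => by
    obtain ⟨Δ, d1, d2, U₁, V₁, d3, d4, d5, d6, d7⟩ := ext_tv hπ hU hV hA hp hφ e1 [x] [ψ]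
      (by simpa using ⟨hx, e2⟩) (by simpa using ⟨hψ, a2 p (by simp)⟩)
    exact ⟨Δ, d1, ⟨U₁, V₁, d3, d4, d7, x, d5 x (by simp), ψ, d6 ψ (by simp), hx0, (h2 ψ hψ).1, a1⟩,
      e1, d2⟩
  obtain ⟨Δ₀, k0⟩ := key φ₀ hφ₀ b1 (b2 x (by simp))
  obtain ⟨Δ₁, k1⟩ := key φ₁ hφ₁ ((dotProduct_comm _ _).trans c1) c0
  refine ⟨fun i => cond i Δ₀ Δ₁, p, fun i => cond i φ₀ φ₁, hp0, c2, fun i => ?_⟩
  cases i
  exacts [k1, k0]

end Pool.Agent.MP_5045a8_al.FT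

end

section

/-! With a dense set of full centres every element can be reached. -/

namespace Pool.Agent.MP_5045a8_al.FT

open Matrix

variable {F : Type} [Group F] {π : F →* G3} {Γ : Subgroup F}

theorem reach (hπ : Function.Surjective π) (h : Good π Γ) {W : Subgroup G3}
    (hW : ∀ U : Set Q3, IsOpen U → U.Nonempty → ∃ c ∈ U, FullC W c) (s : G3) :
    ∃ Γ' : Subgroup F, Γ ≤ Γ' ∧ Good π Γ' ∧ s ∈ Γ'.map π ⊔ W := by
  obtain ⟨U, V, hU, hV, hA, hne, hUV, hVU⟩ := h.box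
  obtain ⟨x, hx⟩ := id hne
  obtain ⟨hx0, ψ, hψ, hψx⟩ := hUV x hx
  have hψ0 : ψ ≠ 0 := (hVU ψ hψ).1
  obtain ⟨U₁, hU₁, hU₁o, hU₁n, hU₁p⟩ := avoid hU hne [] [ψ] (by simp) (by simpa using hψ0)
  obtain ⟨a, ha₁, hFa⟩ := hW U₁ hU₁o hU₁n
  have ha : a ∈ U := hU₁ ha₁
  have hψa : ψ ⬝ᵥ a ≠ 0 := (hU₁p a ha₁).2 ψ (by simp)
  obtain ⟨ha0, α₀, hα₀, hα₀a⟩ := hUV a ha
  obtain ⟨U₂, hU₂, hU₂o, hU₂n, hU₂p⟩ := avoid hU hne [a, qm s⁻¹ *ᵥ a] [ψ]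
    (by
      intro y hy
      rcases List.mem_cons.mp hy with rfl | hy
      · exact ha0
      · rw [List.mem_singleton.mp hy]
        exact qm_mulVec_ne_zero _ ha0)
    (by simpa using hψ0)
  obtain ⟨b, hb₂, hFb⟩ := hW U₂ hU₂o hU₂n
  have hb : b ∈ U := hU₂ hb₂
  have hψb : ψ ⬝ᵥ b ≠ 0 := (hU₂p b hb₂).2 ψ (by simp)
  have hba : b ⨯₃ a ≠ 0 := (hU₂p b hb₂).1 a (by simp)
  have hbs : b ⨯₃ (qm s⁻¹ *ᵥ a) ≠ 0 := (hU₂p b hb₂).1 _ (by simp)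
  obtain ⟨-, β₀, hβ₀, hβ₀b⟩ := hUV b hb
  have hsa : a ⨯₃ (qm s *ᵥ b) ≠ 0 := by
    have h1 := cross_qm_ne (g := s) hbs
    rw [qm_mulVec_inv] at h1
    exact cross_ne_comm h1
  obtain ⟨α, hα, hαa, hαY⟩ := pencil hV hα₀ hα₀a [qm s *ᵥ b, b, x] (by
    intro y hy
    rcases List.mem_cons.mp hy with rfl | hy
    · exact hsa
    rcases List.mem_cons.mp hy with rfl | hy
    · exact cross_ne_comm hba
    · rw [List.mem_singleton.mp hy]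
      exact cross_ne_of_dot hψa hψx hx0)
  obtain ⟨β, hβ, hβb, hβY⟩ := pencil hV hβ₀ hβ₀b [qm s⁻¹ *ᵥ a, a, x] (by
    intro y hy
    rcases List.mem_cons.mp hy with rfl | hy
    · exact hbs
    rcases List.mem_cons.mp hy with rfl | hy
    · exact hba
    · rw [List.mem_singleton.mp hy]
      exact cross_ne_of_dot hψb hψx hx0)
  obtain ⟨Γ', hle, hs, U', V', hU', hV', hx', hψ', hA'⟩ := ext_gen hπ hU hV hA s ha hb hα hβ hx hψ
    hαa hβb (hFa α hαa) (hFb β hβb) (hαY _ (by simp)) (hβY _ (by simp)) (hαY _ (by simp))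
    (hβY _ (by simp)) (hαY _ (by simp)) (hβY _ (by simp)) hψa hψb
  exact ⟨Γ', hle, ⟨U', V', hU', hV', hA', x, hx', ψ, hψ', hx0, hψ0, hψx⟩, hs⟩

end Pool.Agent.MP_5045a8_al.FT

end

section

/-! A full centre and a full axis in general position give a dense set of full centres. -/

namespace Pool.Agent.MP_5045a8_al.FT

open Matrix

theorem dense_near {U : Set Q3} (hU : IsOpen U) {y : Q3} (hy : y ∈ U) (z : Q3) (a : ℚ) {b : ℚ}
    (hb : b ≠ 0) : ∃ R : ℝ, ∀ r : ℚ, R < |(r : ℝ)| →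
      a + r * b ≠ 0 ∧ y + (a + r * b)⁻¹ • z ∈ U := by
  have hc : Continuous fun t : ℚ => y + t • z := by fun_prop
  obtain ⟨δ, h0, hδ⟩ := Metric.isOpen_iff.1 (hU.preimage hc) 0 (by simpa using hy)
  have hb' : (0 : ℝ) < |(b : ℝ)| := abs_pos.2 (Rat.cast_ne_zero.2 hb)
  refine ⟨(δ⁻¹ + |(a : ℝ)|) / |(b : ℝ)|, fun r hr => ?_⟩
  have h1 : δ⁻¹ < |((a + r * b : ℚ) : ℝ)| := by
    have := abs_sub (a + r * b : ℝ) a
    rw [add_sub_cancel_left, abs_mul] at this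
    rw [div_lt_iff₀ hb'] at hr
    push_cast
    linarith
  refine ⟨fun e => ?_, hδ ?_⟩
  · rw [e, Rat.cast_zero, abs_zero] at h1
    exact h1.not_gt (inv_pos.2 h0)
  · rw [Metric.mem_ball, Rat.dist_eq, Rat.cast_zero, sub_zero, Rat.cast_inv, abs_inv]
    exact inv_lt_of_inv_lt₀ h0 h1

theorem dense_tv (r : ℚ) (p φ x : Q3) :
    (1 + r • vecMulVec p φ) *ᵥ x = x + (r * (φ ⬝ᵥ x)) • p := by
  rw [add_mulVec, one_mulVec, smul_mulVec, vecMulVec_mulVec, op_smul_eq_smul, smul_smul]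

theorem dense_fullC {W : Subgroup G3} {p L : Q3} (hp : FullC W p) (hL : FullA W L)
    (hLp : L ⬝ᵥ p ≠ 0) {U : Set Q3} (hU : IsOpen U) (hne : U.Nonempty) :
    ∃ c ∈ U, FullC W c := by
  have p0 : p ≠ 0 := fun e => hLp (by rw [e, dotProduct_zero])
  obtain ⟨U', hU', -, ⟨y, hy⟩, h⟩ := avoid hU hne [p] [] (by simpa using p0) (by simp)
  have hφ : y ⨯₃ p ≠ 0 := (h y hy).1 p (by simp)
  have e1 : y ⨯₃ p ⬝ᵥ p = 0 := by rw [dotProduct_comm, dot_cross_self]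
  have e2 : y ⨯₃ p ⬝ᵥ y = 0 := by rw [dotProduct_comm, dot_self_cross]
  generalize y ⨯₃ p = φ at hφ e1 e2
  obtain ⟨R, hR⟩ := dense_near hU (hU' hy) (-(L ⬝ᵥ y) • φ) (L ⬝ᵥ φ)
    (mul_ne_zero (mt dotProduct_self_eq_zero.1 hφ) hLp)
  obtain ⟨r, hr, g, hg, e⟩ := (hp φ e1).large e1 R
  obtain ⟨n0, hv⟩ := hR r hr
  have e3 : ∀ x, (L ᵥ* qm g) ⬝ᵥ x = L ⬝ᵥ x + r * (φ ⬝ᵥ x * L ⬝ᵥ p) := fun x => by
    rw [vecMul_dot, e, dense_tv, dotProduct_add, dotProduct_smul, smul_eq_mul, mul_assoc]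
  have e4 : (L ᵥ* qm g) ⬝ᵥ (y + (L ⬝ᵥ φ + r * (φ ⬝ᵥ φ * L ⬝ᵥ p))⁻¹ • -(L ⬝ᵥ y) • φ) = 0 := by
    rw [dotProduct_add, dotProduct_smul, dotProduct_smul, e3, e3, e2, smul_eq_mul, smul_eq_mul,
      mul_left_comm _ (-_), inv_mul_cancel₀ n0]
    ring
  obtain ⟨R', hR'⟩ := dense_near hU hv p 0 hLp
  obtain ⟨r', hr', g', hg', e'⟩ := (hL.conj hg _ e4).large e4 R'
  obtain ⟨n1, hc⟩ := hR' r' hr'
  refine ⟨_, hc, ?_⟩
  have := (hp.conj hg').smul (inv_ne_zero n1)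
  rw [zero_add] at this n1 ⊢
  rwa [e', dense_tv, e3, e1, zero_mul, mul_zero, add_zero, smul_add, smul_smul,
    inv_mul_cancel₀ n1, one_smul, add_comm] at this

end Pool.Agent.MP_5045a8_al.FT

end

section

/-! The main step. -/

namespace Pool.Agent.MP_5045a8_al.FT

open Matrix

variable {F : Type} [Group F] {π : F →* G3} {Γ : Subgroup F}

/-- An outside element can be made to link the two sets of a box. -/
theorem Good.exists_link (h : Good π Γ) {k : G3} (hk : k ∉ Γ.map π) :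
    ∃ U V, Box π Γ U V ∧ ∃ k' ∈ Γ.map π ⊔ Subgroup.zpowers k, k' ≠ 1 ∧
      ∃ x ∈ U, ∃ ψ ∈ V, ψ ⬝ᵥ (qm k' *ᵥ x) = 0 := by
  obtain ⟨U, V, hB⟩ := h.box
  by_cases hc : ∃ k' ∈ Γ.map π ⊔ Subgroup.zpowers k, k' ≠ 1 ∧
      ∃ x ∈ U, ∃ ψ ∈ V, ψ ⬝ᵥ (qm k' *ᵥ x) = 0
  · exact ⟨U, V, hB, hc⟩
  have hall : ∀ k' ∈ Γ.map π ⊔ Subgroup.zpowers k, k' ≠ 1 →
      ∀ x ∈ U, ∀ ψ ∈ V, ψ ⬝ᵥ (qm k' *ᵥ x) ≠ 0 := fun k' h1 h2 x hx ψ hψ h3 =>
    hc ⟨k', h1, h2, x, hx, ψ, hψ, h3⟩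
  obtain ⟨hU, hV, hA, hne, hUV, hVU⟩ := hB
  have hkK : k ∈ Γ.map π ⊔ Subgroup.zpowers k :=
    Subgroup.mem_sup_right (Subgroup.mem_zpowers k)
  have hk1 : k ≠ 1 := fun e => hk (e ▸ one_mem _)
  have hvk : ∀ ψ : Q3, (ψ ᵥ* qm k⁻¹) ᵥ* qm k = ψ := fun ψ => by
    rw [vecMul_vecMul, ← map_mul, inv_mul_cancel, map_one, vecMul_one]
  have hdot : ∀ ψ y : Q3, ψ ⬝ᵥ y = (ψ ᵥ* qm k) ⬝ᵥ (qm k⁻¹ *ᵥ y) := fun ψ y => by
    rw [vecMul_dot, qm_mulVec_inv]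
  refine ⟨U ∪ {x | qm k⁻¹ *ᵥ x ∈ U}, V ∪ {ψ | ψ ᵥ* qm k ∈ V},
    ⟨hU.union (hU.preimage (continuous_mulVec _)), hV.union (hV.preimage (continuous_vecMul _)),
      ?_, hne.mono Set.subset_union_left, ?_, ?_⟩, k, hkK, hk1, ?_⟩
  · intro w hw hw1 x hx ψ hψ
    have hgi : π w ∈ Γ.map π := Subgroup.mem_map_of_mem π hw
    have hg : π w ∈ Γ.map π ⊔ Subgroup.zpowers k := Subgroup.mem_sup_left hgi
    have hg1 : π w ≠ 1 := fun e => hw1 (h.inj w hw e)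
    rcases hx with hx | hx <;> rcases hψ with hψ | hψ
    · exact hA w hw hw1 x hx ψ hψ
    · have h1 : k⁻¹ * π w ≠ 1 := fun e => hk (inv_mul_eq_one.mp e ▸ hgi)
      have h2 := hall _ (mul_mem (inv_mem hkK) hg) h1 x hx _ hψ
      rwa [qm_mul_mulVec, ← hdot] at h2
    · have h1 : π w * k ≠ 1 := fun e => hk (eq_inv_of_mul_eq_one_right e ▸ inv_mem hgi)
      have h2 := hall _ (mul_mem hg hkK) h1 _ hx ψ hψ
      rwa [qm_mul_mulVec, qm_mulVec_inv] at h2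
    · have h1 : k⁻¹ * (π w * k) ≠ 1 := fun e => hg1 (by
        have h3 := inv_mul_eq_one.mp e
        exact (mul_eq_right.mp h3.symm))
      have h2 := hall _ (mul_mem (inv_mem hkK) (mul_mem hg hkK)) h1 _ hx _ hψ
      rwa [qm_mul_mulVec, qm_mul_mulVec, qm_mulVec_inv, ← hdot] at h2
  · rintro x (hx | hx)
    · obtain ⟨h0, ψ, hψ, e⟩ := hUV x hx
      exact ⟨h0, ψ, Or.inl hψ, e⟩
    · obtain ⟨h0, ψ, hψ, e⟩ := hUV _ hx
      refine ⟨fun e0 => h0 (by rw [e0, mulVec_zero]), ψ ᵥ* qm k⁻¹, Or.inr ?_, ?_⟩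
      · show (ψ ᵥ* qm k⁻¹) ᵥ* qm k ∈ V
        rwa [hvk]
      · rwa [vecMul_dot]
  · rintro ψ (hψ | hψ)
    · obtain ⟨h0, x, hx, e⟩ := hVU ψ hψ
      exact ⟨h0, x, Or.inl hx, e⟩
    · obtain ⟨h0, x, hx, e⟩ := hVU _ hψ
      refine ⟨fun e0 => h0 (by rw [e0, zero_vecMul]), qm k *ᵥ x, Or.inr ?_, ?_⟩
      · show qm k⁻¹ *ᵥ (qm k *ᵥ x) ∈ U
        rwa [qm_inv_mulVec]
      · rwa [← vecMul_dot]
  · obtain ⟨x, hx⟩ := hne
    obtain ⟨-, ψ, hψ, e⟩ := hUV x hx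
    refine ⟨x, Or.inl hx, ψ ᵥ* qm k⁻¹, Or.inr ?_, ?_⟩
    · show (ψ ᵥ* qm k⁻¹) ᵥ* qm k ∈ V
      rwa [hvk]
    · rwa [vecMul_dot, qm_inv_mulVec]

theorem kill (hπ : Function.Surjective π) (h : Good π Γ) {k : G3} (hk : k ∉ Γ.map π) (s : G3) :
    ∃ Γ' : Subgroup F, Γ ≤ Γ' ∧ Good π Γ' ∧ s ∈ Γ'.map π ⊔ Subgroup.zpowers k := by
  obtain ⟨U, V, hB, k', hk', hk1, x, hx, ψ, hψ, hinc⟩ := h.exists_link hk
  obtain ⟨Γ₁, h1, hG₁, hW⟩ := link hπ hB hk1 hx hψ hinc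
  obtain ⟨p, L, hp, hL, hLp⟩ := hW (Γ₁.map π ⊔ Subgroup.zpowers k) le_sup_left
    (sup_le_sup_right (Subgroup.map_mono h1) _ hk')
  obtain ⟨Γ₂, h2, hG₂, hs⟩ := reach hπ hG₁ (fun U hU hne => dense_fullC hp hL hLp hU hne) s
  refine ⟨Γ₂, h1.trans h2, hG₂, ?_⟩
  refine (sup_le le_sup_left (sup_le_sup_right (Subgroup.map_mono h2) _) :
    Γ₂.map π ⊔ (Γ₁.map π ⊔ Subgroup.zpowers k) ≤ _) hs

end Pool.Agent.MP_5045a8_al.FT

end

section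

/-! The binary tree of admissible subgroups and its limits. -/

namespace Pool.Agent.MP_5045a8_al.FT

open Matrix

variable {F : Type} [Group F] {π : F →* G3}

theorem main_no_two {T : ℕ → Subgroup F} (hm : Monotone T) (hG : ∀ n, Good π (T n))
    {p φ₁ φ₂ : Q3} (hp : p ≠ 0) (h1 : TvIn ((⨆ n, T n).map π) p φ₁)
    (h2 : TvIn ((⨆ n, T n).map π) p φ₂) (e1 : φ₁ ⬝ᵥ p = 0) (e2 : φ₂ ⬝ᵥ p = 0)
    (hx : φ₁ ⨯₃ φ₂ ≠ 0) : False := by
  obtain ⟨r₁, hr₁, _, ⟨w₁, hw₁, rfl⟩, q₁⟩ := h1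
  obtain ⟨r₂, hr₂, _, ⟨w₂, hw₂, rfl⟩, q₂⟩ := h2
  obtain ⟨n₁, hn₁⟩ := (Subgroup.mem_iSup_of_directed hm.directed_le).1 hw₁
  obtain ⟨n₂, hn₂⟩ := (Subgroup.mem_iSup_of_directed hm.directed_le).1 hw₂
  exact (hG (max n₁ n₂)).not_fullC hp (fullC_of_two hp
    ⟨r₁, hr₁, _, ⟨w₁, hm (le_max_left _ _) hn₁, rfl⟩, q₁⟩
    ⟨r₂, hr₂, _, ⟨w₂, hm (le_max_right _ _) hn₂, rfl⟩, q₂⟩ e1 e2 hx)

theorem exists_family [Countable G3] (hπ : Function.Surjective π) :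
    ∃ Γ : (ℕ → Bool) → Subgroup F, Function.Injective (fun β => (Γ β).map π) ∧
      ∀ β, (∀ w ∈ Γ β, π w = 1 → w = 1) ∧ IsCoatom ((Γ β).map π) ∧ ((Γ β).map π).index = 0 := by
  classical
  obtain ⟨e, he⟩ := exists_surjective_nat (G3 × G3)
  have hk : ∀ (Γ : {Γ : Subgroup F // Good π Γ}) (t : G3 × G3),
      ∃ Γ' : {Γ : Subgroup F // Good π Γ}, Γ.1 ≤ Γ'.1 ∧
        (t.1 ∉ Γ.1.map π → t.2 ∈ Γ'.1.map π ⊔ Subgroup.zpowers t.1) := by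
    intro Γ t
    by_cases h : t.1 ∈ Γ.1.map π
    · exact ⟨Γ, le_rfl, fun h' => absurd h h'⟩
    · obtain ⟨Γ', h1, h2, h3⟩ := kill hπ Γ.2 h t.2
      exact ⟨⟨Γ', h2⟩, h1, fun _ => h3⟩
  choose κ hκ hκ' using hk
  choose Δ p φ hp hφ hΔ using fun Γ : {Γ : Subgroup F // Good π Γ} => Γ.2.branch hπ
  let T : (ℕ → Bool) → ℕ → {Γ : Subgroup F // Good π Γ} := fun β n =>
    Nat.rec ⟨⊥, good_bot⟩ (fun n X => ⟨Δ (κ X (e n)) (β n), (hΔ _ _).2.1⟩) n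
  have hT : ∀ β n, (T β (n + 1)).1 = Δ (κ (T β n) (e n)) (β n) := fun _ _ => rfl
  have hm : ∀ β, Monotone fun n => (T β n).1 := fun β =>
    monotone_nat_of_le_succ fun n => (hκ (T β n) (e n)).trans (hΔ _ _).1
  have hdep : ∀ β β' n, (∀ m < n, β m = β' m) → T β n = T β' n := by
    intro β β' n
    induction n with
    | zero => intro _; rfl
    | succ n ih =>
      intro h
      apply Subtype.ext
      rw [hT, hT, ih fun m hm => h m (hm.trans n.lt_succ_self), h n n.lt_succ_self]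
  have hle : ∀ β n, (T β n).1 ≤ ⨆ n, (T β n).1 := fun β n => le_iSup (fun n => (T β n).1) n
  have hidx : ∀ β, ((⨆ n, (T β n).1).map π).index = 0 := by
    intro β
    by_contra h
    refine main_no_two (hm β) (fun n => (T β n).2) (p := ![1, 0, 0]) (φ₁ := ![0, 1, 0])
      (φ₂ := ![0, 0, 1]) (by simp) (tvIn_of_index h ?_) (tvIn_of_index h ?_) ?_ ?_ ?_
    all_goals simp [cross_apply]
  refine ⟨fun β => ⨆ n, (T β n).1, fun β β' hβ => ?_, fun β => ⟨fun w hw => ?_, ⟨?_, ?_⟩, hidx β⟩⟩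
  · by_contra hne
    have hex : ∃ n, β n ≠ β' n := Function.ne_iff.1 hne
    have hE := hdep β β' (Nat.find hex) fun m hm => not_not.1 (Nat.find_min hex hm)
    set X := κ (T β (Nat.find hex)) (e (Nat.find hex)) with hX
    have h1 : TvIn ((⨆ n, (T β n).1).map π) (p X) (φ X (β (Nat.find hex))) :=
      (hΔ X _).2.2.2.mono (Subgroup.map_mono (hle β (Nat.find hex + 1)))
    have h2 : TvIn ((⨆ n, (T β n).1).map π) (p X) (φ X (β' (Nat.find hex))) := by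
      have hβ' : (⨆ n, (T β n).1).map π = (⨆ n, (T β' n).1).map π := hβ
      rw [hβ']
      refine (hΔ X _).2.2.2.mono (Subgroup.map_mono (le_trans (le_of_eq ?_)
        (hle β' (Nat.find hex + 1))))
      rw [hT, ← hE]
    refine main_no_two (hm β) (fun n => (T β n).2) (hp X) h1 h2 (hΔ X _).2.2.1 (hΔ X _).2.2.1 ?_
    have hd := Nat.find_spec hex
    have h0 := hφ X
    cases h : β (Nat.find hex) <;> cases h' : β' (Nat.find hex)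
    · exact absurd (h.trans h'.symm) hd
    · exact h0
    · exact cross_ne_comm h0
    · exact absurd (h.trans h'.symm) hd
  · obtain ⟨n, hn⟩ := (Subgroup.mem_iSup_of_directed (hm β).directed_le).1 hw
    exact (T β n).2.inj w hn
  · intro h
    have := hidx β
    rw [h, Subgroup.index_top] at this
    exact one_ne_zero this
  · intro K hK
    obtain ⟨k, hkK, hk⟩ := SetLike.exists_of_lt hK
    rw [eq_top_iff]
    intro s _
    obtain ⟨n, hn⟩ := he (k, s)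
    have h1 := hκ' (T β n) (e n) (by
      rw [hn]; exact fun h => hk (Subgroup.map_mono (hle β n) h))
    rw [hn] at h1
    refine (sup_le ?_ ((Subgroup.zpowers_le).2 hkK) : _ ≤ K) h1
    refine le_trans (Subgroup.map_mono ?_) hK.le
    rw [← hn]
    exact (hΔ _ (β n)).1.trans (hle β (n + 1))

end Pool.Agent.MP_5045a8_al.FT

end

section

/-! Free maximal subgroups of SL(3,Z). -/

namespace Pool.Agent.MP_5045a8_al.FT

open Matrix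

theorem not_hp_top : ¬ HP (⊤ : Subgroup G3) := fun h => by
  have hm : ∀ u f : V3, f ⬝ᵥ u = 0 → Mem ⊤ (tv u f) := fun u f e =>
    ⟨mk3 (tv u f) (by rw [det_tv, e, add_zero]), Subgroup.mem_top _, rfl⟩
  refine no_pair h (x := ![1, 0, 0]) (ψ := ![0, 1, 0]) (ψ' := ![0, 0, 1]) (y := ![0, 0, 1])
    (y' := ![0, 1, 0]) (by simp) (hm _ _ ?_) (hm _ _ ?_) (hm _ _ ?_) (hm _ _ ?_) ?_ ?_
  all_goals simp

theorem congr_dense {H : Subgroup G3} (hc : IsCoatom H) (hi : H.index = 0) (N : ℕ) (hN : 0 < N)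
    (g : G3) : ∃ h ∈ H, ∀ i j, (N : ℤ) ∣ h i j - g i j := by
  have : NeZero N := ⟨hN.ne'⟩
  let ρ : G3 →* SpecialLinearGroup (Fin 3) (ZMod N) :=
    SpecialLinearGroup.map (Int.castRingHom (ZMod N))
  have hk : ρ.ker.index ≠ 0 := by
    rw [Subgroup.index_ker]
    exact Nat.card_pos.ne'
  have htop : H ⊔ ρ.ker = ⊤ := by
    refine hc.2 _ (lt_of_le_of_ne le_sup_left fun e => hk ?_)
    have : ρ.ker ≤ H := e ▸ le_sup_right
    exact Nat.eq_zero_of_zero_dvd (hi ▸ Subgroup.index_dvd_of_le this)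
  have hg : g ∈ ((H ⊔ ρ.ker : Subgroup G3) : Set G3) := by rw [htop]; exact Subgroup.mem_top g
  rw [Subgroup.mul_normal] at hg
  obtain ⟨h, hh, n, hn, rfl⟩ := hg
  refine ⟨h, hh, fun i j => ?_⟩
  have e : ρ h = ρ (h * n) := by rw [map_mul, (MonoidHom.mem_ker).1 hn, mul_one]
  have e' : ((h i j : ℤ) : ZMod N) = (((h * n : G3) i j : ℤ) : ZMod N) :=
    congrArg (fun A : SpecialLinearGroup (Fin 3) (ZMod N) => A i j) e
  exact (ZMod.intCast_eq_intCast_iff_dvd_sub _ _ _).1 e'.symm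

theorem hp_freeG3 : HP (FreeGroup G3) := by
  obtain ⟨f, hf⟩ := exists_injective_nat G3
  exact hp_free.of_injective (FreeGroup.map fun g => (f g : ℤ))
    (FreeGroup.map_injective (Nat.cast_injective.comp hf))

theorem free_family : ∃ M : (ℕ → Bool) → Subgroup G3, Function.Injective M ∧
    ∀ β, IsMaxHaagerup (M β) ∧ IsFreeGroup (M β) ∧ IsCoatom (M β) ∧ (M β).index = 0 := by
  let π : FreeGroup G3 →* G3 := FreeGroup.lift id
  have hπ : Function.Surjective π := fun g => ⟨FreeGroup.of g, by simp [π]⟩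
  obtain ⟨Γ, hinj, hΓ⟩ := exists_family hπ
  refine ⟨fun β => (Γ β).map π, hinj, fun β => ?_⟩
  obtain ⟨h1, h2, h3⟩ := hΓ β
  have hb : Function.Bijective (π.subgroupMap (Γ β)) := by
    refine ⟨(injective_iff_map_eq_one _).2 fun w hw => Subtype.ext (h1 w w.2 ?_),
      π.subgroupMap_surjective _⟩
    exact congrArg Subtype.val hw
  let e : Γ β ≃* (Γ β).map π := MulEquiv.ofBijective _ hb
  refine ⟨(isMax_iff _).2 ⟨?_, fun K hK => ?_⟩, IsFreeGroup.ofMulEquiv e, h2, h3⟩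
  · exact hp_freeG3.of_injective ((Γ β).subtype.comp e.symm.toMonoidHom)
      (Subtype.val_injective.comp e.symm.injective)
  · rw [h2.2 K hK]
    exact not_hp_top

end Pool.Agent.MP_5045a8_al.FT

end

section

/-! Doubling an admissible subgroup along a new element and separating the two copies. -/

namespace Pool.Agent.MP_5045a8_al.FT

open Matrix

variable {F : Type} [Group F] {π : F →* G3} {Γ : Subgroup F}

theorem twin_pts {U V : Set Q3} (h : Box π Γ U V) : ∃ p ∈ U, ∃ x ∈ U, ∃ ψ ∈ V, ∃ φ₁ ∈ V, ∃ φ₂ ∈ V,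
    ψ ⬝ᵥ x = 0 ∧ ψ ⬝ᵥ p ≠ 0 ∧ φ₁ ⬝ᵥ p = 0 ∧ φ₂ ⬝ᵥ p = 0 ∧ φ₁ ⬝ᵥ x ≠ 0 ∧ φ₁ ⨯₃ φ₂ ≠ 0 := by
  obtain ⟨hU, hV, -, ⟨p, hp⟩, h1, h2⟩ := h
  obtain ⟨hp0, φ', hφ', hφp⟩ := h1 p hp
  obtain ⟨x, hx, hxp⟩ := bx_pt hU ⟨p, hp⟩ hp0
  obtain ⟨-, ψ', hψ', hψx⟩ := h1 x hx
  obtain ⟨ψ, hψ, a1, a2⟩ := pencil hV hψ' hψx [p] (by simpa using hxp)
  obtain ⟨φ₀, hφ₀, b1, b2⟩ := pencil hV hφ' hφp [x] (by simpa using cross_ne_comm hxp)
  obtain ⟨φ₁, hφ₁, c1, c2⟩ := pencil₂ (L := p) hV hφ₀ ((dotProduct_comm _ _).trans b1)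
    (h2 φ₀ hφ₀).1
  exact ⟨p, hp, x, hx, ψ, hψ, φ₀, hφ₀, φ₁, hφ₁, a1, a2 p (by simp), b1,
    (dotProduct_comm _ _).trans c1, b2 x (by simp), cross_ne_comm c2⟩

/-- A new element all of whose lifts can be added. -/
theorem Good.exists_dyn (h : Good π Γ) : ∃ g : G3, ∀ {F' : Type} [Group F'] (π' : F' →* G3)
    (Γ' : Subgroup F'), (∀ U V, Adm π Γ U V → Adm π' Γ' U V) → ∀ t : F', π' t = g →
      Good π' (Γ' ⊔ Subgroup.zpowers t) := by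
  obtain ⟨U, V, hB⟩ := h.box
  obtain ⟨p, hp, x, hx, ψ, hψ, φ, hφ, -, -, hψx, hψp, hφp, -, hφx, -⟩ := twin_pts hB
  obtain ⟨hU, hV, hA, -, hUx, hVx⟩ := hB
  have e1 := (ball_sub hU hp).and (ball_sub hV hφ)
  have e2 := (ball_sub hU hx).and (ball_sub hV hψ)
  have e3 := nz (φ := φ) (p := x) 1 (by rwa [one_mulVec])
  have e4 := nz (φ := ψ) (p := p) 1 (by rwa [one_mulVec])
  obtain ⟨δ, ⟨⟨⟨h1, h2⟩, h3, h4⟩, h5, h6⟩, hδ⟩ :=
    (((e1.and e2).and (e3.and e4)).and self_mem_nhdsWithin).exists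
  have hδ0 : 0 < δ := hδ
  obtain ⟨R, -, hR⟩ := basic p φ hδ0
  obtain ⟨r, hr, g, -, hg⟩ := (tvIn_top hφp).large hφp R
  refine ⟨g, fun π' Γ' hT t ht => ⟨Metric.ball x δ, Metric.ball ψ δ, Metric.isOpen_ball,
    Metric.isOpen_ball, ?_, x, Metric.mem_ball_self hδ0, ψ, Metric.mem_ball_self hδ0,
    (hUx x hx).1, (hVx ψ hψ).1, hψx⟩⟩
  refine adm_sup (V' := Metric.ball φ δ) (A := Metric.ball p δ) (hT U V hA) t
    (fun j hj y hy => ?_) h1 h2 h3 (fun y hy χ hχ => ?_) h4 fun y hy χ hχ => ?_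
  · rw [ht, tv_zpow hφp hg j]
    refine hR _ (hr.trans_le ?_) y hy
    have h7 : (1 : ℝ) ≤ |(j : ℝ)| := by exact_mod_cast Int.one_le_abs hj
    push_cast
    rw [abs_mul]
    exact le_mul_of_one_le_left (abs_nonneg _) h7
  · have := h5 χ hχ y hy
    rwa [one_mulVec] at this
  · have := h6 χ hχ y hy
    rwa [one_mulVec] at this

theorem Good.twin (hπ : Function.Surjective π) (h : Good π Γ) :
    ∃ (Δ : Subgroup F) (t : F) (p φ₁ φ₂ : Q3), Good π Δ ∧ Γ ≤ Δ ∧ (∀ w ∈ Γ, t⁻¹ * w * t ∈ Δ) ∧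
      p ≠ 0 ∧ φ₁ ⨯₃ φ₂ ≠ 0 ∧ φ₁ ⬝ᵥ p = 0 ∧ φ₂ ⬝ᵥ p = 0 ∧ TvIn (Δ.map π) p φ₁ ∧
      TvIn (Δ.map π) (qm (π t)⁻¹ *ᵥ p) (φ₂ ᵥ* qm (π t)) := by
  obtain ⟨g, hg⟩ := h.exists_dyn
  obtain ⟨t, rfl⟩ := hπ g
  let i : F →* F × Multiplicative ℤ := MonoidHom.inl _ _
  let t' : F × Multiplicative ℤ := (t, Multiplicative.ofAdd 1)
  let Λ := Γ.map i ⊔ Subgroup.zpowers t'
  have hG : Good (π.comp (MonoidHom.fst F (Multiplicative ℤ))) Λ := by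
    refine hg _ _ (fun U V hA => ?_) t' rfl
    rintro _ ⟨w, hw, rfl⟩ h1
    exact hA w hw fun h2 => h1 (by rw [h2, map_one])
  obtain ⟨U, V, hB⟩ := hG.box
  obtain ⟨p, hp, x, hx, ψ, hψ, φ₁, hφ₁, φ₂, hφ₂, hψx, hψp, h1p, h2p, h1x, h12⟩ := twin_pts hB
  obtain ⟨hU, hV, hA, -, hUx, hVx⟩ := hB
  have key : ∀ l ∈ Λ, l ≠ 1 → ∀ y ∈ U, ∀ χ ∈ V, χ ⬝ᵥ (qm (π l.1) *ᵥ y) ≠ 0 := hA
  have ht : t' ∈ Λ := Subgroup.mem_sup_right (Subgroup.mem_zpowers t')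
  have ht1 : t' ≠ 1 := fun e => by simpa [t'] using congrArg Prod.snd e
  have kt : ∀ y ∈ U, ∀ χ ∈ V, χ ⬝ᵥ (qm (π t) *ᵥ y) ≠ 0 := key t' ht ht1
  have kt' : ∀ y ∈ U, ∀ χ ∈ V, χ ⬝ᵥ (qm (π t)⁻¹ *ᵥ y) ≠ 0 := by
    have := key t'⁻¹ (Λ.inv_mem ht) (inv_ne_one.mpr ht1)
    rwa [Prod.fst_inv, map_inv] at this
  have hU₂ : IsOpen (U ∪ (fun y : Q3 => qm (π t) *ᵥ y) ⁻¹' U) :=
    hU.union (hU.preimage (continuous_mulVec _))
  have hV₂ : IsOpen (V ∪ (fun χ : Q3 => χ ᵥ* qm (π t)⁻¹) ⁻¹' V) :=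
    hV.union (hV.preimage (continuous_vecMul _))
  have hA₂ : Adm π (Λ.comap i) (U ∪ (fun y : Q3 => qm (π t) *ᵥ y) ⁻¹' U)
      (V ∪ (fun χ : Q3 => χ ᵥ* qm (π t)⁻¹) ⁻¹' V) := by
    intro w hw hw1 y hy χ hχ
    have hw' : i w ∈ Λ := hw
    have hi : i w ≠ 1 := fun e => hw1 (congrArg Prod.fst e)
    rcases hy with hy | hy <;> rcases hχ with hχ | hχ
    · exact key (i w) hw' hi y hy χ hχ
    · have := key (t' * i w) (Λ.mul_mem ht hw')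
        (fun e => by simpa [t', i] using congrArg Prod.snd e) y hy _ hχ
      rwa [show (t' * i w).1 = t * w from rfl, map_mul π, qm_mul_mulVec, vecMul_dot,
        qm_inv_mulVec] at this
    · have := key (i w * t'⁻¹) (Λ.mul_mem hw' (Λ.inv_mem ht))
        (fun e => by simpa [t', i] using congrArg Prod.snd e) _ hy χ hχ
      rwa [show (i w * t'⁻¹).1 = w * t⁻¹ from rfl, map_mul π, map_inv π, qm_mul_mulVec,
        qm_inv_mulVec] at this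
    · have := key (t' * i w * t'⁻¹) (Λ.mul_mem (Λ.mul_mem ht hw') (Λ.inv_mem ht))
        (fun e => hi (conj_eq_one_iff.mp e)) _ hy _ hχ
      rwa [show (t' * i w * t'⁻¹).1 = t * w * t⁻¹ from rfl, map_mul π, map_mul π, map_inv π,
        qm_mul_mulVec, qm_mul_mulVec, qm_inv_mulVec, vecMul_dot, qm_inv_mulVec] at this
  have m0 : qm (π t)⁻¹ *ᵥ p ∈ U ∪ (fun y : Q3 => qm (π t) *ᵥ y) ⁻¹' U :=
    Or.inr (by rwa [Set.mem_preimage, qm_mulVec_inv])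
  have n0 : φ₂ ᵥ* qm (π t) ∈ V ∪ (fun χ : Q3 => χ ᵥ* qm (π t)⁻¹) ⁻¹' V :=
    Or.inr (by rwa [Set.mem_preimage, vecMul_vecMul, ← map_mul, mul_inv_cancel, map_one,
      vecMul_one])
  obtain ⟨Γ₁, l1, t1, U₁, V₁, hU₁, hV₁, m1, n1, hA₁⟩ := ext_tv hπ hU₂ hV₂ hA₂ (Or.inl hp)
    (Or.inl hφ₁) h1p [qm (π t)⁻¹ *ᵥ p, x] [φ₂ ᵥ* qm (π t), ψ]
    (List.forall_mem_cons.2 ⟨⟨m0, kt' p hp φ₁ hφ₁⟩, List.forall_mem_singleton.2 ⟨Or.inl hx, h1x⟩⟩)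
    (List.forall_mem_cons.2 ⟨⟨n0, by rw [vecMul_dot]; exact kt p hp φ₂ hφ₂⟩,
      List.forall_mem_singleton.2 ⟨Or.inl hψ, hψp⟩⟩)
  obtain ⟨Γ₂, l2, t2, U₃, V₃, hU₃, hV₃, m2, n2, hA₃⟩ := ext_tv hπ hU₁ hV₁ hA₁
    (m1 (qm (π t)⁻¹ *ᵥ p) (by simp)) (n1 (φ₂ ᵥ* qm (π t)) (by simp))
    (by rw [vecMul_dot, qm_mulVec_inv, h2p]) [x] [ψ]
    (List.forall_mem_singleton.2 ⟨m1 x (by simp), by rw [vecMul_dot]; exact kt x hx φ₂ hφ₂⟩)
    (List.forall_mem_singleton.2 ⟨n1 ψ (by simp), kt' p hp ψ hψ⟩)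
  have hΓ : ∀ w ∈ Γ, i w ∈ Λ := fun w hw => Subgroup.mem_sup_left (Subgroup.mem_map_of_mem i hw)
  refine ⟨Γ₂, t, p, φ₁, φ₂, ⟨U₃, V₃, hU₃, hV₃, hA₃, x, m2 x (by simp), ψ, n2 ψ (by simp),
    (hUx x hx).1, (hVx ψ hψ).1, hψx⟩, fun w hw => l2 (l1 (hΓ w hw)), fun w hw => l2 (l1 ?_),
    (hUx p hp).1, h12, h1p, h2p, t1.mono (Subgroup.map_mono l2), t2⟩
  have e : i (t⁻¹ * w * t) = t'⁻¹ * i w * t' := Prod.ext rfl (by simp [i])
  rw [Subgroup.mem_comap, e]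
  exact Λ.mul_mem (Λ.mul_mem (Λ.inv_mem ht) (hΓ w hw)) ht

end Pool.Agent.MP_5045a8_al.FT

end

section

/-! A Borel family of maximal subgroups on which finite changes of the parameter give conjugate
subgroups. -/

namespace Pool.Agent.MP_5045a8_al.FT

open Matrix Filter

variable {F : Type} [Group F] {π : F →* G3}

/-- The conjugate w Γ w⁻¹. -/
def cjF (w : F) (Γ : Subgroup F) : Subgroup F := Γ.comap (MulAut.conj w⁻¹).toMonoidHom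

theorem mem_cjF {w a : F} {Γ : Subgroup F} : a ∈ cjF w Γ ↔ w⁻¹ * a * w ∈ Γ := by
  simp [cjF]

theorem cjF_mul (v w : F) (Γ : Subgroup F) : cjF (v * w) Γ = cjF v (cjF w Γ) := by
  ext a; simp [mem_cjF, mul_assoc]

theorem mem_map_cjF {w : F} {Γ : Subgroup F} {g : G3} :
    g ∈ (cjF w Γ).map π ↔ (π w)⁻¹ * g * π w ∈ Γ.map π := by
  constructor
  · rintro ⟨a, ha, rfl⟩
    exact ⟨_, mem_cjF.1 ha, by simp⟩
  · rintro ⟨b, hb, e⟩
    refine ⟨w * b * w⁻¹, mem_cjF.2 (by simpa [mul_assoc] using hb), ?_⟩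
    simp [e, mul_assoc]

theorem Good.cj {Γ : Subgroup F} (h : Good π Γ) (w : F) : Good π (cjF w Γ) := by
  obtain ⟨U, V, hU, hV, hA, x, hx, ψ, hψ, hx0, hψ0, e⟩ := h
  refine ⟨(fun x => qm (π w)⁻¹ *ᵥ x) ⁻¹' U, (fun ψ => ψ ᵥ* qm (π w)) ⁻¹' V,
    hU.preimage (continuous_mulVec _), hV.preimage (continuous_vecMul _), ?_, qm (π w) *ᵥ x,
    ?_, ψ ᵥ* qm (π w)⁻¹, ?_, qm_mulVec_ne_zero _ hx0, fun h0 => hψ0 ?_, ?_⟩
  · intro a ha ha1 y hy χ hχ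
    have := hA _ (mem_cjF.1 ha) (fun e => ha1 (by simpa [mul_eq_one_iff_eq_inv] using e)) _ hy _ hχ
    rwa [vecMul_dot, map_mul π, map_mul π, map_inv π, qm_mul_mulVec, qm_mul_mulVec,
      qm_mulVec_inv, qm_mulVec_inv] at this
  · change qm (π w)⁻¹ *ᵥ (qm (π w) *ᵥ x) ∈ U
    rwa [qm_inv_mulVec]
  · change ψ ᵥ* qm (π w)⁻¹ ᵥ* qm (π w) ∈ V
    rwa [vecMul_vecMul, ← map_mul, inv_mul_cancel, map_one, vecMul_one]
  · have := congrArg (· ᵥ* qm (π w)) h0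
    simpa only [vecMul_vecMul, ← map_mul, inv_mul_cancel, map_one, vecMul_one, zero_vecMul]
      using this
  · rw [vecMul_dot, qm_inv_mulVec, e]

theorem TvIn.cj {Γ : Subgroup F} {p φ : Q3} (h : TvIn (Γ.map π) p φ) (w : F) :
    TvIn ((cjF w Γ).map π) (qm (π w) *ᵥ p) (φ ᵥ* qm (π w)⁻¹) := by
  obtain ⟨r, hr, g, hg, e⟩ := h
  refine ⟨r, hr, π w * g * (π w)⁻¹, mem_map_cjF.2 (by simpa [mul_assoc] using hg), ?_⟩
  rw [map_mul, map_mul, e, Matrix.mul_add, Matrix.add_mul, Matrix.mul_one, ← map_mul,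
    mul_inv_cancel, map_one, Matrix.mul_smul, Matrix.smul_mul, mul_vecMulVec, vecMulVec_mul]

theorem kill_list (hπ : Function.Surjective π) (L : List (G3 × G3)) :
    ∀ Γ : Subgroup F, Good π Γ → ∃ Γ' : Subgroup F, Good π Γ' ∧ Γ ≤ Γ' ∧
      ∀ t ∈ L, t.1 ∉ Γ'.map π → t.2 ∈ Γ'.map π ⊔ Subgroup.zpowers t.1 := by
  induction L with
  | nil => exact fun Γ h => ⟨Γ, h, le_rfl, by simp⟩
  | cons t L ih =>
    intro Γ h
    obtain ⟨Γ₁, h1, hle, hL⟩ := ih Γ h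
    by_cases ht : t.1 ∈ Γ₁.map π
    · refine ⟨Γ₁, h1, hle, fun t' ht' => ?_⟩
      rcases List.mem_cons.1 ht' with rfl | ht'
      · exact fun h' => absurd ht h'
      · exact hL t' ht'
    · obtain ⟨Γ₂, h2, h3, h4⟩ := kill hπ h1 ht t.2
      refine ⟨Γ₂, h3, hle.trans h2, fun t' ht' hn => ?_⟩
      rcases List.mem_cons.1 ht' with rfl | ht'
      · exact h4
      · exact sup_le_sup_right (Subgroup.map_mono h2) _
          (hL t' ht' fun h' => hn (Subgroup.map_mono h2 h'))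

theorem exists_family₂ [Countable G3] (hπ : Function.Surjective π) :
    ∃ Γ : (ℕ → Bool) → Subgroup F, Function.Injective (fun β => (Γ β).map π) ∧
      (∀ β, (∀ w ∈ Γ β, π w = 1 → w = 1) ∧ IsCoatom ((Γ β).map π) ∧
        ((Γ β).map π).index = 0) ∧ (∀ g : G3, MeasurableSet {β | g ∈ (Γ β).map π}) ∧
      ∀ β β' : ℕ → Bool, (∀ᶠ n in atTop, β n = β' n) →
        ∃ γ : G3, ∀ g, g ∈ (Γ β').map π ↔ γ * g * γ⁻¹ ∈ (Γ β).map π := by
  classical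
  obtain ⟨e, he⟩ := exists_surjective_nat (G3 × G3)
  choose κ hκG hκ hκ' using fun (L : List (G3 × G3)) (Γ : {Γ : Subgroup F // Good π Γ}) =>
    kill_list hπ L Γ.1 Γ.2
  choose Δ τ p φ₁ φ₂ hG hΔ hτ hp hφ e1 e2 ht1 ht2 using
    fun Γ : {Γ : Subgroup F // Good π Γ} => Γ.2.twin hπ
  let Y : ℕ → {Γ : Subgroup F // Good π Γ} × List F → {Γ : Subgroup F // Good π Γ} :=
    fun n X => ⟨κ (X.2.map fun u => ((π u)⁻¹ * (e n).1 * π u, (π u)⁻¹ * (e n).2 * π u)) X.1,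
      hκG _ _⟩
  let S : ℕ → {Γ : Subgroup F // Good π Γ} × List F := fun n =>
    Nat.rec (⟨⊥, good_bot⟩, [1])
      (fun n X => (⟨Δ (Y n X), hG _⟩, X.2 ++ X.2.map (· * τ (Y n X)))) n
  have hS1 : ∀ n, (S (n + 1)).1.1 = Δ (Y n (S n)) := fun _ => rfl
  have hS2 : ∀ n, (S (n + 1)).2 = (S n).2 ++ (S n).2.map (· * τ (Y n (S n))) := fun _ => rfl
  let u : (ℕ → Bool) → ℕ → F := fun β n =>
    Nat.rec 1 (fun n v => v * (bif β n then τ (Y n (S n)) else 1)) n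
  have hu : ∀ β n, u β (n + 1) = u β n * (bif β n then τ (Y n (S n)) else 1) := fun _ _ => rfl
  have huS : ∀ β n, u β n ∈ (S n).2 := by
    intro β n
    induction n with
    | zero => exact List.mem_singleton.2 rfl
    | succ n ih =>
      rw [hu, hS2, List.mem_append]
      cases β n
      · exact Or.inl (by simpa using ih)
      · exact Or.inr (List.mem_map.2 ⟨_, ih, rfl⟩)
  let T : (ℕ → Bool) → ℕ → Subgroup F := fun β n => cjF (u β n) (S n).1.1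
  have hTG : ∀ β n, Good π (T β n) := fun β n => (S n).1.2.cj _
  have hY : ∀ β n, cjF (u β n) (Y n (S n)).1 ≤ T β (n + 1) := by
    intro β n a ha
    rw [mem_cjF] at ha
    refine mem_cjF.2 ?_
    rw [hu, hS1]
    cases β n
    · simpa using hΔ _ ha
    · simpa [mul_assoc] using hτ _ _ ha
  have hm : ∀ β, Monotone (T β) := fun β => monotone_nat_of_le_succ fun n a ha =>
    hY β n (mem_cjF.2 (hκ _ _ (mem_cjF.1 ha)))
  have hle : ∀ β n, T β n ≤ ⨆ n, T β n := fun β n => le_iSup (T β) n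
  have hmem : ∀ β a, a ∈ ⨆ n, T β n ↔ ∃ n, a ∈ T β n := fun β a =>
    Subgroup.mem_iSup_of_directed (hm β).directed_le
  have hdep : ∀ β β' n, (∀ m < n, β m = β' m) → u β n = u β' n := by
    intro β β' n
    induction n with
    | zero => intro _; rfl
    | succ n ih =>
      intro h
      rw [hu, hu, ih fun m hm => h m (hm.trans n.lt_succ_self), h n n.lt_succ_self]
  have hidx : ∀ β, ((⨆ n, T β n).map π).index = 0 := by
    intro β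
    by_contra h
    refine main_no_two (hm β) (hTG β) (p := ![1, 0, 0]) (φ₁ := ![0, 1, 0])
      (φ₂ := ![0, 0, 1]) (by simp) (tvIn_of_index h ?_) (tvIn_of_index h ?_) ?_ ?_ ?_
    all_goals simp [cross_apply]
  have hsep : ∀ β β' n, u β n = u β' n → β n = false → β' n = true →
      (⨆ n, T β n).map π ≠ (⨆ n, T β' n).map π := by
    intro β β' n hE h0 h1 hβ
    set X := Y n (S n) with hX
    set w := u β n with hw
    have a1 : T β (n + 1) = cjF w (Δ X) := by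
      change cjF (u β (n + 1)) (S (n + 1)).1.1 = _
      rw [hu, h0, hS1]; simp [hw, hX]
    have a2 : T β' (n + 1) = cjF w (cjF (τ X) (Δ X)) := by
      change cjF (u β' (n + 1)) (S (n + 1)).1.1 = _
      rw [hu, h1, hS1, ← hE, ← cjF_mul]; rfl
    have b1 := ((ht1 X).cj w).mono (Subgroup.map_mono (a1 ▸ hle β (n + 1)))
    have b2 := (ht2 X).cj (τ X)
    rw [qm_mulVec_inv, vecMul_vecMul, ← map_mul, mul_inv_cancel, map_one, vecMul_one] at b2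
    have b3 := (b2.cj w).mono (Subgroup.map_mono (a2 ▸ hle β' (n + 1)))
    rw [← hβ] at b3
    refine main_no_two (hm β) (hTG β) (qm_mulVec_ne_zero _ (hp X)) b1 b3 ?_ ?_ ?_
    · rw [vecMul_dot, qm_inv_mulVec, e1]
    · rw [vecMul_dot, qm_inv_mulVec, e2]
    · have := cross_qm_ne (g := ((π w)⁻¹).transpose) (hφ X)
      have e : ∀ φ : Q3, qm ((π w)⁻¹).transpose *ᵥ φ = φ ᵥ* qm (π w)⁻¹ := fun φ =>
        mulVec_transpose (qm (π w)⁻¹) φ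
      rwa [e, e] at this
  refine ⟨fun β => ⨆ n, T β n, fun β β' hβ => ?_, fun β => ⟨fun w hw => ?_, ⟨?_, ?_⟩, hidx β⟩,
    fun g => ?_, fun β β' h => ?_⟩
  · by_contra hne
    have hex : ∃ n, β n ≠ β' n := Function.ne_iff.1 hne
    have hE := hdep β β' (Nat.find hex) fun m hm => not_not.1 (Nat.find_min hex hm)
    have hd := Nat.find_spec hex
    cases h : β (Nat.find hex) <;> cases h' : β' (Nat.find hex)
    · exact hd (h.trans h'.symm)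
    · exact hsep _ _ _ hE h h' hβ
    · exact hsep _ _ _ hE.symm h' h hβ.symm
    · exact hd (h.trans h'.symm)
  · obtain ⟨n, hn⟩ := (hmem β w).1 hw
    exact (hTG β n).inj w hn
  · intro h
    have := hidx β
    rw [h, Subgroup.index_top] at this
    exact one_ne_zero this
  · intro K hK
    obtain ⟨k, hkK, hk⟩ := SetLike.exists_of_lt hK
    rw [eq_top_iff]
    intro s _
    obtain ⟨n, hn⟩ := he (k, s)
    have hsub : (cjF (u β n) (Y n (S n)).1).map π ≤ (⨆ n, T β n).map π :=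
      Subgroup.map_mono ((hY β n).trans (hle β (n + 1)))
    have h1 := hκ' _ (S n).1 ((π (u β n))⁻¹ * (e n).1 * π (u β n),
      (π (u β n))⁻¹ * (e n).2 * π (u β n)) (List.mem_map.2 ⟨_, huS β n, rfl⟩) (by
        intro h
        refine hk (hsub (mem_map_cjF.2 ?_))
        simpa only [hn] using h)
    simp only [hn] at h1
    have h2 : ((Y n (S n)).1).map π ⊔ Subgroup.zpowers ((π (u β n))⁻¹ * k * π (u β n)) ≤
        cjF (π (u β n))⁻¹ K := by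
      refine sup_le (fun a ha => mem_cjF.2 (hK.le (hsub (mem_map_cjF.2 ?_))))
        ((Subgroup.zpowers_le).2 (mem_cjF.2 ?_))
      · simpa [mul_assoc] using ha
      · simpa [mul_assoc] using hkK
    have h3 := mem_cjF.1 (h2 (by simpa only [Y, hn] using h1))
    simpa [mul_assoc] using h3
  · have hmeas : ∀ n (s : Set F), MeasurableSet {β | u β n ∈ s} := by
      intro n
      induction n with
      | zero => intro s; exact MeasurableSet.const (1 ∈ s)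
      | succ n ih =>
        intro s
        have : {β | u β (n + 1) ∈ s} = ({β : ℕ → Bool | β n = true} ∩
            {β | u β n ∈ (· * τ (Y n (S n))) ⁻¹' s}) ∪
            ({β : ℕ → Bool | β n = false} ∩ {β | u β n ∈ s}) := by
          ext β
          simp only [Set.mem_ofPred_eq, hu, Set.mem_union, Set.mem_inter_iff, Set.mem_preimage]
          cases β n <;> simp
        rw [this]
        exact ((measurable_pi_apply n (measurableSet_singleton true)).inter (ih _)).union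
          ((measurable_pi_apply n (measurableSet_singleton false)).inter (ih _))
    have : {β | g ∈ (⨆ n, T β n).map π} =
        ⋃ n, {β | u β n ∈ {v : F | g ∈ (cjF v (S n).1.1).map π}} := by
      ext β
      simp only [Set.mem_ofPred_eq, Set.mem_iUnion]
      constructor
      · rintro ⟨a, ha, rfl⟩
        obtain ⟨n, hn⟩ := (hmem β a).1 ha
        exact ⟨n, a, hn, rfl⟩
      · rintro ⟨n, hn⟩
        exact Subgroup.map_mono (hle β n) hn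
    rw [this]
    exact MeasurableSet.iUnion fun n => hmeas n _
  · obtain ⟨N, hN⟩ := eventually_atTop.1 h
    have hc : ∀ m, N ≤ m → u β' m = u β' N * (u β N)⁻¹ * u β m := by
      intro m hm
      induction m, hm using Nat.le_induction with
      | base => simp
      | succ m hm ih => rw [hu, hu, ih, hN m hm, mul_assoc (_ * _)]
    have hE : ⨆ n, T β' n = cjF (u β' N * (u β N)⁻¹) (⨆ n, T β n) := by
      ext a
      rw [mem_cjF, hmem, hmem]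
      have key : ∀ m, N ≤ m → (a ∈ T β' m ↔
          (u β' N * (u β N)⁻¹)⁻¹ * a * (u β' N * (u β N)⁻¹) ∈ T β m) := by
        intro m hm
        rw [← mem_cjF]
        change a ∈ cjF (u β' m) _ ↔ a ∈ cjF _ (cjF (u β m) _)
        rw [hc m hm, cjF_mul]
      constructor
      · rintro ⟨n, hn⟩
        exact ⟨max n N, (key _ (le_max_right _ _)).1 (hm β' (le_max_left _ _) hn)⟩
      · rintro ⟨n, hn⟩
        exact ⟨max n N, (key _ (le_max_right _ _)).2 (hm β (le_max_left _ _) hn)⟩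
    refine ⟨(π (u β' N * (u β N)⁻¹))⁻¹, fun g => ?_⟩
    change g ∈ (⨆ n, T β' n).map π ↔ _
    rw [hE, mem_map_cjF, inv_inv]

end Pool.Agent.MP_5045a8_al.FT

end

section

/-! A Borel function on Cantor space that ignores finite changes is constant on a set of
cardinality continuum. -/

namespace Pool.Agent.MP_5045a8_al.FT

open Filter

theorem zeroone_dense : Dense {g : ℕ → Bool | ∀ᶠ n in atTop, g n = 0} := by
  intro g
  refine mem_closure_of_tendsto (b := atTop)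
    (f := fun k : ℕ => fun n => if n ≤ k then g n else 0) ?_ (Eventually.of_forall fun k => ?_)
  · refine tendsto_pi_nhds.2 fun n => tendsto_const_nhds.congr' ?_
    filter_upwards [eventually_ge_atTop n] with k hk
    rw [if_pos hk]
  · filter_upwards [eventually_gt_atTop k] with n hn
    exact if_neg (not_le.2 hn)

theorem zeroone_neBot : (nhdsWithin (0 : ℕ → Bool) {0}ᶜ).NeBot := by
  refine mem_closure_iff_nhdsWithin_neBot.1 (mem_closure_of_tendsto (b := atTop)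
    (f := fun k : ℕ => fun n => if n < k then 0 else 1) ?_ (Eventually.of_forall fun k h => ?_))
  · refine tendsto_pi_nhds.2 fun n => tendsto_const_nhds.congr' ?_
    filter_upwards [eventually_gt_atTop n] with k hk
    rw [if_pos hk, Pi.zero_apply]
  · have := congrFun h k
    rw [if_neg (lt_irrefl k)] at this
    exact one_ne_zero this

open MeasureTheory in
theorem exists_const_family (f : (ℕ → Bool) → ℝ) (hf : Measurable f)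
    (hinv : ∀ β β' : ℕ → Bool, (∀ᶠ n in atTop, β n = β' n) → f β = f β') :
    ∃ (j : (ℕ → Bool) → ℕ → Bool) (a : ℝ), Function.Injective j ∧ ∀ β, f (j β) = a := by
  let μ : Measure (ℕ → Bool) := Measure.addHaar
  have h0 : μ ≠ 0 := by
    intro h
    have := isOpen_univ.measure_pos μ Set.univ_nonempty
    simp [h] at this
  have : (ae μ).NeBot := ae_neBot.2 h0
  obtain ⟨a, ha⟩ := Filter.exists_eventuallyEq_const_of_forall_separating (l := ae μ) (f := f)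
    MeasurableSet fun U hU => by
      refine eventuallyConst_set.1 (aeconst_of_dense_setOfPred_preimage_vadd_eq
        (M := ℕ → Bool) (hf hU).nullMeasurableSet (zeroone_dense.mono fun g hg => ?_))
      ext β
      have e : f (g + β) = f β := hinv _ _ (hg.mono fun n hn => by rw [Pi.add_apply, hn, zero_add])
      show f (g + β) ∈ U ↔ f β ∈ U
      rw [e]
  have hZ : MeasurableSet (f ⁻¹' {a}) := hf (measurableSet_singleton a)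
  have hnc : ¬ Countable (f ⁻¹' {a}) := by
    intro hc
    have := zeroone_neBot
    have h1 : μ (f ⁻¹' {a}) = 0 := (Set.countable_coe_iff.1 hc).measure_zero μ
    have h2 : ∀ᵐ x ∂μ, x ∉ f ⁻¹' {a} := measure_eq_zero_iff_ae_notMem.1 h1
    obtain ⟨x, k1, k2⟩ := (ha.and h2).exists
    exact k2 k1
  have := hZ.standardBorel
  let e := PolishSpace.measurableEquivNatBoolOfNotCountable hnc
  exact ⟨fun β => (e.symm β).1, a, Subtype.val_injective.comp e.symm.injective,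
    fun β => (e.symm β).2⟩

end Pool.Agent.MP_5045a8_al.FT

end

section

/-! Free maximal subgroups of SL(3,Z) on which a given Borel conjugacy invariant is constant. -/

namespace Pool.Agent.MP_5045a8_al.FT

open Matrix

theorem free_family₂ (f : Set G3 → ℝ) (hf : Measurable f)
    (hinv : ∀ H K : Subgroup G3, IsMaxHaagerup H → (∃ γ : G3, ∀ g, g ∈ K ↔ γ * g * γ⁻¹ ∈ H) →
      f H = f K) :
    ∃ (M : (ℕ → Bool) → Subgroup G3) (a : ℝ), Function.Injective M ∧ ∀ β, f (M β) = a ∧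
      IsMaxHaagerup (M β) ∧ IsFreeGroup (M β) ∧ IsCoatom (M β) ∧ (M β).index = 0 := by
  let π : FreeGroup G3 →* G3 := FreeGroup.lift id
  have hπ : Function.Surjective π := fun g => ⟨FreeGroup.of g, by simp [π]⟩
  obtain ⟨Γ, hinj, hΓ, hmeas, hE⟩ := exists_family₂ hπ
  have hP : ∀ β, IsMaxHaagerup ((Γ β).map π) ∧ IsFreeGroup ((Γ β).map π) ∧
      IsCoatom ((Γ β).map π) ∧ ((Γ β).map π).index = 0 := by
    intro β
    obtain ⟨h1, h2, h3⟩ := hΓ β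
    have hb : Function.Bijective (π.subgroupMap (Γ β)) := by
      refine ⟨(injective_iff_map_eq_one _).2 fun w hw => Subtype.ext (h1 w w.2 ?_),
        π.subgroupMap_surjective _⟩
      exact congrArg Subtype.val hw
    let e : Γ β ≃* (Γ β).map π := MulEquiv.ofBijective _ hb
    refine ⟨(isMax_iff _).2 ⟨?_, fun K hK => ?_⟩, IsFreeGroup.ofMulEquiv e, h2, h3⟩
    · exact hp_freeG3.of_injective ((Γ β).subtype.comp e.symm.toMonoidHom)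
        (Subtype.val_injective.comp e.symm.injective)
    · rw [h2.2 K hK]
      exact not_hp_top
  have hK : Measurable fun β : ℕ → Bool => (((Γ β).map π : Subgroup G3) : Set G3) :=
    measurable_set_iff.2 fun g => (hmeas g).mem
  obtain ⟨j, a, hj, ha⟩ := exists_const_family _ (hf.comp hK)
    fun β β' h => hinv _ _ (hP β).1 (hE β β' h)
  exact ⟨fun β => (Γ (j β)).map π, a, hinj.comp hj, fun β => ⟨ha β, hP _⟩⟩

end Pool.Agent.MP_5045a8_al.FT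

end
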