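import Pool.Agent.Mg.F5045a8a.Gd4655a

section

namespace Pool.Agent.MP_5045a8_al.HX

open Matrix O FT

theorem cpow_RegB (g : G3) (N : M3) (k : ℕ) :
    (mat g * N * mat g⁻¹) ^ k = mat g * N ^ k * mat g⁻¹ := by
  induction k with
  | zero => rw [pow_zero, pow_zero, mul_one, mat_mul_inv]
  | succ k ih =>
    rw [pow_succ, ih, pow_succ]
    calc _ = mat g * N ^ k * (mat g⁻¹ * mat g) * N * mat g⁻¹ := by simp only [mul_assoc]
      _ = _ := by simp only [mat_inv_mul, mul_one, mul_assoc]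

theorem regB_conj : ∀ {u : G3} {p f : V3} (g : G3), Reg u p f →
    Reg (g * u * g⁻¹) (mat g *ᵥ p) (f ᵥ* mat g⁻¹) := by
  rintro u p f g ⟨h1, h2, h3, h4, h5, h6⟩
  have e : mat (g * u * g⁻¹) - 1 = mat g * (mat u - 1) * mat g⁻¹ := by
    rw [mat_mul, mat_mul, mul_sub, sub_mul, mul_one, mat_mul_inv]
  refine ⟨by rw [e, cpow_RegB, h1, mul_zero, zero_mul], fun h => h2 ?_, mulVec_ne h3 g,
    vecMul_ne h4 _, ?_, ?_⟩
  · rw [e, cpow_RegB] at h
    calc (mat u - 1) ^ 2 = (mat g⁻¹ * mat g) * (mat u - 1) ^ 2 * (mat g⁻¹ * mat g) := by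
          rw [mat_inv_mul, one_mul, mul_one]
      _ = mat g⁻¹ * (mat g * (mat u - 1) ^ 2 * mat g⁻¹) * mat g := by simp only [mul_assoc]
      _ = 0 := by rw [h, mul_zero, zero_mul]
  · rw [mulVec_mulVec, ← mat_mul, inv_mul_cancel_right, mat_mul, ← mulVec_mulVec, h5]
  · rw [vecMul_vecMul, ← mat_mul, mul_assoc, inv_mul_cancel_left, mat_mul, ← vecMul_vecMul, h6]

theorem regB_par : ∀ {u : G3} {p f p' f' : V3}, Reg u p f → p' ≠ 0 → f' ≠ 0 → cr p' p = 0 →
    cr f' f = 0 → Reg u p' f' := by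
  rintro u p f p' f' ⟨h1, h2, h3, h4, h5, h6⟩ hp hf c1 c2
  refine ⟨h1, h2, hp, hf, ?_, ?_⟩
  · refine smul_right_injective V3 (dot_self_pos h3).ne' ?_
    simp only
    rw [← mulVec_smul, ← par_dot c1 p, mulVec_smul, h5]
  · refine smul_right_injective V3 (dot_self_pos h4).ne' ?_
    simp only
    rw [← smul_vecMul, ← par_dot c2 f, smul_vecMul, h6]

theorem regB_tr : ∀ {u : G3} {p f : V3}, Reg u p f → Reg u.transpose f p := by
  rintro u p f ⟨h1, h2, h3, h4, h5, h6⟩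
  have e : ∀ k : ℕ, (mat u.transpose - 1) ^ k = ((mat u - 1) ^ k)ᵀ := fun k => by
    rw [transpose_pow, transpose_sub, transpose_one, mat_transpose]
  refine ⟨by rw [e, h1, transpose_zero], fun h => h2 ?_, h4, h3, ?_, ?_⟩
  · rwa [e, transpose_eq_zero] at h
  · rw [mat_transpose, mulVec_transpose, h6]
  · rw [mat_transpose, vecMul_transpose, h5]

theorem rel_RegB {A : M3} (h : A ^ 3 = 0) :
    A * A = A ^ 2 ∧ A ^ 2 * A = 0 ∧ A * A ^ 2 = 0 ∧ A ^ 2 * A ^ 2 = 0 :=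
  ⟨(pow_two A).symm, by rw [← pow_succ, h], by rw [← pow_succ', h], by
    rw [← pow_add, pow_succ, h, zero_mul]⟩

theorem regB_pow : ∀ {u : G3}, (mat u - 1) ^ 3 = 0 → ∀ n : ℤ,
    (2 : ℤ) • mat (u ^ n) = (2 : ℤ) • (1 : M3) + (2 * n) • (mat u - 1) +
      (n * (n - 1)) • (mat u - 1) ^ 2 := by
  intro u h n
  obtain ⟨r1, r2, r3, r4⟩ := rel_RegB h
  have e1 : mat u = 1 + (mat u - 1) := by abel
  generalize mat u - 1 = A at *
  generalize A ^ 2 = B at *
  have e2 : mat u⁻¹ = 1 - A + B := by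
    have : mat u * (1 - A + B) = 1 := by
      simp only [e1, mul_add, add_mul, mul_sub, one_mul, mul_one, r1, r3]
      abel
    have k := congrArg (mat u⁻¹ * ·) this
    simp only [← mul_assoc, mat_inv_mul, one_mul, mul_one] at k
    exact k.symm
  induction n using Int.induction_on with
  | zero => simp [mat_one]
  | succ n ih =>
    rw [_root_.zpow_add_one, mat_mul, ← smul_mul_assoc, ih, e1]
    simp only [mul_add, add_mul, smul_mul_assoc, one_mul, mul_one, r1, r2]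
    module
  | pred n ih =>
    rw [_root_.zpow_sub_one, mat_mul, ← smul_mul_assoc, ih, e2]
    simp only [mul_add, add_mul, mul_sub, smul_mul_assoc, one_mul, mul_one, r1, r2, r3, r4]
    module

theorem regB_zpow : ∀ {u : G3} {p f : V3} {n : ℤ}, Reg u p f → n ≠ 0 → Reg (u ^ n) p f := by
  rintro u p f n ⟨h1, h2, h3, h4, h5, h6⟩ hn
  have e := regB_pow h1 n
  obtain ⟨r1, r2, r3, r4⟩ := rel_RegB h1
  have a1 : (mat u - 1) *ᵥ p = 0 := by rw [sub_mulVec, h5, one_mulVec, sub_self]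
  have a2 : f ᵥ* (mat u - 1) = 0 := by rw [vecMul_sub, h6, vecMul_one, sub_self]
  generalize mat u - 1 = A at *
  generalize A ^ 2 = B at *
  have b1 : B *ᵥ p = 0 := by rw [← r1, ← mulVec_mulVec, a1, mulVec_zero]
  have b2 : f ᵥ* B = 0 := by rw [← r1, ← vecMul_vecMul, a2, zero_vecMul]
  have e1 : (2 : ℤ) • (mat (u ^ n) - 1) = (2 * n) • A + (n * (n - 1)) • B := by
    rw [smul_sub, e]
    abel
  have e2 : (2 : ℤ) ^ 2 • (mat (u ^ n) - 1) ^ 2 = (4 * n ^ 2) • B := by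
    rw [← _root_.smul_pow, e1, pow_two]
    simp only [mul_add, add_mul, smul_mul_assoc, mul_smul_comm, r1, r2, r3, r4]
    module
  have e3 : (2 : ℤ) ^ 3 • (mat (u ^ n) - 1) ^ 3 = 0 := by
    rw [← _root_.smul_pow, pow_succ, _root_.smul_pow, e2, e1]
    simp only [mul_add, smul_mul_assoc, mul_smul_comm, r2, r4, smul_zero, add_zero]
  refine ⟨(smul_eq_zero.1 e3).resolve_left (by norm_num), fun h => h2 ?_, h3, h4, ?_, ?_⟩
  · rw [h, smul_zero] at e2
    exact (smul_eq_zero.1 e2.symm).resolve_left (by positivity)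
  · refine smul_right_injective V3 (two_ne_zero (α := ℤ)) ?_
    simp only
    rw [← smul_mulVec, e]
    simp only [add_mulVec, smul_mulVec, a1, b1, one_mulVec, smul_zero, add_zero]
  · refine smul_right_injective V3 (two_ne_zero (α := ℤ)) ?_
    simp only
    rw [← vecMul_smul, e]
    simp only [vecMul_add, vecMul_smul, a2, b2, vecMul_one, smul_zero, add_zero]

theorem rank_RegB {N : M3} (h : N * N = 0) (a b i j : Fin 3) : N a b * N i j = N i b * N a j := by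
  by_cases hw : cr (Nᵀ b) (Nᵀ j) = 0
  · simpa [mul_comm] using congrFun (par_dot hw (Pi.single a 1)) i
  · have k : ∀ r, cr (N r) (cr (Nᵀ b) (Nᵀ j)) = 0 := fun r =>
      cr_of_perp (congrFun (congrFun h r) b) (congrFun (congrFun h r) j)
    simpa using congrFun (par_dot (cr_trans hw (k a) (k i)) (Pi.single b 1)) j

theorem ne_RegB {N : M3} (h : N ≠ 0) : ∃ a b, N a b ≠ 0 ∧ Nᵀ b ≠ 0 ∧ N a ≠ 0 := by
  obtain ⟨a, ha⟩ := Function.ne_iff.1 h
  obtain ⟨b, hb⟩ := Function.ne_iff.1 ha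
  exact ⟨a, b, hb, fun e => hb (congrFun e a), ha⟩

theorem regB_ex : ∀ {u : G3}, (mat u - 1) ^ 3 = 0 → u ≠ 1 →
    (∃ p f, Reg u p f) ∨ ∃ (n : ℤ) (p f : V3), p ≠ 0 ∧ f ≠ 0 ∧ n • (mat u - 1) = vecMulVec p f ∧
      mat (u ^ n) = tv p f := by
  intro u h hu
  obtain ⟨r1, r2, r3, -⟩ := rel_RegB h
  by_cases h2 : (mat u - 1) ^ 2 = 0
  · obtain ⟨a, b, -, k1, k2⟩ := ne_RegB (N := mat u - 1) fun e => hu (mat_ext (sub_eq_zero.1 e))
    have e : (mat u - 1) a b • (mat u - 1) = vecMulVec ((mat u - 1)ᵀ b) ((mat u - 1) a) := by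
      ext i j
      exact rank_RegB (r1.trans h2) a b i j
    refine Or.inr ⟨_, _, _, k1, k2, e, smul_right_injective M3 (two_ne_zero (α := ℤ)) ?_⟩
    simp only
    rw [regB_pow h, h2, smul_zero, add_zero, tv, ← e, smul_add, mul_smul]
  · obtain ⟨a, b, -, k1, k2⟩ := ne_RegB h2
    refine Or.inl ⟨_, _, h, h2, k1, k2, ?_, ?_⟩
    · rw [← sub_eq_zero]
      nth_rewrite 2 [← one_mulVec (((mat u - 1) ^ 2)ᵀ b)]
      rw [← sub_mulVec]
      exact funext fun i => congrFun (congrFun r3 i) b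
    · rw [← sub_eq_zero]
      nth_rewrite 2 [← vecMul_one (((mat u - 1) ^ 2 : M3) a)]
      rw [← vecMul_sub]
      exact funext fun i => congrFun (congrFun r2 a) i

end Pool.Agent.MP_5045a8_al.HX

end

section

/-! From two moving elements to a lattice of transvections with a common centre. -/

namespace Pool.Agent.MP_5045a8_al.HX

open Matrix O FT

theorem cr_mulVec_ThH {a b : V3} (M : M3) (h : cr a b = 0) : cr (M *ᵥ a) (M *ᵥ b) = 0 := by
  simp only [ext3, cr0, cr1, cr2, Pi.zero_apply, mulVec, dot3] at h ⊢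
  obtain ⟨h0, h1, h2⟩ := h
  refine ⟨?_, ?_, ?_⟩
  · linear_combination (M 1 1 * M 2 2 - M 1 2 * M 2 1) * h0 + (M 1 2 * M 2 0 - M 1 0 * M 2 2) * h1
      + (M 1 0 * M 2 1 - M 1 1 * M 2 0) * h2
  · linear_combination (M 2 1 * M 0 2 - M 2 2 * M 0 1) * h0 + (M 2 2 * M 0 0 - M 2 0 * M 0 2) * h1
      + (M 2 0 * M 0 1 - M 2 1 * M 0 0) * h2
  · linear_combination (M 0 1 * M 1 2 - M 0 2 * M 1 1) * h0 + (M 0 2 * M 1 0 - M 0 0 * M 1 2) * h1
      + (M 0 0 * M 1 1 - M 0 1 * M 1 0) * h2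

theorem cr_vecMul_ThH {a b : V3} (M : M3) (h : cr a b = 0) : cr (a ᵥ* M) (b ᵥ* M) = 0 := by
  rw [← mulVec_transpose, ← mulVec_transpose]
  exact cr_mulVec_ThH _ h

theorem cr_self_ThH (a : V3) : cr a a = 0 := by
  simp only [ext3, cr0, cr1, cr2, Pi.zero_apply]
  exact ⟨by ring, by ring, by ring⟩

theorem conj_ThH (hR : RegStmt) {K : Subgroup G3} {p f : V3} (h : Fl K p f) {g : G3}
    (hg : g ∈ K) : Fl K (mat g *ᵥ p) (f ᵥ* mat g⁻¹) := by
  obtain ⟨u, hu, h⟩ := h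
  exact ⟨_, K.mul_mem (K.mul_mem hg hu) (K.inv_mem hg), hR.conj g h⟩

theorem par_ThH (hR : RegStmt) {K : Subgroup G3} {p f p' f' : V3} (h : Fl K p f) (hp : p' ≠ 0)
    (hf : f' ≠ 0) (h1 : cr p' p = 0) (h2 : cr f' f = 0) : Fl K p' f' := by
  obtain ⟨u, hu, h⟩ := h
  exact ⟨u, hu, hR.par h hp hf h1 h2⟩

theorem ne_ThH {K : Subgroup G3} {p f : V3} (h : Fl K p f) : p ≠ 0 ∧ f ≠ 0 := by
  obtain ⟨u, -, h⟩ := h
  exact ⟨h.2.2.1, h.2.2.2.1⟩

theorem dot_ThH (hR : RegStmt) {K : Subgroup G3} {p f : V3} (h : Fl K p f) : f ⬝ᵥ p = 0 := by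
  obtain ⟨u, -, h⟩ := h
  exact hR.dot h

theorem det_ThH (a b c : V3) : (Matrix.of ![a, b, c]).det = cr b c ⬝ᵥ a := by
  simp [det_fin_three, dot3, cr0, cr1, cr2]
  ring

theorem h_stmt (hR : RegStmt) (hC : CosStmt) (hX : HexStmt) : HStmt := by
  intro K p ψ g h hF hg hh hgp hgψ hhψ hhp
  obtain ⟨hp, hψ⟩ := ne_ThH hF
  have hF0 : Fl K p (ψ ᵥ* mat g) := by
    have h1 := conj_ThH hR hF (K.inv_mem hg)
    rw [inv_inv] at h1
    refine par_ThH hR h1 hp (ne_ThH h1).2 ?_ (cr_self_ThH _)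
    have := cr_mulVec_ThH (mat g⁻¹) hgp
    rwa [mulVec_mulVec, mat_inv_mul, one_mulVec] at this
  set ψ0 := ψ ᵥ* mat g with hψ0
  have hx0 := conj_ThH hR hF0 hh
  have hxψ : Fl K (mat h *ᵥ p) ψ := by
    have h1 := conj_ThH hR hF hh
    refine par_ThH hR h1 (ne_ThH h1).1 hψ (cr_self_ThH _) ?_
    have := cr_vecMul_ThH (mat h⁻¹) hhψ
    rwa [vecMul_vecMul, mat_mul_inv, vecMul_one] at this
  set x := mat h *ᵥ p with hx
  set φ0 := ψ0 ᵥ* mat h⁻¹ with hφ0
  have hφp : φ0 ⬝ᵥ p ≠ 0 := by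
    intro e
    have a1 := cr_of_perp (dot_ThH hR hx0) e
    have a2 := cr_of_perp (dot_ThH hR hxψ) (dot_ThH hR hF)
    have a3 := cr_vecMul_ThH (mat h) (cr_trans hhp a1 a2)
    rw [hφ0, vecMul_vecMul, mat_inv_mul, vecMul_one] at a3
    have a4 : ψ ᵥ* mat h ≠ 0 := by
      intro e'
      apply hψ
      have := congrArg (· ᵥ* mat h⁻¹) e'
      simpa only [vecMul_vecMul, mat_mul_inv, vecMul_one, zero_vecMul] using this
    exact hgψ (cr_trans a4 a3 (cr_comm_zero hhψ))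
  obtain ⟨N, hN, hN'⟩ := hC K p x ψ φ0 hF hxψ hx0 hφp
  obtain ⟨u, hu, hreg⟩ := hF0
  have hk : u ^ (2 * N) ∈ K := K.zpow_mem hu _
  have hkp : mat (u ^ (2 * N)) *ᵥ p = p := (hR.zpow hreg (n := 2 * N) (by omega)).2.2.2.2.1
  have hreg' : Reg (u ^ (2 * N))⁻¹ p ψ0 := by
    rw [← _root_.zpow_neg]
    exact hR.zpow hreg (by omega)
  have hMp : (mat u - 1) *ᵥ p = 0 := by rw [sub_mulVec, hreg.2.2.2.2.1, one_mulVec, sub_self]
  have hmat : mat (u ^ (2 * N))⁻¹
      = 1 + N • (((-2 : ℤ) • (1 : M3) + (2 * N + 1) • (mat u - 1)) * (mat u - 1)) := by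
    rw [← _root_.zpow_neg]
    have h1 := hR.pow hreg.1 (-(2 * N))
    apply smul_right_injective M3 (two_ne_zero (α := ℤ))
    simp only
    rw [h1, add_mul, smul_mul_assoc, smul_mul_assoc, one_mul, ← pow_two]
    module
  set η := φ0 ᵥ* (((-2 : ℤ) • (1 : M3) + (2 * N + 1) • (mat u - 1)) * (mat u - 1)) with hη
  have hηp : η ⬝ᵥ p = 0 := by
    rw [hη, ← dotProduct_mulVec, ← mulVec_mulVec, hMp, mulVec_zero, dotProduct_zero]
  have hφ : φ0 ᵥ* mat (u ^ (2 * N))⁻¹ = φ0 + N • η := by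
    rw [hmat, vecMul_add, vecMul_one, vecMul_smul]
  obtain ⟨y, hy1, hy2⟩ := hN' η hηp
  have f1 := conj_ThH hR hF hk
  rw [hkp] at f1
  have f2 := conj_ThH hR hx0 hk
  rw [hφ] at f2
  have f3 := conj_ThH hR hxψ hk
  set ψ' := ψ ᵥ* mat (u ^ (2 * N))⁻¹ with hψ'
  have hcr : cr ψ ψ' ≠ 0 := fun e => hgψ (cr_comm_zero (hR.fixc hreg' (cr_comm_zero e)))
  refine hX K ![p, mat (u ^ (2 * N)) *ᵥ x, y] ![φ0 + N • η, ψ, ψ'] ?_ ?_
  · rw [det_ThH]
    intro e
    have a1 : cr p (cr ψ ψ') = 0 :=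
      cr_of_perp (by rw [dotProduct_comm]; exact dot_ThH hR hF)
        (by rw [dotProduct_comm]; exact dot_ThH hR f1)
    have a2 := par_dot_zero (cr_comm_zero a1) hcr e
    rw [dotProduct_comm, add_dotProduct, smul_dotProduct, hηp, smul_zero, add_zero] at a2
    exact hφp a2
  · intro i k hik
    fin_cases i <;> fin_cases k
    · exact absurd rfl hik
    · exact hF
    · exact f1
    · exact f2
    · exact absurd rfl hik
    · exact f3
    · exact hy2
    · exact hy1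
    · exact absurd rfl hik

end Pool.Agent.MP_5045a8_al.HX

end

section

namespace Pool.Agent.MP_5045a8_al.HX

open Matrix O FT

lemma key_So {L : Submodule ℚ QM} (hn : single 0 2 1 ∉ L) {r : ℚ}
    (h : (!![0, 0, r; 0, 0, 0; 0, 0, 0] : QM) ∈ L) : r = 0 := by
  by_contra hr
  apply hn
  have h1 := L.smul_mem r⁻¹ h
  refine Eq.mpr (congrArg (fun x => x ∈ L) ?_) h1
  ext i j
  fin_cases i <;> fin_cases j <;> simp [hr]

lemma cong_So {L : Submodule ℚ QM} {Y Z : QM} (h : Y ∈ L) (e : Z = Y) : Z ∈ L := e ▸ h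

lemma ad_So {L : Submodule ℚ QM} (hb : ∀ Y ∈ L, ∀ Z ∈ L, Y * Z - Z * Y ∈ L) (hX : X0 ∈ L)
    {a b c d e f g h i : ℚ} (hY : (!![a, b, c; d, e, f; g, h, i] : QM) ∈ L) :
    (!![d, e - a, f - b; g, h - d, i - e; 0, -g, -h] : QM) ∈ L := by
  refine cong_So (hb _ hX _ hY) ?_
  ext i j
  fin_cases i <;> fin_cases j <;> simp [X0, mul_apply, Fin.sum_univ_three]

lemma shape_So {L : Submodule ℚ QM} (hb : ∀ Y ∈ L, ∀ Z ∈ L, Y * Z - Z * Y ∈ L)
    (ht : ∀ Y ∈ L, trace Y = 0) (hX : X0 ∈ L) (hn : single 0 2 1 ∉ L)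
    {a b c d e f g h i : ℚ} (hY : (!![a, b, c; d, e, f; g, h, i] : QM) ∈ L) :
    g = 0 ∧ h = d ∧ e = 0 ∧ i = -a ∧ (!![d, 0, f - b; 0, 0, 0; 0, 0, -d] : QM) ∈ L := by
  have h1 := ad_So hb hX hY
  have h2 := ad_So hb hX h1
  have h3 := ad_So hb hX h2
  have h4 := ad_So hb hX h3
  have e4 : 6 * g = 0 := key_So hn (cong_So h4 (by
    ext i j
    fin_cases i <;> fin_cases j <;> simp <;> ring))
  have hg : g = 0 := by linarith
  subst hg
  have e3 : 3 * (d - h) = 0 := key_So hn (cong_So h3 (by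
    ext i j
    fin_cases i <;> fin_cases j <;> simp <;> ring))
  have hh : h = d := by linarith
  subst hh
  have e2 : a - 2 * e + i = 0 := key_So hn (cong_So (L.add_mem h2 (L.smul_mem h hX)) (by
    ext i j
    fin_cases i <;> fin_cases j <;> simp [X0] <;> ring))
  have e1 : a + e + i = 0 := by
    have := ht _ hY
    simpa [trace_fin_three] using this
  have he : e = 0 := by linarith
  have hi : i = -a := by linarith
  subst he hi
  refine ⟨rfl, rfl, rfl, rfl, cong_So (L.add_mem h1 (L.smul_mem a hX)) ?_⟩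
  ext i j
  fin_cases i <;> fin_cases j <;> simp [X0]

theorem so_stmt : SoStmt := by
  intro L hb ht hX hn
  by_cases h0 : ∀ Y ∈ L, Y 1 0 = 0
  · left
    intro Y hY
    refine ⟨h0 Y hY, ?_⟩
    rw [eta_fin_three Y] at hY
    exact (shape_So hb ht hX hn hY).1
  right
  push Not at h0
  obtain ⟨Y0, hY0, hr⟩ := h0
  rw [eta_fin_three Y0] at hY0
  have hs := (shape_So hb ht hX hn hY0).2.2.2.2
  have hD : Dk ((Y0 1 2 - Y0 0 1) / Y0 1 0) ∈ L := by
    refine cong_So (L.smul_mem (Y0 1 0)⁻¹ hs) ?_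
    ext i j
    fin_cases i <;> fin_cases j <;> simp [Dk, hr]
    field_simp
  generalize (Y0 1 2 - Y0 0 1) / Y0 1 0 = κ at hD
  refine ⟨κ, hD, fun Y hY => ?_⟩
  rw [eta_fin_three Y] at hY ⊢
  generalize Y 0 0 = a, Y 0 1 = b, Y 0 2 = c, Y 1 0 = d, Y 1 1 = e, Y 1 2 = f, Y 2 0 = g,
    Y 2 1 = h, Y 2 2 = i at hY ⊢
  obtain ⟨rfl, rfl, rfl, rfl, h5⟩ := shape_So hb ht hX hn hY
  have e5 : f - b - h * κ = 0 := key_So hn (cong_So (L.sub_mem h5 (L.smul_mem h hD)) (by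
    ext i j
    fin_cases i <;> fin_cases j <;> simp [Dk]))
  obtain rfl : f = b + h * κ := by linarith
  have h6 : (!![0, 0, c - κ * a; h, 0, h * κ; 0, h, 0] : QM) ∈ L := by
    refine cong_So (L.sub_mem (L.sub_mem hY (L.smul_mem a hD)) (L.smul_mem b hX)) ?_
    ext i j
    fin_cases i <;> fin_cases j <;> simp [Dk, X0]
    ring
  have e6 : 3 * (c - κ * a) = 0 := key_So hn (cong_So
    (L.sub_mem (L.add_mem (hb _ hD _ h6) h6) (L.smul_mem (κ * h) hX)) (by
      ext i j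
      fin_cases i <;> fin_cases j <;> simp [Dk, X0, mul_apply, Fin.sum_univ_three] <;> ring))
  obtain rfl : c = κ * a := by linarith
  ext i j
  fin_cases i <;> fin_cases j <;> simp [Bk, mul_apply, Fin.sum_univ_three] <;> ring

end Pool.Agent.MP_5045a8_al.HX

end

section

namespace Pool.Agent.MP_5045a8_al.HX

open Matrix O FT

theorem key_Wan {a b c d p r s R : ℤ} {p' r' s' : ℤ} (hp : p = a ^ 2 + c ^ 2)
    (hr : r = b ^ 2 + d ^ 2) (hp' : 0 ≤ p') (hr' : 0 ≤ r') (hdet : p' * r' = s' ^ 2 + 1)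
    (hid : r * p' + p * r' - 2 * (s * s') = R) (hs : s * s' ≤ 0) :
    a ^ 2 + b ^ 2 + c ^ 2 + d ^ 2 ≤ R := by
  have h1 : 1 ≤ p' := by
    rcases hp'.lt_or_eq with h | h
    · omega
    · rw [← h] at hdet; nlinarith [sq_nonneg s']
  have h2 : 1 ≤ r' := by
    rcases hr'.lt_or_eq with h | h
    · omega
    · rw [← h] at hdet; nlinarith [sq_nonneg s']
  have h3 : 0 ≤ p := by rw [hp]; positivity
  have h4 : 0 ≤ r := by rw [hr]; positivity
  nlinarith [mul_le_mul_of_nonneg_left h1 h4, mul_le_mul_of_nonneg_left h2 h3]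

theorem sep_stmt : SepStmt := by
  intro γ
  refine (G2.finite_entries
    ((γ 0 0 ^ 2 + γ 0 1 ^ 2 + γ 1 0 ^ 2 + γ 1 1 ^ 2 : ℤ) : ℝ)).subset fun M hM => ?_
  have hM' : bt M * bt (γ * M) ≤ 0 := hM
  have d1 := G2.det_sq M
  have d2 := G2.det_sq (γ * M)
  have hk : M 0 0 ^ 2 + M 0 1 ^ 2 + M 1 0 ^ 2 + M 1 1 ^ 2
      ≤ γ 0 0 ^ 2 + γ 0 1 ^ 2 + γ 1 0 ^ 2 + γ 1 1 ^ 2 := by
    refine key_Wan (s := bt M) (s' := bt (γ * M))
      (p' := (γ * M : G2) 0 0 ^ 2 + (γ * M : G2) 1 0 ^ 2)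
      (r' := (γ * M : G2) 0 1 ^ 2 + (γ * M : G2) 1 1 ^ 2) rfl rfl (by positivity) (by positivity)
      ?_ ?_ hM'
    · unfold bt
      linear_combination d2
    · unfold bt
      simp only [G2.mul_apply]
      linear_combination (γ 0 0 ^ 2 + γ 0 1 ^ 2 + γ 1 0 ^ 2 + γ 1 1 ^ 2) * d1
  have hall : ∀ i j, M i j ^ 2 ≤ γ 0 0 ^ 2 + γ 0 1 ^ 2 + γ 1 0 ^ 2 + γ 1 1 ^ 2 := by
    have e0 := sq_nonneg (M 0 0)
    have e1 := sq_nonneg (M 0 1)
    have e2 := sq_nonneg (M 1 0)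
    have e3 := sq_nonneg (M 1 1)
    intro i j
    fin_cases i <;> fin_cases j <;> simp only [Fin.zero_eta, Fin.mk_one] <;> linarith
  intro i j
  exact_mod_cast hall i j

theorem cover_Wan (S : Set G2) (γ : G2) (hγ : γ ∈ Subgroup.closure S) :
    ∀ M : G2, bt M * bt (γ * M) ≤ 0 → ∃ l ∈ Subgroup.closure S,
      l * M ∈ ⋃ g ∈ insert 1 S, {M : G2 | bt M * bt (g * M) ≤ 0} := by
  induction hγ using Subgroup.closure_induction with
  | mem g hg =>
    intro M hM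
    exact ⟨1, one_mem _, Set.mem_biUnion (Set.mem_insert_of_mem _ hg) (by simpa using hM)⟩
  | one =>
    intro M hM
    exact ⟨1, one_mem _, Set.mem_biUnion (Set.mem_insert _ _) (by simpa using hM)⟩
  | mul x y _ hy ihx ihy =>
    intro M hM
    by_cases h : bt M * bt (y * M) ≤ 0
    · exact ihy M h
    · have h' : bt (y * M) * bt (x * (y * M)) ≤ 0 := by
        rw [← mul_assoc]
        by_contra h2
        push Not at h h2
        nlinarith [mul_pos h h2, mul_nonneg (sq_nonneg (bt (y * M))) (neg_nonneg.2 hM)]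
      obtain ⟨l, hl, hm⟩ := ihx (y * M) h'
      exact ⟨l * y, mul_mem hl hy, by rwa [mul_assoc]⟩
  | inv x hx ih =>
    intro M hM
    obtain ⟨l, hl, hm⟩ := ih (x⁻¹ * M) (by rw [mul_inv_cancel_left, mul_comm]; exact hM)
    exact ⟨l * x⁻¹, mul_mem hl (inv_mem hx), by rwa [mul_assoc]⟩

/-- The reflection of the second column. -/
def dg_Wan : G2 :=
  ⟨!![1, 0; 0, -1], !![1, 0; 0, -1], by simp [Matrix.one_fin_two], by simp [Matrix.one_fin_two]⟩

theorem bt_dg_Wan (M : G2) : bt (M * dg_Wan) = -bt M := by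
  unfold bt
  simp only [G2.mul_apply]
  simp [dg_Wan]
  ring

theorem wan_stmt (h : SepStmt) : WanStmt := by
  intro Λ hfg hind
  obtain ⟨S, hS, hfin⟩ := (Subgroup.fg_iff Λ).1 hfg
  subst hS
  have hF : (⋃ g ∈ insert 1 S, {M : G2 | bt M * bt (g * M) ≤ 0}).Finite :=
    (hfin.insert 1).biUnion fun g _ => h g
  obtain ⟨M, hM⟩ : ∃ M : G2, ∀ γ ∈ Subgroup.closure S, 0 < bt M * bt (γ * M) := by
    by_contra hn
    push Not at hn
    have hq : (Set.univ : Set (G2 ⧸ Subgroup.closure S)).Finite := by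
      refine (hF.image fun M : G2 => (QuotientGroup.mk M⁻¹ : G2 ⧸ Subgroup.closure S)).subset ?_
      rintro ⟨g⟩ -
      obtain ⟨γ, hγ, h1⟩ := hn g⁻¹
      obtain ⟨l, hl, h2⟩ := cover_Wan S γ hγ g⁻¹ h1
      refine ⟨l * g⁻¹, h2, ?_⟩
      exact QuotientGroup.eq.2 (by simpa using hl)
    haveI : Finite (G2 ⧸ Subgroup.closure S) := Set.finite_univ_iff.1 hq
    exact Subgroup.index_ne_zero_of_finite hind
  rcases lt_trichotomy (bt M) 0 with h0 | h0 | h0
  · refine ⟨M * dg_Wan, fun γ hγ => ?_⟩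
    rw [← mul_assoc, bt_dg_Wan]
    have := hM γ hγ
    nlinarith
  · have := hM 1 (one_mem _)
    rw [h0] at this
    simp at this
  · exact ⟨M, fun γ hγ => (pos_iff_pos_of_mul_pos (hM γ hγ)).1 h0⟩

end Pool.Agent.MP_5045a8_al.HX

end

section

/-! Nonnegative matrices whose powers keep an acute basis acute. -/

namespace Pool.Agent.MP_5045a8_al.HX

open Matrix O FT

theorem one_le_PosMat {a b c d : ℤ} (ha : 0 ≤ a) (hb : 0 ≤ b)
    (h : (a * c - b * d) ^ 2 = 1) : 1 ≤ a + b := by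
  by_contra hn
  have h1 : a = 0 := by omega
  have h2 : b = 0 := by omega
  simp [h1, h2] at h

theorem one_le_sq_PosMat {a b c d : ℤ} (h : (a * c - b * d) ^ 2 = 1) : 1 ≤ a ^ 2 + b ^ 2 := by
  by_contra hn
  have h1 : a = 0 := by nlinarith [sq_nonneg a, sq_nonneg b, sq_nonneg (a - 1), sq_nonneg (a + 1)]
  have h2 : b = 0 := by nlinarith [sq_nonneg a, sq_nonneg b, sq_nonneg (b - 1), sq_nonneg (b + 1)]
  simp [h1, h2] at h

theorem col_PosMat {p q r s a c : ℤ} (ha : 0 ≤ a) (hc : 0 ≤ c) (h1 : 1 ≤ p ^ 2 + r ^ 2)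
    (h2 : 1 ≤ q ^ 2 + s ^ 2) (h3 : 0 < p * q + r * s) :
    a + c ≤ (p * a + q * c) ^ 2 + (r * a + s * c) ^ 2 := by
  have e : (p * a + q * c) ^ 2 + (r * a + s * c) ^ 2 =
      (p ^ 2 + r ^ 2) * a ^ 2 + 2 * ((p * q + r * s) * (a * c)) + (q ^ 2 + s ^ 2) * c ^ 2 := by
    ring
  have a1 := mul_le_mul_of_nonneg_right h1 (sq_nonneg a)
  have a2 := mul_le_mul_of_nonneg_right h2 (sq_nonneg c)
  have a3 := mul_nonneg h3.le (mul_nonneg ha hc)
  have a4 : a ≤ a ^ 2 := Int.le_self_sq a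
  have a5 : c ≤ c ^ 2 := Int.le_self_sq c
  linarith

theorem bound_PosMat (K P : G2) (hP : ∀ i j, 0 ≤ P i j) (hK : 0 < bt K) (j : Fin 2) :
    P 0 j + P 1 j ≤ (K * P) 0 j ^ 2 + (K * P) 1 j ^ 2 := by
  have hd := G2.det_sq K
  rw [G2.mul_apply, G2.mul_apply]
  refine col_PosMat (hP 0 j) (hP 1 j) (one_le_sq_PosMat (c := K 1 1) (d := K 0 1) ?_)
    (one_le_sq_PosMat (c := K 1 0) (d := K 0 0) ?_) hK
  · rw [← hd]; ring
  · rw [← hd]; ring

theorem pow_nonneg_PosMat {N : G2} (hN : ∀ i j, 0 ≤ N i j) (n : ℕ) :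
    ∀ i j, 0 ≤ (N ^ n) i j := by
  induction n with
  | zero =>
    intro i j
    rw [pow_zero, Units.val_one, Matrix.one_apply]
    split_ifs <;> norm_num
  | succ n ih =>
    intro i j
    rw [pow_succ, G2.mul_apply]
    exact add_nonneg (mul_nonneg (ih _ _) (hN _ _)) (mul_nonneg (ih _ _) (hN _ _))

theorem grow_PosMat {N : G2} (hN : ∀ i j, 0 ≤ N i j)
    (h3 : 3 ≤ N 0 0 + N 0 1 + (N 1 0 + N 1 1)) (n : ℕ) :
    (n : ℤ) ≤ (N ^ n) 0 0 + (N ^ n) 1 0 + ((N ^ n) 0 1 + (N ^ n) 1 1) := by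
  induction n with
  | zero =>
    have h := pow_nonneg_PosMat hN 0
    exact add_nonneg (add_nonneg (h _ _) (h _ _)) (add_nonneg (h _ _) (h _ _))
  | succ n ih =>
    have h := pow_nonneg_PosMat hN n
    have hd := G2.det_sq N
    have hd' := G2.det_sq (N ^ n)
    have r0 : 1 ≤ N 0 0 + N 0 1 := one_le_PosMat (hN _ _) (hN _ _) hd
    have r1 : 1 ≤ N 1 0 + N 1 1 :=
      one_le_PosMat (c := N 0 1) (d := N 0 0) (hN _ _) (hN _ _) (by rw [← hd]; ring)
    have c0 : 1 ≤ (N ^ n) 0 0 + (N ^ n) 1 0 :=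
      one_le_PosMat (c := (N ^ n) 1 1) (d := (N ^ n) 0 1) (h _ _) (h _ _) (by rw [← hd']; ring)
    have c1 : 1 ≤ (N ^ n) 0 1 + (N ^ n) 1 1 :=
      one_le_PosMat (c := (N ^ n) 1 0) (d := (N ^ n) 0 0) (h _ _) (h _ _) (by rw [← hd']; ring)
    rw [pow_succ]
    simp only [G2.mul_apply]
    rw [Nat.cast_succ]
    have a1 := mul_nonneg (sub_nonneg.2 r0) (sub_nonneg.2 c0)
    have a2 := mul_nonneg (sub_nonneg.2 r1) (sub_nonneg.2 c1)
    linarith

theorem posMat_stmt : PosMatStmt := by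
  intro M N hN h
  by_cases h3 : 3 ≤ N 0 0 + N 0 1 + (N 1 0 + N 1 1)
  · exfalso
    obtain ⟨n, hn⟩ := exists_nat_gt (M 0 0 ^ 2 + M 1 0 ^ 2 + (M 0 1 ^ 2 + M 1 1 ^ 2))
    have b0 := bound_PosMat _ _ (pow_nonneg_PosMat hN n) (h n) 0
    have b1 := bound_PosMat _ _ (pow_nonneg_PosMat hN n) (h n) 1
    rw [inv_mul_cancel_right] at b0 b1
    have := grow_PosMat hN h3 n
    linarith
  · have hd := G2.det_sq N
    have r0 : 1 ≤ N 0 0 + N 0 1 := one_le_PosMat (hN _ _) (hN _ _) hd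
    have r1 : 1 ≤ N 1 0 + N 1 1 :=
      one_le_PosMat (c := N 0 1) (d := N 0 0) (hN _ _) (hN _ _) (by rw [← hd]; ring)
    have c0 : 1 ≤ N 0 0 + N 1 0 :=
      one_le_PosMat (c := N 1 1) (d := N 0 1) (hN _ _) (hN _ _) (by rw [← hd]; ring)
    have c1 : 1 ≤ N 0 1 + N 1 1 :=
      one_le_PosMat (c := N 1 0) (d := N 0 0) (hN _ _) (hN _ _) (by rw [← hd]; ring)
    have n00 := hN 0 0
    have n01 := hN 0 1
    have n10 := hN 1 0
    have n11 := hN 1 1
    by_cases h0 : N 0 0 = 0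
    · right
      ext i j
      fin_cases i <;> fin_cases j <;> simp <;> omega
    · left
      ext i j
      fin_cases i <;> fin_cases j <;> simp <;> omega

end Pool.Agent.MP_5045a8_al.HX

end

section

namespace Pool.Agent.MP_5045a8_al.HX

open Matrix O FT

theorem par_Abs {K : Type} [Field K] {a c : Fin 3 → K} (hc : c ≠ 0) (h : a ⨯₃ c = 0) :
    ∃ r : K, a = r • c := by
  by_contra hn
  push Not at hn
  refine crossProduct_ne_zero_iff_linearIndependent.2 ?_ h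
  rw [LinearIndependent.pair_symm_iff, LinearIndependent.pair_iff' hc]
  exact fun r e => hn r e.symm

theorem qc_mul_Abs (A B : QM) : qc (A * B) = qc A * qc B :=
  Matrix.map_mul (f := Rat.castHom ℂ)

theorem qc_sub_Abs (A B : QM) : qc (A - B) = qc A - qc B := by
  ext i j
  simp [qc]

theorem qc_qm_Abs (g : G3) : qc (qm g) = cm g := by
  ext i j
  exact Rat.cast_intCast (g i j)

theorem lmv_Abs (l : ℂ →ₗ[ℚ] ℚ) (Y : QM) (c : C3) (i : Fin 3) :
    (Y *ᵥ (l ∘ c)) i = l ((qc Y *ᵥ c) i) := by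
  simp only [mulVec, dotProduct, map_sum, qc, map_apply, ← Rat.smul_def, map_smul, smul_eq_mul,
    Function.comp]

theorem lvm_Abs (l : ℂ →ₗ[ℚ] ℚ) (Y : QM) (c : C3) (j : Fin 3) :
    ((l ∘ c) ᵥ* Y) j = l ((c ᵥ* qc Y) j) := by
  simp only [vecMul, dotProduct, map_sum, qc, map_apply, mul_comm (c _), ← Rat.smul_def,
    map_smul, smul_eq_mul, Function.comp, mul_comm (l _)]

theorem exl_Abs {c : C3} (hc : c ≠ 0) : ∃ l : ℂ →ₗ[ℚ] ℚ, l ∘ c ≠ 0 := by
  by_contra hn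
  push Not at hn
  exact hc (funext fun i => (Module.forall_dual_apply_eq_zero_iff ℚ (c i)).1 fun l =>
    congrFun (hn l) i)

/-- a matrix that kills an orbit is zero -/
theorem ker_Abs (hS : SpanStmt) {H : Subgroup G3} (hI : Irr H) {x : QM} {v : Q3} (hv : v ≠ 0)
    (h : ∀ k ∈ H, (x * qm k) *ᵥ v = 0) : x = 0 := by
  ext i j
  by_contra hn
  obtain ⟨k, hk, e⟩ := (hS H v (x i) hI hv fun e => hn (congrFun e j)).1
  have := congrFun (h k hk) i
  rw [← mulVec_mulVec] at this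
  exact e this

/-- the same for covectors -/
theorem coker_Abs (hS : SpanStmt) {H : Subgroup G3} (hI : Irr H) {x : QM} {φ : Q3} (hφ : φ ≠ 0)
    (h : ∀ k ∈ H, φ ᵥ* (qm k * x) = 0) : x = 0 := by
  ext i j
  by_contra hn
  obtain ⟨k, hk, e⟩ := (hS H (fun a => x a j) φ hI (fun e => hn (congrFun e i)) hφ).1
  have := congrFun (h k hk) j
  rw [← vecMul_vecMul] at this
  rw [← vecMul_dot] at e
  exact e this

theorem abs_stmt (hS : SpanStmt) : AbsStmt := by
  intro H hI hC g hg h hh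
  unfold IrrC at hC
  push Not at hC
  obtain ⟨c, hc, hC⟩ := hC
  obtain ⟨l, hl⟩ := exl_Abs hc
  apply qm_inj
  rw [← sub_eq_zero]
  by_cases h1 : ∃ h ∈ H, (cm h *ᵥ c) ⨯₃ c ≠ 0
  · choose χ hχ using fun k hk => par_Abs hc (hC h1 k hk)
    refine coker_Abs hS hI hl fun k hk => funext fun j => ?_
    rw [lvm_Abs, qc_mul_Abs, qc_sub_Abs, qc_qm_Abs, qc_qm_Abs, qc_qm_Abs, map_mul, map_mul,
      ← vecMul_vecMul, hχ k hk, smul_vecMul, vecMul_sub, ← vecMul_vecMul, ← vecMul_vecMul,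
      hχ g hg, hχ h hh, smul_vecMul, smul_vecMul, hχ g hg, hχ h hh, smul_comm (χ g hg), sub_self,
      smul_zero]
    exact map_zero l
  · push Not at h1
    choose χ hχ using fun k hk => par_Abs hc (h1 k hk)
    refine ker_Abs hS hI hl fun k hk => funext fun j => ?_
    rw [lmv_Abs, qc_mul_Abs, qc_sub_Abs, qc_qm_Abs, qc_qm_Abs, qc_qm_Abs, map_mul, map_mul,
      ← mulVec_mulVec, hχ k hk, mulVec_smul, sub_mulVec, ← mulVec_mulVec, ← mulVec_mulVec,
      hχ g hg, hχ h hh, mulVec_smul, mulVec_smul, hχ g hg, hχ h hh, smul_comm (χ g hg), sub_self,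
      smul_zero]
    exact map_zero l

theorem noeig_Abs {g : G3} (h : ∀ v : Q3, (qm g *ᵥ v = v ∨ qm g *ᵥ v = -v) → v = 0) :
    NoEig g := by
  have e : qm g = (Int.castRingHom ℚ).mapMatrix (mat g) := rfl
  constructor
  · intro h0
    have h1 : (qm g - 1).det = 0 := by
      rw [e, ← map_one (Int.castRingHom ℚ).mapMatrix, ← map_sub, ← RingHom.map_det, h0, map_zero]
    obtain ⟨v, hv, h2⟩ := exists_mulVec_eq_zero_iff.2 h1
    rw [sub_mulVec, one_mulVec, sub_eq_zero] at h2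
    exact hv (h v (Or.inl h2))
  · intro h0
    have h1 : (qm g + 1).det = 0 := by
      rw [e, ← map_one (Int.castRingHom ℚ).mapMatrix, ← map_add, ← RingHom.map_det, h0, map_zero]
    obtain ⟨v, hv, h2⟩ := exists_mulVec_eq_zero_iff.2 h1
    rw [add_mulVec, one_mulVec, add_eq_zero_iff_eq_neg] at h2
    exact hv (h v (Or.inr h2))

theorem abel_stmt (hS : SpanStmt) : AbelStmt := by
  intro H hI hab
  obtain ⟨g, hg, h1⟩ : ∃ g ∈ H, g ≠ 1 := by
    by_contra hn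
    push Not at hn
    refine (hI ![1, 0, 0] fun e => by simpa using congrFun e 0).1 fun g hg => Or.inl ?_
    rw [hn g hg, mat_one, vecMul_one]
  have hc : ∀ k ∈ H, qm g * qm k = qm k * qm g := fun k hk => by
    rw [← map_mul, hab g hg k hk, map_mul]
  refine ⟨g, noeig_Abs fun v hv => ?_, le_trans (fun k hk => ?_) Subgroup.le_normalizer⟩
  · by_contra h0
    rcases hv with hv | hv
    · have h2 : qm g - 1 = 0 := ker_Abs hS hI h0 fun k hk => by
        rw [Matrix.sub_mul, hc k hk, sub_mulVec, ← mulVec_mulVec, hv, Matrix.one_mul, sub_self]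
      exact h1 (qm_inj (by rw [map_one, ← sub_eq_zero, h2]))
    · have h2 : qm g + 1 = 0 := ker_Abs hS hI h0 fun k hk => by
        rw [Matrix.add_mul, hc k hk, add_mulVec, ← mulVec_mulVec, hv, Matrix.one_mul, mulVec_neg,
          neg_add_cancel]
      have h3 := det_qm g
      rw [eq_neg_of_add_eq_zero_left h2, det_neg, det_one] at h3
      norm_num at h3
  · rw [Subgroup.mem_centralizer_singleton_iff]
    exact hab k hk g hg

theorem com_stmt (hS : SpanStmt) : ComStmt := by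
  intro H g Y hI hP hG hc
  obtain ⟨-, -, ⟨a, b, c, hY⟩, h4⟩ := hP
  have hi : ∀ k : G3, qm k⁻¹ * qm k = 1 := fun k => by rw [← map_mul, inv_mul_cancel, map_one]
  have hi' : ∀ k : G3, qm k * qm k⁻¹ = 1 := fun k => by rw [← map_mul, mul_inv_cancel, map_one]
  have hp : ∀ X : QM, X * qm g = qm g * X → X * Y = Y * X := fun X hX => by
    have h : Commute X (qm g) := hX
    rw [hY]
    exact (((Commute.one_right X).smul_right a).add_right (h.smul_right b)).add_right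
      ((h.pow_right 2).smul_right c)
  refine ⟨noeig_Abs fun v hv => ?_, Subgroup.le_normalizer_iff.2 fun h hh x hx => ?_⟩
  · by_contra h0
    have h1 := h4 v hv
    obtain ⟨k, hk, e⟩ := (hS H v v hI h0 h0).2
    have h2 : Y *ᵥ ((qm k⁻¹ * Y * qm k⁻¹⁻¹) *ᵥ v) = 0 := by
      rw [mulVec_mulVec, hc _ (H.inv_mem hk), ← mulVec_mulVec, h1, mulVec_zero]
    obtain ⟨ρ, hρ⟩ := par_Abs h0 (hG.ker v _ h1 h2)
    have h3 : Y *ᵥ (qm k *ᵥ v) = ρ • (qm k *ᵥ v) := by
      rw [← mulVec_smul, ← hρ, inv_inv, ← mulVec_mulVec, ← mulVec_mulVec, qm_mulVec_inv]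
    rw [hG.eig _ ρ (qm_mulVec_ne_zero k h0) h3, zero_smul] at h3
    exact e (hG.ker v _ h1 h3)
  · rw [Subgroup.mem_centralizer_singleton_iff] at hx ⊢
    have h1 : qm x * Y = Y * qm x := hp _ (by rw [← map_mul, hx, map_mul])
    have h2 := hG.com _ _ h1 (hc _ (H.inv_mem hh)).symm
    rw [inv_inv] at h2
    have h3 : qm (h * x * h⁻¹) * Y = Y * qm (h * x * h⁻¹) := by
      rw [map_mul, map_mul]
      calc _ = qm h * (qm x * (qm h⁻¹ * Y * qm h)) * qm h⁻¹ := by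
            simp only [Matrix.mul_assoc, hi', Matrix.mul_one]
        _ = qm h * qm h⁻¹ * (Y * (qm h * qm x * qm h⁻¹)) := by
            rw [h2]; simp only [Matrix.mul_assoc]
        _ = _ := by rw [hi', Matrix.one_mul]
    apply qm_inj
    rw [map_mul, map_mul qm g]
    exact hG.com _ _ h3 (hp _ rfl)

end Pool.Agent.MP_5045a8_al.HX

end

section

namespace Pool.Agent.MP_5045a8_al.HX

open Matrix O FT

theorem fn_Semi {ι : Type} (s : Finset ι) (c w : ι → ℂ) (h : ∀ n : ℕ, ∑ m ∈ s, c m * w m ^ n = 0)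
    (L : ℂ → ℂ) : ∑ m ∈ s, c m * L (w m) = 0 := by
  classical
  have h1 : ∀ p : Polynomial ℂ, ∑ m ∈ s, c m * p.eval (w m) = 0 := fun p => by
    induction p using Polynomial.induction_on' with
    | add p q hp hq =>
      simp only [Polynomial.eval_add, mul_add, Finset.sum_add_distrib, hp, hq, add_zero]
    | monomial n a =>
      simp only [Polynomial.eval_monomial, mul_left_comm _ a, ← Finset.mul_sum, h n, mul_zero]
  rw [← h1 (Lagrange.interpolate (s.image w) id L)]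
  refine Finset.sum_congr rfl fun m hm => ?_
  have h2 := Lagrange.eval_interpolate_at_node (s := s.image w) (v := id) L
    (Function.injective_id.injOn) (Finset.mem_image_of_mem w hm)
  rw [id] at h2
  rw [h2]

theorem exp_stmt : ExpStmt := by
  intro F e he h
  have h1 := fn_Semi F.support (fun m => F.coeff m) (fun m => ∏ i, e i ^ m i) (fun n => by
    rw [← h n, MvPolynomial.eval_eq']
    refine Finset.sum_congr rfl fun m _ => ?_
    rw [← Finset.prod_pow]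
    simp only [← pow_mul, mul_comm n]) fun z => ((Real.log ‖z‖ : ℝ) : ℂ)
  have h2 : ∀ k, MvPolynomial.eval (fun _ => 1) (MvPolynomial.pderiv k F) =
      ∑ m ∈ F.support, F.coeff m * m k := fun k => by
    conv_lhs => rw [F.as_sum]
    simp only [map_sum, MvPolynomial.pderiv_monomial, MvPolynomial.eval_monomial, one_pow,
      Finsupp.prod, Finset.prod_const_one, mul_one]
  rw [← h1]
  simp only [h2, Finset.mul_sum]
  rw [Finset.sum_comm]
  refine Finset.sum_congr rfl fun m _ => ?_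
  rw [norm_prod, Real.log_prod fun i _ => norm_ne_zero_iff.2 (pow_ne_zero _ (he i))]
  simp only [norm_pow, Real.log_pow]
  push_cast
  rw [Finset.mul_sum]
  exact Finset.sum_congr rfl fun k _ => by ring

/-- The pull-back of a polynomial to the torus. -/
noncomputable def pb_Semi (t : Fin 3 × Fin 3 → Fin 3 → ℂ) : MP →ₐ[ℝ] MvPolynomial (Fin 3) ℂ :=
  MvPolynomial.aeval fun ij => ∑ k, MvPolynomial.C (t ij k) * MvPolynomial.X k

theorem pb_C_Semi (t : Fin 3 × Fin 3 → Fin 3 → ℂ) (a : ℝ) :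
    pb_Semi t (MvPolynomial.C a) = MvPolynomial.C (a : ℂ) := by
  rw [pb_Semi, MvPolynomial.aeval_C]
  rfl

theorem pb_X_Semi (t : Fin 3 × Fin 3 → Fin 3 → ℂ) (ij : Fin 3 × Fin 3) :
    pb_Semi t (MvPolynomial.X ij) = ∑ k, MvPolynomial.C (t ij k) * MvPolynomial.X k :=
  MvPolynomial.aeval_X _ _

theorem eval_pb_Semi (t : Fin 3 × Fin 3 → Fin 3 → ℂ) (y : C3) (M : RM)
    (h : ∀ ij : Fin 3 × Fin 3, (M ij.1 ij.2 : ℂ) = ∑ k, t ij k * y k) (Q : MP) :
    MvPolynomial.eval y (pb_Semi t Q) = (ev M Q : ℝ) := by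
  unfold ev
  induction Q using MvPolynomial.induction_on with
  | C a => rw [pb_C_Semi, MvPolynomial.eval_C, MvPolynomial.eval_C]
  | add p q hp hq => simp only [map_add, hp, hq, Complex.ofReal_add]
  | mul_X p ij hp =>
    simp only [map_mul, hp, pb_X_Semi, map_sum, MvPolynomial.eval_C, MvPolynomial.eval_X,
      Complex.ofReal_mul, h]

theorem ev_Dv_Semi (M Y : RM) (p : MP) (ij : Fin 3 × Fin 3) :
    ev M (Dv Y (p * MvPolynomial.X ij)) =
      ev M p * (M * Y) ij.1 ij.2 + M ij.1 ij.2 * ev M (Dv Y p) := by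
  rw [Derivation.leibniz, Dv, MvPolynomial.mkDerivation_X]
  simp only [ev, smul_eq_mul, map_add, map_mul, map_sum, MvPolynomial.eval_C, MvPolynomial.eval_X,
    Matrix.mul_apply]

theorem pow_Semi {g : G3} {P : CM} {e : C3} (h : cm g * P = P * diagonal e) (n : ℕ) :
    cm (g ^ n) * P = P * diagonal fun i => e i ^ n := by
  induction n with
  | zero => simp
  | succ n ih =>
    rw [pow_succ, map_mul, mul_assoc, h, ← mul_assoc, ih, mul_assoc, diagonal_mul_diagonal]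
    simp only [pow_succ]

theorem semi_stmt (h : ExpStmt) : SemiStmt := by
  intro H g k P e a b c Q hg hk ⟨hP, _, hD⟩ hl hQ
  have he : ∀ i, e i ≠ 0 := fun i hi => by
    have h1 := congrArg det hD
    have h2 := ((Matrix.isUnit_iff_isUnit_det _).1 ((Group.isUnit g).map cm)).ne_zero
    rw [det_mul, det_mul, det_diagonal, Finset.prod_eq_zero (Finset.mem_univ i) hi, mul_zero] at h1
    exact mul_ne_zero h2 hP h1
  obtain ⟨t, ht⟩ : ∃ t : Fin 3 × Fin 3 → Fin 3 → ℂ, ∀ (n : ℕ) (ij : Fin 3 × Fin 3),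
      ((rm (mat (k * g ^ n)) ij.1 ij.2 : ℝ) : ℂ) = ∑ r, t ij r * e r ^ n := by
    refine ⟨fun ij r => (cm k * P) ij.1 r * P⁻¹ r ij.2, fun n ij => ?_⟩
    have h1 : cm (k * g ^ n) = cm k * P * (diagonal fun i => e i ^ n) * P⁻¹ := by
      rw [mul_assoc (cm k), ← pow_Semi hD, mul_assoc, mul_assoc,
        Matrix.mul_nonsing_inv _ (isUnit_iff_ne_zero.2 hP), mul_one, map_mul]
    have h2 : ((rm (mat (k * g ^ n)) ij.1 ij.2 : ℝ) : ℂ) = cm (k * g ^ n) ij.1 ij.2 :=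
      Complex.ofReal_intCast _
    rw [h2, h1, Matrix.mul_apply]
    exact Finset.sum_congr rfl fun r _ => by rw [mul_diagonal]; ring
  have h1 := h (pb_Semi t Q) e he fun n => by
    rw [eval_pb_Semi t _ _ (ht n), hQ _ (H.mul_mem hk (H.pow_mem hg n)), Complex.ofReal_zero]
  have h2 : ∀ n : ℕ, rm (mat k) * qr (qm g ^ n) = rm (mat (k * g ^ n)) := fun n => by
    have h3 : qr (qm g ^ n) = rm (mat (g ^ n)) := by
      rw [← map_pow]
      ext i j
      exact Rat.cast_intCast _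
    rw [h3]
    exact (Matrix.map_mul (L := mat k) (M := mat (g ^ n)) (f := Int.castRingHom ℝ)).symm
  have h4 : ∀ ij : Fin 3 × Fin 3, ((rm (mat k) ij.1 ij.2 : ℝ) : ℂ) = ∑ r, t ij r * 1 := by
    simpa only [pow_zero, mul_one] using ht 0
  have h5 : ∀ (n : ℕ) (ij : Fin 3 × Fin 3),
      (((rm (mat k) * qr (qm g ^ n)) ij.1 ij.2 : ℝ) : ℂ) = ∑ r, t ij r * e r ^ n := fun n ij => by
    rw [h2, ht]
  have h50 := h5 0
  have h51 := h5 1
  have h52 := h5 2
  rw [pow_zero] at h50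
  rw [pow_one] at h51
  rw [← h1]
  clear h1 hQ
  induction Q using MvPolynomial.induction_on with
  | C r => simp [ev, Dv]
  | add p q hp hq =>
    simp only [ev, map_add, Complex.ofReal_add, mul_add, Finset.sum_add_distrib] at hp hq ⊢
    linear_combination hp + hq
  | mul_X p ij hp =>
    have h6 : ∀ r, MvPolynomial.eval (fun _ => 1)
        (MvPolynomial.pderiv r (pb_Semi t (p * MvPolynomial.X ij))) =
        (ev (rm (mat k)) p : ℝ) * t ij r + (rm (mat k) ij.1 ij.2 : ℝ) *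
          MvPolynomial.eval (fun _ => 1) (MvPolynomial.pderiv r (pb_Semi t p)) := fun r => by
      rw [map_mul, Derivation.leibniz, smul_eq_mul, smul_eq_mul, map_add, map_mul, map_mul,
        eval_pb_Semi t _ _ h4, eval_pb_Semi t _ _ h4, pb_X_Semi]
      simp [ev, Pi.single_apply]
    simp only [ev_Dv_Semi, Complex.ofReal_add, Complex.ofReal_mul, h50, h51, h52, h6,
      Fin.sum_univ_three] at hp ⊢
    linear_combination (rm (mat k) ij.1 ij.2 : ℝ) * hp +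
      (ev (rm (mat k)) p : ℝ) * (t ij 0 * hl 0 + t ij 1 * hl 1 + t ij 2 * hl 2)

end Pool.Agent.MP_5045a8_al.HX

end
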