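import Pool.Agent.MP_5045a8_al.Defs

section

/-! Definitions for the construction of free maximal subgroups of SL(3,Z). -/

namespace Pool.Agent.MP_5045a8_al.FT

open Matrix

/-- Rational vectors (also used as covectors through the dot product), with the sup norm. -/
abbrev Q3 : Type := Fin 3 → ℚ

/-- Rational matrices. -/
abbrev QM : Type := Matrix (Fin 3) (Fin 3) ℚ

/-- The rational matrix of an element of SL(3,Z). -/
def qm : G3 →* QM where
  toFun g := (g : Matrix (Fin 3) (Fin 3) ℤ).map (Int.castRingHom ℚ)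
  map_one' := by simp
  map_mul' g h := Matrix.map_mul (L := g.1) (M := h.1) (f := Int.castRingHom ℚ)

theorem qm_apply (g : G3) (i j : Fin 3) : qm g i j = ((g i j : ℤ) : ℚ) := rfl

theorem qm_inj : Function.Injective qm := fun g h e =>
  Subtype.ext (Matrix.ext fun i j => by
    have := congrFun (congrFun e i) j
    rw [qm_apply, qm_apply] at this
    exact_mod_cast this)

theorem det_qm (g : G3) : (qm g).det = 1 := by
  have := (Int.castRingHom ℚ).map_det (g : Matrix (Fin 3) (Fin 3) ℤ)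
  rw [g.det_coe, map_one] at this
  exact this.symm

theorem qm_inv_mulVec (g : G3) (x : Q3) : qm g⁻¹ *ᵥ (qm g *ᵥ x) = x := by
  rw [mulVec_mulVec, ← map_mul, inv_mul_cancel, map_one, one_mulVec]

theorem qm_mulVec_inv (g : G3) (x : Q3) : qm g *ᵥ (qm g⁻¹ *ᵥ x) = x := by
  rw [mulVec_mulVec, ← map_mul, mul_inv_cancel, map_one, one_mulVec]

theorem qm_mul_mulVec (g h : G3) (x : Q3) : qm (g * h) *ᵥ x = qm g *ᵥ (qm h *ᵥ x) := by
  rw [mulVec_mulVec, map_mul]

theorem qm_mulVec_ne_zero (g : G3) {x : Q3} (hx : x ≠ 0) : qm g *ᵥ x ≠ 0 := fun h => hx <| by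
  rw [← qm_inv_mulVec g x, h, mulVec_zero]

theorem vecMul_dot (ψ : Q3) (M : QM) (x : Q3) : (ψ ᵥ* M) ⬝ᵥ x = ψ ⬝ᵥ (M *ᵥ x) :=
  (dotProduct_mulVec ψ M x).symm

/-- W contains a nontrivial multiple of the transvection with centre p and axis φ. -/
def TvIn (W : Subgroup G3) (p φ : Q3) : Prop :=
  ∃ r : ℚ, r ≠ 0 ∧ ∃ g ∈ W, qm g = 1 + r • vecMulVec p φ

/-- Every axis through p occurs in W. -/
def FullC (W : Subgroup G3) (p : Q3) : Prop := ∀ φ : Q3, φ ⬝ᵥ p = 0 → TvIn W p φ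

/-- Every centre on L occurs in W. -/
def FullA (W : Subgroup G3) (L : Q3) : Prop := ∀ v : Q3, L ⬝ᵥ v = 0 → TvIn W v L

/-- Vectors on none of the planes of V. -/
def Av (V : Set Q3) : Set Q3 := {x | ∀ ψ ∈ V, ψ ⬝ᵥ x ≠ 0}

/-- Nonzero multiples of elements of A. -/
def Cone (A : Set Q3) : Set Q3 := {x | ∃ c : ℚ, c ≠ 0 ∧ ∃ a ∈ A, x = c • a}

variable {F : Type} [Group F]

/-- Nontrivial elements of Γ move U off every plane of V. -/
def Adm (π : F →* G3) (Γ : Subgroup F) (U V : Set Q3) : Prop :=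
  ∀ w ∈ Γ, w ≠ 1 → ∀ x ∈ U, ∀ ψ ∈ V, ψ ⬝ᵥ (qm (π w) *ᵥ x) ≠ 0

/-- Γ is admissible for open sets containing an incident pair. -/
def Good (π : F →* G3) (Γ : Subgroup F) : Prop :=
  ∃ U V : Set Q3, IsOpen U ∧ IsOpen V ∧ Adm π Γ U V ∧
    ∃ x ∈ U, ∃ ψ ∈ V, x ≠ 0 ∧ ψ ≠ 0 ∧ ψ ⬝ᵥ x = 0

/-- Admissible open sets in which every point lies on some plane and conversely. -/
def Box (π : F →* G3) (Γ : Subgroup F) (U V : Set Q3) : Prop :=
  IsOpen U ∧ IsOpen V ∧ Adm π Γ U V ∧ U.Nonempty ∧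
    (∀ x ∈ U, x ≠ 0 ∧ ∃ ψ ∈ V, ψ ⬝ᵥ x = 0) ∧ ∀ ψ ∈ V, ψ ≠ 0 ∧ ∃ x ∈ U, ψ ⬝ᵥ x = 0

end Pool.Agent.MP_5045a8_al.FT

end

section

/-! A congruence dense subgroup of SL(3,Z) is Zariski dense in SL(3,R). -/

namespace Pool.Agent.MP_5045a8_al.FT

open Matrix

lemma zar_lat {σ : Type} (P : MvPolynomial σ ℝ) : ∃ Λ : Submodule ℤ ℝ, Λ.FG ∧
    (∀ x : σ → ℤ, MvPolynomial.eval (fun i => (x i : ℝ)) P ∈ Λ) ∧
    ∀ (N : ℤ) (x y : σ → ℤ), (∀ i, N ∣ x i - y i) → ∃ w ∈ Λ,
      MvPolynomial.eval (fun i => (x i : ℝ)) P - MvPolynomial.eval (fun i => (y i : ℝ)) P =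
        N • w := by
  induction P using MvPolynomial.induction_on with
  | C a =>
    refine ⟨Submodule.span ℤ {a}, Submodule.fg_span_singleton a, fun x => ?_,
      fun N x y _ => ⟨0, Submodule.zero_mem _, by simp⟩⟩
    rw [MvPolynomial.eval_C]
    exact Submodule.mem_span_singleton_self a
  | add p q hp hq =>
    obtain ⟨Λ, h1, h2, h3⟩ := hp
    obtain ⟨Λ', h1', h2', h3'⟩ := hq
    refine ⟨Λ ⊔ Λ', h1.sup h1', fun x => ?_, fun N x y h => ?_⟩
    · rw [map_add]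
      exact Submodule.add_mem_sup (h2 x) (h2' x)
    · obtain ⟨w, hw, e⟩ := h3 N x y h
      obtain ⟨w', hw', e'⟩ := h3' N x y h
      refine ⟨w + w', Submodule.add_mem_sup hw hw', ?_⟩
      rw [map_add, map_add, smul_add, ← e, ← e']
      ring
  | mul_X p i hp =>
    obtain ⟨Λ, h1, h2, h3⟩ := hp
    refine ⟨Λ, h1, fun x => ?_, fun N x y h => ?_⟩
    · rw [map_mul, MvPolynomial.eval_X, mul_comm, ← zsmul_eq_mul]
      exact Λ.smul_mem _ (h2 x)
    · obtain ⟨w, hw, e⟩ := h3 N x y h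
      obtain ⟨k, hk⟩ := h i
      refine ⟨x i • w + k • MvPolynomial.eval (fun i => (y i : ℝ)) p,
        Λ.add_mem (Λ.smul_mem _ hw) (Λ.smul_mem _ (h2 y)), ?_⟩
      have hk' : (x i : ℝ) - y i = N * k := by exact_mod_cast hk
      simp only [map_mul, MvPolynomial.eval_X, zsmul_eq_mul] at e ⊢
      linear_combination (x i : ℝ) * e + MvPolynomial.eval (fun i => (y i : ℝ)) p * hk'

lemma zar_div {Λ : Submodule ℤ ℝ} (h : Λ.FG) {v : ℝ} (hv : v ∈ Λ)
    (hd : ∀ N : ℕ, 0 < N → ∃ w ∈ Λ, v = (N : ℤ) • w) : v = 0 := by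
  have : Module.Finite ℤ Λ := Module.Finite.iff_fg.2 h
  have b := Module.Free.chooseBasis ℤ Λ
  have h0 : (⟨v, hv⟩ : Λ) = 0 := by
    refine b.ext_elem fun i => ?_
    obtain ⟨w, hw, e⟩ := hd ((b.repr ⟨v, hv⟩ i).natAbs + 1) (Nat.succ_pos _)
    have e' : (⟨v, hv⟩ : Λ) = (((b.repr ⟨v, hv⟩ i).natAbs + 1 : ℕ) : ℤ) • (⟨w, hw⟩ : Λ) :=
      Subtype.ext e
    have e2 := congrArg (fun z => b.repr z i) e'
    simp only [map_smul, Finsupp.smul_apply, smul_eq_mul] at e2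
    rw [map_zero, Finsupp.zero_apply]
    exact Int.eq_zero_of_dvd_of_natAbs_lt_natAbs ⟨_, e2⟩ (by omega)
  exact congrArg Subtype.val h0

/-- The Zariski closure of the integral points. -/
def zarZ (A : Matrix (Fin 3) (Fin 3) ℝ) : Prop :=
  ∀ Q : MvPolynomial (Fin 3 × Fin 3) ℝ,
    (∀ g : G3, MvPolynomial.eval (fun ij => ((g ij.1 ij.2 : ℤ) : ℝ)) Q = 0) →
    MvPolynomial.eval (fun ij => A ij.1 ij.2) Q = 0

lemma zar_sub {σ τ : Type} (x : τ → ℝ) (f : σ → MvPolynomial τ ℝ) (Q : MvPolynomial σ ℝ) :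
    MvPolynomial.eval x (MvPolynomial.bind₁ f Q) =
      MvPolynomial.eval (fun i => MvPolynomial.eval x (f i)) Q := by
  induction Q using MvPolynomial.induction_on with
  | C a => simp
  | add p q hp hq => simp only [map_add, hp, hq]
  | mul_X p i hp => simp only [map_mul, hp, MvPolynomial.bind₁_X_right, MvPolynomial.eval_X]

lemma zar_mul {A B : Matrix (Fin 3) (Fin 3) ℝ} (hA : zarZ A) (hB : zarZ B) : zarZ (A * B) := by
  intro Q hQ
  have h1 : ∀ g : G3, MvPolynomial.eval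
      (fun ij : Fin 3 × Fin 3 => ∑ k, ((g ij.1 k : ℤ) : ℝ) * B k ij.2) Q = 0 := by
    intro g
    have := hB (MvPolynomial.bind₁ (fun ij : Fin 3 × Fin 3 =>
      ∑ k, MvPolynomial.C ((g ij.1 k : ℤ) : ℝ) * MvPolynomial.X (k, ij.2)) Q) fun g' => by
        rw [zar_sub, ← hQ (g * g')]
        congr 2
        funext ij
        simp [Matrix.mul_apply]
    rw [zar_sub] at this
    simpa using this
  have := hA (MvPolynomial.bind₁ (fun ij : Fin 3 × Fin 3 =>
    ∑ k, MvPolynomial.X (ij.1, k) * MvPolynomial.C (B k ij.2)) Q) fun g => by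
      rw [zar_sub, ← h1 g]
      congr 2
      funext ij
      simp
  rw [zar_sub] at this
  simpa [Matrix.mul_apply] using this

lemma zar_tv (i j : Fin 3) (hij : i ≠ j) (c : ℝ) : zarZ (transvection i j c) := by
  intro Q hQ
  let p : Polynomial ℝ := MvPolynomial.aeval (fun ij : Fin 3 × Fin 3 =>
    Polynomial.C ((1 : Matrix (Fin 3) (Fin 3) ℝ) ij.1 ij.2) +
      Polynomial.C (single i j (1 : ℝ) ij.1 ij.2) * Polynomial.X) Q
  have hp : ∀ c : ℝ, p.eval c =
      MvPolynomial.eval (fun ij : Fin 3 × Fin 3 => transvection i j c ij.1 ij.2) Q := by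
    intro c
    rw [← Polynomial.coe_aeval_eq_eval, ← AlgHom.comp_apply, MvPolynomial.comp_aeval,
      MvPolynomial.aeval_eq_eval]
    congr 2
    funext ij
    by_cases h : i = ij.1 ∧ j = ij.2 <;> simp [transvection, single_apply, h]
  have h0 : p = 0 := by
    refine Polynomial.eq_zero_of_infinite_isRoot p
      (Set.infinite_of_injective_forall_mem (f := fun n : ℤ => (n : ℝ)) Int.cast_injective
        fun n => ?_)
    show p.eval (n : ℝ) = 0
    rw [hp, ← hQ ⟨transvection i j n, det_transvection_of_ne i j hij n⟩]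
    congr 2
    funext ij
    simp [transvection, single_apply, one_apply]
  rw [← hp, h0, Polynomial.eval_zero]

lemma zar_diag (D : Fin 3 → ℝ) (hD : D 0 * D 1 * D 2 = 1) : zarZ (diagonal D) := by
  have h0 : D 0 ≠ 0 := by
    intro h
    simp [h] at hD
  have h2 : D 2 ≠ 0 := by
    intro h
    simp [h] at hD
  have h1 : D 1 = (D 0)⁻¹ * (D 2)⁻¹ := by
    field_simp
    linarith
  have e : diagonal D =
      (transvection 0 1 (D 0) * transvection 1 0 (-(D 0)⁻¹) * transvection 0 1 (D 0) *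
        (transvection 0 1 (-1) * transvection 1 0 1 * transvection 0 1 (-1))) *
      (transvection 1 2 (D 2)⁻¹ * transvection 2 1 (-D 2) * transvection 1 2 (D 2)⁻¹ *
        (transvection 1 2 (-1) * transvection 2 1 1 * transvection 1 2 (-1))) := by
    ext i j
    fin_cases i <;> fin_cases j <;>
      simp [transvection, Matrix.mul_apply, Fin.sum_univ_three, single_apply, one_apply, h0, h2, h1]
  rw [e]
  refine zar_mul (zar_mul (zar_mul (zar_mul ?_ ?_) ?_) (zar_mul (zar_mul ?_ ?_) ?_))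
    (zar_mul (zar_mul (zar_mul ?_ ?_) ?_) (zar_mul (zar_mul ?_ ?_) ?_)) <;>
    exact zar_tv _ _ (by decide) _

theorem zariski_dense {H : Subgroup G3}
    (hH : ∀ N : ℕ, 0 < N → ∀ g : G3, ∃ h ∈ H, ∀ i j, (N : ℤ) ∣ h i j - g i j)
    (P : MvPolynomial (Fin 3 × Fin 3) ℝ)
    (hP : ∀ h ∈ H, MvPolynomial.eval (fun ij => ((h ij.1 ij.2 : ℤ) : ℝ)) P = 0)
    (M : Matrix (Fin 3) (Fin 3) ℝ) (hM : M.det = 1) :
    MvPolynomial.eval (fun ij => M ij.1 ij.2) P = 0 := by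
  have hZ : zarZ M := by
    refine diagonal_transvection_induction zarZ M (fun D hD => zar_diag D ?_)
      (fun t => zar_tv t.i t.j t.hij t.c) fun A B => zar_mul
    rwa [hM, det_diagonal, Fin.prod_univ_three] at hD
  refine hZ P fun g => ?_
  obtain ⟨Λ, h1, h2, h3⟩ := zar_lat P
  refine zar_div h1 (h2 fun ij => g ij.1 ij.2) fun N hN => ?_
  obtain ⟨h, hh, hd⟩ := hH N hN g
  obtain ⟨w, hw, e⟩ := h3 N (fun ij => h ij.1 ij.2) (fun ij => g ij.1 ij.2) fun ij => hd _ _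
  rw [hP h hh, zero_sub] at e
  exact ⟨-w, Λ.neg_mem hw, by rw [smul_neg, ← e, neg_neg]⟩

end Pool.Agent.MP_5045a8_al.FT

end
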