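import Pool.Agent.Mg.F5045a8a.Gd4655a
import Pool.Agent.Mg.F5045a8a.Gefe78a

section

/-! A coset of a lattice of covectors that belong to flags on a common line. -/

namespace Pool.Agent.MP_5045a8_al.HX

open Matrix O FT

theorem par_kill_Cos {χ ψ : V3} {M : M3} (h : cr χ ψ = 0) (hψ : ψ ≠ 0) (hM : ψ ᵥ* M = 0) :
    χ ᵥ* M = 0 := by
  have e := congrArg (· ᵥ* M) (par_dot h ψ)
  simp only [smul_vecMul, hM, smul_zero] at e
  exact (smul_eq_zero.1 e.symm).resolve_left (dot_self_pos hψ).ne'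

theorem pow_Cos (hR : RegStmt) {u : G3} (hu : (mat u - 1) ^ 3 = 0) (n : ℤ) (f : V3) :
    (2 : ℤ) • (f ᵥ* mat (u ^ n)) = (2 : ℤ) • f + (2 * n) • (f ᵥ* (mat u - 1)) +
      (n * (n - 1)) • (f ᵥ* (mat u - 1) ᵥ* (mat u - 1)) := by
  rw [← vecMul_smul, hR.pow hu n, vecMul_add, vecMul_add, vecMul_smul, vecMul_smul, vecMul_smul,
    vecMul_one, vecMul_vecMul, pow_two]

theorem two_inj_Cos {a b : V3} (h : (2 : ℤ) • a = (2 : ℤ) • b) : a = b :=
  smul_right_injective V3 two_ne_zero h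

theorem lat_Cos {u u' x : V3} (h0 : cr u u' ⬝ᵥ x = 0) :
    (cr u u' ⬝ᵥ cr u u') • x = (x ⬝ᵥ cr u' (cr u u')) • u + (x ⬝ᵥ cr (cr u u') u) • u' := by
  simp only [ext3, dot3, cr0, cr1, cr2, Pi.add_apply, Pi.smul_apply, smul_eq_mul] at h0 ⊢
  refine ⟨?_, ?_, ?_⟩
  · linear_combination (u 1 * u' 2 - u 2 * u' 1) * h0
  · linear_combination (u 2 * u' 0 - u 0 * u' 2) * h0
  · linear_combination (u 0 * u' 1 - u 1 * u' 0) * h0

theorem cr_self_Cos (a : V3) : cr a a = 0 := by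
  simp only [ext3, cr0, cr1, cr2, Pi.zero_apply]
  exact ⟨by ring, by ring, by ring⟩

theorem cos_stmt (hR : RegStmt) : CosStmt := by
  rintro K p x ψ φ ⟨v, hvK, hv⟩ ⟨w, hwK, hw⟩ ⟨u, huK, hu⟩ hφp
  have hp : p ≠ 0 := hv.2.2.1
  have hψ : ψ ≠ 0 := hv.2.2.2.1
  have hψp : ψ ⬝ᵥ p = 0 := hR.dot hv
  have hφx : φ ⬝ᵥ x = 0 := hR.dot hu
  have hψA : ψ ᵥ* (mat v - 1) = 0 := by rw [vecMul_sub, hv.2.2.2.2.2, vecMul_one, sub_self]
  have hψB : ψ ᵥ* (mat w - 1) = 0 := by rw [vecMul_sub, hw.2.2.2.2.2, vecMul_one, sub_self]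
  have hAp : (mat v - 1) *ᵥ p = 0 := by rw [sub_mulVec, hv.2.2.2.2.1, one_mulVec, sub_self]
  obtain ⟨χ, hχ⟩ : ∃ χ, χ = φ ᵥ* (mat w - 1) := ⟨_, rfl⟩
  obtain ⟨φ1, hφ1⟩ : ∃ φ1, φ1 = φ ᵥ* (mat v - 1) := ⟨_, rfl⟩
  obtain ⟨φ2, hφ2⟩ : ∃ φ2, φ2 = φ1 ᵥ* (mat v - 1) := ⟨_, rfl⟩
  have hχ' : χ = φ ᵥ* mat w - φ := by rw [hχ, vecMul_sub, vecMul_one]
  have hχψ : cr χ ψ = 0 := by rw [hχ']; exact hR.onc hw hφx
  have hχ0 : χ ≠ 0 := fun h => by
    have e : φ ᵥ* mat w = φ := by rw [hχ'] at h; exact sub_eq_zero.1 h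
    have := hR.fixc (φ := φ) hw (by rw [e]; exact cr_self_Cos φ)
    exact hφp (par_dot_zero (cr_comm_zero this) hψ hψp)
  have hχB : χ ᵥ* (mat w - 1) = 0 := par_kill_Cos hχψ hψ hψB
  have hχA : χ ᵥ* (mat v - 1) = 0 := par_kill_Cos hχψ hψ hψA
  obtain ⟨a, b, ha, hb, hab⟩ := hR.sq hv
  have e2 : a • φ2 = (b * (φ ⬝ᵥ p)) • ψ := by
    have := congrArg (φ ᵥ* ·) hab
    simp only [vecMul_smul, vecMul_vecMulVec, smul_smul] at this
    rw [← this, hφ2, hφ1, vecMul_vecMul, pow_two]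
  have hφ20 : φ2 ≠ 0 := fun h => by
    rw [h, smul_zero] at e2
    exact (smul_ne_zero (mul_ne_zero hb hφp) hψ) e2.symm
  have hφ2ψ : cr φ2 ψ = 0 := by
    simp only [ext3, cr0, cr1, cr2, Pi.zero_apply, Pi.smul_apply, smul_eq_mul] at e2 ⊢
    obtain ⟨a0, a1, a2⟩ := e2
    refine ⟨mul_left_cancel₀ ha ?_, mul_left_cancel₀ ha ?_, mul_left_cancel₀ ha ?_⟩
    · linear_combination ψ 2 * a1 - ψ 1 * a2
    · linear_combination ψ 0 * a2 - ψ 2 * a0
    · linear_combination ψ 1 * a0 - ψ 0 * a1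
  have hφ1p : p ⬝ᵥ φ1 = 0 := by
    rw [dotProduct_comm, hφ1, ← dotProduct_mulVec, hAp, dotProduct_zero]
  have hχp : p ⬝ᵥ χ = 0 := by
    rw [dotProduct_comm]; exact par_dot_zero (cr_comm_zero hχψ) hψ hψp
  have hcr : cr φ1 χ ≠ 0 := fun h => hφ20 (by rw [hφ2]; exact par_kill_Cos h hχ0 hχA)
  have hrs := par_dot (cr_trans hψ hφ2ψ hχψ) χ
  refine ⟨2 * (χ ⬝ᵥ χ) * (cr φ1 χ ⬝ᵥ cr φ1 χ),
    mul_ne_zero (mul_ne_zero two_ne_zero (dot_self_pos hχ0).ne') (dot_self_pos hcr).ne',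
    fun η hη => ?_⟩
  have hD := lat_Cos (par_dot_zero (cr_of_perp hφ1p hχp) hp (x := η)
    (by rw [dotProduct_comm]; exact hη))
  generalize cr φ1 χ ⬝ᵥ cr φ1 χ = D at hD ⊢
  generalize η ⬝ᵥ cr χ (cr φ1 χ) = j0 at hD
  generalize η ⬝ᵥ cr (cr φ1 χ) φ1 = i0 at hD
  generalize χ ⬝ᵥ χ = r at hrs ⊢
  generalize φ2 ⬝ᵥ χ = s at hrs
  obtain ⟨j, hj⟩ : ∃ j, j = 2 * r * j0 := ⟨_, rfl⟩
  obtain ⟨i, hi⟩ : ∃ i, i = 2 * r * i0 - j0 * (2 * r * j0 - 1) * s := ⟨_, rfl⟩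
  have f1 : ψ ᵥ* mat (w ^ i) = ψ := two_inj_Cos (by
    rw [pow_Cos hR hw.1, hψB, zero_vecMul]; simp)
  have f2 : ψ ᵥ* mat (v ^ j) = ψ := two_inj_Cos (by
    rw [pow_Cos hR hv.1, hψA, zero_vecMul]; simp)
  have f3 : φ ᵥ* mat (w ^ i) = φ + i • χ := two_inj_Cos (by
    rw [pow_Cos hR hw.1, ← hχ, hχB, smul_zero, add_zero, smul_add, smul_smul])
  have f4 : (φ + i • χ) ᵥ* mat (v ^ j) = φ + (2 * r * D) • η := two_inj_Cos (by
    rw [pow_Cos hR hv.1, add_vecMul, smul_vecMul, hχA, smul_zero, add_zero, ← hφ1, ← hφ2]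
    funext t
    have d1 := congrFun hD t
    have d2 := congrFun hrs t
    simp only [Pi.add_apply, Pi.smul_apply, smul_eq_mul] at d1 d2 ⊢
    rw [hi, hj]
    linear_combination (-4 * r) * d1 - 2 * j0 * (2 * r * j0 - 1) * d2)
  have hg : w ^ i * v ^ j ∈ K := K.mul_mem (K.zpow_mem hwK i) (K.zpow_mem hvK j)
  have e1 : ψ ᵥ* mat (w ^ i * v ^ j) = ψ := by rw [mat_mul, ← vecMul_vecMul, f1, f2]
  have e3 : φ ᵥ* mat (w ^ i * v ^ j) = φ + (2 * r * D) • η := by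
    rw [mat_mul, ← vecMul_vecMul, f3, f4]
  generalize w ^ i * v ^ j = g at hg e1 e3
  have c1 := hR.conj g⁻¹ hw
  have c2 := hR.conj g⁻¹ hu
  rw [inv_inv, e1] at c1
  rw [inv_inv, e3] at c2
  exact ⟨mat g⁻¹ *ᵥ x, ⟨_, K.mul_mem (K.mul_mem (K.inv_mem hg) hwK) hg, c1⟩,
    ⟨_, K.mul_mem (K.mul_mem (K.inv_mem hg) huK) hg, c2⟩⟩

end Pool.Agent.MP_5045a8_al.HX

end

section

namespace Pool.Agent.MP_5045a8_al.HX

open Matrix O FT

lemma qr_add_LieC (Y Z : QM) : qr (Y + Z) = qr Y + qr Z := by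
  ext i j; simp [qr]

lemma qr_sub_LieC (Y Z : QM) : qr (Y - Z) = qr Y - qr Z := by
  ext i j; simp [qr]

lemma qr_mul_LieC (Y Z : QM) : qr (Y * Z) = qr Y * qr Z := by
  ext i j; simp [qr, Matrix.mul_apply]

lemma qr_smul_LieC (c : ℚ) (Y : QM) : qr (c • Y) = (c : ℝ) • qr Y := by
  ext i j; simp [qr]

lemma qr_zero_LieC : qr 0 = 0 := by
  ext i j; simp [qr]

lemma qr_one_LieC : qr 1 = 1 := by
  ext i j; by_cases h : i = j <;> simp [qr, one_apply, h]

lemma qr_qm_LieC (h : G3) : qr (qm h) = rm (mat h) := by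
  ext i j; simp [qr, qm_apply, rm, mat]

lemma nil_LieC {u : G3} (h : (mat u - 1) ^ 3 = 0) : (qm u - 1) ^ 3 = 0 := by
  have e := congrArg (Int.castRingHom ℚ).mapMatrix h
  rw [map_pow, map_sub, map_one, map_zero] at e
  exact e

theorem lie_stmt (h1 : LieBrStmt) (h2 : LieAdStmt) (h3 : LieLogStmt) (h4 : LieExpStmt) :
    LieStmt := by
  intro H
  have g0 : GR H 0 := by
    have := h3 H 1 H.one_mem (by simp [mat])
    exact (h1 H _ _ 0 this this).1
  let L : Submodule ℚ QM :=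
    { carrier := {Y | trace Y = 0 ∧ GR H (qr Y)}
      add_mem' := fun {Y Z} hY hZ => ⟨by rw [trace_add, hY.1, hZ.1, add_zero], by
        rw [qr_add_LieC]; exact (h1 H _ _ 0 hY.2 hZ.2).2.1⟩
      zero_mem' := ⟨trace_zero _ _, by rw [qr_zero_LieC]; exact g0⟩
      smul_mem' := fun c Y hY => ⟨by rw [trace_smul, hY.1, smul_zero], by
        rw [qr_smul_LieC]; exact (h1 H _ _ c hY.2 hY.2).2.2.1⟩ }
  have hL : ∀ Y, Y ∈ L ↔ trace Y = 0 ∧ GR H (qr Y) := fun _ => Iff.rfl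
  refine ⟨L, ⟨fun Y hY Z hZ => (hL _).2 ⟨?_, ?_⟩, fun h hh Y hY => (hL _).2 ⟨?_, ?_⟩,
    fun Y hY => ((hL _).1 hY).1⟩, fun u hu hn => (hL _).2 ⟨?_, ?_⟩, fun Y hY h0 t => ?_⟩
  · rw [trace_sub, trace_mul_comm, sub_self]
  · rw [qr_sub_LieC, qr_mul_LieC, qr_mul_LieC]
    exact (h1 H _ _ 0 ((hL _).1 hY).2 ((hL _).1 hZ).2).2.2.2
  · rw [trace_mul_comm, ← mul_assoc, ← map_mul, inv_mul_cancel, map_one, one_mul]
    exact ((hL _).1 hY).1
  · rw [qr_mul_LieC, qr_mul_LieC, qr_qm_LieC, qr_qm_LieC]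
    exact h2 H _ h hh ((hL _).1 hY).2
  · have n1 : IsNilpotent (qm u - 1) := ⟨3, nil_LieC hn⟩
    have n2 : IsNilpotent ((qm u - 1) ^ 2) := n1.pow_of_pos (by norm_num)
    rw [trace_sub, trace_smul, (isNilpotent_trace_of_isNilpotent n1).eq_zero,
      (isNilpotent_trace_of_isNilpotent n2).eq_zero, smul_zero, sub_zero]
  · have := h3 H u hu hn
    rw [qr_sub_LieC, qr_smul_LieC, sq, qr_mul_LieC, qr_sub_LieC, qr_qm_LieC, qr_one_LieC, ← sq]
    have e : ((1 / 2 : ℚ) : ℝ) = 1 / 2 := by norm_num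
    rw [e]
    exact this
  · exact h4 H _ t ((hL _).1 hY).2 (by rw [← qr_mul_LieC, h0, qr_zero_LieC])

lemma zc_mul_LieC {H : Subgroup G3} {A B : RM} (hA : Zc H A) (hB : Zc H B) : Zc H (A * B) := by
  intro Q hQ
  have h1 : ∀ g ∈ H, MvPolynomial.eval
      (fun ij : Fin 3 × Fin 3 => ∑ k, rm (mat g) ij.1 k * B k ij.2) Q = 0 := by
    intro g hg
    have := hB (MvPolynomial.bind₁ (fun ij : Fin 3 × Fin 3 =>
      ∑ k, MvPolynomial.C (rm (mat g) ij.1 k) * MvPolynomial.X (k, ij.2)) Q) fun g' hg' => by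
        rw [ev, zar_sub, ← hQ (g * g') (H.mul_mem hg hg'), ev]
        congr 2
        funext ij
        simp [Matrix.mul_apply, rm, mat]
    rw [ev, zar_sub] at this
    simpa using this
  have := hA (MvPolynomial.bind₁ (fun ij : Fin 3 × Fin 3 =>
    ∑ k, MvPolynomial.X (ij.1, k) * MvPolynomial.C (B k ij.2)) Q) fun g hg => by
      rw [ev, zar_sub, ← h1 g hg]
      congr 2
      funext ij
      simp
  rw [ev, zar_sub] at this
  simpa [Matrix.mul_apply, ev] using this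

lemma zc_diag_LieC {H : Subgroup G3}
    (hT : ∀ (i j : Fin 3) (c : ℝ), i ≠ j → Zc H (transvection i j c))
    (D : Fin 3 → ℝ) (hD : D 0 * D 1 * D 2 = 1) : Zc H (diagonal D) := by
  have h0 : D 0 ≠ 0 := by
    intro h
    simp [h] at hD
  have h2 : D 2 ≠ 0 := by
    intro h
    simp [h] at hD
  have h1 : D 1 = (D 0)⁻¹ * (D 2)⁻¹ := by
    field_simp
    linarith
  have e : diagonal D =
      (transvection 0 1 (D 0) * transvection 1 0 (-(D 0)⁻¹) * transvection 0 1 (D 0) *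
        (transvection 0 1 (-1) * transvection 1 0 1 * transvection 0 1 (-1))) *
      (transvection 1 2 (D 2)⁻¹ * transvection 2 1 (-D 2) * transvection 1 2 (D 2)⁻¹ *
        (transvection 1 2 (-1) * transvection 2 1 1 * transvection 1 2 (-1))) := by
    ext i j
    fin_cases i <;> fin_cases j <;>
      simp [transvection, Matrix.mul_apply, Fin.sum_univ_three, single_apply, one_apply, h0, h2, h1]
  rw [e]
  refine zc_mul_LieC (zc_mul_LieC (zc_mul_LieC (zc_mul_LieC ?_ ?_) ?_)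
    (zc_mul_LieC (zc_mul_LieC ?_ ?_) ?_)) (zc_mul_LieC (zc_mul_LieC (zc_mul_LieC ?_ ?_) ?_)
    (zc_mul_LieC (zc_mul_LieC ?_ ?_) ?_)) <;>
    exact hT _ _ _ (by decide)

theorem zd_stmt : ZdStmt := by
  intro H hT P hP M hM
  have hZ : Zc H M := by
    refine diagonal_transvection_induction (Zc H) M (fun D hD => zc_diag_LieC hT D ?_)
      (fun t => hT t.i t.j t.c t.hij) fun A B => zc_mul_LieC
    rwa [hM, det_diagonal, Fin.prod_univ_three] at hD
  exact hZ P hP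

end Pool.Agent.MP_5045a8_al.HX

end

section

/-! All rank one nilpotent matrices with a given centre lie in the Lie algebra. -/

namespace Pool.Agent.MP_5045a8_al.HX

open Matrix O FT

theorem two_Full {c μ ν w η : Q3} (hc : c ≠ 0) (hμ : μ ≠ 0) (h1 : μ ⬝ᵥ c = 0) (h2 : ν ⬝ᵥ c = 0)
    (h3 : η ⬝ᵥ c = 0) (h4 : μ ⬝ᵥ w = 0) (h5 : ν ⬝ᵥ w ≠ 0) : ∃ a b : ℚ, η = a • μ + b • ν := by
  have k1 : μ ⨯₃ ν ⨯₃ c = 0 := by rw [cross_cross_eq_smul_sub_smul, h1, h2]; simp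
  have k2 : η ⬝ᵥ (μ ⨯₃ ν) = 0 := by
    have e := cross_cross_eq_smul_sub_smul' η (μ ⨯₃ ν) c
    rw [k1, h3, map_zero, zero_smul, zero_sub, eq_comm, neg_eq_zero, smul_eq_zero] at e
    rw [dotProduct_comm]
    exact e.resolve_right hc
  have k3 : (μ ⨯₃ ν) ⬝ᵥ (μ ⨯₃ ν) ≠ 0 := by
    intro h
    have e := cross_cross_eq_smul_sub_smul μ ν w
    rw [dotProduct_self_eq_zero.1 h, h4, map_zero, LinearMap.zero_apply, zero_smul, zero_sub,
      eq_comm, neg_eq_zero, smul_eq_zero] at e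
    exact e.elim h5 hμ
  have k4 : ((μ ⨯₃ ν) ⬝ᵥ (μ ⨯₃ ν)) • η = ((η ⨯₃ ν) ⬝ᵥ (μ ⨯₃ ν)) • μ + ((μ ⨯₃ η) ⬝ᵥ (μ ⨯₃ ν)) • ν +
      (η ⬝ᵥ (μ ⨯₃ ν)) • (μ ⨯₃ ν) := by
    simp_rw [cross_apply, vec3_dotProduct]
    ext i
    fin_cases i <;> simp <;> ring
  rw [k2, zero_smul, add_zero] at k4
  refine ⟨((μ ⨯₃ ν) ⬝ᵥ (μ ⨯₃ ν))⁻¹ * ((η ⨯₃ ν) ⬝ᵥ (μ ⨯₃ ν)),
    ((μ ⨯₃ ν) ⬝ᵥ (μ ⨯₃ ν))⁻¹ * ((μ ⨯₃ η) ⬝ᵥ (μ ⨯₃ ν)), ?_⟩
  rw [mul_smul, mul_smul, ← smul_add, ← k4, inv_smul_smul₀ k3]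

theorem core_Full (hW : WtStmt) (L : Submodule ℚ QM)
    (hbr : ∀ Y ∈ L, ∀ Z ∈ L, Y * Z - Z * Y ∈ L) (P Q : QM) (hQP : Q * P = 1)
    (h01 : P * single 0 1 1 * Q ∈ L) (h10 : P * single 1 0 1 * Q ∈ L) (a b : Q3)
    (hab : vecMulVec a b ∈ L) (ha : a ≠ 0) (hd : b ⬝ᵥ a = 0) (hb : (b ᵥ* P) 2 ≠ 0) :
    P * single 0 2 1 * Q ∈ L := by
  have hPQ : P * Q = 1 := mul_eq_one_comm.1 hQP
  let f : QM →ₗ[ℚ] QM := (LinearMap.mulRight ℚ Q).comp (LinearMap.mulLeft ℚ P)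
  have hf : ∀ Y, Y ∈ L.comap f ↔ P * Y * Q ∈ L := fun Y => Iff.rfl
  rw [← hf]
  refine hW (L.comap f) (vecMulVec (Q *ᵥ a) (b ᵥ* P)) ?_ h01 h10 ?_ ?_
  · intro Y hY Z hZ
    have e : ∀ Y Z : QM, P * (Y * Z) * Q = P * Y * Q * (P * Z * Q) := fun Y Z => by
      calc P * (Y * Z) * Q = P * Y * (Q * P) * Z * Q := by rw [hQP]; simp only [mul_assoc, mul_one]
        _ = _ := by simp only [mul_assoc]
    rw [hf, mul_sub, sub_mul, e, e]
    exact hbr _ hY _ hZ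
  · rwa [hf, mul_vecMulVec, vecMulVec_mul, mulVec_mulVec, vecMul_vecMul, hPQ, one_mulVec,
      vecMul_one]
  · by_contra h
    rw [not_or, not_not, not_not, vecMulVec_apply, vecMulVec_apply] at h
    have a0 := (mul_eq_zero.1 h.1).resolve_right hb
    have a1 := (mul_eq_zero.1 h.2).resolve_right hb
    have e : (b ᵥ* P) ⬝ᵥ (Q *ᵥ a) = 0 := by
      rwa [vecMul_dot, mulVec_mulVec, hPQ, one_mulVec]
    rw [vec3_dotProduct, a0, a1, mul_zero, mul_zero, zero_add, zero_add] at e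
    have a2 := (mul_eq_zero.1 e).resolve_left hb
    have e0 : Q *ᵥ a = 0 := by
      ext i
      fin_cases i
      exacts [a0, a1, a2]
    refine ha ?_
    rw [← one_mulVec a, ← hPQ, ← mulVec_mulVec, e0, mulVec_zero]

theorem conj_Full (p r : Fin 3 → Q3) (i j : Fin 3) :
    (Matrix.of p)ᵀ * single i j (1 : ℚ) * Matrix.of r = vecMulVec (p i) (r j) := by
  rw [single_eq_single_vecMulVec_single, mul_vecMulVec, vecMulVec_mul, mulVec_single_one,
    single_one_vecMul]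
  rfl

theorem ad_Full {H : Subgroup G3} {L : Submodule ℚ QM} (hL : LieP H L) {h : G3} (hh : h ∈ H)
    {c μ : Q3} (hd : μ ⬝ᵥ c = 0) (hm : vecMulVec c μ ∈ L) :
    vecMulVec (qm h *ᵥ c) (μ ᵥ* qm h⁻¹) ∈ L ∧ (μ ᵥ* qm h⁻¹) ⬝ᵥ (qm h *ᵥ c) = 0 := by
  refine ⟨?_, by rwa [vecMul_dot, qm_inv_mulVec]⟩
  have := hL.ad h hh _ hm
  rwa [mul_vecMulVec, vecMulVec_mul] at this

theorem full_stmt (hS : SpanStmt) (hW : WtStmt) : FullStmt := by
  intro H L c μ hL hI hc hμ hd hm η hη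
  suffices h : ∃ ν w : Q3, vecMulVec c ν ∈ L ∧ ν ⬝ᵥ c = 0 ∧ μ ⬝ᵥ w = 0 ∧ ν ⬝ᵥ w ≠ 0 by
    obtain ⟨ν, w, h1, h2, h3, h4⟩ := h
    obtain ⟨a, b, rfl⟩ := two_Full hc hμ hd h2 hη h3 h4
    rw [vecMulVec_add, vecMulVec_smul, vecMulVec_smul]
    exact L.add_mem (L.smul_mem _ hm) (L.smul_mem _ h1)
  obtain ⟨h, hh, hα⟩ := (hS H c μ hI hc hμ).1
  obtain ⟨hm2, hd2⟩ := ad_Full hL hh hd hm
  have hμ2 : μ ᵥ* qm h⁻¹ ≠ 0 := by
    intro e
    refine hμ ?_
    rw [← vecMul_one μ, ← map_one qm, ← inv_mul_cancel h, map_mul, ← vecMul_vecMul, e, zero_vecMul]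
  generalize qm h *ᵥ c = c2 at hα hm2 hd2
  generalize μ ᵥ* qm h⁻¹ = μ2 at hm2 hd2 hμ2
  by_cases hβ : μ2 ⬝ᵥ c = 0
  · have e := hL.br _ hm _ hm2
    rw [vecMulVec_mul_vecMulVec, vecMulVec_mul_vecMulVec, hβ, zero_smul, vecMulVec_zero, sub_zero,
      vecMulVec_smul] at e
    have e' := L.smul_mem (μ ⬝ᵥ c2)⁻¹ e
    rw [inv_smul_smul₀ hα] at e'
    by_cases hw : μ ⨯₃ μ2 = 0
    · exfalso
      have k := cross_cross_eq_smul_sub_smul μ μ2 c2
      rw [hw, hd2, map_zero, LinearMap.zero_apply, zero_smul, sub_zero, eq_comm,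
        smul_eq_zero] at k
      exact k.elim hα hμ2
    · refine ⟨μ2, μ ⨯₃ μ2 ⨯₃ μ, e', hβ, dot_cross_self _ _, ?_⟩
      rw [triple_product_permutation]
      exact fun k => hw (dotProduct_self_eq_zero.1 k)
  · obtain ⟨w, hw⟩ : ∃ w : Q3, w = (-((μ2 ⬝ᵥ c) * (μ ⬝ᵥ c2)))⁻¹ • (μ ⨯₃ μ2) := ⟨_, rfl⟩
    have w1 : μ ⬝ᵥ w = 0 := by rw [hw, dotProduct_smul, dot_self_cross, smul_zero]
    have w2 : μ2 ⬝ᵥ w = 0 := by rw [hw, dotProduct_smul, dot_cross_self, smul_zero]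
    have w3 : (c ⨯₃ c2) ⬝ᵥ w = 1 := by
      rw [hw, dotProduct_smul, cross_dot_cross, dotProduct_comm c μ, hd, dotProduct_comm c μ2,
        dotProduct_comm c2 μ, zero_mul, zero_sub, smul_eq_mul]
      exact inv_mul_cancel₀ (neg_ne_zero.2 (mul_ne_zero hβ hα))
    have w4 : (c ⨯₃ c2) ⬝ᵥ c = 0 := by rw [dotProduct_comm, dot_self_cross]
    have w5 : (c ⨯₃ c2) ⬝ᵥ c2 = 0 := by rw [dotProduct_comm, dot_cross_self]
    have w0 : w ≠ 0 := by
      rintro rfl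
      simp at w3
    obtain ⟨g, hg, hγ⟩ := (hS H w μ hI w0 hμ).1
    obtain ⟨hm3, hd3⟩ := ad_Full hL (H.inv_mem hg) hd hm
    rw [inv_inv] at hm3 hd3
    have key := core_Full hW L hL.br (Matrix.of ![c, c2, w])ᵀ
      (Matrix.of ![(μ2 ⬝ᵥ c)⁻¹ • μ2, (μ ⬝ᵥ c2)⁻¹ • μ, c ⨯₃ c2]) ?_ ?_ ?_ _ _ hm3
      (qm_mulVec_ne_zero _ hc) hd3 ?_
    · rw [conj_Full] at key
      exact ⟨c ⨯₃ c2, w, key, w4, w1, by rw [w3]; exact one_ne_zero⟩
    · ext i j
      change (![(μ2 ⬝ᵥ c)⁻¹ • μ2, (μ ⬝ᵥ c2)⁻¹ • μ, c ⨯₃ c2] i) ⬝ᵥ (![c, c2, w] j) = _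
      fin_cases i <;> fin_cases j <;> simp [hd, hd2, w1, w2, w3, w4, w5, hα, hβ]
    · rw [conj_Full]
      change vecMulVec c ((μ ⬝ᵥ c2)⁻¹ • μ) ∈ L
      rw [vecMulVec_smul]
      exact L.smul_mem _ hm
    · rw [conj_Full]
      change vecMulVec c2 ((μ2 ⬝ᵥ c)⁻¹ • μ2) ∈ L
      rw [vecMulVec_smul]
      exact L.smul_mem _ hm2
    · change (μ ᵥ* qm g) ⬝ᵥ w ≠ 0
      rwa [vecMul_dot]

end Pool.Agent.MP_5045a8_al.HX

end

section

namespace Pool.Agent.MP_5045a8_al.HX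

open Matrix O FT

theorem basis_R2C {Y : CM} (h3 : Y ^ 3 = 0) (h2 : Y ^ 2 ≠ 0) :
    ∃ P Q : CM, P * Q = 1 ∧ Q * P = 1 ∧ Y * P = P * XC := by
  obtain ⟨e, he⟩ : ∃ e : C3, Y ^ 2 *ᵥ e ≠ 0 := by
    by_contra hn
    push Not at hn
    exact h2 (Matrix.ext_of_mulVec_single fun i => by rw [hn, zero_mulVec])
  set P : CM := (Matrix.of ![Y ^ 2 *ᵥ e, Y *ᵥ e, e])ᵀ with hP
  have hv : ∀ v : C3, P *ᵥ v = v 0 • (Y ^ 2 *ᵥ e) + v 1 • (Y *ᵥ e) + v 2 • e := by
    intro v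
    ext i
    simp [hP, mulVec, dotProduct, Fin.sum_univ_three, mul_comm]
  have a1 : Y *ᵥ (Y *ᵥ e) = Y ^ 2 *ᵥ e := by rw [mulVec_mulVec, sq]
  have a2 : Y *ᵥ (Y ^ 2 *ᵥ e) = 0 := by rw [mulVec_mulVec, ← pow_succ', h3, zero_mulVec]
  have hY : ∀ v : C3, Y *ᵥ (P *ᵥ v) = v 1 • (Y ^ 2 *ᵥ e) + v 2 • (Y *ᵥ e) := by
    intro v
    rw [hv, mulVec_add, mulVec_add, mulVec_smul, mulVec_smul, mulVec_smul, a1, a2, smul_zero,
      zero_add]
  have hdet : P.det ≠ 0 := by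
    intro h0
    obtain ⟨v, hv0, hPv⟩ := Matrix.exists_mulVec_eq_zero_iff.2 h0
    have b1 := hY v
    rw [hPv, mulVec_zero] at b1
    have b2 := congrArg (fun x => Y *ᵥ x) b1
    simp only [mulVec_zero, mulVec_add, mulVec_smul, a1, a2, smul_zero, zero_add] at b2
    have v2 : v 2 = 0 := (smul_eq_zero.1 b2.symm).resolve_right he
    rw [v2, zero_smul, add_zero] at b1
    have v1 : v 1 = 0 := (smul_eq_zero.1 b1.symm).resolve_right he
    rw [hv, v1, v2, zero_smul, zero_smul, add_zero, add_zero] at hPv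
    have v0 : v 0 = 0 := (smul_eq_zero.1 hPv).resolve_right he
    exact hv0 (funext fun i => by fin_cases i <;> assumption)
  refine ⟨P, P⁻¹, mul_nonsing_inv _ hdet.isUnit, nonsing_inv_mul _ hdet.isUnit, ?_⟩
  refine Matrix.ext_of_mulVec_single fun i => ?_
  rw [← mulVec_mulVec, ← mulVec_mulVec, hY, hv]
  fin_cases i <;> simp [XC]

theorem form_R2C {B : CM} {κ : ℂ} (hs : Bᵀ = B) (h1 : XCᵀ * B + B * XC = 0)
    (h2 : (DC κ)ᵀ * B + B * DC κ = 0) : B = B 0 2 • BC κ := by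
  have s : ∀ i j, B j i = B i j := fun i j => congrFun (congrFun hs i) j
  have x : ∀ i j, (XCᵀ * B + B * XC) i j = 0 := fun i j => by rw [h1]; rfl
  have y : ∀ i j, ((DC κ)ᵀ * B + B * DC κ) i j = 0 := fun i j => by rw [h2]; rfl
  have x01 := x 0 1
  have x02 := x 0 2
  have x12 := x 1 2
  have x22 := x 2 2
  have y22 := y 2 2
  simp [XC, DC, Matrix.mul_apply, Fin.sum_univ_three] at x01 x02 x12 x22 y22
  have s01 := s 0 1
  have s02 := s 0 2
  have s12 := s 1 2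
  have e11 : B 1 1 = -B 0 2 := by linear_combination x12
  have e12 : B 1 2 = 0 := by linear_combination (x22 - s12) / 2
  have e22 : B 2 2 = B 0 2 * κ := by
    rw [s02] at y22
    linear_combination (-1 / 2 : ℂ) * y22
  ext i j
  fin_cases i <;> fin_cases j <;> simp [BC, s01, s02, s12, x01, x02, e11, e12, e22]

theorem r2C_stmt (hO : SoCStmt) : R2CStmt := by
  intro H L Y hL hI hY h3 h2
  obtain ⟨P, Q, hPQ, hQP, hX⟩ := basis_R2C h3 fun h0 => h2 (h0 ▸ L.zero_mem)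
  have c1 : ∀ Z : CM, Q * (P * Z) = Z := fun Z => by rw [← Matrix.mul_assoc, hQP, Matrix.one_mul]
  have c2 : ∀ Z : CM, P * (Q * Z) = Z := fun Z => by rw [← Matrix.mul_assoc, hPQ, Matrix.one_mul]
  set L' : Submodule ℂ CM := L.comap (LinearMap.mulLeftRight ℂ (P, Q)) with hL'
  have mem : ∀ Z, Z ∈ L' ↔ P * Z * Q ∈ L := fun Z => by
    rw [hL', Submodule.mem_comap, LinearMap.mulLeftRight_apply]
  have hX0 : P * XC * Q = Y := by rw [← hX, Matrix.mul_assoc, hPQ, Matrix.mul_one]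
  have m0 : XC ∈ L' := (mem _).2 (hX0 ▸ hY)
  have ad : ∀ h ∈ H, ∀ Z ∈ L', (Q * cm h * P) * Z * (Q * cm h⁻¹ * P) ∈ L' := by
    intro h hh Z hZ
    have := hL.ad h hh _ ((mem _).1 hZ)
    rw [mem]
    simpa only [Matrix.mul_assoc, c1, c2, hPQ, Matrix.mul_one] using this
  have inv : ∀ h : G3, (Q * cm h⁻¹ * P) * (Q * cm h * P) = 1 := fun h => by
    simp only [Matrix.mul_assoc, c2]
    rw [← Matrix.mul_assoc (cm h⁻¹), ← map_mul, inv_mul_cancel, map_one, Matrix.one_mul, hQP]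
  have p0 : P *ᵥ Pi.single 0 1 ≠ 0 := fun h0 => by
    have := congrArg (fun x => (Q *ᵥ x) 0) h0
    simp only [mulVec_mulVec, hQP] at this
    simp at this
  rcases hO L' (fun A hA B hB => by
      have := hL.br _ ((mem _).1 hA) _ ((mem _).1 hB)
      rw [mem]
      simpa only [Matrix.mul_assoc, c1, Matrix.mul_sub, Matrix.sub_mul] using this)
    (fun A hA => by
      have := hL.tr0 _ ((mem _).1 hA)
      rwa [trace_mul_comm, c1] at this) m0
    (fun h0 => h2 (by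
      have e : (single 0 2 1 : CM) = XC * XC := by
        ext i j; fin_cases i <;> fin_cases j <;> simp [XC, Matrix.mul_apply, Fin.sum_univ_three]
      have := (mem _).1 h0
      rw [e] at this
      rw [← hX0, sq]
      simpa only [Matrix.mul_assoc, c1] using this)) with hl | ⟨κ, hκ, hB⟩
  · exfalso
    obtain ⟨h, hh, hc⟩ := (hI _ p0).1
    have h1 := hl _ (ad h⁻¹ (H.inv_mem hh) _ m0)
    rw [inv_inv] at h1
    have h4 := inv h⁻¹
    rw [inv_inv] at h4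
    set g := Q * cm h * P with hg
    set Z := Q * cm h⁻¹ * P * XC * g with hZ
    have h5 : g * Z = XC * g := by
      rw [hZ, Matrix.mul_assoc _ XC, ← Matrix.mul_assoc g, h4, Matrix.one_mul]
    have k0 := congrFun (congrFun h5 0) 0
    have k1 := congrFun (congrFun h5 1) 0
    have k2 := congrFun (congrFun h5 2) 0
    simp [XC, Matrix.mul_apply, Fin.sum_univ_three, h1.1, h1.2] at k0 k1 k2
    have g2 : g 2 0 = 0 := by
      rcases k2 with k2 | k2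
      · exact k2
      · rw [← k1, k2, mul_zero]
    have g1 : g 1 0 = 0 := by
      rw [g2] at k1
      rcases mul_eq_zero.1 k1 with k | k
      · exact k
      · rw [← k0, k, mul_zero]
    have h6 : g *ᵥ Pi.single 0 1 = g 0 0 • Pi.single 0 1 := by
      ext i; fin_cases i <;> simp [g1, g2]
    have h7 : cm h *ᵥ (P *ᵥ Pi.single 0 1) = g 0 0 • (P *ᵥ Pi.single 0 1) := by
      rw [← mulVec_smul, ← h6, mulVec_mulVec, mulVec_mulVec, hg, Matrix.mul_assoc, c2]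
    exact hc (by rw [h7, map_smul, LinearMap.smul_apply, cross_self, smul_zero])
  · have sB : (BC κ)ᵀ = BC κ := by ext i j; fin_cases i <;> fin_cases j <;> simp [BC]
    have t1 : ∀ A : CM, Pᵀ * (Qᵀ * A) = A := fun A => by
      rw [← Matrix.mul_assoc, ← transpose_mul, hQP, transpose_one, Matrix.one_mul]
    have t2 : ∀ A : CM, Qᵀ * (Pᵀ * A) = A := fun A => by
      rw [← Matrix.mul_assoc, ← transpose_mul, hPQ, transpose_one, Matrix.one_mul]
    refine ⟨Qᵀ * BC κ * Q, ?_, fun h0 => ?_, fun Z hZ => ?_, fun B hs hi => ?_⟩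
    · simp only [transpose_mul, transpose_transpose, sB, Matrix.mul_assoc]
    · have h5 := congrArg (fun A => (Pᵀ * A * P) 0 2) h0
      simp only [Matrix.mul_assoc, t1, hQP, Matrix.mul_one, Matrix.mul_zero,
        Matrix.zero_mul] at h5
      simp [BC] at h5
    · have h5 := congrArg (fun A => Qᵀ * A * Q) (hB (Q * Z * P) ((mem _).2 (by
        simpa only [Matrix.mul_assoc, c2, hPQ, Matrix.mul_one] using hZ)))
      simpa only [transpose_mul, Matrix.mul_add, Matrix.add_mul, Matrix.mul_assoc, t2, hPQ,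
        Matrix.mul_one, Matrix.mul_zero, Matrix.zero_mul] using h5
    · have key : ∀ Z ∈ L', Zᵀ * (Pᵀ * B * P) + Pᵀ * B * P * Z = 0 := by
        intro Z hZ
        have h5 := congrArg (fun A => Pᵀ * A * P) (hi _ ((mem _).1 hZ))
        simpa only [transpose_mul, Matrix.mul_add, Matrix.add_mul, Matrix.mul_assoc, t1, hQP,
          Matrix.mul_one, Matrix.mul_zero, Matrix.zero_mul] using h5
      have e := form_R2C (B := Pᵀ * B * P)
        (by simp only [transpose_mul, transpose_transpose, hs, Matrix.mul_assoc])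
        (key _ m0) (key _ hκ)
      refine ⟨(Pᵀ * B * P) 0 2, ?_⟩
      rw [← Matrix.smul_mul, ← Matrix.mul_smul, ← e]
      simp only [Matrix.mul_assoc, t2, hPQ, Matrix.mul_one]

end Pool.Agent.MP_5045a8_al.HX

end

section

/-! The spectrum of an element of SL(3,Z). -/

namespace Pool.Agent.MP_5045a8_al.HX

open Matrix O FT

theorem roots_Spec (a b : ℂ) :
    ∃ r s t : ℂ, r + s + t = a ∧ r * s + r * t + s * t = b ∧ r * s * t = 1 := by
  obtain ⟨r, hr⟩ : ∃ r : ℂ, r ^ 3 - a * r ^ 2 + b * r - 1 = 0 := by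
    obtain ⟨r, hr⟩ := Complex.exists_root (f := (Cubic.mk 1 (-a) b (-1)).toPoly)
      (by rw [Cubic.degree_of_a_ne_zero one_ne_zero]; norm_num)
    refine ⟨r, ?_⟩
    simp only [Polynomial.IsRoot, Cubic.toPoly, Polynomial.eval_add, Polynomial.eval_mul,
      Polynomial.eval_C, Polynomial.eval_pow, Polynomial.eval_X] at hr
    linear_combination hr
  obtain ⟨s, hs⟩ := exists_quadratic_eq_zero (a := (1 : ℂ)) (b := -(a - r)) (c := b - r * (a - r))
    one_ne_zero (IsAlgClosed.exists_eq_mul_self _)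
  exact ⟨r, s, a - r - s, by ring, by linear_combination -hs, by linear_combination hr - r * hs⟩

theorem norm_pow_Spec {r : ℂ} {n : ℕ} (hn : n ≠ 0) (h : r ^ n = 1) : ‖r‖ = 1 := by
  have := congrArg norm h
  rw [norm_pow, norm_one] at this
  exact (pow_eq_one_iff_of_nonneg (norm_nonneg r) hn).1 this

theorem rat_Spec (a b : ℤ) (q : ℚ) (h : q ^ 3 - a * q ^ 2 + b * q - 1 = 0) : q = 1 ∨ q = -1 := by
  have h1 : IsIntegral ℤ q := by
    refine ⟨(Cubic.mk 1 (-a) b (-1)).toPoly, Cubic.monic_of_a_eq_one rfl, ?_⟩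
    simp only [Cubic.toPoly, Polynomial.eval₂_add, Polynomial.eval₂_mul, Polynomial.eval₂_C,
      Polynomial.eval₂_X_pow, Polynomial.eval₂_X]
    simp only [eq_intCast]
    push_cast
    linear_combination h
  obtain ⟨n, rfl⟩ := IsIntegrallyClosed.isIntegral_iff.1 h1
  rw [eq_intCast] at h ⊢
  have h2 : n * (n ^ 2 - a * n + b) = 1 := by
    have : (n : ℚ) * (n ^ 2 - a * n + b) = 1 := by linear_combination h
    exact_mod_cast this
  rcases Int.eq_one_or_neg_one_of_mul_eq_one h2 with e | e <;> simp [e]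

theorem dbl_Spec {a b : ℤ} {r s : ℂ} (h1 : r + r + s = a) (h2 : r * r + r * s + r * s = b)
    (h3 : r * r * s = 1) : ‖r‖ = 1 ∧ ‖s‖ = 1 := by
  have h : ‖r‖ = 1 := by
    by_cases e : r = s
    · exact norm_pow_Spec (n := 3) (by norm_num) (by rw [← e] at h3; linear_combination h3)
    · have e1 : (a : ℂ) ^ 2 - 3 * b = (r - s) ^ 2 := by rw [← h1, ← h2]; ring
      have e2 : (a : ℂ) * b - 9 = 2 * r * (r - s) ^ 2 := by
        rw [← h1, ← h2]; linear_combination 9 * h3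
      have e3 : r - s ≠ 0 := sub_ne_zero.2 e
      have e4 : (((a * b - 9) / (2 * (a ^ 2 - 3 * b)) : ℚ) : ℂ) = r := by
        push_cast
        rw [e1, e2]
        field_simp
      generalize ((a * b - 9) / (2 * (a ^ 2 - 3 * b)) : ℚ) = q at e4
      have e5 : q ^ 3 - a * q ^ 2 + b * q - 1 = 0 := by
        have : (q : ℂ) ^ 3 - a * q ^ 2 + b * q - 1 = 0 := by
          rw [e4, ← h1, ← h2]; linear_combination h3
        exact_mod_cast this
      rcases rat_Spec a b q e5 with e | e <;> rw [← e4, e] <;> simp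
  have := congrArg norm h3
  rw [norm_mul, norm_mul, h, norm_one] at this
  exact ⟨h, by linarith⟩

theorem unit_Spec {a b : ℤ} {r s t : ℂ} (h1 : r + s + t = a) (h2 : r * s + r * t + s * t = b)
    (h3 : r * s * t = 1) (hr : ‖r‖ = 1) (hs : ‖s‖ = 1) (ht : ‖t‖ = 1) :
    a = b ∧ -1 ≤ a ∧ a ≤ 3 := by
  have c : ∀ x y : ℂ, ‖x‖ = 1 → x * y = 1 → (starRingEnd ℂ) x = y := fun x y hx h => by
    rw [← Complex.inv_eq_conj hx]
    exact inv_eq_of_mul_eq_one_right h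
  have e : (a : ℂ) = b := by
    have := congrArg (starRingEnd ℂ) h1
    rw [map_add, map_add, c r (s * t) hr (by linear_combination h3),
      c s (r * t) hs (by linear_combination h3), c t (r * s) ht (by linear_combination h3),
      map_intCast] at this
    linear_combination h2 - this
  have k : ∀ x y : ℂ, ‖x‖ = 1 → ‖y‖ = 1 → x + y = (a - 1 : ℤ) → -1 ≤ a ∧ a ≤ 3 :=
    fun x y hx hy h => by
      have h4 := norm_add_le x y
      rw [h, hx, hy, Complex.norm_intCast] at h4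
      have h5 : |a - 1| ≤ 2 := by
        have : |((a - 1 : ℤ) : ℝ)| ≤ 2 := by linarith
        exact_mod_cast this
      have := abs_le.1 h5
      omega
  refine ⟨by exact_mod_cast e, ?_⟩
  have h6 : (r - 1) * (s - 1) * (t - 1) = 0 := by linear_combination h3 - h2 + h1 + e
  rcases mul_eq_zero.1 h6 with h7 | h7
  · rcases mul_eq_zero.1 h7 with h7 | h7
    · exact k s t hs ht (by push_cast; linear_combination h1 - h7)
    · exact k r t hr ht (by push_cast; linear_combination h1 - h7)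
  · exact k r s hr hs (by push_cast; linear_combination h1 - h7)

theorem cub_stmt : CubStmt := by
  intro a b
  obtain ⟨r, s, t, h1, h2, h3⟩ := roots_Spec a b
  by_cases h : ‖r‖ = 1 ∧ ‖s‖ = 1 ∧ ‖t‖ = 1
  · exact Or.inl (unit_Spec h1 h2 h3 h.1 h.2.1 h.2.2)
  have a1 : r ≠ s := by
    rintro rfl
    have := dbl_Spec h1 h2 h3
    exact h ⟨this.1, this.1, this.2⟩
  have a2 : r ≠ t := by
    rintro rfl
    have := dbl_Spec (a := a) (b := b) (r := r) (s := s) (by linear_combination h1)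
      (by linear_combination h2) (by linear_combination h3)
    exact h ⟨this.1, this.2, this.1⟩
  have a3 : s ≠ t := by
    rintro rfl
    have := dbl_Spec (a := a) (b := b) (r := s) (s := r) (by linear_combination h1)
      (by linear_combination h2) (by linear_combination h3)
    exact h ⟨this.2, this.1, this.1⟩
  refine Or.inr ⟨![r, s, t], ?_, ?_, h1, h2, h3⟩
  · intro i j hij
    fin_cases i <;> fin_cases j <;> simp_all [eq_comm]
  · by_contra hn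
    push Not at hn
    exact h ⟨hn 0, hn 1, hn 2⟩

/-- The trace. -/
def ta_Spec (A : M3) : ℤ := A 0 0 + A 1 1 + A 2 2

/-- The second coefficient of the characteristic polynomial. -/
def tb_Spec (A : M3) : ℤ :=
  A 0 0 * A 1 1 - A 0 1 * A 1 0 + (A 0 0 * A 2 2 - A 0 2 * A 2 0) + (A 1 1 * A 2 2 - A 1 2 * A 2 1)

theorem ch_Spec (A : M3) (h : A.det = 1) :
    A ^ 3 - ta_Spec A • A ^ 2 + tb_Spec A • A - 1 = 0 := by
  rw [det_fin_three] at h
  ext i j
  simp only [pow_succ, pow_zero, one_mul, Matrix.sub_apply, Matrix.add_apply, Matrix.smul_apply,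
    smul_eq_mul, Matrix.mul_apply, Fin.sum_univ_three, ta_Spec, tb_Spec, Matrix.zero_apply]
  fin_cases i <;> fin_cases j <;> simp <;> first | linear_combination h | ring

theorem det_Spec (g : G3) (t : ℂ) : (cm g - t • (1 : CM)).det =
    1 - tb_Spec (mat g) * t + ta_Spec (mat g) * t ^ 2 - t ^ 3 := by
  have h := mat_det g
  rw [det_fin_three] at h
  have h' := congrArg (Int.cast : ℤ → ℂ) h
  have e : ∀ i j, cm g i j = (mat g i j : ℂ) := fun _ _ => rfl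
  push_cast at h'
  rw [det_fin_three]
  simp [e, ta_Spec, tb_Spec]
  linear_combination h'

theorem eig_Spec (g : G3) {e : C3} (h1 : e 0 + e 1 + e 2 = ta_Spec (mat g))
    (h2 : e 0 * e 1 + e 0 * e 2 + e 1 * e 2 = tb_Spec (mat g)) (h3 : e 0 * e 1 * e 2 = 1)
    (i : Fin 3) : ∃ v : C3, v ≠ 0 ∧ cm g *ᵥ v = e i • v := by
  have h : (cm g - e i • (1 : CM)).det = 0 := by
    rw [det_Spec, ← h1, ← h2]
    fin_cases i <;> simp only [Fin.zero_eta, Fin.mk_one, Fin.reduceFinMk] <;>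
      linear_combination -h3
  obtain ⟨v, hv, h4⟩ := exists_mulVec_eq_zero_iff.2 h
  rw [sub_mulVec, smul_mulVec, one_mulVec, sub_eq_zero] at h4
  exact ⟨v, hv, h4⟩

open Polynomial in
theorem dvd_Spec (a : ℤ) (h1 : -1 ≤ a) (h2 : a ≤ 3) :
    ∃ q : ℤ[X], (X ^ 12 - 1) ^ 3 = (X ^ 3 - a • X ^ 2 + a • X - 1) * q := by
  interval_cases a
  · exact ⟨(X - 1) * (X ^ 10 + X ^ 8 + X ^ 6 + X ^ 4 + X ^ 2 + 1) ^ 2 * (X ^ 12 - 1), by
      simp only [zsmul_eq_mul]; push_cast; ring⟩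
  · exact ⟨(X ^ 3 + 1) * (X ^ 6 + 1) * (X ^ 12 - 1) ^ 2, by
      simp only [zsmul_eq_mul]; push_cast; ring⟩
  · exact ⟨(X + 1) * (X ^ 8 + X ^ 4 + 1) * (X ^ 12 - 1) ^ 2, by
      simp only [zsmul_eq_mul]; push_cast; ring⟩
  · exact ⟨(X + 1) * (X ^ 2 + X + 1) * (X ^ 6 + 1) * (X ^ 12 - 1) ^ 2, by
      simp only [zsmul_eq_mul]; push_cast; ring⟩
  · exact ⟨((X + 1) * (X ^ 10 + X ^ 8 + X ^ 6 + X ^ 4 + X ^ 2 + 1)) ^ 3, by
      simp only [zsmul_eq_mul]; push_cast; ring⟩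

theorem mat_pow_Spec (g : G3) (n : ℕ) : mat (g ^ n) = mat g ^ n := rfl

theorem spec_stmt (h : CubStmt) : SpecStmt := by
  intro g hg
  rcases h (ta_Spec (mat g)) (tb_Spec (mat g)) with ⟨h1, h2, h3⟩ | ⟨e, h1, h2, h3, h4, h5⟩
  · obtain ⟨q, hq⟩ := dvd_Spec _ h2 h3
    have h4 := congrArg (Polynomial.aeval (mat g)) hq
    have h5 := ch_Spec (mat g) (mat_det g)
    rw [← h1] at h5
    simp only [map_mul, map_pow, map_sub, map_add, map_zsmul, map_one, Polynomial.aeval_X] at h4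
    rw [h5, zero_mul] at h4
    exact absurd h4 hg
  · choose v hv hv' using eig_Spec g h3 h4 h5
    refine ⟨(of v)ᵀ, e, ⟨?_, h1, ?_⟩, h2⟩
    · rw [det_transpose, ← isUnit_iff_ne_zero, ← isUnit_iff_isUnit_det,
        ← linearIndependent_rows_iff_isUnit]
      exact Module.End.eigenvectors_linearIndependent' (toLin' (cm g)) e h1 v fun i =>
        ⟨Module.End.mem_eigenspace_iff.2 (hv' i), hv i⟩
    · ext i j
      rw [mul_diagonal, mul_comm]
      exact congrFun (hv' j) i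

theorem pow_eig_Spec {B : CM} {v : C3} {r : ℂ} (h : B *ᵥ v = r • v) (n : ℕ) :
    B ^ n *ᵥ v = r ^ n • v := by
  induction n with
  | zero => simp
  | succ n ih => rw [pow_succ, ← mulVec_mulVec, h, mulVec_smul, ih, smul_smul, pow_succ']

theorem noEig_stmt : NoEigStmt := by
  intro g hg h0
  rcases cub_stmt (ta_Spec (mat g)) (tb_Spec (mat g)) with
    ⟨h1, -, -⟩ | ⟨e, -, ⟨i, h2⟩, h3, h4, h5⟩
  · refine hg.1 ?_
    have h := mat_det g
    rw [det_fin_three] at h ⊢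
    simp only [ta_Spec, tb_Spec] at h1
    simp
    linear_combination h + h1
  · obtain ⟨v, hv, hv'⟩ := eig_Spec g h3 h4 h5 i
    have h6 : (cm g ^ 12 - 1) *ᵥ v = (e i ^ 12 - 1) • v := by
      rw [sub_mulVec, pow_eig_Spec hv', one_mulVec, sub_smul, one_smul]
    have h7 : (cm g ^ 12 - 1) ^ 3 = 0 := by
      have := congrArg (Int.castRingHom ℂ).mapMatrix h0
      rw [map_pow, map_sub, mat_pow_Spec, map_pow, map_one, map_zero] at this
      exact this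
    have h8 := pow_eig_Spec h6 3
    rw [h7, zero_mulVec, eq_comm, smul_eq_zero, or_iff_left hv, pow_eq_zero_iff (by norm_num),
      sub_eq_zero] at h8
    exact h2 (norm_pow_Spec (by norm_num) h8)

end Pool.Agent.MP_5045a8_al.HX

end

section

namespace Pool.Agent.MP_5045a8_al.HX

open Matrix O FT

/-- The polynomial with the coefficients of Q replaced by their images under μ. -/
noncomputable def co_Rat (μ : ℝ →ₗ[ℚ] ℚ) (Q : MP) : MP :=
  ∑ m ∈ Q.support, (μ (Q.coeff m) : ℝ) • MvPolynomial.monomial m 1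

lemma co_eq_Rat (μ : ℝ →ₗ[ℚ] ℚ) (Q : MP) (T : MP →ₗ[ℝ] ℝ)
    (hT : ∀ m, ∃ r : ℚ, T (MvPolynomial.monomial m 1) = r) : T (co_Rat μ Q) = (μ (T Q) : ℝ) := by
  choose r hr using hT
  have e : T Q = ∑ m ∈ Q.support, r m • Q.coeff m := by
    conv_lhs => rw [Q.as_sum, map_sum]
    refine Finset.sum_congr rfl fun m _ => ?_
    rw [← mul_one (Q.coeff m), ← smul_eq_mul, map_smul, map_smul, hr, smul_eq_mul, Rat.smul_def,
      smul_eq_mul, mul_one, mul_comm]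
  rw [e, co_Rat, map_sum, map_sum, Rat.cast_sum]
  refine Finset.sum_congr rfl fun m _ => ?_
  rw [map_smul, hr, map_smul, smul_eq_mul, smul_eq_mul, Rat.cast_mul, mul_comm]

/-- Evaluation as a linear map. -/
noncomputable def evL_Rat (A : RM) : MP →ₗ[ℝ] ℝ :=
  (MvPolynomial.aeval fun ij : Fin 3 × Fin 3 => A ij.1 ij.2).toLinearMap

lemma evL_apply_Rat (A : RM) (P : MP) : evL_Rat A P = ev A P := rfl

lemma mono_Rat (h : G3) (Y : QM) (m : Fin 3 × Fin 3 →₀ ℕ) :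
    (∃ r : ℚ, ev (rm (mat h)) (MvPolynomial.monomial m 1) = r) ∧
      ∃ r : ℚ, ev (rm (mat h)) (Dv (qr Y) (MvPolynomial.monomial m 1)) = r := by
  let S : Submonoid MP :=
    { carrier := {P | (∃ r : ℚ, ev (rm (mat h)) P = r) ∧
        ∃ r : ℚ, ev (rm (mat h)) (Dv (qr Y) P) = r}
      one_mem' := ⟨⟨1, by simp [ev]⟩, 0, by simp [ev]⟩
      mul_mem' := by
        rintro P Q ⟨⟨a, ha⟩, b, hb⟩ ⟨⟨c, hc⟩, d, hd⟩
        unfold ev at ha hb hc hd
        refine ⟨⟨a * c, ?_⟩, a * d + c * b, ?_⟩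
        · rw [ev, map_mul, ha, hc, Rat.cast_mul]
        · rw [ev, Derivation.leibniz, smul_eq_mul, smul_eq_mul, map_add, map_mul, map_mul, ha, hb,
            hc, hd]
          push_cast
          rfl }
  change _ ∈ S
  rw [MvPolynomial.monomial_eq, map_one, one_mul]
  refine S.prod_mem fun ij _ => S.pow_mem ⟨⟨(h ij.1 ij.2 : ℤ), ?_⟩,
    ∑ k, (h ij.1 k : ℤ) * Y k ij.2, ?_⟩ _
  · simp [ev, rm, mat]
  · simp [ev, Dv, rm, mat, qr]

lemma dv_Rat (x y z : ℚ) (Y₁ Y₂ Y₃ : QM) :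
    Dv (qr (x • Y₁ + y • Y₂ + z • Y₃)) =
      (x : ℝ) • Dv (qr Y₁) + (y : ℝ) • Dv (qr Y₂) + (z : ℝ) • Dv (qr Y₃) := by
  refine MvPolynomial.derivation_ext fun ij => ?_
  simp only [Dv, Derivation.add_apply, Derivation.smul_apply, MvPolynomial.mkDerivation_X,
    Fin.sum_univ_three, qr, map_apply, Matrix.add_apply, Matrix.smul_apply, smul_eq_mul, Rat.cast_add,
    Rat.cast_mul, map_add, map_mul, MvPolynomial.smul_eq_C_mul]
  ring

theorem rat_stmt : RatStmt := by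
  intro H a b c Y₁ Y₂ Y₃ l hy Q hQ h hh
  have key : ∀ (μ : ℝ →ₗ[ℚ] ℚ) (Y : QM), ev (rm (mat h)) (Dv (qr Y) (co_Rat μ Q)) =
      (μ (ev (rm (mat h)) (Dv (qr Y) Q)) : ℝ) := fun μ Y =>
    co_eq_Rat μ Q ((evL_Rat (rm (mat h))).comp (Dv (qr Y)).toLinearMap)
      fun m => (mono_Rat h Y m).2
  refine (Module.forall_dual_apply_eq_zero_iff ℚ _).1 fun μ => ?_
  have hv : Van H (co_Rat μ Q) := fun g hg => by
    have := co_eq_Rat μ Q (evL_Rat (rm (mat g))) fun m => (mono_Rat g 0 m).1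
    rw [evL_apply_Rat, evL_apply_Rat, hQ g hg] at this
    simpa using this
  have h1 := congrArg l (hy _ hv h hh)
  rw [key, key, key] at h1
  have e : ∀ (x : ℂ) (r : ℚ), x * ((r : ℝ) : ℂ) = r • x := fun x r => by
    rw [Rat.smul_def, Complex.ofReal_ratCast, mul_comm]
  rw [e, e, e, map_add, map_add, map_smul, map_smul, map_smul, map_zero] at h1
  rw [dv_Rat, ← evL_apply_Rat, ← h1]
  simp only [Derivation.add_apply, Derivation.smul_apply, (evL_Rat _).map_add,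
    (evL_Rat _).map_smul]
  simp only [Rat.cast_smul_eq_qsmul, map_add, map_smul, evL_apply_Rat]
  simp only [smul_eq_mul]
  ring

lemma det_cm_Rat (g : G3) : (cm g).det = 1 := by
  have := (Int.castRingHom ℂ).map_det (g : Matrix (Fin 3) (Fin 3) ℤ)
  rw [g.det_coe, map_one] at this
  exact this.symm

lemma qc_qm_Rat (g : G3) (i j : Fin 3) : cm g i j = (qm g i j : ℂ) := by
  rw [qm_apply, Rat.cast_intCast]
  rfl

lemma entry_Rat (g : G3) (a b c : ℂ) (l : ℂ →ₗ[ℚ] ℚ) (i j : Fin 3) :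
    (l a • (1 : QM) + l b • qm g + l c • qm g ^ 2) i j =
      l ((a • (1 : CM) + b • cm g + c • cm g ^ 2) i j) := by
  have e : ∀ (x : ℂ) (r : ℚ), l (x * (r : ℂ)) = l x * r := fun x r => by
    rw [mul_comm, ← Rat.smul_def, map_smul, smul_eq_mul, mul_comm]
  have e1 : (1 : CM) i j = ((1 : QM) i j : ℂ) := by
    rw [Matrix.one_apply, Matrix.one_apply]
    split_ifs <;> simp
  simp only [← map_pow, Matrix.add_apply, Matrix.smul_apply, smul_eq_mul, map_add, e1, qc_qm_Rat, e]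

lemma eig_Rat {g : G3} {P : CM} {e : C3} (hd : Diag g P e) {v : Q3} (hv : v ≠ 0) {ε : ℚ}
    (h : qm g *ᵥ v = ε • v) : ∃ i, e i = ε := by
  have h1 : (cm g - (ε : ℂ) • (1 : CM)).det = 0 := by
    refine exists_mulVec_eq_zero_iff.1 ⟨fun i => (v i : ℂ), fun h0 => hv (funext fun i => ?_), ?_⟩
    · simpa using congrFun h0 i
    · rw [sub_mulVec, smul_mulVec, one_mulVec, sub_eq_zero]
      funext i
      have := congrFun h i
      simp only [mulVec, dotProduct, Pi.smul_apply, smul_eq_mul] at this ⊢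
      simp only [qc_qm_Rat]
      exact_mod_cast this
  have h2 : (cm g - (ε : ℂ) • (1 : CM)) * P = P * diagonal fun i => e i - ε := by
    rw [sub_mul, hd.2.2, ← diagonal_sub, mul_sub]
    congr 1
    ext i j
    simp [mul_comm]
  have h3 := congrArg det h2
  rw [det_mul, det_mul, h1, zero_mul, det_diagonal, eq_comm, mul_eq_zero] at h3
  obtain ⟨i, -, hi⟩ := Finset.prod_eq_zero_iff.1 (h3.resolve_left hd.1)
  exact ⟨i, sub_eq_zero.1 hi⟩

theorem pre_stmt (hS : SemiStmt) (hR : RatStmt) : PreStmt := by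
  rintro H g P e hg hd ⟨i₀, hi₀⟩
  have hP : IsUnit P.det := hd.1.isUnit
  have hprod : ∏ i, e i = 1 := by
    have := congrArg det hd.2.2
    rw [det_mul, det_mul, det_cm_Rat, det_diagonal, one_mul] at this
    exact mul_left_cancel₀ hd.1 (this.symm.trans (mul_one _).symm)
  have he : ∀ i, e i ≠ 0 := fun i h0 =>
    zero_ne_one ((Finset.prod_eq_zero (Finset.mem_univ i) h0).symm.trans hprod)
  obtain ⟨a, b, c, hx⟩ : ∃ a b c : ℂ,
      ∀ i, a + b * e i + c * e i ^ 2 = ((Real.log ‖e i‖ : ℝ) : ℂ) := by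
    have hV : IsUnit (vandermonde e).det := (det_vandermonde_ne_zero_iff.2 hd.2.1).isUnit
    have h1 : vandermonde e *ᵥ ((vandermonde e)⁻¹ *ᵥ fun i => ((Real.log ‖e i‖ : ℝ) : ℂ)) =
        fun i => ((Real.log ‖e i‖ : ℝ) : ℂ) := by
      rw [mulVec_mulVec, mul_nonsing_inv _ hV, one_mulVec]
    generalize ((vandermonde e)⁻¹ *ᵥ fun i => ((Real.log ‖e i‖ : ℝ) : ℂ)) = x at h1
    refine ⟨x 0, x 1, x 2, fun i => ?_⟩
    rw [← congrFun h1 i]
    simp [mulVec, dotProduct, Fin.sum_univ_three, mul_comm]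
  have h0 : (a • (1 : CM) + b • cm g + c • cm g ^ 2) * P =
      P * diagonal fun i => ((Real.log ‖e i‖ : ℝ) : ℂ) := by
    rw [add_mul, add_mul, smul_mul_assoc, smul_mul_assoc, smul_mul_assoc, sq, mul_assoc, hd.2.2,
      ← mul_assoc, hd.2.2]
    ext i j
    simp only [Matrix.add_apply, Matrix.smul_apply, mul_diagonal, one_mul, smul_eq_mul, ← hx]
    ring
  have h1 : a • (1 : CM) + b • cm g + c • cm g ^ 2 =
      P * (diagonal fun i => ((Real.log ‖e i‖ : ℝ) : ℂ)) * P⁻¹ := by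
    rw [← h0, mul_nonsing_inv_cancel_right _ _ hP]
  have hne : ∃ i j, (a • (1 : CM) + b • cm g + c • cm g ^ 2) i j ≠ 0 := by
    by_contra hn
    push Not at hn
    rw [show a • (1 : CM) + b • cm g + c • cm g ^ 2 = 0 from Matrix.ext hn, zero_mul] at h0
    have h2 := congrArg (P⁻¹ * ·) h0
    simp only [mul_zero, nonsing_inv_mul_cancel_left _ _ hP] at h2
    have h3 := congrFun (congrFun h2 i₀) i₀
    rw [Matrix.zero_apply, diagonal_apply_eq, eq_comm, Complex.ofReal_eq_zero] at h3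
    exact hi₀ (Real.eq_one_of_pos_of_log_eq_zero (norm_pos_iff.2 (he i₀)) h3)
  have htr : trace (a • (1 : CM) + b • cm g + c • cm g ^ 2) = 0 := by
    rw [h1, trace_mul_cycle, nonsing_inv_mul _ hP, one_mul, trace_diagonal, ← Complex.ofReal_sum,
      ← Real.log_prod fun i _ => norm_ne_zero_iff.2 (he i), ← norm_prod, hprod]
    simp
  obtain ⟨i, j, hij⟩ := hne
  obtain ⟨l, hl⟩ : ∃ l : ℂ →ₗ[ℚ] ℚ, l ((a • (1 : CM) + b • cm g + c • cm g ^ 2) i j) ≠ 0 := by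
    by_contra hn
    push Not at hn
    exact hij ((Module.forall_dual_apply_eq_zero_iff ℚ _).1 hn)
  refine ⟨l a • (1 : QM) + l b • qm g + l c • qm g ^ 2, ⟨fun hz => hl ?_, ?_, ⟨_, _, _, rfl⟩,
    fun v hv => ?_⟩, hR H a b c _ _ _ l fun Q hQ h hh => hS H g h P e a b c Q hg hh hd hx hQ⟩
  · rw [← entry_Rat, hz, Matrix.zero_apply]
  · have := congrArg l htr
    rw [map_zero, trace, map_sum] at this
    rw [← this, trace]
    exact Finset.sum_congr rfl fun k _ => entry_Rat g a b c l k k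
  · obtain ⟨ε, h2, h3⟩ : ∃ ε : ℚ, (ε = 1 ∨ ε = -1) ∧ qm g *ᵥ v = ε • v := by
      rcases hv with hv | hv
      · exact ⟨1, Or.inl rfl, by simpa using hv⟩
      · exact ⟨-1, Or.inr rfl, by simpa using hv⟩
    by_cases hv0 : v = 0
    · rw [hv0, mulVec_zero]
    obtain ⟨k, hk⟩ := eig_Rat hd hv0 h3
    have h4 := hx k
    have h5 : Real.log ‖((ε : ℚ) : ℂ)‖ = 0 := by rcases h2 with rfl | rfl <;> simp
    rw [hk, h5, Complex.ofReal_zero, ← Rat.cast_pow, mul_comm b, mul_comm c, ← Rat.smul_def,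
      ← Rat.smul_def] at h4
    have h6 := congrArg l h4
    rw [map_add, map_add, map_smul, map_smul, map_zero, smul_eq_mul, smul_eq_mul] at h6
    rw [add_mulVec, add_mulVec, smul_mulVec, smul_mulVec, smul_mulVec, one_mulVec, sq,
      ← mulVec_mulVec, h3, mulVec_smul, h3, smul_smul, smul_smul, smul_smul, ← add_smul,
      ← add_smul, show l a + l b * ε + l c * ε * ε = 0 by linear_combination h6, zero_smul]

end Pool.Agent.MP_5045a8_al.HX

end

section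

/-! Finite subgroups are not maximal. -/

namespace Pool.Agent.MP_5045a8_al.HX

open Matrix O FT

open MvPolynomial in
/-- The triple product of x, y and A x as a polynomial. -/
noncomputable def pl_FinExt (A : M3) : MvPolynomial (Bool × Fin 3) ℤ :=
  (X (true, 1) * X (false, 2) - X (true, 2) * X (false, 1)) * (∑ j, C (A 0 j) * X (true, j)) +
  (X (true, 2) * X (false, 0) - X (true, 0) * X (false, 2)) * (∑ j, C (A 1 j) * X (true, j)) +
  (X (true, 0) * X (false, 1) - X (true, 1) * X (false, 0)) * (∑ j, C (A 2 j) * X (true, j))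

theorem ev_FinExt (A : M3) (v : Bool × Fin 3 → ℤ) : MvPolynomial.eval v (pl_FinExt A) =
    cr (fun i => v (true, i)) (fun i => v (false, i)) ⬝ᵥ A *ᵥ fun i => v (true, i) := by
  rw [dot3, cr0, cr1, cr2]
  simp [pl_FinExt, mulVec, dotProduct]

theorem scal_FinExt {A : M3} (h : pl_FinExt A = 0) : A = A 0 0 • (1 : M3) := by
  have k : ∀ x y : V3, cr x y ⬝ᵥ A *ᵥ x = 0 := fun x y => by
    have := ev_FinExt A fun p => if p.1 then x p.2 else y p.2
    rw [h, map_zero] at this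
    simpa using this.symm
  have a1 := k ![1, 0, 0] ![0, 1, 0]
  have a2 := k ![1, 0, 0] ![0, 0, 1]
  have a3 := k ![0, 1, 0] ![1, 0, 0]
  have a4 := k ![0, 1, 0] ![0, 0, 1]
  have a5 := k ![0, 0, 1] ![1, 0, 0]
  have a6 := k ![0, 0, 1] ![0, 1, 0]
  have a7 := k ![1, 1, 0] ![0, 0, 1]
  have a8 := k ![0, 1, 1] ![1, 0, 0]
  simp [cr, mulVec, dotProduct, Fin.sum_univ_three] at a1 a2 a3 a4 a5 a6 a7 a8
  ext i j
  fin_cases i <;> fin_cases j <;> simp <;> linarith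

theorem ne_FinExt {g : G3} (h : g ≠ 1) : pl_FinExt (mat g) ≠ 0 := fun e => by
  have e1 := scal_FinExt e
  have e2 := mat_det g
  rw [e1, det_smul, det_one, mul_one, Fintype.card_fin] at e2
  have e3 : mat g 0 0 = 1 := (Odd.pow_inj (by decide : Odd 3)).1 (e2.trans (one_pow 3).symm)
  exact h (mat_ext (by rw [e1, e3, one_smul, mat_one]))

theorem gen_stmt : GenStmt := by
  classical
  intro H hH
  have hf : {g : G3 | g ∈ H ∧ g ≠ 1}.Finite :=
    (Set.toFinite (H : Set G3)).subset fun g hg => hg.1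
  have h0 : pl_FinExt (single 0 1 1) ≠ 0 := fun e => by
    have := congrFun (congrFun (scal_FinExt e) 0) 1
    simp at this
  have h1 : pl_FinExt (single 0 1 1) * ∏ g ∈ hf.toFinset, pl_FinExt (mat g) ≠ 0 :=
    mul_ne_zero h0 (Finset.prod_ne_zero_iff.2 fun g hg => ne_FinExt (hf.mem_toFinset.1 hg).2)
  obtain ⟨v, hv⟩ : ∃ v, MvPolynomial.eval v
      (pl_FinExt (single 0 1 1) * ∏ g ∈ hf.toFinset, pl_FinExt (mat g)) ≠ 0 := by
    by_contra! hn
    exact h1 (MvPolynomial.funext fun v => by rw [hn, map_zero])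
  rw [map_mul, map_prod, mul_ne_zero_iff, Finset.prod_ne_zero_iff, ev_FinExt] at hv
  refine ⟨fun i => v (true, i), cr (fun i => v (true, i)) fun i => v (false, i),
    fun e => hv.1 (by rw [e, mulVec_zero, dotProduct_zero]),
    fun e => hv.1 (by rw [e, zero_dotProduct]), ?_, fun h hh h1 => ?_⟩
  · rw [dot3, cr0, cr1, cr2]; ring
  · rw [← ev_FinExt]
    exact hv.2 h (hf.mem_toFinset.2 ⟨hh, h1⟩)

open Pointwise in
theorem sup_FinExt {H N : Subgroup G3} [Finite H] (hN : HP N)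
    (h : ∀ g ∈ H, ∀ n ∈ N, g * n * g⁻¹ ∈ N) : HP (H ⊔ N : Subgroup G3) := by
  have h1 : H ≤ Subgroup.normalizer N := fun g hg => Subgroup.mem_normalizer_iff.2 fun n =>
    ⟨h g hg n, fun hn => by simpa [mul_assoc] using h _ (H.inv_mem hg) _ hn⟩
  have h2 := Subgroup.coe_mul_of_left_le_normalizer_right H N h1
  have h3 : Finite ((H ⊔ N : Subgroup G3) ⧸ N.subgroupOf (H ⊔ N)) := by
    refine Finite.of_surjective
      (fun g : H => QuotientGroup.mk (Subgroup.inclusion le_sup_left g)) fun q => ?_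
    obtain ⟨⟨k, hk⟩, rfl⟩ := QuotientGroup.mk_surjective q
    obtain ⟨a, ha, n, hn, rfl⟩ : k ∈ ((H : Set G3) * (N : Set G3) : Set G3) := h2 ▸ hk
    refine ⟨⟨a, ha⟩, QuotientGroup.eq.2 ?_⟩
    change a⁻¹ * (a * n) ∈ N
    rwa [inv_mul_cancel_left]
  exact HP.of_finiteIndex (H := N.subgroupOf (H ⊔ N))
    (hN.of_injective (Subgroup.subgroupOfEquivOfLe (le_sup_right : N ≤ H ⊔ N)).toMonoidHom
      (Subgroup.subgroupOfEquivOfLe (le_sup_right : N ≤ H ⊔ N)).injective)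
    Subgroup.index_ne_zero_of_finite

theorem finExt_stmt (hG : GenStmt) (hF : FreeStmt) : FinExtStmt := by
  intro H hH
  obtain ⟨x, φ, hx, hφ, h0, h1⟩ := hG H hH
  have e : ∀ a b : G3, (φ ᵥ* mat a⁻¹) ⬝ᵥ (mat b *ᵥ x) = φ ⬝ᵥ mat (a⁻¹ * b) *ᵥ x := fun a b => by
    rw [← dotProduct_mulVec, mulVec_mulVec, mat_mul]
  obtain ⟨N, hN, h2⟩ := hF H (fun g => mat g.1 *ᵥ x) (fun g => φ ᵥ* mat g.1⁻¹)
    (fun g => ⟨mulVec_ne hx _, vecMul_ne hφ _, by
      rw [e, inv_mul_cancel, mat_one, one_mulVec, h0]⟩)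
    fun a b hab => by
      rw [e]
      exact h1 _ (H.mul_mem (H.inv_mem a.2) b.2) fun h =>
        hab (Subtype.ext (inv_mul_eq_one.1 h))
  obtain ⟨t, ht⟩ : ∃ t : G3, mat t = tv (N • x) φ :=
    ⟨mk3 (tv (N • x) φ) (by rw [det_tv, dotProduct_smul, h0, smul_zero, add_zero]), rfl⟩
  have h3 := h2 (fun g => g.1 * t * g.1⁻¹) fun g => by
    rw [mat_mul, mat_mul, ht, tv_conj, mulVec_smul]
  have h4 : t ∈ Subgroup.closure (Set.range fun g : H => g.1 * t * g.1⁻¹) :=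
    Subgroup.subset_closure ⟨1, by simp⟩
  refine ⟨_, lt_of_le_of_ne le_sup_left fun h => ?_, sup_FinExt h3 fun g hg n hn => ?_⟩
  · have h5 : t ∈ H := h ▸ Subgroup.mem_sup_right h4
    obtain ⟨m, hm, h6⟩ := (isOfFinOrder_of_finite (⟨t, h5⟩ : H)).exists_pow_eq_one
    have h7 : t ^ (m : ℤ) = 1 := by
      rw [zpow_natCast]; exact congrArg Subtype.val h6
    have h8 := zpow_tv ht m
    rw [h7, mat_one, tv, left_eq_add, vecMulVec_eq_zero] at h8
    exact h8.elim (smul_ne_zero (by exact_mod_cast hm.ne') (smul_ne_zero hN hx)) hφ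
  · induction hn using Subgroup.closure_induction with
    | mem n hn =>
      obtain ⟨a, rfl⟩ := hn
      exact Subgroup.subset_closure ⟨⟨g * a, H.mul_mem hg a.2⟩, by simp [mul_assoc]⟩
    | one => simp
    | mul a b _ _ ha hb =>
      have := Subgroup.mul_mem _ ha hb
      simpa [mul_assoc] using this
    | inv a _ ha =>
      have := Subgroup.inv_mem _ ha
      simpa [mul_assoc] using this

end Pool.Agent.MP_5045a8_al.HX

end
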