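import Pool.Agent.MP_5045a8_al.DefsH
import Pool.Agent.Mg.F5045a8a.G1d6757
import Pool.Agent.Mg.F5045a8a.Gefe78a
import Pool.Agent.MP_5045a8_al.DefsN

section

/-! Regular unipotent elements in subgroups of SL(3,Z): definitions and statements. -/

namespace Pool.Agent.MP_5045a8_al.HX

open Matrix O FT

/-- u is a regular unipotent element with fixed vector p and fixed covector f. -/
def Reg (u : G3) (p f : V3) : Prop :=
  (mat u - 1) ^ 3 = 0 ∧ (mat u - 1) ^ 2 ≠ 0 ∧ p ≠ 0 ∧ f ≠ 0 ∧ mat u *ᵥ p = p ∧ f ᵥ* mat u = f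

/-- The flag (p, f) belongs to a regular unipotent element of K. -/
def Fl (K : Subgroup G3) (p f : V3) : Prop := ∃ u ∈ K, Reg u p f

/-- K contains a lattice of transvections with a common axis or a common centre. -/
def UL (K : Subgroup G3) : Prop := (∃ f, LatAx K f) ∨ ∃ c, LatAx (tr K) c

/-- Every rational point of the line f = 0 is parabolic for K. -/
def Par (K : Subgroup G3) (f : V3) : Prop :=
  ∀ x, x ≠ 0 → f ⬝ᵥ x = 0 → (∃ φ, φ ≠ 0 ∧ Mem K (tv x φ)) ∨ Fl K x f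

structure RegStmt : Prop where
  dot : ∀ {u : G3} {p f : V3}, Reg u p f → f ⬝ᵥ p = 0
  sq : ∀ {u : G3} {p f : V3}, Reg u p f →
    ∃ a b : ℤ, a ≠ 0 ∧ b ≠ 0 ∧ a • (mat u - 1) ^ 2 = b • vecMulVec p f
  fixv : ∀ {u : G3} {p f x : V3}, Reg u p f → cr (mat u *ᵥ x) x = 0 → cr x p = 0
  fixc : ∀ {u : G3} {p f φ : V3}, Reg u p f → cr (φ ᵥ* mat u) φ = 0 → cr φ f = 0
  conj : ∀ {u : G3} {p f : V3} (g : G3), Reg u p f →
    Reg (g * u * g⁻¹) (mat g *ᵥ p) (f ᵥ* mat g⁻¹)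
  par : ∀ {u : G3} {p f p' f' : V3}, Reg u p f → p' ≠ 0 → f' ≠ 0 → cr p' p = 0 → cr f' f = 0 →
    Reg u p' f'
  tr : ∀ {u : G3} {p f : V3}, Reg u p f → Reg u.transpose f p
  pow : ∀ {u : G3}, (mat u - 1) ^ 3 = 0 → ∀ n : ℤ,
    (2 : ℤ) • mat (u ^ n) = (2 : ℤ) • (1 : M3) + (2 * n) • (mat u - 1) +
      (n * (n - 1)) • (mat u - 1) ^ 2
  zpow : ∀ {u : G3} {p f : V3} {n : ℤ}, Reg u p f → n ≠ 0 → Reg (u ^ n) p f
  onv : ∀ {u : G3} {p f x : V3}, Reg u p f → f ⬝ᵥ x = 0 → cr (mat u *ᵥ x - x) p = 0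
  onc : ∀ {u : G3} {p f φ : V3}, Reg u p f → φ ⬝ᵥ p = 0 → cr (φ ᵥ* mat u - φ) f = 0
  ex : ∀ {u : G3}, (mat u - 1) ^ 3 = 0 → u ≠ 1 →
    (∃ p f, Reg u p f) ∨ ∃ (n : ℤ) (p f : V3), p ≠ 0 ∧ f ≠ 0 ∧ n • (mat u - 1) = vecMulVec p f ∧
      mat (u ^ n) = tv p f

/-! The hexagon. -/

def HenStmt : Prop :=
  ∀ α l κ μ : ℕ → ℚ, (∀ i, α i ≠ 0) → (∀ i, κ i ≠ 0) → (∀ i, μ i ≠ 0) →
    ∃ s t s' t' : ℕ → ℚ, t 0 = 0 ∧ t' 0 = 0 ∧
      (∀ i, s (i + 1) = t i + l i * s i + κ i * s i ^ 2 ∧ t (i + 1) = μ i * s i) ∧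
      (∀ i, s' (i + 1) = t' i + l i * s' i + κ i * s' i ^ 2 ∧ t' (i + 1) = μ i * s' i) ∧
      (∀ i, i < 6 → (∃ n : ℤ, s i = n * α i) ∧ ∃ n : ℤ, s' i = n * α i) ∧
      (s 6 - s 0) * t' 6 ≠ (s' 6 - s' 0) * t 6

/-- An element of a Heisenberg group. -/
def hz (i j k : Fin 3) (a c d : ℚ) : QM := 1 + single i j a + single i k c + single j k d

def HexQStmt : Prop :=
  ∀ S : Submonoid QM, (∀ i j k : Fin 3, i ≠ j → j ≠ k → i ≠ k → ∃ a c d : ℚ, a ≠ 0 ∧ d ≠ 0 ∧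
      ∀ n : ℤ, hz i j k (n * a) (n * c + n * (n - 1) / 2 * a * d) (n * d) ∈ S) →
    ∃ a b a' b' : ℚ, a * b' ≠ a' * b ∧ 1 + single 0 1 a + single 0 2 b ∈ S ∧
      1 + single 0 1 a' + single 0 2 b' ∈ S

def HexStmt : Prop :=
  ∀ (K : Subgroup G3) (p ψ : Fin 3 → V3), (Matrix.of ψ).det ≠ 0 →
    (∀ i k, i ≠ k → Fl K (p i) (ψ k)) → LatAx (tr K) (p 0)

def CosStmt : Prop :=
  ∀ (K : Subgroup G3) (p x ψ φ : V3), Fl K p ψ → Fl K x ψ → Fl K x φ → φ ⬝ᵥ p ≠ 0 →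
    ∃ N : ℤ, N ≠ 0 ∧ ∀ η : V3, η ⬝ᵥ p = 0 → ∃ y, Fl K y ψ ∧ Fl K y (φ + N • η)

def HStmt : Prop :=
  ∀ (K : Subgroup G3) (p ψ : V3) (g h : G3), Fl K p ψ → g ∈ K → h ∈ K →
    cr (mat g *ᵥ p) p = 0 → cr (ψ ᵥ* mat g) ψ ≠ 0 →
    cr (ψ ᵥ* mat h) ψ = 0 → cr (mat h *ᵥ p) p ≠ 0 → LatAx (tr K) p

/-! Lines of parabolic points. -/

def ParConjStmt : Prop :=
  ∀ (K : Subgroup G3) (f : V3) (g : G3), Par K f → g ∈ K → Par K (f ᵥ* mat g)

def ParLatStmt : Prop :=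
  ∀ (K : Subgroup G3) (f y : V3), f ≠ 0 → y ≠ 0 → Par K f → Mem K (tv y f) → LatAx K f

def U1Stmt : Prop :=
  ∀ (K : Subgroup G3) (ψ ψ' : V3), Par K ψ → Par K ψ' → cr ψ ψ' ≠ 0 → UL K

def U2Stmt : Prop := ∀ (K : Subgroup G3) (f : V3), HP K → f ≠ 0 → Par K f → Stab K f

def NoParStmt : Prop :=
  ∀ (K : Subgroup G3) (f y y' : V3) (g g' : G3) (m m' : ℤ), HP K → LatAx K f → g ∈ K → g' ∈ K →
    f ⬝ᵥ y = 0 → f ⬝ᵥ y' = 0 → cr y y' ≠ 0 → f ᵥ* mat g = f → f ᵥ* mat g' = f → m ≠ 0 → m' ≠ 0 →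
    mat g *ᵥ y = y → mat g *ᵥ y' = y' + m • y → mat g' *ᵥ y' = y' → mat g' *ᵥ y = y + m' • y' →
    False

def U3Stmt : Prop :=
  ∀ (H : Subgroup G3) (f : V3), f ≠ 0 → Par H f → IsPlaneLift f H →
    (∀ K, IsPlaneLift f K → H ≤ K → K = H) → MaxHP H

/-! Finitely generated lifts. -/

/-- The scalar product of the two columns. -/
def bt (A : G2) : ℤ := A 0 0 * A 0 1 + A 1 0 * A 1 1

/-- The slopes between 0 and 1. -/
def Wn (x : Fin 2 → ℤ) : Prop := 0 < x 0 * x 1 ∧ x 1 ^ 2 < x 0 ^ 2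

/-- The interval M Wn is wandering for Λ. -/
def Wand (Λ : Subgroup G2) (M : G2) : Prop :=
  ∀ γ ∈ Λ, γ = 1 ∨ γ = -1 ∨ ∀ x, Wn x →
    ¬ Wn (((M⁻¹ * γ * M : G2) : Matrix (Fin 2) (Fin 2) ℤ) *ᵥ x)

def SepStmt : Prop := ∀ γ : G2, {M : G2 | bt M * bt (γ * M) ≤ 0}.Finite

def WanStmt : Prop :=
  ∀ Λ : Subgroup G2, Λ.FG → Λ.index = 0 → ∃ M : G2, ∀ γ ∈ Λ, 0 < bt (γ * M)

def PosMatStmt : Prop :=
  ∀ M N : G2, (∀ i j, 0 ≤ N i j) → (∀ n : ℕ, 0 < bt (M * (N ^ n)⁻¹)) →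
    N = 1 ∨ (N : Matrix (Fin 2) (Fin 2) ℤ) = !![0, 1; 1, 0]

def TriStmt : Prop := ∀ (Λ : Subgroup G2) (M : G2), (∀ γ ∈ Λ, 0 < bt (γ * M)) → Wand Λ M

def PPStmt : Prop :=
  ∀ (G α : Type) [Group G] [MulAction G α] (H : Subgroup G) (t : G) (X W W' : Set α) (z : α),
    (∀ g : G, ∀ x ∈ X, g • x ∈ X) → W' ⊆ W → z ∈ X → z ∈ W → z ∉ W' →
    (∀ h ∈ H, h ≠ 1 → ∀ x ∈ W, h • x ∉ W) →
    (∀ n : ℤ, n ≠ 0 → ∀ x ∈ X, x ∉ W' → t ^ n • x ∈ W') →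
    ∀ g ∈ H ⊔ Subgroup.zpowers t, g • z = z → g = 1

def ExtStmt : Prop :=
  ∀ (H : Subgroup G3) (M : G2), IsPlaneLift ![0, 0, 1] H → Wand (prK H) M →
    ∃ K, IsPlaneLift ![0, 0, 1] K ∧ H < K

def FinStmt : Prop :=
  ∀ (H : Subgroup G3) (f : V3), f ≠ 0 → H.FG → IsPlaneLift f H →
    (∀ K, IsPlaneLift f K → H ≤ K → K = H) → FinImage f H

def FinParStmt : Prop :=
  ∀ (H : Subgroup G3) (f : V3), f ≠ 0 → Stab H f → FinImage f H → Par H f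

/-! The Lie algebra of the Zariski closure. -/

/-- Polynomials in the entries. -/
abbrev MP : Type := MvPolynomial (Fin 3 × Fin 3) ℝ

/-- The value of P at A. -/
noncomputable def ev (A : RM) (P : MP) : ℝ := MvPolynomial.eval (fun ij => A ij.1 ij.2) P

/-- P vanishes on H. -/
def Van (H : Subgroup G3) (P : MP) : Prop := ∀ h ∈ H, ev (rm (mat h)) P = 0

/-- A lies in the Zariski closure of H. -/
def Zc (H : Subgroup G3) (A : RM) : Prop := ∀ P, Van H P → ev A P = 0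

/-- The left invariant derivation given by Y. -/
noncomputable def Dv (Y : RM) : Derivation ℝ MP MP :=
  MvPolynomial.mkDerivation ℝ fun ij : Fin 3 × Fin 3 =>
    ∑ k, MvPolynomial.X (ij.1, k) * MvPolynomial.C (Y k ij.2)

/-- The Lie algebra of the Zariski closure of H. -/
def GR (H : Subgroup G3) (Y : RM) : Prop := ∀ P, Van H P → Van H (Dv Y P)

/-- The real matrix of a rational matrix. -/
def qr (Y : QM) : RM := Y.map (fun q : ℚ => (q : ℝ))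

def LieBrStmt : Prop :=
  ∀ (H : Subgroup G3) (Y Z : RM) (c : ℝ), GR H Y → GR H Z →
    GR H 0 ∧ GR H (Y + Z) ∧ GR H (c • Y) ∧ GR H (Y * Z - Z * Y)

def LieAdStmt : Prop :=
  ∀ (H : Subgroup G3) (Y : RM) (h : G3), h ∈ H → GR H Y → GR H (rm (mat h) * Y * rm (mat h⁻¹))

def LieLogStmt : Prop :=
  ∀ (H : Subgroup G3) (u : G3), u ∈ H → (mat u - 1) ^ 3 = 0 →
    GR H (rm (mat u) - 1 - (1 / 2 : ℝ) • (rm (mat u) - 1) ^ 2)

def LieExpStmt : Prop :=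
  ∀ (H : Subgroup G3) (Y : RM) (t : ℝ), GR H Y → Y * Y = 0 → Zc H (1 + t • Y)

/-- A Lie algebra of traceless rational matrices normalised by H. -/
structure LieP (H : Subgroup G3) (L : Submodule ℚ QM) : Prop where
  br : ∀ Y ∈ L, ∀ Z ∈ L, Y * Z - Z * Y ∈ L
  ad : ∀ h ∈ H, ∀ Y ∈ L, qm h * Y * qm h⁻¹ ∈ L
  tr0 : ∀ Y ∈ L, trace Y = 0

def LieStmt : Prop :=
  ∀ H : Subgroup G3, ∃ L : Submodule ℚ QM, LieP H L ∧
    (∀ u ∈ H, (mat u - 1) ^ 3 = 0 → qm u - 1 - (1 / 2 : ℚ) • (qm u - 1) ^ 2 ∈ L) ∧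
    ∀ Y ∈ L, Y * Y = 0 → ∀ t : ℝ, Zc H (1 + t • qr Y)

def ZdStmt : Prop :=
  ∀ H : Subgroup G3, (∀ (i j : Fin 3) (c : ℝ), i ≠ j → Zc H (transvection i j c)) → ZDense H

/-- H fixes no rational plane and no rational point. -/
def Irr (H : Subgroup G3) : Prop := ∀ f : V3, f ≠ 0 → ¬ Stab H f ∧ ¬ Stab (tr H) f

def SpanStmt : Prop :=
  ∀ (H : Subgroup G3) (c φ : Q3), Irr H → c ≠ 0 → φ ≠ 0 →
    (∃ h ∈ H, φ ⬝ᵥ qm h *ᵥ c ≠ 0) ∧ ∃ h ∈ H, (qm h *ᵥ c) ⨯₃ c ≠ 0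

def WtStmt : Prop :=
  ∀ (L : Submodule ℚ QM) (Y : QM), (∀ Y ∈ L, ∀ Z ∈ L, Y * Z - Z * Y ∈ L) →
    single 0 1 1 ∈ L → single 1 0 1 ∈ L → Y ∈ L → (Y 0 2 ≠ 0 ∨ Y 1 2 ≠ 0) → single 0 2 1 ∈ L

def FullStmt : Prop :=
  ∀ (H : Subgroup G3) (L : Submodule ℚ QM) (c μ : Q3), LieP H L → Irr H → c ≠ 0 → μ ≠ 0 →
    μ ⬝ᵥ c = 0 → vecMulVec c μ ∈ L → ∀ η : Q3, η ⬝ᵥ c = 0 → vecMulVec c η ∈ L

def R1Stmt : Prop :=
  ∀ (H : Subgroup G3) (L : Submodule ℚ QM) (c μ : Q3), LieP H L → Irr H → c ≠ 0 → μ ≠ 0 →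
    μ ⬝ᵥ c = 0 → vecMulVec c μ ∈ L → ∀ i j : Fin 3, i ≠ j → single i j 1 ∈ L

/-- The principal nilpotent matrix. -/
def X0 : QM := !![0, 1, 0; 0, 0, 1; 0, 0, 0]

/-- A semisimple matrix. -/
def Dk (κ : ℚ) : QM := !![1, 0, κ; 0, 0, 0; 0, 0, -1]

/-- The invariant form. -/
def Bk (κ : ℚ) : QM := !![0, 0, 1; 0, -1, 0; 1, 0, κ]

def SoStmt : Prop :=
  ∀ L : Submodule ℚ QM, (∀ Y ∈ L, ∀ Z ∈ L, Y * Z - Z * Y ∈ L) → (∀ Y ∈ L, trace Y = 0) →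
    X0 ∈ L → single 0 2 1 ∉ L →
    (∀ Y ∈ L, Y 1 0 = 0 ∧ Y 2 0 = 0) ∨
      ∃ κ : ℚ, Dk κ ∈ L ∧ ∀ Y ∈ L, Yᵀ * Bk κ + Bk κ * Y = 0

/-- B is symmetric, nondegenerate and isotropic. -/
def Iso (B : M3) : Prop := Bᵀ = B ∧ B.det ≠ 0 ∧ ∃ p : V3, p ≠ 0 ∧ p ⬝ᵥ B *ᵥ p = 0

def R2Stmt : Prop :=
  ∀ (H : Subgroup G3) (L : Submodule ℚ QM) (Y : QM), LieP H L → Irr H → Y ∈ L → Y ^ 3 = 0 →
    Y ^ 2 ∉ L → ∃ B : M3, Iso B ∧ H ≤ SOq B

def ClassStmt : Prop :=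
  ∀ (H : Subgroup G3) (u : G3), ¬ ZDense H → Irr H → u ∈ H → u ≠ 1 → (mat u - 1) ^ 3 = 0 →
    ∃ B : M3, Iso B ∧ H ≤ SOq B

/-! Orthogonal groups. -/

def IndStmt : Prop := ∀ B : M3, Iso B → Ind B

def CuspStmt : Prop :=
  ∀ (B : M3) (K : Subgroup G3) (c : V3), Bᵀ = B → B.det ≠ 0 → K.relIndex (SOq B) ≠ 0 → c ≠ 0 →
    bf B c c = 0 → ∃ y : ℤ, 0 < y ∧ ∃ u ∈ K, u ∈ SOq B ∧ Reg u c (B *ᵥ c) ∧
      ∀ n : ℤ, mat (u ^ n) = gm B c 1 (n * y)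

def PosStmt : Prop :=
  ∀ (B : M3) (K : Subgroup G3) (p : V3), Ind B → K.relIndex (SOq B) ≠ 0 → ¬ K ≤ SOq B → p ≠ 0 →
    ∃ g ∈ K, ∃ h ∈ K, h ∈ SOq B ∧
      0 < nq B (mat g *ᵥ (mat h *ᵥ p)) (mat g *ᵥ (mat h *ᵥ p))

def OffStmt : Prop :=
  ∀ (B : M3) (K : Subgroup G3) (φ x : V3), Ind B → K.relIndex (SOq B) ≠ 0 → φ ≠ 0 → x ≠ 0 →
    (∃ h ∈ K, h ∈ SOq B ∧ φ ⬝ᵥ mat h *ᵥ x ≠ 0) ∧ ∃ h ∈ K, cr (mat h *ᵥ x) x ≠ 0

def RungeStmt : Prop :=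
  ∀ a b c d e : ℤ, a ≠ 0 →
    (∀ n : ℤ, a ^ 2 * n ^ 4 + b * n ^ 3 + c * n ^ 2 + d * n + e ≤ 0 ∨
      IsSquare (a ^ 2 * n ^ 4 + b * n ^ 3 + c * n ^ 2 + d * n + e)) →
    ∃ β γ : ℚ, ∀ n : ℚ, a ^ 2 * n ^ 4 + b * n ^ 3 + c * n ^ 2 + d * n + e =
      (a * n ^ 2 + β * n + γ) ^ 2

def AlgStmt : Prop :=
  ∀ (Q : QM) (α β γ A B C A' B' C' : ℚ), Qᵀ = Q → Q 0 0 ≠ 0 → γ ≠ 0 → β ^ 2 ≠ 2 * α * γ →
    (∀ n : ℚ, bf Q ![n ^ 2 / 2, n, 1] ![n ^ 2 / 2, n, 1] = (A * n ^ 2 + B * n + C) ^ 2) →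
    (∀ n : ℚ, bf Q ![α + n * β + n ^ 2 / 2 * γ, β + n * γ, γ]
      ![α + n * β + n ^ 2 / 2 * γ, β + n * γ, γ] = (A' * n ^ 2 + B' * n + C') ^ 2) →
    Q.det = 0

def QuartStmt : Prop :=
  ∀ (B : M3) (g : G3) (c x z : V3) (y : ℤ), Bᵀ = B → B.det ≠ 0 → y ≠ 0 → bf B c c = 0 →
    bf B x x = 0 → bf B c x ≠ 0 → bf B z z ≠ 0 → bf B c z ≠ 0 →
    0 < nq B (mat g *ᵥ c) (mat g *ᵥ c) → IsSquare (nq B (mat g *ᵥ c) (mat g *ᵥ c)) →
    ∃ (n : ℤ) (w : V3), (w = gm B c 1 (n * y) *ᵥ x ∨ w = gm B c 1 (n * y) *ᵥ z) ∧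
      0 < nq B (mat g *ᵥ w) (mat g *ᵥ w) ∧ ¬ IsSquare (nq B (mat g *ᵥ w) (mat g *ᵥ w))

def NsqStmt : Prop :=
  ∀ (B : M3) (K : Subgroup G3) (c : V3), Ind B → K.relIndex (SOq B) ≠ 0 → ¬ K ≤ SOq B → c ≠ 0 →
    bf B c c = 0 → ∃ g ∈ K, 0 < nq B (mat g *ᵥ c) (mat g *ᵥ c) ∧
      ¬ IsSquare (nq B (mat g *ᵥ c) (mat g *ᵥ c))

def PellStmt : Prop :=
  ∀ (B : M3) (K : Subgroup G3) (p φ : V3) (g : G3), Bᵀ = B → K.relIndex (SOq B) ≠ 0 → g ∈ K →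
    0 < nq B (mat g *ᵥ p) (mat g *ᵥ p) → ¬ IsSquare (nq B (mat g *ᵥ p) (mat g *ᵥ p)) →
    φ ≠ 0 → φ ⬝ᵥ p = 0 → ∃ δ ∈ K, mat δ *ᵥ p = p ∧ cr (φ ᵥ* mat δ) φ ≠ 0

def OStmt : Prop :=
  ∀ (B : M3) (K : Subgroup G3), Iso B → HP K → K.relIndex (SOq B) ≠ 0 → K ≤ SOq B

def AniStmt : Prop :=
  ∀ (B : M3) (v : V3), Bᵀ = B → B.det ≠ 0 → 0 < nq B v v → IsSquare (nq B v v) → Iso B

def UniStmt : Prop :=
  ∀ (B : M3) (K : Subgroup G3) (u : G3), Ind B → HP K → K.relIndex (SOq B) ≠ 0 → u ∈ K → u ≠ 1 →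
    (mat u - 1) ^ 3 = 0 → K ≤ SOq B

end Pool.Agent.MP_5045a8_al.HX

end

section

/-! Lines of parabolic points: conjugation and lattices. -/

namespace Pool.Agent.MP_5045a8_al.HX

open Matrix O FT

theorem parConj_stmt (hR : RegStmt) : ParConjStmt := by
  intro K f g h hg x hx0 hx
  rcases h (mat g *ᵥ x) (mulVec_ne hx0 g) (by rw [dotProduct_mulVec, hx]) with
    ⟨φ, hφ, hm⟩ | ⟨u, hu, hr⟩
  · have := hm.conj (K.inv_mem hg)
    rw [mulVec_mulVec, mat_inv_mul, one_mulVec, inv_inv] at this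
    exact Or.inl ⟨_, vecMul_ne hφ g, this⟩
  · have := hR.conj g⁻¹ hr
    rw [mulVec_mulVec, mat_inv_mul, one_mulVec, inv_inv] at this
    exact Or.inr ⟨_, K.mul_mem (K.mul_mem (K.inv_mem hg) hu) hg, this⟩

theorem parLat_stmt (hR : RegStmt) : ParLatStmt := by
  intro K f y hf hy h hm
  obtain ⟨x, hx0, hx, hc⟩ := exists_indep hf hy hm.dot
  rcases h x hx0 hx with ⟨φ, hφ, hm'⟩ | ⟨u, hu, hr⟩
  · by_cases h1 : φ ⬝ᵥ y = 0
    · exact lat_of_par hm hm' hf hφ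
        (cr_trans hc (cr_of_perp hm.dot hx) (cr_of_perp h1 hm'.dot)) hc
    · exact lat_of_comm hm hm' hf hx0 hx h1
  · have e : f ᵥ* mat u⁻¹ = f := by
      conv_lhs => rw [← hr.2.2.2.2.2, vecMul_vecMul, mat_mul_inv, vecMul_one]
    have := hm.conj hu
    rw [e] at this
    exact lat_of_two this hm hf fun e2 => hc (hR.fixv hr e2)

end Pool.Agent.MP_5045a8_al.HX

end

section

namespace Pool.Agent.MP_5045a8_al.HX

open Matrix O FT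

theorem cr_self_U1 (a : V3) : cr a a = 0 := by
  simp only [ext3, cr0, cr1, cr2, Pi.zero_apply]
  refine ⟨by ring, by ring, by ring⟩

theorem cr_add_left_U1 (a b : V3) (c : ℤ) : cr (a + c • b) a = c • cr b a := by
  simp only [ext3, cr0, cr1, cr2, Pi.add_apply, Pi.smul_apply, smul_eq_mul]
  refine ⟨by ring, by ring, by ring⟩

theorem cr_add_right_U1 (a b : V3) (c : ℤ) : cr a (a + c • b) = c • cr a b := by
  simp only [ext3, cr0, cr1, cr2, Pi.add_apply, Pi.smul_apply, smul_eq_mul]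
  refine ⟨by ring, by ring, by ring⟩

theorem cr_smul_left_U1 (a b : V3) (c : ℤ) : cr (c • a) b = c • cr a b := by
  simp only [ext3, cr0, cr1, cr2, Pi.smul_apply, smul_eq_mul]
  refine ⟨by ring, by ring, by ring⟩

theorem lat_U1 (hL : ParLatStmt) {K : Subgroup G3} {χ y φ : V3} (hP : Par K χ) (hχ : χ ≠ 0)
    (hm : Mem K (tv y φ)) (hy : y ≠ 0) (hφ : φ ≠ 0) (h : cr φ χ = 0) : LatAx K χ := by
  have e := par_dot h φ
  have h1 := hm.zsmul' (χ ⬝ᵥ φ)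
  rw [← e, ← tv_smul] at h1
  exact hL K χ _ hχ (smul_ne_zero (dot_self_pos hφ).ne' hy) hP h1

theorem move_U1 (hR : RegStmt) (hL : ParLatStmt) {K : Subgroup G3} (hK : ¬ UL K) {χ q : V3}
    (hP : Par K χ) (hχ : χ ≠ 0) (hq : q ≠ 0) (h : χ ⬝ᵥ q = 0) :
    ∃ g ∈ K, χ ᵥ* mat g = χ ∧ cr (mat g *ᵥ q) q ≠ 0 := by
  obtain ⟨x, hx, hχx, hqx⟩ := exists_indep hχ hq h
  rcases hP x hx hχx with ⟨φ, hφ, hm⟩ | ⟨u, hu, hr⟩
  · have hφq : φ ⬝ᵥ q ≠ 0 := fun e => hK (Or.inl ⟨χ, lat_U1 hL hP hχ hm hx hφ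
      (cr_trans hqx (cr_of_perp e hm.dot) (cr_of_perp h hχx))⟩)
    obtain ⟨g, hg, e⟩ := hm
    refine ⟨g, hg, by rw [e, vecMul_tv, hχx, zero_smul, add_zero], ?_⟩
    rw [e, tv_mulVec, cr_add_left_U1]
    exact smul_ne_zero hφq (cr_ne_comm hqx)
  · exact ⟨u, hu, hr.2.2.2.2.2, fun e => hqx (hR.fixv hr e)⟩

theorem ne_left_U1 {a b : V3} (h : cr a b ≠ 0) : a ≠ 0 := by
  rintro rfl
  apply h
  simp [ext3, cr0, cr1, cr2]

theorem u1_stmt (hR : RegStmt) (hH : HStmt) (hC : ParConjStmt) (hL : ParLatStmt) : U1Stmt := by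
  intro K ψ ψ' hψ hψ' hq
  by_contra hK
  have all : ∀ χ χ' : V3, Par K χ → Par K χ' → cr χ χ' ≠ 0 →
      ∃ φ, φ ≠ 0 ∧ Mem K (tv (cr χ χ') φ) := by
    intro χ χ' h1 h2 h3
    by_contra hn
    have f1 := (h1 _ h3 (dot_cr_left _ _)).resolve_left hn
    obtain ⟨g, hg, hr⟩ := (h2 _ h3 (dot_cr_right _ _)).resolve_left hn
    obtain ⟨h, hh, e1, e2⟩ := move_U1 hR hL hK h1 (ne_left_U1 h3) h3 (dot_cr_left _ _)
    exact hK (Or.inr ⟨_, hH K _ χ g h f1 hg hh (by rw [hr.2.2.2.2.1, cr_self_U1])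
      (fun e => h3 (hR.fixc hr e)) (by rw [e1, cr_self_U1]) e2⟩)
  obtain ⟨μ, hμ, hm⟩ := all ψ ψ' hψ hψ' hq
  obtain ⟨h, hh, e1, e2⟩ := move_U1 hR hL hK hψ (ne_left_U1 hq) hq (dot_cr_left _ _)
  have a1 := dot_cr_left ψ ψ'
  have a2 := dot_cr_right ψ ψ'
  have hψ'0 : ψ' ≠ 0 := ne_left_U1 (cr_ne_comm hq)
  have hPχ := hC K ψ' h⁻¹ hψ' (K.inv_mem hh)
  have hχ0 := vecMul_ne hψ'0 h⁻¹
  have hb : (ψ' ᵥ* mat h⁻¹) ᵥ* mat h = ψ' := by rw [vecMul_vecMul, mat_inv_mul, vecMul_one]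
  generalize ψ' ᵥ* mat h⁻¹ = χ at hPχ hχ0 hb
  have hχq : χ ⬝ᵥ cr ψ ψ' ≠ 0 := by
    intro e
    have b1 : χ ⬝ᵥ mat h *ᵥ cr ψ ψ' = 0 := by rw [dotProduct_mulVec, hb, a2]
    have b2 : ψ ⬝ᵥ mat h *ᵥ cr ψ ψ' = 0 := by rw [dotProduct_mulVec, e1, a1]
    have b3 := par_dot (cr_trans e2 (cr_of_perp b1 e) (cr_of_perp b2 a1)) χ
    have b4 := congrArg (· ᵥ* mat h) b3
    simp only [smul_vecMul, hb, e1] at b4
    have b5 := congrArg (cr · ψ') b4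
    simp only [cr_smul_left_U1, cr_self_U1, smul_zero] at b5
    exact smul_ne_zero (dot_self_pos hχ0).ne' hq b5
  generalize cr ψ ψ' = q at *
  have hχμ : cr χ μ ≠ 0 := cr_ne_of_dot (f := q) hμ (by rw [dotProduct_comm]; exact hm.dot)
    (by rwa [dotProduct_comm])
  obtain ⟨g, hg, eg⟩ := id hm
  have hPχ' := hC K χ g hPχ hg
  rw [eg, vecMul_tv] at hPχ'
  have hr : cr χ (χ + (χ ⬝ᵥ q) • μ) ≠ 0 := by
    rw [cr_add_right_U1]; exact smul_ne_zero hχq hχμ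
  obtain ⟨ν, hν, hm'⟩ := all _ _ hPχ hPχ' hr
  have c1 : μ ⬝ᵥ cr χ (χ + (χ ⬝ᵥ q) • μ) = 0 := by
    rw [cr_add_right_U1, dotProduct_smul, dot_cr_right, smul_zero]
  rcases lemmaN hm hm' hq hμ hr hν c1 (Or.inl (cr_ne_of_dot hr (dot_cr_left _ _) hχq)) with hl | hl
  · exact hK (Or.inl ⟨_, hl⟩)
  · exact hK (Or.inr ⟨_, hl⟩)

end Pool.Agent.MP_5045a8_al.HX

end

section

/-! A line of parabolic points is stable under a Haagerup subgroup. -/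

namespace Pool.Agent.MP_5045a8_al.HX

open Matrix O FT

theorem cr_pm_U2 {a b : V3} (h : a = b ∨ a = -b) : cr a b = 0 := by
  rcases h with rfl | rfl
  · rw [ext3]; simp only [cr0, cr1, cr2, Pi.zero_apply]
    refine ⟨by ring, by ring, by ring⟩
  · rw [ext3]; simp only [cr0, cr1, cr2, Pi.zero_apply, Pi.neg_apply]
    refine ⟨by ring, by ring, by ring⟩

theorem axis_U2 (hR : RegStmt) {K : Subgroup G3} {f f' : V3} (hK : HP K) (hP : Par K f)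
    (h : LatAx K f') : Stab K f := by
  have hs : Stab K f' := h.stab hK
  have hf' : f' ≠ 0 := h.1
  by_cases hc : cr f f' = 0
  · intro g hg
    have e := par_dot hc f'
    have hN : f' ⬝ᵥ f' ≠ 0 := (dot_self_pos hf').ne'
    have e2 : (f' ⬝ᵥ f') • (f ᵥ* mat g) = (f ⬝ᵥ f') • (f' ᵥ* mat g) := by
      rw [← smul_vecMul, ← smul_vecMul, e]
    rcases hs g hg with a | a
    · left
      rw [a, e] at e2
      exact smul_right_injective _ hN e2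
    · right
      rw [a, smul_neg, e, ← smul_neg] at e2
      exact smul_right_injective _ hN e2
  · exfalso
    obtain ⟨y, hy, h0, h1⟩ := exists_perp hc
    rcases hP y hy h0 with ⟨φ, hφ, hm⟩ | ⟨u, hu, hr⟩
    · exact h1 (hs.dot hm hφ)
    · exact hc (cr_comm_zero (hR.fixc hr (cr_pm_U2 (hs u hu))))

theorem centre_U2 (hR : RegStmt) (hL : ParLatStmt) {K : Subgroup G3} {f c : V3} (hK : HP K)
    (hf : f ≠ 0) (hP : Par K f) (h : LatAx (tr K) c) : Stab K f := by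
  have hs : Stab (tr K) c := h.stab hK.tr
  have hc : c ≠ 0 := h.1
  have hfix : ∀ g ∈ K, cr (mat g *ᵥ c) c = 0 := by
    intro g hg
    have a := hs g.transpose (mem_tr.2 hg)
    rw [mat_transpose, vecMul_transpose] at a
    exact cr_pm_U2 a
  by_cases hC : Centres K f
  · exact hC.stab hK hf
  have hfc : f ⬝ᵥ c = 0 := by
    by_contra hne
    refine hC fun x hx h0 => ?_
    rcases hP x hx h0 with a | ⟨u, hu, hr⟩
    · exact a
    · exfalso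
      have e : cr c x = 0 := hR.fixv hr (hfix u hu)
      have := par_dot_zero (cr_comm_zero e) hx (x := f) (by rw [dotProduct_comm]; exact h0)
      exact hne (by rw [dotProduct_comm]; exact this)
  have hx : cr f c ≠ 0 := cr_ne_of_dot (f := f) hc hfc (dot_self_pos hf).ne'
  have hcx : cr c (cr f c) ≠ 0 :=
    cr_ne_of_dot (f := c) hx (dot_cr_right f c) (dot_self_pos hc).ne'
  rcases hP (cr f c) hx (dot_cr_left f c) with ⟨φ, hφ, hm⟩ | ⟨u, hu, hr⟩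
  · have p1 : c ⬝ᵥ φ = 0 := hs.dot hm.tr_tv hx
    have p2 : φ ⬝ᵥ cr f c = 0 := hm.dot
    have q1 : cr φ (cr c (cr f c)) = 0 := cr_of_perp (by rw [dotProduct_comm]; exact p1) p2
    have q2 : cr f (cr c (cr f c)) = 0 := cr_of_perp hfc (dot_cr_left f c)
    have q : cr φ f = 0 := cr_trans hcx q1 q2
    have e := par_dot q φ
    have b := hm.zsmul' (f ⬝ᵥ φ)
    rw [← e, ← tv_smul] at b
    exact (hL K f _ hf (smul_ne_zero (dot_self_pos hφ).ne' hx) hP b).stab hK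
  · exact absurd (hR.fixv hr (hfix u hu)) hcx

theorem u2_stmt (hR : RegStmt) (h1 : U1Stmt) (hC : ParConjStmt) (hL : ParLatStmt) : U2Stmt := by
  intro K f hK hf hP g hg
  by_cases h : cr f (f ᵥ* mat g) = 0
  · exact par_unit hf g h
  · rcases h1 K f _ hP (hC K f g hP hg) h with ⟨f', a⟩ | ⟨c, a⟩
    · exact axis_U2 hR hK hP a g hg
    · exact centre_U2 hR hL hK hf hP a g hg

end Pool.Agent.MP_5045a8_al.HX

end

section

namespace Pool.Agent.MP_5045a8_al.HX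

open Matrix O FT

theorem indep_NoPar {y y' : V3} (h : cr y y' ≠ 0) {a b : ℤ} (e : a • y + b • y' = 0) :
    a = 0 ∧ b = 0 := by
  simp only [ext3, Pi.add_apply, Pi.smul_apply, smul_eq_mul, Pi.zero_apply] at e
  obtain ⟨e0, e1, e2⟩ := e
  constructor
  · by_contra ha
    apply h
    simp only [ext3, cr0, cr1, cr2, Pi.zero_apply]
    refine ⟨mul_left_cancel₀ ha ?_, mul_left_cancel₀ ha ?_, mul_left_cancel₀ ha ?_⟩
    · linear_combination y' 2 * e1 - y' 1 * e2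
    · linear_combination y' 0 * e2 - y' 2 * e0
    · linear_combination y' 1 * e0 - y' 0 * e1
  · by_contra hb
    apply h
    simp only [ext3, cr0, cr1, cr2, Pi.zero_apply]
    refine ⟨mul_left_cancel₀ hb ?_, mul_left_cancel₀ hb ?_, mul_left_cancel₀ hb ?_⟩
    · linear_combination y 1 * e2 - y 2 * e1
    · linear_combination y 2 * e0 - y 0 * e2
    · linear_combination y 0 * e1 - y 1 * e0

theorem noPar_stmt : NoParStmt := by
  intro K f y y' g g' m m' hK hL hg hg' hy hy' hc hf hf' hm hm' e1 e2 e3 e4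
  obtain ⟨hf0, N, hN, hL⟩ := hL
  have hd : ∀ k : Fin 2 → ℤ, f ⬝ᵥ (k 0 • y + k 1 • y') = 0 := fun k => by
    rw [dotProduct_add, dotProduct_smul, dotProduct_smul, hy, hy', smul_zero, smul_zero, add_zero]
  have hk : ∀ k : Fin 2 → ℤ, ∃ a : K, mat a = tv (N • (k 0 • y + k 1 • y')) f := fun k => by
    obtain ⟨a, ha, e⟩ := hL _ (hd k)
    exact ⟨⟨a, ha⟩, e⟩
  choose τ hτ using hk
  have hext : ∀ a b : K, mat a = mat b → a = b := fun a b e => Subtype.ext (mat_ext e)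
  have hsub : ∀ k l, τ (l - k) = (τ k)⁻¹ * τ l := by
    intro k l
    rw [eq_inv_mul_iff_mul_eq]
    apply hext
    rw [Subgroup.coe_mul, mat_mul, hτ, hτ, hτ,
      tv_mul_axis (by rw [dotProduct_smul, hd, smul_zero])]
    congr 1
    simp only [Pi.sub_apply, sub_smul, smul_add, smul_sub]; abel
  have hinj : Function.Injective τ := by
    intro k l e
    have h1 := hτ k
    rw [e, hτ, tv, tv, add_right_inj, ← sub_eq_zero, sub_eq_add_neg, ← neg_vecMulVec,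
      ← add_vecMulVec, vecMulVec_eq_zero] at h1
    have h2 := h1.resolve_right hf0
    have h3 : (N * (l 0 - k 0)) • y + (N * (l 1 - k 1)) • y' = 0 := by
      rw [← h2]
      simp only [mul_smul, sub_smul, smul_add, smul_sub]; abel
    obtain ⟨a, b⟩ := indep_NoPar hc h3
    funext i
    fin_cases i
    · exact (sub_eq_zero.1 ((mul_eq_zero.1 a).resolve_left hN)).symm
    · exact (sub_eq_zero.1 ((mul_eq_zero.1 b).resolve_left hN)).symm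
  have hvc := burger (C := normSub τ) hK hsub hinj fun A hA => hA
  have key : ∀ a : K, f ᵥ* mat a = f → ∀ k, mat ((a⁻¹)⁻¹ * τ k * a⁻¹ : K) =
      tv (N • (k 0 • mat a *ᵥ y + k 1 • mat a *ᵥ y')) f := by
    intro a e k
    have h1 : f ᵥ* mat (a : G3)⁻¹ = f := by
      conv_lhs => rw [← e]
      rw [vecMul_vecMul, mat_mul_inv, vecMul_one]
    have := tv_conj (a : G3) (N • (k 0 • y + k 1 • y')) f
    rw [← hτ, h1, mulVec_smul, mulVec_add, mulVec_smul, mulVec_smul] at this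
    simp only [inv_inv, Subgroup.coe_mul, Subgroup.coe_inv, mat_mul]
    exact this
  refine not_vc_parabolic hvc
    (L := GeneralLinearGroup.mk'' !![1, 0; m, 1] (by simp))
    (R := GeneralLinearGroup.mk'' !![1, m'; 0, 1] (by simp))
    ⟨(⟨g, hg⟩ : K)⁻¹, fun k => hext _ _ ?_⟩ ⟨(⟨g', hg'⟩ : K)⁻¹, fun k => hext _ _ ?_⟩ hm hm' rfl rfl
  · rw [key _ hf, hτ]
    have a0 : (k ᵥ* !![1, 0; m, 1]) 0 = k 0 + k 1 * m := by simp [vecMul, dotProduct]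
    have a1 : (k ᵥ* !![1, 0; m, 1]) 1 = k 1 := by simp [vecMul, dotProduct]
    erw [a0, a1, e1, e2]
    congr 2
    simp only [add_smul, smul_add, mul_smul]
    abel
  · rw [key _ hf', hτ]
    have a0 : (k ᵥ* !![1, m'; 0, 1]) 0 = k 0 := by simp [vecMul, dotProduct]
    have a1 : (k ᵥ* !![1, m'; 0, 1]) 1 = k 0 * m' + k 1 := by simp [vecMul, dotProduct]
    erw [a0, a1, e3, e4]
    congr 2
    simp only [add_smul, smul_add, mul_smul]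
    abel

end Pool.Agent.MP_5045a8_al.HX

end

section

namespace Pool.Agent.MP_5045a8_al.HX

open Matrix O FT

theorem par_mono_U3 {H K : Subgroup G3} {f : V3} (h : Par H f) (hle : H ≤ K) : Par K f := by
  intro x hx0 hx
  rcases h x hx0 hx with ⟨φ, hφ, hm⟩ | ⟨u, hu, hr⟩
  · exact Or.inl ⟨φ, hφ, hm.mono hle⟩
  · exact Or.inr ⟨u, hle hu, hr⟩

theorem tv_U3 {H : Subgroup G3} {f a b φ : V3} (hf : f ≠ 0) (h : IsPlaneLift f H) (ha : a ≠ 0)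
    (hφ : φ ≠ 0) (h1 : f ⬝ᵥ a = 0) (h2 : f ⬝ᵥ b = 0) (hab : cr a b ≠ 0) (hm : Mem H (tv a φ)) :
    φ ⬝ᵥ b ≠ 0 := by
  intro e
  have hp := cr_trans hab (cr_of_perp h1 h2) (cr_of_perp hm.dot e)
  obtain ⟨t, ht, et⟩ := hm
  have := h.2 t ht fun z hz => by
    change mat t *ᵥ z = z
    rw [et, tv_mulVec, par_dot_zero hp hf hz]; simp
  rw [this, mat_one, tv, left_eq_add, vecMulVec_eq_zero] at et
  tauto

theorem reg_U3 (hR : RegStmt) {u : G3} {f a b : V3} (hu : Reg u a f) (h2 : f ⬝ᵥ b = 0)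
    (hab : cr a b ≠ 0) : ∃ n m : ℤ, n ≠ 0 ∧ m ≠ 0 ∧ mat (u ^ n) *ᵥ b = b + m • a := by
  have ha : a ≠ 0 := hu.2.2.1
  have hn := (dot_self_pos ha).ne'
  have h3 := par_dot (hR.onv hu h2) a
  have h4 : mat u *ᵥ b - b ≠ 0 := fun e => by
    refine hab (cr_comm_zero (hR.fixv hu ?_))
    rw [sub_eq_zero.1 e, ext3, cr0, cr1, cr2]
    simp [mul_comm]
  have h5 : (mat u - 1) ^ 2 *ᵥ b = 0 := by
    obtain ⟨α, β, hα, -, e⟩ := hR.sq hu
    have e1 := congrArg (· *ᵥ b) e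
    simp only [smul_mulVec, vecMulVec_mulVec, op_smul_eq_smul, h2, zero_smul, smul_zero] at e1
    exact (smul_eq_zero.1 e1).resolve_left hα
  refine ⟨a ⬝ᵥ a, (mat u *ᵥ b - b) ⬝ᵥ a, hn, fun e => ?_, ?_⟩
  · rw [e, zero_smul, eq_comm, smul_eq_zero] at h3
    tauto
  · have e1 := congrArg (· *ᵥ b) (hR.pow hu.1 (a ⬝ᵥ a))
    simp only [smul_mulVec, add_mulVec, sub_mulVec, one_mulVec, h5, smul_zero, add_zero] at e1
    rw [mul_smul, ← h3, ← smul_add] at e1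
    exact smul_right_injective _ two_ne_zero e1

theorem step_U3 (hR : RegStmt) {H : Subgroup G3} {f a b : V3} (hf : f ≠ 0) (h : IsPlaneLift f H)
    (hP : Par H f) (ha : a ≠ 0) (h1 : f ⬝ᵥ a = 0) (h2 : f ⬝ᵥ b = 0) (hab : cr a b ≠ 0) :
    ∃ g ∈ H, ∃ m : ℤ, m ≠ 0 ∧ f ᵥ* mat g = f ∧ mat g *ᵥ a = a ∧ mat g *ᵥ b = b + m • a := by
  rcases hP a ha h1 with ⟨φ, hφ, hm⟩ | ⟨u, hu, hr⟩
  · have h3 := tv_U3 hf h ha hφ h1 h2 hab hm
    have h4 := hm.dot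
    obtain ⟨t, ht, et⟩ := hm
    refine ⟨t, ht, φ ⬝ᵥ b, h3, ?_, ?_, ?_⟩
    · rw [et, vecMul_tv, h1, zero_smul, add_zero]
    · rw [et, tv_mulVec, h4, zero_smul, add_zero]
    · rw [et, tv_mulVec]
  · obtain ⟨n, m, hn, hm, e⟩ := reg_U3 hR hr h2 hab
    have h3 := hR.zpow hr hn
    exact ⟨u ^ n, H.zpow_mem hu n, m, hm, h3.2.2.2.2.2, h3.2.2.2.2.1, e⟩

theorem u3_stmt (hR : RegStmt) (h2 : U2Stmt) (hL : ParLatStmt) (hN : NoParStmt) : U3Stmt := by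
  intro H f hf hP h hm
  refine ⟨h.hp hf, fun K hlt hK => ?_⟩
  have hPK := par_mono_U3 hP hlt.le
  by_cases hfa : ∀ g ∈ K, (∀ x, f ⬝ᵥ x = 0 → mat g *ᵥ x = x) → g = 1
  · exact hlt.ne' (hm K ⟨h2 K f hK hf hPK, hfa⟩ hlt.le)
  push Not at hfa
  obtain ⟨g, hg, g1, g2⟩ := hfa
  obtain ⟨y, hy, hmy⟩ := mem_of_fix hf hg g2 g1
  obtain ⟨x, hx0, hx, hyx⟩ := exists_indep hf hy hmy.dot
  obtain ⟨s, hs, m, hm0, s1, s2, s3⟩ := step_U3 hR hf h hP hy hmy.dot hx hyx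
  obtain ⟨t, ht, m', hm0', t1, t2, t3⟩ := step_U3 hR hf h hP hx0 hx hmy.dot (cr_ne_comm hyx)
  exact hN K f y x s t m m' hK (hL K f y hf hy hPK hmy) (hlt.le hs) (hlt.le ht) hmy.dot hx hyx
    s1 t1 hm0 hm0' s2 s3 t2 t3

end Pool.Agent.MP_5045a8_al.HX

end

section

namespace Pool.Agent.MP_5045a8_al.HX

open Matrix O FT

theorem shear_FinPar {H : Subgroup G3} {f x φ : V3} (hI : FinImage f H) (hx : f ⬝ᵥ x = 0)
    (hφ : φ ⬝ᵥ x = 0) :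
    ∃ g ∈ H, ∃ m : ℤ, m ≠ 0 ∧ ∀ z, f ⬝ᵥ z = 0 → mat g *ᵥ z = tv (m • x) φ *ᵥ z := by
  obtain ⟨S, hS⟩ := hI
  let t : G3 := mk3 (tv x φ) (by rw [det_tv, hφ, add_zero])
  have ht : ∀ n : ℤ, mat (t ^ n) = tv (n • x) φ := zpow_tv rfl
  have h1 : ∀ n : ℕ, ∃ h ∈ H, ∃ s : S, ∀ z, f ⬝ᵥ z = 0 →
      tv ((n : ℤ) • x) φ *ᵥ z = mat h *ᵥ (mat s *ᵥ z) := by
    intro n
    obtain ⟨h, hh, s, hs, e⟩ := hS (t ^ (n : ℤ)) (Or.inl (by
      show f ᵥ* mat _ = f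
      rw [ht, vecMul_tv, dotProduct_smul, hx, smul_zero, zero_smul, add_zero]))
    refine ⟨h, hh, ⟨s, hs⟩, fun z hz => ?_⟩
    rw [← ht, mulVec_mulVec, ← mat_mul]
    exact e z hz
  choose h hh s e using h1
  obtain ⟨a, b, hab, hs⟩ := Finite.exists_ne_map_eq_of_infinite s
  refine ⟨h b * (h a)⁻¹, H.mul_mem (hh b) (H.inv_mem (hh a)), (b : ℤ) - a,
    sub_ne_zero.2 (by exact_mod_cast hab.symm), fun z hz => ?_⟩
  have hn : ∀ n : ℤ, φ ⬝ᵥ (n • x) = 0 := fun n => by rw [dotProduct_smul, hφ, smul_zero]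
  have hw : f ⬝ᵥ (tv ((-(a : ℤ)) • x) φ *ᵥ z) = 0 := by
    rw [tv_mulVec, dotProduct_add, hz, dotProduct_smul, dotProduct_smul, hx]
    simp
  have e1 := e a _ hw
  have e2 := e b _ hw
  rw [mulVec_mulVec, tv_mul_axis (hn _), ← add_smul, add_neg_cancel, zero_smul, tv_zero_left,
    one_mulVec] at e1
  rw [mulVec_mulVec, tv_mul_axis (hn _), ← add_smul, ← sub_eq_add_neg, ← hs] at e2
  rw [e2, mat_mul, ← mulVec_mulVec]
  congr 1
  conv_lhs => rw [e1]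
  rw [mulVec_mulVec, mat_inv_mul, one_mulVec]

theorem fix_FinPar {f x φ : V3} {g : G3} (hf : f ≠ 0) (hx : f ⬝ᵥ x = 0) (hφ : φ ⬝ᵥ x = 0)
    (hg : ∀ z, f ⬝ᵥ z = 0 → mat g *ᵥ z = tv x φ *ᵥ z) : f ᵥ* mat g = f := by
  let t : G3 := mk3 (tv x φ) (by rw [det_tv, hφ, add_zero])
  have ht : mat t = tv x φ := rfl
  have hu : ∀ z, f ⬝ᵥ z = 0 → mat (t⁻¹ * g) *ᵥ z = z := fun z hz => by
    rw [mat_mul, ← mulVec_mulVec, hg z hz, ← ht, mulVec_mulVec, mat_inv_mul, one_mulVec]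
  obtain ⟨e, h0⟩ := fix_plane hf hu
  have e1 := congrArg (f ᵥ* ·) e
  simp only [vecMul_smul, vecMul_vecMulVec, h0, zero_smul] at e1
  have e2 := (smul_eq_zero.1 e1).resolve_left (dot_self_pos hf).ne'
  rw [vecMul_sub, vecMul_one, sub_eq_zero, mat_mul, ← vecMul_vecMul, inv_tv ht, vecMul_tv,
    dotProduct_neg, hx, neg_zero, zero_smul, add_zero] at e2
  exact e2

theorem finPar_stmt (hR : RegStmt) : FinParStmt := by
  intro H f hf _ hI x hx0 hx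
  have hφ0 : cr f x ≠ 0 := cr_ne_of_dot hx0 hx (dot_self_pos hf).ne'
  have hφ : cr f x ⬝ᵥ x = 0 := by rw [dotProduct_comm]; exact dot_cr_right f x
  have hfφ : f ⬝ᵥ cr f x = 0 := dot_cr_left f x
  generalize cr f x = φ at hφ0 hφ hfφ
  obtain ⟨g, hgH, m, hm, hg⟩ := shear_FinPar hI hx hφ
  have hfg : f ᵥ* mat g = f := fix_FinPar hf (by rw [dotProduct_smul, hx, smul_zero])
    (by rw [dotProduct_smul, hφ, smul_zero]) hg
  have hA : ∀ z, f ⬝ᵥ z = 0 → (mat g - 1) *ᵥ z = ((φ ⬝ᵥ z) * m) • x := fun z hz => by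
    rw [sub_mulVec, one_mulVec, hg z hz, tv_mulVec, add_sub_cancel_left, smul_smul]
  have hB : ∀ z, f ⬝ᵥ ((mat g - 1) *ᵥ z) = 0 := fun z => by
    rw [dotProduct_mulVec, vecMul_sub, hfg, vecMul_one, sub_self, zero_dotProduct]
  have hAx : (mat g - 1) *ᵥ x = 0 := by rw [hA x hx, hφ, zero_mul, zero_smul]
  have h3 : (mat g - 1) ^ 3 = 0 := by
    refine Matrix.ext_iff_mulVec.2 fun z => ?_
    rw [pow_three, ← mulVec_mulVec, ← mulVec_mulVec, hA _ (hB z), mulVec_smul, hAx, smul_zero,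
      zero_mulVec]
  have hc : φ ⬝ᵥ φ * m ≠ 0 := mul_ne_zero (dot_self_pos hφ0).ne' hm
  have h1 : g ≠ 1 := fun e => by
    have := hA φ hfφ
    rw [e, mat_one, sub_self, zero_mulVec] at this
    exact smul_ne_zero hc hx0 this.symm
  by_cases h2 : (mat g - 1) ^ 2 = 0
  · rcases hR.ex h3 h1 with ⟨p, f', hr⟩ | ⟨n, p, f', hp, hf', e, e'⟩
    · exact absurd h2 hr.2.1
    · have hn : n ≠ 0 := fun e0 => by
        rw [e0, zero_smul, eq_comm, vecMulVec_eq_zero] at e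
        exact e.elim hp hf'
      have e1 := congrArg (· *ᵥ φ) e
      simp only [smul_mulVec, hA φ hfφ, vecMulVec_mulVec, smul_smul, op_smul_eq_smul] at e1
      have e2 := Mem.zsmul (K := H) ⟨g ^ n, H.zpow_mem hgH n, e'⟩ (f' ⬝ᵥ φ)
      rw [← e1, tv_smul] at e2
      exact Or.inl ⟨_, smul_ne_zero (mul_ne_zero hn hc) hf', e2⟩
  · refine Or.inr ⟨g, hgH, h3, h2, hx0, hf, ?_, hfg⟩
    rw [sub_mulVec, one_mulVec, sub_eq_zero] at hAx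
    exact hAx

end Pool.Agent.MP_5045a8_al.HX

end

section

namespace Pool.Agent.MP_5045a8_al.HX

open Matrix O FT

/-- The polynomial along a quadratic curve of matrices. -/
noncomputable def ph_LieB (A B Z : RM) : MP →ₐ[ℝ] Polynomial ℝ :=
  MvPolynomial.aeval fun ij : Fin 3 × Fin 3 => Polynomial.C (A ij.1 ij.2) +
    Polynomial.C (B ij.1 ij.2) * Polynomial.X + Polynomial.C (Z ij.1 ij.2) * Polynomial.X ^ 2

lemma eval_LieB (A B Z : RM) (t : ℝ) (P : MP) :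
    (ph_LieB A B Z P).eval t = ev (A + t • B + t ^ 2 • Z) P := by
  rw [← Polynomial.coe_aeval_eq_eval, ← AlgHom.comp_apply, ph_LieB, MvPolynomial.comp_aeval,
    MvPolynomial.aeval_eq_eval, ev]
  congr 2
  funext ij
  simp
  ring

lemma der_LieB (A Y Z : RM) (P : MP) :
    (Polynomial.derivative (ph_LieB A (A * Y) Z P)).eval 0 = ev A (Dv Y P) := by
  induction P using MvPolynomial.induction_on with
  | C a => simp [ph_LieB, ev]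
  | add p q hp hq => simp only [map_add, Polynomial.eval_add, hp, hq, ev]
  | mul_X p i hp =>
    have h0 := eval_LieB A (A * Y) Z 0 p
    rw [map_mul, Polynomial.derivative_mul, Polynomial.eval_add, Polynomial.eval_mul,
      Polynomial.eval_mul, hp, h0, Derivation.leibniz]
    simp [ph_LieB, ev, Dv, MvPolynomial.mkDerivation_X, Matrix.mul_apply,
      Polynomial.eval_finsetSum]
    ring

lemma rm_mul_LieB (g h : G3) : rm (mat (g * h)) = rm (mat g) * rm (mat h) :=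
  Matrix.map_mul (L := g.1) (M := h.1) (f := Int.castRingHom ℝ)

lemma sub_LieB (B : RM) (P : MP) : ∃ P' : MP, ∀ A, ev A P' = ev (A * B) P := by
  refine ⟨MvPolynomial.bind₁ (fun ij : Fin 3 × Fin 3 =>
    ∑ k, MvPolynomial.X (ij.1, k) * MvPolynomial.C (B k ij.2)) P, fun A => ?_⟩
  rw [ev, zar_sub, ev]
  congr 2
  funext ij
  simp [Matrix.mul_apply]

theorem lieAd_stmt : LieAdStmt := by
  intro H Y h hh hY P hP g hg
  obtain ⟨P', hP'⟩ := sub_LieB (rm (mat h⁻¹)) P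
  have h1 : Van H P' := fun k hk => by
    rw [hP', ← rm_mul_LieB]
    exact hP _ (H.mul_mem hk (H.inv_mem hh))
  have h2 := hY P' h1 (g * h) (H.mul_mem hg hh)
  rw [← der_LieB _ _ 0] at h2 ⊢
  rw [← h2]
  congr 2
  refine Polynomial.funext fun t => ?_
  rw [eval_LieB, eval_LieB, hP']
  congr 1
  rw [smul_zero, add_zero, add_zero, add_mul, ← rm_mul_LieB, mul_inv_cancel_right, rm_mul_LieB,
    smul_mul_assoc]
  simp only [mul_assoc]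

theorem lieLog_stmt (hR : RegStmt) : LieLogStmt := by
  intro H u hu hn P hP g hg
  obtain ⟨N, hN⟩ : ∃ N : RM, N = rm (mat u) - 1 := ⟨_, rfl⟩
  rw [← hN, ← der_LieB _ _ (rm (mat g) * ((1 / 2 : ℝ) • N ^ 2))]
  have h0 : ph_LieB (rm (mat g)) (rm (mat g) * (N - (1 / 2 : ℝ) • N ^ 2))
      (rm (mat g) * ((1 / 2 : ℝ) • N ^ 2)) P = 0 := by
    refine Polynomial.eq_zero_of_infinite_isRoot _
      (Set.infinite_of_injective_forall_mem (f := fun n : ℤ => (n : ℝ)) Int.cast_injective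
        fun n => ?_)
    show Polynomial.eval (n : ℝ) _ = 0
    rw [eval_LieB, ← hP (g * u ^ n) (H.mul_mem hg (H.zpow_mem hu n)), rm_mul_LieB]
    congr 1
    have e := congrArg (Int.castRingHom ℝ).mapMatrix (hR.pow hn n)
    simp only [map_add, map_zsmul, map_pow, map_sub, map_one] at e
    have e1 : (2 : ℤ) • rm (mat (u ^ n)) = (2 : ℤ) • (1 : RM) + (2 * n) • N +
        (n * (n - 1)) • N ^ 2 := by
      rw [hN]; exact e
    have e2 : rm (mat (u ^ n)) =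
        1 + (n : ℝ) • (N - (1 / 2 : ℝ) • N ^ 2) + (n : ℝ) ^ 2 • ((1 / 2 : ℝ) • N ^ 2) := by
      simp only [← Int.cast_smul_eq_zsmul ℝ] at e1
      push_cast at e1
      linear_combination (norm := module) (1 / 2 : ℝ) • e1
    rw [e2, mul_add, mul_add, mul_one, mul_smul_comm (n : ℝ), mul_smul_comm ((n : ℝ) ^ 2)]
  rw [h0]
  simp

end Pool.Agent.MP_5045a8_al.HX

end

section

namespace Pool.Agent.MP_5045a8_al.HX

open Matrix O FT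

theorem cast_ne_Class {p : V3} (hp : p ≠ 0) : (fun i => (p i : ℚ)) ≠ 0 := by
  intro e
  apply hp
  funext i
  have : (p i : ℚ) = 0 := congrFun e i
  exact Int.cast_eq_zero.1 this

theorem class_stmt (hR : RegStmt) (hL : LieStmt) (hZ : ZdStmt) (h1 : R1Stmt) (h2 : R2Stmt) :
    ClassStmt := by
  intro H u hZD hI hu hu1 h3
  obtain ⟨L, hP, hlog, hexp⟩ := hL H
  let φ : M3 →+* QM := (Int.castRingHom ℚ).mapMatrix
  have hq : qm u = φ (mat u) := rfl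
  have hno : ∀ (p f : V3) (a b : ℤ) (M : M3), p ≠ 0 → f ≠ 0 → f ⬝ᵥ p = 0 → b ≠ 0 →
      a • M = b • vecMulVec p f → φ M ∉ L := by
    intro p f a b M hp hf hd hb e hM
    have e1 : vecMulVec (fun i => (p i : ℚ)) (fun i => (f i : ℚ)) = ((a : ℚ) / b) • φ M := by
      have hb' : (b : ℚ) ≠ 0 := by exact_mod_cast hb
      ext i j
      have := congrFun (congrFun e i) j
      simp only [Matrix.smul_apply, smul_eq_mul, vecMulVec_apply] at this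
      have t : (a : ℚ) * M i j = b * (p i * f j) := by exact_mod_cast this
      simp only [vecMulVec_apply, Matrix.smul_apply, smul_eq_mul, φ, RingHom.mapMatrix_apply,
        map_apply, eq_intCast]
      field_simp
      linear_combination -t
    have hd' : (fun i => (f i : ℚ)) ⬝ᵥ (fun i => (p i : ℚ)) = 0 := by
      simp only [dotProduct] at hd ⊢
      exact_mod_cast hd
    have hs := h1 H L _ _ hP hI (cast_ne_Class hp) (cast_ne_Class hf) hd'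
      (e1 ▸ L.smul_mem _ hM)
    refine hZD (hZ H fun i j c hij => ?_)
    have := hexp _ (hs i j hij) (single_mul_single_of_ne _ _ _ _ hij.symm _) c
    have e2 : (1 : RM) + c • qr (single i j 1) = transvection i j c := by
      rw [transvection]
      congr 1
      ext k l
      simp only [qr, Matrix.smul_apply, map_apply, single_apply, smul_eq_mul]
      split_ifs <;> simp
    rwa [e2] at this
  have hY := hlog u hu h3
  have hN : qm u - 1 = φ (mat u - 1) := by rw [map_sub, map_one, hq]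
  rw [hN] at hY
  have n3 : φ (mat u - 1) ^ 3 = 0 := by rw [← map_pow, h3, map_zero]
  rcases hR.ex h3 hu1 with ⟨p, f, hr⟩ | ⟨n, p, f, hp, hf, e, e'⟩
  · obtain ⟨a, b, -, hb, e⟩ := hR.sq hr
    have hn := hno p f a b _ hr.2.2.1 hr.2.2.2.1 (hR.dot hr) hb e
    rw [map_pow] at hn
    generalize φ (mat u - 1) = N at *
    have y2 : (N - (1 / 2 : ℚ) • N ^ 2) ^ 2 = N ^ 2 := by
      have a3 : N * N ^ 2 = 0 := by rw [← pow_succ', n3]
      have a4 : N ^ 2 * N = 0 := by rw [← pow_succ, n3]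
      have a5 : N ^ 2 * N ^ 2 = 0 := by rw [sq N, ← mul_assoc, ← sq, a4, zero_mul]
      rw [sq]
      simp only [sub_mul, mul_sub, smul_mul_assoc, mul_smul_comm, a3, a4, a5, smul_zero, sub_zero]
      rw [sq]
    refine h2 H L _ hP hI hY ?_ (by rwa [y2])
    rw [pow_succ, y2, mul_sub, mul_smul_comm, ← pow_succ, ← pow_add, n3,
      show 2 + 2 = 3 + 1 from rfl, pow_succ, n3]
    simp
  · have hd : f ⬝ᵥ p = 0 := Mem.dot (K := ⊤) ⟨_, trivial, e'⟩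
    have hn0 : n ≠ 0 := by
      rintro rfl
      rw [zero_smul, eq_comm, vecMulVec_eq_zero] at e
      exact e.elim hp hf
    have s2 : (mat u - 1) ^ 2 = 0 := by
      have : (n * n) • (mat u - 1) ^ 2 = 0 := by
        rw [sq, ← smul_mul_smul_comm, e, vecMulVec_mul_vecMulVec, hd]
        simp
      exact (smul_eq_zero.1 this).resolve_left (mul_ne_zero hn0 hn0)
    rw [← map_pow, s2, map_zero, smul_zero, sub_zero] at hY
    exact absurd hY (hno p f n 1 _ hp hf hd one_ne_zero (by rw [e, one_smul]))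

end Pool.Agent.MP_5045a8_al.HX

end

section

/-! Subgroups of SL(3,Z) that are not Zariski dense: definitions and statements. -/

namespace Pool.Agent.MP_5045a8_al.HX

open Matrix O FT

/-- Complex vectors. -/
abbrev C3 : Type := Fin 3 → ℂ

/-- Complex matrices. -/
abbrev CM : Type := Matrix (Fin 3) (Fin 3) ℂ

/-- The complex matrix of an element of SL(3,Z). -/
def cm : G3 →* CM where
  toFun g := (g : Matrix (Fin 3) (Fin 3) ℤ).map (Int.castRingHom ℂ)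
  map_one' := by simp
  map_mul' g h := Matrix.map_mul (L := g.1) (M := h.1) (f := Int.castRingHom ℂ)

/-- The complex matrix of a rational matrix. -/
def qc (Y : QM) : CM := Y.map (fun q : ℚ => (q : ℂ))

/-- A Lie algebra of traceless complex matrices normalised by H. -/
structure LieC (H : Subgroup G3) (L : Submodule ℂ CM) : Prop where
  br : ∀ Y ∈ L, ∀ Z ∈ L, Y * Z - Z * Y ∈ L
  ad : ∀ h ∈ H, ∀ Y ∈ L, cm h * Y * cm h⁻¹ ∈ L
  tr0 : ∀ Y ∈ L, trace Y = 0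

/-- H fixes no complex point and no complex plane. -/
def IrrC (H : Subgroup G3) : Prop :=
  ∀ c : C3, c ≠ 0 → (∃ h ∈ H, (cm h *ᵥ c) ⨯₃ c ≠ 0) ∧ ∃ h ∈ H, (c ᵥ* cm h) ⨯₃ c ≠ 0

/-- The complex span of a space of rational matrices. -/
def cx (L : Submodule ℚ QM) : Submodule ℂ CM := Submodule.span ℂ (qc '' L)

def SpanCStmt : Prop :=
  ∀ (H : Subgroup G3) (c φ : C3), IrrC H → c ≠ 0 → φ ≠ 0 → ∃ h ∈ H, φ ⬝ᵥ cm h *ᵥ c ≠ 0

def WtCStmt : Prop :=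
  ∀ (L : Submodule ℂ CM) (Y : CM), (∀ Y ∈ L, ∀ Z ∈ L, Y * Z - Z * Y ∈ L) →
    single 0 1 1 ∈ L → single 1 0 1 ∈ L → Y ∈ L → (Y 0 2 ≠ 0 ∨ Y 1 2 ≠ 0) → single 0 2 1 ∈ L

def FullCStmt : Prop :=
  ∀ (H : Subgroup G3) (L : Submodule ℂ CM) (c μ : C3), LieC H L → IrrC H → c ≠ 0 → μ ≠ 0 →
    μ ⬝ᵥ c = 0 → vecMulVec c μ ∈ L → ∀ η : C3, η ⬝ᵥ c = 0 → vecMulVec c η ∈ L

def R1CStmt : Prop :=
  ∀ (H : Subgroup G3) (L : Submodule ℂ CM) (c μ : C3), LieC H L → IrrC H → c ≠ 0 → μ ≠ 0 →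
    μ ⬝ᵥ c = 0 → vecMulVec c μ ∈ L → ∀ i j : Fin 3, i ≠ j → single i j 1 ∈ L

/-- The principal nilpotent matrix. -/
def XC : CM := !![0, 1, 0; 0, 0, 1; 0, 0, 0]

/-- A semisimple matrix. -/
def DC (κ : ℂ) : CM := !![1, 0, κ; 0, 0, 0; 0, 0, -1]

/-- The invariant form. -/
def BC (κ : ℂ) : CM := !![0, 0, 1; 0, -1, 0; 1, 0, κ]

def SoCStmt : Prop :=
  ∀ L : Submodule ℂ CM, (∀ Y ∈ L, ∀ Z ∈ L, Y * Z - Z * Y ∈ L) → (∀ Y ∈ L, trace Y = 0) →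
    XC ∈ L → single 0 2 1 ∉ L →
    (∀ Y ∈ L, Y 1 0 = 0 ∧ Y 2 0 = 0) ∨
      ∃ κ : ℂ, DC κ ∈ L ∧ ∀ Y ∈ L, Yᵀ * BC κ + BC κ * Y = 0

/-- B spans the space of symmetric forms invariant under L. -/
def InvF (L : Submodule ℂ CM) (B : CM) : Prop :=
  Bᵀ = B ∧ B ≠ 0 ∧ (∀ Z ∈ L, Zᵀ * B + B * Z = 0) ∧
    ∀ B' : CM, B'ᵀ = B' → (∀ Z ∈ L, Zᵀ * B' + B' * Z = 0) → ∃ c : ℂ, B' = c • B

def R2CStmt : Prop :=
  ∀ (H : Subgroup G3) (L : Submodule ℂ CM) (Y : CM), LieC H L → IrrC H → Y ∈ L → Y ^ 3 = 0 →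
    Y ^ 2 ∉ L → ∃ B, InvF L B

def CxStmt : Prop :=
  ∀ (H : Subgroup G3) (L : Submodule ℚ QM), LieP H L →
    LieC H (cx L) ∧ ∀ Z ∈ cx L, ∀ l : ℂ →ₗ[ℚ] ℚ, Z.map l ∈ L

def FormStmt : Prop :=
  ∀ (H : Subgroup G3) (L : Submodule ℚ QM) (B : CM), LieP H L → Irr H → InvF (cx L) B →
    ∃ B₀ : M3, B₀ᵀ = B₀ ∧ B₀.det ≠ 0 ∧ H ≤ SOq B₀

def ClassCStmt : Prop :=
  ∀ (H : Subgroup G3) (L : Submodule ℚ QM) (X : CM), LieP H L → Irr H → IrrC H → X ∈ cx L →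
    X ≠ 0 → X ^ 3 = 0 → (∀ i j : Fin 3, i ≠ j → single i j 1 ∈ L) ∨
      ∃ B₀ : M3, B₀ᵀ = B₀ ∧ B₀.det ≠ 0 ∧ H ≤ SOq B₀

def NilStmt : Prop :=
  ∀ (L : Submodule ℂ CM) (Y Z P : CM) (y : C3), (∀ Y ∈ L, ∀ Z ∈ L, Y * Z - Z * Y ∈ L) → Y ∈ L →
    Z ∈ L → P.det ≠ 0 → Y * P = P * diagonal y → Y * Z ≠ Z * Y → ∃ X ∈ L, X ≠ 0 ∧ X ^ 3 = 0

def AbsStmt : Prop :=
  ∀ H : Subgroup G3, Irr H → ¬ IrrC H → ∀ g ∈ H, ∀ h ∈ H, g * h = h * g

/-- g has no eigenvalue 1 or -1. -/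
def NoEig (g : G3) : Prop := (mat g - 1).det ≠ 0 ∧ (mat g + 1).det ≠ 0

/-- The normaliser of the centraliser of g. -/
def TorN (g : G3) : Subgroup G3 := Subgroup.normalizer (Subgroup.centralizer {g} : Subgroup G3)

def AbelStmt : Prop :=
  ∀ H : Subgroup G3, Irr H → (∀ g ∈ H, ∀ h ∈ H, g * h = h * g) → ∃ g, NoEig g ∧ H ≤ TorN g

/-- g is diagonalised by P with distinct eigenvalues. -/
def Diag (g : G3) (P : CM) (e : C3) : Prop :=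
  P.det ≠ 0 ∧ Function.Injective e ∧ cm g * P = P * diagonal e

def CubStmt : Prop :=
  ∀ a b : ℤ, (a = b ∧ -1 ≤ a ∧ a ≤ 3) ∨ ∃ e : C3, Function.Injective e ∧ (∃ i, ‖e i‖ ≠ 1) ∧
    e 0 + e 1 + e 2 = a ∧ e 0 * e 1 + e 0 * e 2 + e 1 * e 2 = b ∧ e 0 * e 1 * e 2 = 1

def SpecStmt : Prop :=
  ∀ g : G3, (mat (g ^ 12) - 1) ^ 3 ≠ 0 → ∃ P e, Diag g P e ∧ ∃ i, ‖e i‖ ≠ 1

def NoEigStmt : Prop := ∀ g : G3, NoEig g → (mat (g ^ 12) - 1) ^ 3 ≠ 0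

def TorStmt : Prop := ∀ (g : G3) (P : CM) (e : C3), Diag g P e → HP (TorN g)

def ExpStmt : Prop :=
  ∀ (F : MvPolynomial (Fin 3) ℂ) (e : C3), (∀ i, e i ≠ 0) →
    (∀ n : ℕ, MvPolynomial.eval (fun i => e i ^ n) F = 0) →
    ∑ k, ((Real.log ‖e k‖ : ℝ) : ℂ) * MvPolynomial.eval (fun _ => 1) (MvPolynomial.pderiv k F) = 0

def SemiStmt : Prop :=
  ∀ (H : Subgroup G3) (g h : G3) (P : CM) (e : C3) (a b c : ℂ) (Q : MP), g ∈ H → h ∈ H →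
    Diag g P e → (∀ i, a + b * e i + c * e i ^ 2 = ((Real.log ‖e i‖ : ℝ) : ℂ)) → Van H Q →
    a * (ev (rm (mat h)) (Dv (qr 1) Q) : ℝ) + b * (ev (rm (mat h)) (Dv (qr (qm g)) Q) : ℝ) +
      c * (ev (rm (mat h)) (Dv (qr (qm g ^ 2)) Q) : ℝ) = 0

def RatStmt : Prop :=
  ∀ (H : Subgroup G3) (a b c : ℂ) (Y₁ Y₂ Y₃ : QM) (l : ℂ →ₗ[ℚ] ℚ),
    (∀ Q, Van H Q → ∀ h ∈ H, a * (ev (rm (mat h)) (Dv (qr Y₁) Q) : ℝ) +
      b * (ev (rm (mat h)) (Dv (qr Y₂) Q) : ℝ) + c * (ev (rm (mat h)) (Dv (qr Y₃) Q) : ℝ) = 0) →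
    GR H (qr (l a • Y₁ + l b • Y₂ + l c • Y₃))

/-- Y is a non-zero traceless polynomial in g that kills the rational eigenvectors of g. -/
def Pre (g : G3) (Y : QM) : Prop :=
  Y ≠ 0 ∧ trace Y = 0 ∧ (∃ a b c : ℚ, Y = a • (1 : QM) + b • qm g + c • qm g ^ 2) ∧
    ∀ v : Q3, (qm g *ᵥ v = v ∨ qm g *ᵥ v = -v) → Y *ᵥ v = 0

def PreStmt : Prop :=
  ∀ (H : Subgroup G3) (g : G3) (P : CM) (e : C3), g ∈ H → Diag g P e → (∃ i, ‖e i‖ ≠ 1) →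
    ∃ Y, Pre g Y ∧ GR H (qr Y)

/-- Properties of a regular semisimple polynomial in g. -/
structure Good (g : G3) (Y : QM) : Prop where
  dg : ∃ (P : CM) (y : C3), P.det ≠ 0 ∧ qc Y * P = P * diagonal y
  eig : ∀ (v : Q3) (ρ : ℚ), v ≠ 0 → Y *ᵥ v = ρ • v → ρ = 0
  ker : ∀ v w : Q3, Y *ᵥ v = 0 → Y *ᵥ w = 0 → w ⨯₃ v = 0
  com : ∀ A B : QM, A * Y = Y * A → B * Y = Y * B → A * B = B * A

def GoodStmt : Prop :=
  ∀ (g : G3) (P : CM) (e : C3) (Y : QM), Diag g P e → Pre g Y → Good g Y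

def ComStmt : Prop :=
  ∀ (H : Subgroup G3) (g : G3) (Y : QM), Irr H → Pre g Y → Good g Y →
    (∀ h ∈ H, Y * (qm h * Y * qm h⁻¹) = qm h * Y * qm h⁻¹ * Y) → NoEig g ∧ H ≤ TorN g

def Lie2Stmt : Prop :=
  ∀ H : Subgroup G3, ∃ L : Submodule ℚ QM, LieP H L ∧
    (∀ Y, trace Y = 0 → GR H (qr Y) → Y ∈ L) ∧
    ((∀ i j : Fin 3, i ≠ j → single i j 1 ∈ L) → ZDense H)

def TorsStmt : Prop := ∀ H : Subgroup G3, (∀ g ∈ H, g ^ 12 = 1) → Finite H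

def DefStmt : Prop := ∀ B : M3, Bᵀ = B → B.det ≠ 0 → ¬ Ind B → Finite (SOq B)

def GenStmt : Prop :=
  ∀ H : Subgroup G3, Finite H → ∃ x φ : V3, x ≠ 0 ∧ φ ≠ 0 ∧ φ ⬝ᵥ x = 0 ∧
    ∀ h ∈ H, h ≠ 1 → φ ⬝ᵥ mat h *ᵥ x ≠ 0

def FreeStmt : Prop :=
  ∀ (ι : Type) [Finite ι] (x φ : ι → V3), (∀ i, x i ≠ 0 ∧ φ i ≠ 0 ∧ φ i ⬝ᵥ x i = 0) →
    (∀ i j, i ≠ j → φ i ⬝ᵥ x j ≠ 0) → ∃ N : ℤ, N ≠ 0 ∧ ∀ t : ι → G3,
      (∀ i, mat (t i) = tv (N • x i) (φ i)) → HP (Subgroup.closure (Set.range t))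

def FinExtStmt : Prop := ∀ H : Subgroup G3, Finite H → ∃ K, H < K ∧ HP K

def IrrStmt : Prop :=
  ∀ H : Subgroup G3, MaxHP H → Irr H → ¬ ZDense H →
    (∃ g, NoEig g ∧ H = TorN g) ∨ ∃ B, Ind B ∧ H = SOq B

end Pool.Agent.MP_5045a8_al.HX

end

section

/-! A ping-pong lemma: the point z has trivial stabiliser. -/

namespace Pool.Agent.MP_5045a8_al.HX

open Matrix O FT

/-- Alternating words whose tails keep z outside W'. -/
inductive alt_PP {G α : Type} [Group G] [MulAction G α] (H : Subgroup G) (t : G) (W' : Set α)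
    (z : α) : G → Prop
  | base (g : G) (hg : g ∈ H) : alt_PP H t W' z g
  | step (h : G) (hh : h ∈ H) (j : ℤ) (hj : j ≠ 0) (r : G) (hr : alt_PP H t W' z r)
      (hT : r • z ∉ W') : alt_PP H t W' z (h * (t ^ j * r))

theorem pp_stmt : PPStmt := by
  intro G α _ _ H t X W W' z hX hW hzX hzW hzW' hH ht
  have h1 : ∀ g ∈ H, ∀ w, alt_PP H t W' z w → alt_PP H t W' z (g * w) := by
    intro g hg w hw
    cases hw with
    | base _ h => exact alt_PP.base _ (H.mul_mem hg h)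
    | step g' hg' j hj r hr hT =>
      rw [← mul_assoc]
      exact alt_PP.step _ (H.mul_mem hg hg') j hj r hr hT
  have h2 : ∀ (i : ℤ) (w : G), alt_PP H t W' z w → alt_PP H t W' z (t ^ i * w) := by
    intro i w hw
    by_cases hi : i = 0
    · rwa [hi, zpow_zero, one_mul]
    have hw' := hw
    cases hw with
    | base _ h =>
      rw [← one_mul (t ^ i * w)]
      refine alt_PP.step 1 H.one_mem i hi w hw' ?_
      by_cases e : w = 1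
      · rwa [e, one_smul]
      · exact fun h' => hH w h e z hzW (hW h')
    | step g hg j hj r hr hT =>
      by_cases e : g = 1
      · rw [e, one_mul, ← mul_assoc, ← _root_.zpow_add]
        by_cases hij : i + j = 0
        · rwa [hij, zpow_zero, one_mul]
        · rw [← one_mul (t ^ (i + j) * r)]
          exact alt_PP.step 1 H.one_mem _ hij r hr hT
      · rw [← one_mul (t ^ i * (g * (t ^ j * r)))]
        refine alt_PP.step 1 H.one_mem i hi _ hw' ?_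
        rw [mul_smul, mul_smul]
        exact fun h' => hH g hg e _ (hW (ht j hj _ (hX r z hzX) hT)) (hW h')
  have h3 : ∀ w ∈ H ⊔ Subgroup.zpowers t, alt_PP H t W' z w := by
    intro w hw
    rw [Subgroup.sup_eq_closure] at hw
    have h4 : ∀ g ∈ (H : Set G) ∪ (Subgroup.zpowers t : Set G), ∀ w, alt_PP H t W' z w →
        alt_PP H t W' z (g * w) ∧ alt_PP H t W' z (g⁻¹ * w) := by
      rintro g (hg | ⟨i, rfl⟩) w hw
      · exact ⟨h1 g hg w hw, h1 _ (H.inv_mem hg) w hw⟩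
      · refine ⟨h2 i w hw, ?_⟩
        show alt_PP H t W' z ((t ^ i)⁻¹ * w)
        rw [← _root_.zpow_neg]
        exact h2 _ w hw
    induction hw using Subgroup.closure_induction_left with
    | one => exact alt_PP.base 1 H.one_mem
    | mul_left g hg w _ ih => exact (h4 g hg w ih).1
    | inv_mul_cancel g hg w _ ih => exact (h4 g hg w ih).2
  intro w hw hwz
  have hw' := h3 w hw
  cases hw' with
  | base _ h =>
    by_contra e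
    exact hH w h e z hzW (hwz.symm ▸ hzW)
  | step g hg j hj r hr hT =>
    exfalso
    rw [mul_smul, mul_smul] at hwz
    have hy := ht j hj _ (hX r z hzX) hT
    by_cases e : g = 1
    · rw [e, one_smul] at hwz
      exact hzW' (hwz ▸ hy)
    · exact hH g hg e _ (hW hy) (hwz.symm ▸ hzW)

end Pool.Agent.MP_5045a8_al.HX

end

section

namespace Pool.Agent.MP_5045a8_al.HX

open Matrix O FT

theorem perp_Fin {f x : V3} (γ : G3) (hx : f ⬝ᵥ x = 0) :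
    (f ᵥ* mat γ) ⬝ᵥ (mat γ⁻¹ *ᵥ x) = 0 := by
  rw [← dotProduct_mulVec, mulVec_mulVec, mat_mul_inv, one_mulVec, hx]

theorem cj_Fin {f : V3} {K : Subgroup G3} (h : IsPlaneLift f K) (γ : G3) :
    IsPlaneLift (f ᵥ* mat γ) (cj γ K) := by
  obtain ⟨hs, h⟩ := planeLift_iff.1 h
  refine planeLift_iff.2 ⟨hs.cj γ, fun g hg hy => ?_⟩
  have := h _ (mem_cj.1 hg) fun x hx => by
    rw [mat_mul, mat_mul, ← mulVec_mulVec, ← mulVec_mulVec, hy _ (perp_Fin γ hx), mulVec_mulVec,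
      mat_mul_inv, one_mulVec]
  simpa [mul_inv_eq_one] using this

theorem scale_Fin {f : V3} {K : Subgroup G3} {d : ℤ} (hd : d ≠ 0) :
    IsPlaneLift (d • f) K ↔ IsPlaneLift f K := by
  have hi : Function.Injective fun x : V3 => d • x := smul_right_injective V3 hd
  simp only [planeLift_iff, Stab, smul_vecMul, smul_dotProduct, smul_eq_zero, hd, false_or,
    ← smul_neg]
  refine and_congr_left fun _ => forall₂_congr fun g _ => or_congr ?_ ?_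
  · exact hi.eq_iff
  · exact hi.eq_iff

theorem agree_Fin (a b : P0) (e : pr a = pr b) (y : V3) (hy : y 2 = 0) :
    mat a *ᵥ y = mat b *ᵥ y := by
  have e' := pr_val a
  rw [e, pr_val] at e'
  have a1 := congrFun (congrFun e' 0) 0
  have a2 := congrFun (congrFun e' 0) 1
  have a3 := congrFun (congrFun e' 1) 0
  have a4 := congrFun (congrFun e' 1) 1
  simp at a1 a2 a3 a4
  simp [ext3, mulVec, dot3, a1, a2, a3, a4, a.2.1, a.2.2, b.2.1, b.2.2, hy]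

theorem fg_Fin {H : Subgroup G3} (hH : H.FG) (γ : G3) (hle : cj γ H ≤ P0) :
    (prK (cj γ H)).FG := by
  have : Group.FG H := (Group.fg_iff_subgroup_fg H).2 hH
  let φ : H →* P0 := MonoidHom.mk' (fun h => ⟨γ⁻¹ * h.1 * γ, hle (mem_cj'.2 h.2)⟩) fun a b => by
    ext1; simp [mul_assoc]
  have e : prK (cj γ H) = (pr.comp φ).range := by
    ext A
    constructor
    · rintro ⟨a, ha, rfl⟩
      refine ⟨⟨γ * a.1 * γ⁻¹, mem_cj.1 ha⟩, ?_⟩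
      refine congrArg pr (Subtype.ext ?_)
      change γ⁻¹ * (γ * a.1 * γ⁻¹) * γ = a.1
      simp [mul_assoc]
    · rintro ⟨h, rfl⟩
      have h1 : γ⁻¹ * h.1 * γ ∈ cj γ H := mem_cj'.2 h.2
      have h2 : φ h ∈ (cj γ H).subgroupOf P0 := Subgroup.mem_subgroupOf.2 h1
      exact Subgroup.mem_map_of_mem pr h2
  rw [e]
  exact (Group.fg_iff_subgroup_fg _).1 (Group.fg_range _)

theorem fin_stmt (hW : WanStmt) (hT : TriStmt) (hE : ExtStmt) : FinStmt := by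
  classical
  intro H f hf hH hL hm
  obtain ⟨γ, d, e⟩ := exists_std f
  have hd : d ≠ 0 := fun e' => vecMul_ne hf γ (by simp [e, e'])
  have ed : (![0, 0, d] : V3) = d • ![0, 0, 1] := by simp
  have hL1 : IsPlaneLift ![0, 0, d] (cj γ H) := e ▸ cj_Fin hL γ
  have hle : cj γ H ≤ P0 := Stab.le_P0 hd (planeLift_iff.1 hL1).1
  have hL2 : IsPlaneLift ![0, 0, 1] (cj γ H) := (scale_Fin hd).1 (ed ▸ hL1)
  have hi : (prK (cj γ H)).index ≠ 0 := by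
    intro h0
    obtain ⟨M, hM⟩ := hW _ (fg_Fin hH γ hle) h0
    obtain ⟨K, hK, hlt⟩ := hE _ M hL2 (hT _ M hM)
    have hK1 : IsPlaneLift ![0, 0, d] K := ed ▸ (scale_Fin hd).2 hK
    have hK2 := cj_Fin hK1 γ⁻¹
    rw [← e, vecMul_vecMul, mat_mul_inv, vecMul_one] at hK2
    have hlt' : H < cj γ⁻¹ K := by rw [← cj_lt (γ := γ), cj_cj]; exact hlt
    exact hlt'.ne' (hm _ hK2 hlt'.le)
  have : (prK (cj γ H)).FiniteIndex := ⟨hi⟩
  have : Fintype (G2 ⧸ prK (cj γ H)) := Fintype.ofFinite _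
  let s : G2 → P0 := Function.surjInv pr_surj
  have hs : ∀ A, pr (s A) = A := Function.surjInv_eq pr_surj
  refine ⟨Finset.univ.image fun q : G2 ⧸ prK (cj γ H) => γ * (s (q.out)⁻¹).1 * γ⁻¹,
    fun g hg => ?_⟩
  have hg' : γ⁻¹ * g * γ ∈ P0 := by
    have e1 : ![0, 0, d] ᵥ* mat (γ⁻¹ * g * γ) = f ᵥ* mat g ᵥ* mat γ := by
      rw [← e]; simp only [vecMul_vecMul, ← mat_mul]; simp [mul_assoc]
    change f ᵥ* mat g = f ∨ f ᵥ* mat g = -f at hg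
    rcases hg with h | h
    · rw [h, e] at e1
      simp [ext3, vecMul, hd] at e1
      exact ⟨e1.1, e1.2.1⟩
    · rw [h, neg_vecMul, e] at e1
      simp [ext3, vecMul, hd] at e1
      exact ⟨e1.1, e1.2.1⟩
  obtain ⟨c, hc⟩ := QuotientGroup.mk_out_eq_mul (prK (cj γ H)) (pr ⟨_, hg'⟩)⁻¹
  obtain ⟨a, ha, ea⟩ := c.2
  refine ⟨γ * a.1 * γ⁻¹, mem_cj.1 ha, _, Finset.mem_image_of_mem _
    (Finset.mem_univ (QuotientGroup.mk (pr ⟨_, hg'⟩)⁻¹)), fun x hx => ?_⟩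
  generalize (QuotientGroup.mk (pr ⟨_, hg'⟩)⁻¹ : G2 ⧸ prK (cj γ H)).out = A at hc
  have h2 : (mat γ⁻¹ *ᵥ x) 2 = 0 := by
    have := perp_Fin γ hx
    rw [e, dot3] at this
    simpa [hd] using this
  have h3 := agree_Fin ⟨_, hg'⟩ (a * s A⁻¹) (by rw [map_mul, hs, ea, hc]; simp) _ h2
  have e1 : g = γ * (γ⁻¹ * g * γ) * γ⁻¹ := by simp [mul_assoc]
  have e2 : γ * a.1 * γ⁻¹ * (γ * (s A⁻¹).1 * γ⁻¹) = γ * (a * s A⁻¹).1 * γ⁻¹ := by
    simp [mul_assoc]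
  change mat g *ᵥ x = mat (γ * a.1 * γ⁻¹ * (γ * (s A⁻¹).1 * γ⁻¹)) *ᵥ x
  rw [e2, e1, mat_mul, mat_mul γ, mat_mul _ γ⁻¹, mat_mul γ, ← mulVec_mulVec, ← mulVec_mulVec,
    ← mulVec_mulVec, ← mulVec_mulVec, ← h3]

end Pool.Agent.MP_5045a8_al.HX

end
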