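import Pool.Agent.Mg.F5045a8a.Gd4655a
import Pool.Agent.Mg.F5045a8a.G63bfc5
import Pool.Agent.Mg.F5045a8.G1db804

section

namespace Pool.Agent.MP_5045a8_al.HX

open Matrix O FT

lemma even_HexQ {S : Submonoid QM} {i j k : Fin 3} (hij : i ≠ j) (hik : i ≠ k) {a c d : ℚ}
    (ha : a ≠ 0) (h : ∀ n : ℤ, hz i j k (n * a) (n * c + n * (n - 1) / 2 * a * d) (n * d) ∈ S)
    {g : QM} {s t s' t' : ℚ} (hs : ∃ n : ℤ, s = n * a)
    (e : s' = t + (-c / a + d / 2) * s + d / (2 * a) * s ^ 2 ∧ t' = -d / a * s)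
    (hg : (1 + single i j s + single i k t) * g ∈ S) :
    (1 + single i k s' + single j k t') * g ∈ S := by
  obtain ⟨n, rfl⟩ := hs
  have h1 := S.mul_mem (h (-n)) hg
  rw [← mul_assoc] at h1
  refine Eq.mpr (congrArg (fun x => x * g ∈ S) ?_) h1
  have e1 : s' = ((-n : ℤ) * c + (-n : ℤ) * ((-n : ℤ) - 1) / 2 * a * d) + t := by
    rw [e.1]; push_cast; field_simp; ring
  have e2 : t' = (-n : ℤ) * d := by rw [e.2]; push_cast; field_simp
  have e3 : (single i j (((-n : ℤ) : ℚ) * a) : QM) = -single i j ((n : ℚ) * a) := by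
    rw [eq_neg_iff_add_eq_zero, ← single_add]; simp
  rw [e1, e2, single_add, hz]
  simp only [mul_add, add_mul, one_mul, mul_one, single_mul_single_of_ne _ _ _ _ hij.symm,
    single_mul_single_of_ne _ _ _ _ hik.symm, add_zero]
  rw [e3]
  abel

lemma odd_HexQ {S : Submonoid QM} {i j k : Fin 3} (hij : i ≠ j) (hjk : j ≠ k) (hik : i ≠ k)
    {a c d : ℚ}
    (hd : d ≠ 0) (h : ∀ n : ℤ, hz i j k (n * a) (n * c + n * (n - 1) / 2 * a * d) (n * d) ∈ S)
    {g : QM} {s t s' t' : ℚ} (hs : ∃ n : ℤ, s = n * d)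
    (e : s' = t + (-c / d + a / 2) * s + -a / (2 * d) * s ^ 2 ∧ t' = -a / d * s)
    (hg : (1 + single j k s + single i k t) * g ∈ S) :
    (1 + single i k s' + single i j t') * g ∈ S := by
  obtain ⟨n, rfl⟩ := hs
  have h1 := S.mul_mem (h (-n)) hg
  rw [← mul_assoc] at h1
  refine Eq.mpr (congrArg (fun x => x * g ∈ S) ?_) h1
  have e1 : s' = ((-n : ℤ) * c + (-n : ℤ) * ((-n : ℤ) - 1) / 2 * a * d) + t +
      (-n : ℤ) * a * (n * d) := by
    rw [e.1]; push_cast; field_simp; ring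
  have e2 : t' = (-n : ℤ) * a := by rw [e.2]; push_cast; field_simp
  have e3 : (single j k (((-n : ℤ) : ℚ) * d) : QM) = -single j k ((n : ℚ) * d) := by
    rw [eq_neg_iff_add_eq_zero, ← single_add]; simp
  rw [e1, e2, single_add, single_add, hz]
  simp only [mul_add, add_mul, one_mul, mul_one, single_mul_single_of_ne _ _ _ _ hij.symm,
    single_mul_single_of_ne _ _ _ _ hik.symm, single_mul_single_of_ne _ _ _ _ hjk.symm,
    single_mul_single_same, add_zero]
  rw [e3]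
  abel

theorem hexQ_stmt (h : HenStmt) : HexQStmt := by
  intro S hS
  obtain ⟨a0, c0, d0, ha0, hd0, h0⟩ := hS 0 1 2 (by decide) (by decide) (by decide)
  obtain ⟨a1, c1, d1, ha1, hd1, h1⟩ := hS 1 0 2 (by decide) (by decide) (by decide)
  obtain ⟨a2, c2, d2, ha2, hd2, h2⟩ := hS 1 2 0 (by decide) (by decide) (by decide)
  obtain ⟨a3, c3, d3, ha3, hd3, h3⟩ := hS 2 1 0 (by decide) (by decide) (by decide)
  obtain ⟨a4, c4, d4, ha4, hd4, h4⟩ := hS 2 0 1 (by decide) (by decide) (by decide)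
  obtain ⟨a5, c5, d5, ha5, hd5, h5⟩ := hS 0 2 1 (by decide) (by decide) (by decide)
  have hl : ∀ (L : List ℚ), (∀ x ∈ L, x ≠ 0) → ∀ i, L.getD i 1 ≠ 0 := fun L hL i => by
    rw [List.getD_eq_getElem?_getD]
    rcases e : L[i]? with _ | x
    · exact one_ne_zero
    · exact hL x (List.mem_of_getElem? e)
  obtain ⟨s, t, s', t', ht, ht', hr, hr', hn, hne⟩ := h
    (fun i => [a0, d1, a2, d3, a4, d5].getD i 1)
    (fun i => [-c0 / a0 + d0 / 2, -c1 / d1 + a1 / 2, -c2 / a2 + d2 / 2, -c3 / d3 + a3 / 2,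
      -c4 / a4 + d4 / 2, -c5 / d5 + a5 / 2].getD i 1)
    (fun i => [d0 / (2 * a0), -a1 / (2 * d1), d2 / (2 * a2), -a3 / (2 * d3), d4 / (2 * a4),
      -a5 / (2 * d5)].getD i 1)
    (fun i => [-d0 / a0, -a1 / d1, -d2 / a2, -a3 / d3, -d4 / a4, -a5 / d5].getD i 1)
    (hl _ (by simp [*])) (hl _ (by simp [*])) (hl _ (by simp [*]))
  have fin : ∀ s0 s6 t6 : ℚ, ((1 : QM) + single 0 1 s6 + single 0 2 t6) * (1 + single 0 1 (-s0)) =
      1 + single 0 1 (s6 - s0) + single 0 2 t6 := fun s0 s6 t6 => by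
    rw [sub_eq_add_neg, single_add]
    simp only [mul_add, add_mul, one_mul, mul_one,
      single_mul_single_of_ne _ _ _ _ (show (1 : Fin 3) ≠ 0 by decide),
      single_mul_single_of_ne _ _ _ _ (show (2 : Fin 3) ≠ 0 by decide), add_zero]
    abel
  have st : ∀ s0 t0 : ℚ, t0 = 0 →
      ((1 : QM) + single 0 1 s0 + single 0 2 t0) * (1 + single 0 1 (-s0)) ∈ S := fun s0 t0 e => by
    rw [fin, e, sub_self, single_zero, single_zero, add_zero, add_zero]
    exact S.one_mem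
  refine ⟨s 6 - s 0, t 6, s' 6 - s' 0, t' 6, hne, ?_, ?_⟩
  · rw [← fin]
    exact odd_HexQ (by decide) (by decide) (by decide) hd5 h5 (hn 5 (by decide)).1 (hr 5)
      (even_HexQ (by decide) (by decide) ha4 h4 (hn 4 (by decide)).1 (hr 4)
      (odd_HexQ (by decide) (by decide) (by decide) hd3 h3 (hn 3 (by decide)).1 (hr 3)
      (even_HexQ (by decide) (by decide) ha2 h2 (hn 2 (by decide)).1 (hr 2)
      (odd_HexQ (by decide) (by decide) (by decide) hd1 h1 (hn 1 (by decide)).1 (hr 1)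
      (even_HexQ (by decide) (by decide) ha0 h0 (hn 0 (by decide)).1 (hr 0) (st _ _ ht))))))
  · rw [← fin]
    exact odd_HexQ (by decide) (by decide) (by decide) hd5 h5 (hn 5 (by decide)).2 (hr' 5)
      (even_HexQ (by decide) (by decide) ha4 h4 (hn 4 (by decide)).2 (hr' 4)
      (odd_HexQ (by decide) (by decide) (by decide) hd3 h3 (hn 3 (by decide)).2 (hr' 3)
      (even_HexQ (by decide) (by decide) ha2 h2 (hn 2 (by decide)).2 (hr' 2)
      (odd_HexQ (by decide) (by decide) (by decide) hd1 h1 (hn 1 (by decide)).2 (hr' 1)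
      (even_HexQ (by decide) (by decide) ha0 h0 (hn 0 (by decide)).2 (hr' 0) (st _ _ ht'))))))

end Pool.Agent.MP_5045a8_al.HX

end

section

namespace Pool.Agent.MP_5045a8_al.HX

open Matrix O FT

/-- A bracket closed space with all off diagonal units contains every traceless matrix. -/
theorem traceless_R1 (L : Submodule ℚ QM) (br : ∀ Y ∈ L, ∀ Z ∈ L, Y * Z - Z * Y ∈ L)
    (hE : ∀ a b : Fin 3, a ≠ b → single a b (1 : ℚ) ∈ L) (Y : QM) (hY : trace Y = 0) : Y ∈ L := by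
  have h01 := hE 0 1 (by decide)
  have h02 := hE 0 2 (by decide)
  have h10 := hE 1 0 (by decide)
  have h12 := hE 1 2 (by decide)
  have h20 := hE 2 0 (by decide)
  have h21 := hE 2 1 (by decide)
  have d0 := br _ h01 _ h10
  have d1 := br _ h12 _ h21
  rw [single_mul_single_same, single_mul_single_same] at d0 d1
  rw [trace_fin_three] at hY
  have e : Y = Y 0 1 • single 0 1 (1 : ℚ) + Y 0 2 • single 0 2 (1 : ℚ) +
      Y 1 0 • single 1 0 (1 : ℚ) + Y 1 2 • single 1 2 (1 : ℚ) + Y 2 0 • single 2 0 (1 : ℚ) +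
      Y 2 1 • single 2 1 (1 : ℚ) +
      Y 0 0 • (single 0 0 ((1 : ℚ) * 1) - single 1 1 ((1 : ℚ) * 1)) +
      (Y 0 0 + Y 1 1) • (single 1 1 ((1 : ℚ) * 1) - single 2 2 ((1 : ℚ) * 1)) := by
    ext i j
    fin_cases i <;> fin_cases j <;> simp [single]
    linarith
  rw [e]
  refine L.add_mem (L.add_mem (L.add_mem (L.add_mem (L.add_mem (L.add_mem (L.add_mem ?_ ?_) ?_)
    ?_) ?_) ?_) ?_) ?_ <;> apply L.smul_mem <;> assumption

/-- Three independent full centres give all off diagonal units. -/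
theorem three_R1 (L : Submodule ℚ QM) (br : ∀ Y ∈ L, ∀ Z ∈ L, Y * Z - Z * Y ∈ L) (M : QM)
    (hM : M.det ≠ 0) (hc : ∀ (a : Fin 3) (η : Q3), η ⬝ᵥ M a = 0 → vecMulVec (M a) η ∈ L)
    (Y : QM) (hY : trace Y = 0) : Y ∈ L := by
  have hu : IsUnit (Mᵀ).det := by rw [det_transpose]; exact isUnit_iff_ne_zero.2 hM
  obtain ⟨Q, hPQ, hQP⟩ : ∃ Q : QM, Mᵀ * Q = 1 ∧ Q * Mᵀ = 1 :=
    ⟨(Mᵀ)⁻¹, mul_nonsing_inv _ hu, nonsing_inv_mul _ hu⟩
  let L' : Submodule ℚ QM :=
    { carrier := {Z | Mᵀ * Z * Q ∈ L}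
      add_mem' := fun {a b} ha hb => by
        show Mᵀ * (a + b) * Q ∈ L
        rw [Matrix.mul_add, Matrix.add_mul]
        exact L.add_mem ha hb
      zero_mem' := by
        show Mᵀ * 0 * Q ∈ L
        rw [Matrix.mul_zero, Matrix.zero_mul]
        exact L.zero_mem
      smul_mem' := fun r a ha => by
        show Mᵀ * (r • a) * Q ∈ L
        rw [Matrix.mul_smul, Matrix.smul_mul]
        exact L.smul_mem r ha }
  have key : ∀ A B : QM, Mᵀ * A * Q * (Mᵀ * B * Q) = Mᵀ * (A * B) * Q := fun A B => by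
    calc _ = Mᵀ * A * (Q * Mᵀ) * B * Q := by simp only [Matrix.mul_assoc]
      _ = _ := by rw [hQP]; simp only [Matrix.mul_assoc, Matrix.mul_one]
  have h : Q * Y * Mᵀ ∈ L' := by
    refine traceless_R1 L' (fun A hA B hB => ?_) (fun a b hab => ?_) _ ?_
    · have := br _ hA _ hB
      rw [key, key, ← Matrix.sub_mul, ← Matrix.mul_sub] at this
      exact this
    · show Mᵀ * single a b (1 : ℚ) * Q ∈ L
      have e : Mᵀ * single a b (1 : ℚ) * Q = vecMulVec (M a) (Q b) := by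
        ext i j
        fin_cases a <;> fin_cases b <;>
          simp [Matrix.mul_apply, Fin.sum_univ_three, single, vecMulVec_apply]
      rw [e]
      refine hc a _ ?_
      have := congrFun (congrFun hQP b) a
      rw [one_apply_ne hab.symm] at this
      exact this
    · rw [trace_mul_cycle, hPQ, Matrix.one_mul, hY]
  have h' : Mᵀ * (Q * Y * Mᵀ) * Q ∈ L := h
  have e : Mᵀ * (Q * Y * Mᵀ) * Q = Y := by
    calc _ = Mᵀ * Q * Y * (Mᵀ * Q) := by simp only [Matrix.mul_assoc]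
      _ = _ := by rw [hPQ, Matrix.one_mul, Matrix.mul_one]
  rwa [e] at h'

/-- Full centres are moved by the group. -/
theorem move_R1 {H : Subgroup G3} {L : Submodule ℚ QM} (hL : LieP H L) {c : Q3}
    (hc : ∀ η : Q3, η ⬝ᵥ c = 0 → vecMulVec c η ∈ L) {h : G3} (hh : h ∈ H) (η : Q3)
    (hη : η ⬝ᵥ (qm h *ᵥ c) = 0) : vecMulVec (qm h *ᵥ c) η ∈ L := by
  have h1 := hL.ad h hh _ (hc (η ᵥ* qm h) (by rw [vecMul_dot]; exact hη))
  rwa [mul_vecMulVec, vecMulVec_mul, vecMul_vecMul, ← map_mul, mul_inv_cancel, map_one,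
    vecMul_one] at h1

theorem r1_stmt (hS : SpanStmt) (hF : FullStmt) : R1Stmt := by
  intro H L c μ hL hI hc hμ hμc hm i j hij
  have h0 := hF H L c μ hL hI hc hμ hμc hm
  obtain ⟨h, hh, h1⟩ := (hS H c μ hI hc hμ).2
  obtain ⟨h', hh', h2⟩ := (hS H c _ hI hc h1).1
  rw [dotProduct_comm, triple_product_eq_det] at h2
  refine three_R1 L hL.br (of ![qm h' *ᵥ c, qm h *ᵥ c, c]) h2 (fun a => ?_) _
    (trace_single_eq_of_ne _ _ _ hij)
  fin_cases a
  · exact move_R1 hL h0 hh'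
  · exact move_R1 hL h0 hh
  · exact h0

end Pool.Agent.MP_5045a8_al.HX

end

section

namespace Pool.Agent.MP_5045a8_al.HX

open Matrix O FT

theorem ker_Pos (a b : R3) : ∃ w : R3, w ≠ 0 ∧ a ⬝ᵥ w = 0 ∧ b ⬝ᵥ w = 0 := by
  obtain ⟨w, hw, h⟩ := (Matrix.exists_mulVec_eq_zero_iff (M := Matrix.of ![a, b, 0])).2
    (det_eq_zero_of_row_eq_zero 2 fun _ => rfl)
  exact ⟨w, hw, congrFun h 0, congrFun h 1⟩

theorem perp_Pos {C : RM} (hC : Cᵀ = C) (hd : C.det ≠ 0) {w y : R3} (hy : bf C y y = 0)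
    (h0 : bf C w y = 0) (hc : w ⨯₃ y ≠ 0) : 0 < nq C w w := by
  have h1 := lor_gram hC w y (w ⨯₃ y)
  rw [hy, h0, triple_product_permutation, triple_product_permutation] at h1
  have h2 : (w ⨯₃ y) ⬝ᵥ (w ⨯₃ y) ≠ 0 := fun e => hc (dotProduct_self_eq_zero.1 e)
  have h3 : 0 < (C.det * (w ⨯₃ y) ⬝ᵥ (w ⨯₃ y)) ^ 2 := by positivity
  have h4 : nq C w w * bf C y (w ⨯₃ y) ^ 2 = (C.det * (w ⨯₃ y) ⬝ᵥ (w ⨯₃ y)) ^ 2 := by
    rw [nq]
    linear_combination C.det * h1
  rw [← h4] at h3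
  exact (pos_of_mul_pos_left h3 (sq_nonneg _))

theorem move_Pos {B : M3} (h : Ind B) {k : G3} (hk : k ∉ SOq B) :
    ∃ g : G3, (g = k ∨ g = k⁻¹) ∧ ∃ y : R3, bf (rm B) y y = 0 ∧
      0 < nq (rm B) (rm (mat g) *ᵥ y) (rm (mat g) *ᵥ y) := by
  obtain ⟨y, hy, hz⟩ := h.exists_moved hk
  have hD : -(rm B).det ≠ 0 := neg_ne_zero.2 h.rdet
  rcases (mul_ne_zero hD hz).lt_or_gt with hn | hn
  swap
  · exact ⟨k, Or.inl rfl, y, hy, hn⟩
  have hi : ∀ x : R3, rm (mat k⁻¹) *ᵥ (rm (mat k) *ᵥ x) = x := fun x => by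
    rw [mulVec_mulVec, ← rm_mul, mat_inv_mul, rm_one, one_mulVec]
  obtain ⟨w, hw, h1, h2⟩ := ker_Pos (((rm (mat k))ᵀ * rm B * rm (mat k)) *ᵥ y) (rm B *ᵥ y)
  have h3 : bf (rm B) (rm (mat k) *ᵥ w) (rm (mat k) *ᵥ y) = 0 := by
    rw [bf_mulVec, bf, dotProduct_comm, h1]
  have h4 : bf (rm B) w y = 0 := by rw [bf, dotProduct_comm, h2]
  have h5 : w ⨯₃ y ≠ 0 := fun e => by
    have h6 := cross_cross_eq_smul_sub_smul' (((rm (mat k))ᵀ * rm B * rm (mat k)) *ᵥ y) w y
    rw [e, map_zero, dotProduct_comm w, h1, zero_smul, sub_zero, dotProduct_comm] at h6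
    rw [bf_mulVec] at hz
    exact smul_ne_zero hz hw h6.symm
  have h6 := perp_Pos h.rsymm h.rdet hy h4 h5
  have h7 : rm (mat k) *ᵥ w ≠ 0 := fun e => hw (by rw [← hi w, e, mulVec_zero])
  have h8 := h.pos_of_perp (v := rm (mat k) *ᵥ y) hn h7 (by rw [nq, h3, mul_zero])
  obtain ⟨s, -, -, hs, -⟩ := iso_roots (b := 0) h8 hn
  refine ⟨k⁻¹, Or.inr rfl, rm (mat k) *ᵥ w + s • rm (mat k) *ᵥ y, ?_, ?_⟩
  · rw [iso_expand h.rsymm, h3]
    refine mul_left_cancel₀ hD ?_
    rw [nq] at hs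
    linear_combination hs
  · rw [mulVec_add, mulVec_smul, hi, hi, nq, iso_expand h.rsymm, h4, hy]
    simpa [nq] using h6

theorem inf_Pos {B : M3} {K : Subgroup G3} (hK : K.relIndex (SOq B) ≠ 0) :
    (K ⊓ SOq B).relIndex (SOq B) ≠ 0 := by rwa [Subgroup.inf_relIndex_right]

theorem pos_stmt : PosStmt := by
  intro B K p h hK hle hp
  obtain ⟨k, hk, hk'⟩ := SetLike.not_le_iff_exists.1 hle
  obtain ⟨g, hg, y, hy, hy'⟩ := move_Pos h hk'
  obtain ⟨u, hu, hT⟩ := exists_big h (inf_Pos hK)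
    ((1 * -(rm B).det) • ((rm (mat g))ᵀ * rm B * rm (mat g))) hy
    (by rw [cross_smul, one_mul, ← bf_mulVec]; exact hy') hp 0
  rw [cross_cast, one_mul] at hT
  refine ⟨g, ?_, u, hu.1, hu.2, by exact_mod_cast hT⟩
  rcases hg with rfl | rfl
  exacts [hk, K.inv_mem hk]

theorem vv_Pos (φ y : R3) : bf (vecMulVec φ φ) y y = (φ ⬝ᵥ y) ^ 2 := by
  simp [bf, vecMulVec, mulVec, dotProduct, Fin.sum_univ_three]
  ring

theorem iso_Pos {B : M3} (h : Ind B) {φ : R3} (hφ : φ ≠ 0) :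
    ∃ y : R3, bf (rm B) y y = 0 ∧ 0 < bf (vecMulVec φ φ) y y := by
  by_contra hc
  push Not at hc
  have h0 : ∀ y, bf (rm B) y y = 0 → bf (vecMulVec φ φ) y y = 0 := fun y hy =>
    le_antisymm (hc y hy) (by rw [vv_Pos]; positivity)
  have h1 : ∀ x v, 0 < bf (rm B) x x → bf (rm B) v v < 0 →
      (φ ⬝ᵥ x) ^ 2 * bf (rm B) v v = bf (rm B) x x * (φ ⬝ᵥ v) ^ 2 := fun x v hx hv => by
    rw [← vv_Pos, ← vv_Pos]
    exact iso_ratio (transpose_vecMulVec φ φ) h.rsymm h0 hx hv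
  obtain ⟨u, v, hu, hv⟩ := iso_signs h
  have h2 : 0 < (φ ⬝ᵥ φ) ^ 2 := sq_pos_of_ne_zero fun e => hφ (dotProduct_self_eq_zero.1 e)
  rcases lt_trichotomy (bf (rm B) φ φ) 0 with hy | hy | hy
  · have := h1 u φ hu hy
    nlinarith [mul_pos hu h2, mul_nonneg (sq_nonneg (φ ⬝ᵥ u)) (neg_pos.2 hy).le]
  · have := h0 φ hy
    rw [vv_Pos] at this
    exact h2.ne' this
  · have := h1 φ v hy hv
    nlinarith [mul_pos h2 (neg_pos.2 hv), mul_nonneg hy.le (sq_nonneg (φ ⬝ᵥ v))]

theorem off_stmt : OffStmt := by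
  intro B K φ x h hK hφ hx
  constructor
  · obtain ⟨y, hy, hy'⟩ := iso_Pos h (rv_ne hφ)
    obtain ⟨u, hu, hT⟩ := exists_big h (inf_Pos hK) _ hy hy' hx 0
    refine ⟨u, hu.1, hu.2, fun e => ?_⟩
    rw [vv_Pos, rv_dot, e] at hT
    simp at hT
  · obtain ⟨z, hz, hz0⟩ := h.exists_iso
    obtain ⟨k, hk, hlt⟩ := exists_big h hK 1 hz0
      (by rw [bf, one_mulVec]; exact dotProduct_self_star_pos_iff.2 hz) hx (rv x ⬝ᵥ rv x)
    refine ⟨k, hk, fun e => ?_⟩
    have := par_unit hx k.transpose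
      (by rw [mat_transpose, vecMul_transpose]; exact cr_comm_zero e)
    rw [mat_transpose, vecMul_transpose] at this
    rw [bf, one_mulVec, rv_dot, rv_dot] at hlt
    rcases this with e | e <;> simp [e] at hlt

end Pool.Agent.MP_5045a8_al.HX

end

section

namespace Pool.Agent.MP_5045a8_al.HX

open Matrix O FT

theorem mul_Form (Y Z : QM) : qc (Y * Z) = qc Y * qc Z :=
  Matrix.map_mul (L := Y) (M := Z) (f := Rat.castHom ℂ)

theorem add_Form (Y Z : QM) : qc (Y + Z) = qc Y + qc Z := by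
  ext i j; simp [qc]

theorem sub_Form (Y Z : QM) : qc (Y - Z) = qc Y - qc Z := by
  ext i j; simp [qc]

theorem qm_Form (h : G3) : qc (qm h) = cm h := by
  ext i j; simp [qc, qm, cm]

theorem mem_Form {L : Submodule ℚ QM} {Y : QM} (h : Y ∈ L) : qc Y ∈ cx L :=
  Submodule.subset_span ⟨Y, h, rfl⟩

theorem ind_Form {L : Submodule ℚ QM} (P : Submodule ℂ CM) (h : ∀ Y ∈ L, qc Y ∈ P) :
    ∀ Z ∈ cx L, Z ∈ P := fun _ hZ =>
  Submodule.span_le.2 (by rintro _ ⟨Y, hY, rfl⟩; exact h Y hY) hZ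

theorem cx_stmt : CxStmt := by
  intro H L hL
  refine ⟨⟨fun Y hY Z hZ => ?_, fun h hh => ?_, ?_⟩, fun Z hZ => ?_⟩
  · refine ind_Form ((cx L).comap (LinearMap.mulRight ℂ Z - LinearMap.mulLeft ℂ Z))
      (fun Y hY => ?_) Y hY
    refine ind_Form ((cx L).comap (LinearMap.mulLeft ℂ (qc Y) - LinearMap.mulRight ℂ (qc Y)))
      (fun Z hZ => ?_) Z hZ
    have := mem_Form (hL.br Y hY Z hZ)
    rwa [sub_Form, mul_Form, mul_Form] at this
  · refine ind_Form ((cx L).comap (LinearMap.mulRight ℂ (cm h⁻¹) ∘ₗ LinearMap.mulLeft ℂ (cm h)))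
      fun Y hY => ?_
    have := mem_Form (hL.ad h hh Y hY)
    rwa [mul_Form, mul_Form, qm_Form, qm_Form] at this
  · refine ind_Form (LinearMap.ker (traceLinearMap (Fin 3) ℂ ℂ)) fun Y hY => ?_
    have := congrArg (fun q : ℚ => (q : ℂ)) (hL.tr0 Y hY)
    simpa [qc, trace] using this
  · induction hZ using Submodule.span_induction with
    | mem x hx =>
      obtain ⟨Y, hY, rfl⟩ := hx
      intro l
      have : (qc Y).map l = l 1 • Y := by
        ext i j
        rw [map_apply, Matrix.smul_apply, smul_eq_mul, mul_comm, ← smul_eq_mul, ← l.map_smul,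
          Rat.smul_one_eq_cast]
        rfl
      rw [this]
      exact L.smul_mem _ hY
    | zero =>
      intro l
      rw [Matrix.map_zero _ l.map_zero]
      exact L.zero_mem
    | add x y _ _ hx hy =>
      intro l
      rw [Matrix.map_add _ l.map_add]
      exact L.add_mem (hx l) (hy l)
    | smul c x _ hx => exact fun l => hx (l ∘ₗ LinearMap.mulLeft ℚ c)

theorem inv_Form {L : Submodule ℚ QM} {B : CM} (hB : InvF (cx L) B) {C : QM} (hs : Cᵀ = C)
    (h : ∀ Z ∈ L, Zᵀ * C + C * Z = 0) : ∃ c : ℂ, ∀ i j, (C i j : ℂ) = c * B i j := by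
  obtain ⟨c, hc⟩ := hB.2.2.2 (qc C) (congrArg qc hs) fun Z hZ => by
    refine ind_Form (LinearMap.ker (LinearMap.mulRight ℂ (qc C) ∘ₗ
      (transposeLinearEquiv (Fin 3) (Fin 3) ℂ ℂ).toLinearMap + LinearMap.mulLeft ℂ (qc C)))
      (fun Z hZ => ?_) Z hZ
    have := congrArg qc (h Z hZ)
    rw [add_Form, mul_Form, mul_Form] at this
    exact this.trans (by ext i j; simp [qc])
  exact ⟨c, fun i j => congrFun (congrFun hc i) j⟩

theorem form_stmt (hS : SpanStmt) : FormStmt := by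
  intro H L B hL hI hB
  obtain ⟨i, j, hij⟩ : ∃ i j, B i j ≠ 0 := by
    by_contra! h
    exact hB.2.1 (Matrix.ext h)
  obtain ⟨l, hl⟩ : ∃ l : ℂ →ₗ[ℚ] ℚ, l (B i j) ≠ 0 := by
    by_contra! h
    exact hij ((Module.forall_dual_apply_eq_zero_iff ℚ _).1 h)
  obtain ⟨C, hC⟩ : ∃ C : QM, C = B.map l := ⟨_, rfl⟩
  have hs : Cᵀ = C := by rw [hC, ← transpose_map, hB.1]
  have h0 : C i j ≠ 0 := by rw [hC]; exact hl
  have hi : ∀ Z ∈ L, Zᵀ * C + C * Z = 0 := fun Z hZ => by
    ext a b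
    have := congrArg l (congrFun (congrFun (hB.2.2.1 _ (mem_Form hZ)) a) b)
    simp only [Matrix.add_apply, mul_apply, transpose_apply, qc, map_apply, Matrix.zero_apply,
      map_add, map_sum, map_zero, mul_comm (B _ _), ← Rat.smul_def, map_smul, smul_eq_mul] at this
    simpa only [hC, Matrix.add_apply, mul_apply, transpose_apply, map_apply, Matrix.zero_apply,
      mul_comm (l _)] using this
  have t1 : ∀ h : G3, (qm h)ᵀ * (qm h⁻¹)ᵀ = 1 := fun h => by
    rw [← transpose_mul, ← map_mul, inv_mul_cancel, map_one, transpose_one]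
  have hρ : ∀ h ∈ H, ∃ ρ : ℚ, (qm h)ᵀ * C * qm h = ρ • C := fun h hh => by
    obtain ⟨c1, h1⟩ := inv_Form hB hs hi
    obtain ⟨c2, h2⟩ := inv_Form hB (C := (qm h)ᵀ * C * qm h)
      (by rw [transpose_mul, transpose_mul, transpose_transpose, hs, Matrix.mul_assoc])
      fun Z hZ => by
        have e := congrArg (fun M => (qm h)ᵀ * M * qm h) (hi _ (hL.ad h hh Z hZ))
        have t2 : qm h⁻¹ * qm h = 1 := by rw [← map_mul, inv_mul_cancel, map_one]
        simp only [mul_add, add_mul, transpose_mul, mul_zero, zero_mul] at e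
        rw [← e]
        congr 1
        · simp only [← mul_assoc, t1, one_mul]
        · simp only [mul_assoc, t2, mul_one]
    refine ⟨((qm h)ᵀ * C * qm h) i j / C i j, Matrix.ext fun a b => ?_⟩
    rw [Matrix.smul_apply, smul_eq_mul, div_mul_eq_mul_div, eq_div_iff h0]
    apply Rat.cast_injective (α := ℂ)
    rw [Rat.cast_mul, Rat.cast_mul, h1, h1, h2, h2]
    ring
  have hd : C.det ≠ 0 := fun hd => by
    obtain ⟨v, hv, e⟩ := exists_mulVec_eq_zero_iff.2 hd
    obtain ⟨h, hh, hn⟩ := (hS H v (C i) hI hv fun h => h0 (congrFun h j)).1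
    obtain ⟨ρ, hρ⟩ := hρ h hh
    have e2 : (qm h⁻¹)ᵀ *ᵥ (((qm h)ᵀ * C * qm h) *ᵥ v) = 0 := by
      rw [hρ, smul_mulVec, e, smul_zero, mulVec_zero]
    have t := t1 h⁻¹
    rw [inv_inv] at t
    rw [mulVec_mulVec, ← mul_assoc, ← mul_assoc, t, one_mul, ← mulVec_mulVec] at e2
    exact hn (congrFun e2 i)
  have hf : ∀ h ∈ H, (qm h)ᵀ * C * qm h = C := fun h hh => by
    obtain ⟨ρ, hρ⟩ := hρ h hh
    have e := congrArg det hρ
    rw [det_mul, det_mul, det_transpose, det_qm, det_smul, one_mul, mul_one, Fintype.card_fin,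
      eq_comm, mul_eq_right₀ hd] at e
    have : ρ = 1 := (Odd.strictMono_pow (R := ℚ) (by decide : Odd 3)).injective (by simpa using e)
    rw [hρ, this, one_smul]
  obtain ⟨n, hn⟩ := IsLocalization.exist_integer_multiples_of_finite (nonZeroDivisors ℤ)
    fun p : Fin 3 × Fin 3 => C p.1 p.2
  choose D hD using hn
  have n0 : ((n : ℤ) : ℚ) ≠ 0 := by exact_mod_cast nonZeroDivisors.coe_ne_zero n
  have e : (of fun a b => D (a, b) : M3).map (Int.castRingHom ℚ) = ((n : ℤ) : ℚ) • C := by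
    ext a b
    simpa using hD (a, b)
  have inj : Function.Injective fun M : M3 => M.map (Int.castRingHom ℚ) :=
    Matrix.map_injective Int.cast_injective
  refine ⟨of fun a b => D (a, b), inj ?_, fun h => ?_, fun h hh => mem_SOq.2 (inj ?_)⟩
  · simp only [transpose_map, e, transpose_smul, hs]
  · have := (Int.castRingHom ℚ).map_det (of fun a b => D (a, b) : M3)
    rw [h, map_zero, RingHom.mapMatrix_apply, e, det_smul] at this
    exact mul_ne_zero (pow_ne_zero _ n0) hd this.symm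
  · simp only [Matrix.map_mul, transpose_map, e]
    change (qm h)ᵀ * _ * qm h = _
    rw [Matrix.mul_smul, Matrix.smul_mul, hf h hh]

end Pool.Agent.MP_5045a8_al.HX

end

section

namespace Pool.Agent.MP_5045a8_al.HX

open Matrix O FT

theorem rank_ClassC {A : CM} (h0 : A ≠ 0) (h : A * A = 0) :
    ∃ c μ : C3, c ≠ 0 ∧ μ ≠ 0 ∧ μ ⬝ᵥ c = 0 ∧ A = vecMulVec c μ := by
  have h1 := Matrix.rank_add_rank_le_card_of_mul_eq_zero h
  rw [Fintype.card_fin] at h1
  have h2 : Module.finrank ℂ (LinearMap.range A.mulVecLin) ≤ 1 := by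
    have : A.rank ≤ 1 := by omega
    exact this
  obtain ⟨v, hv⟩ := finrank_le_one_iff.1 h2
  choose μ hμ using fun j : Fin 3 => hv ⟨A *ᵥ Pi.single j 1, _, rfl⟩
  have e : A = vecMulVec v.1 μ := by
    ext i j
    have := congrFun (congrArg Subtype.val (hμ j)) i
    simp at this
    rw [vecMulVec_apply, ← this, mul_comm]
  generalize v.1 = c at e
  refine ⟨c, μ, fun k => h0 (by rw [e, k, zero_vecMulVec]),
    fun k => h0 (by rw [e, k, vecMulVec_zero]), ?_, e⟩
  have h3 : A * A = (μ ⬝ᵥ c) • A := by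
    rw [e, vecMulVec_mul_vecMulVec, vecMulVec_smul]
  rw [h] at h3
  exact (smul_eq_zero.1 h3.symm).resolve_right h0

theorem classC_stmt (hC : CxStmt) (h1 : R1CStmt) (h2 : R2CStmt) (hF : FormStmt) : ClassCStmt := by
  intro H L X hL hI hIC hX h0 h3
  obtain ⟨hc, hl⟩ := hC H L hL
  have key : ∀ A ∈ cx L, A ≠ 0 → A * A = 0 → ∀ i j : Fin 3, i ≠ j → single i j 1 ∈ L := by
    intro A hA a0 a2 i j hij
    obtain ⟨c, μ, c0, m0, hd, rfl⟩ := rank_ClassC a0 a2
    obtain ⟨l, hl1⟩ := Module.Projective.exists_dual_eq_one ℚ (one_ne_zero (α := ℂ))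
    have := hl _ (h1 H _ c μ hc hIC c0 m0 hd hA i j hij) l
    rwa [Matrix.map_single, hl1] at this
  by_cases a : X ^ 2 ∈ cx L
  · left
    by_cases b : X ^ 2 = 0
    · exact key X hX h0 (by rw [← sq, b])
    · exact key _ a b (by rw [← pow_add, pow_succ, h3, Matrix.zero_mul])
  · obtain ⟨B, hB⟩ := h2 H _ X hc hIC hX h3 a
    exact Or.inr (hF H L B hL hI hB)

theorem diag_ClassC (L : Submodule ℂ CM) (Z : CM) (y : C3)
    (hb : ∀ Y ∈ L, ∀ Z ∈ L, Y * Z - Z * Y ∈ L) (hY : diagonal y ∈ L) (hZ : Z ∈ L)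
    (hn : diagonal y * Z ≠ Z * diagonal y) : ∃ X ∈ L, X ≠ 0 ∧ X ^ 3 = 0 := by
  classical
  obtain ⟨a, ha⟩ := Function.ne_iff.1 hn
  obtain ⟨b, hab⟩ := Function.ne_iff.1 ha
  rw [diagonal_mul, mul_diagonal] at hab
  have z0 : Z a b ≠ 0 := fun e => hab (by rw [e, mul_zero, zero_mul])
  have α0 : y a - y b ≠ 0 := fun e => hab (by rw [sub_eq_zero.1 e, mul_comm])
  have ind : ∀ s : Finset (Fin 3 × Fin 3), (∀ p ∈ s, y p.1 - y p.2 ≠ y a - y b) →
      ∃ X ∈ L, X a b ≠ 0 ∧ ∀ p ∈ s, X p.1 p.2 = 0 := by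
    intro s
    induction s using Finset.induction_on with
    | empty => exact fun _ => ⟨Z, hZ, z0, by simp⟩
    | insert q s _ ih =>
      intro hs
      obtain ⟨X, hX, x0, hx⟩ := ih fun p hp => hs p (Finset.mem_insert_of_mem hp)
      have e : ∀ i j, (diagonal y * X - X * diagonal y - (y q.1 - y q.2) • X) i j
          = (y i - y j - (y q.1 - y q.2)) * X i j := fun i j => by
        simp only [Matrix.sub_apply, diagonal_mul, mul_diagonal, Matrix.smul_apply, smul_eq_mul]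
        ring
      refine ⟨_, L.sub_mem (hb _ hY _ hX) (L.smul_mem (y q.1 - y q.2) hX), ?_, fun p hp => ?_⟩
      · rw [e]
        exact mul_ne_zero (sub_ne_zero.2 (hs q (Finset.mem_insert_self _ _)).symm) x0
      · rw [e]
        rcases Finset.mem_insert.1 hp with rfl | hp
        · rw [sub_self, zero_mul]
        · rw [hx p hp, mul_zero]
  obtain ⟨X, hX, x0, hx⟩ := ind (Finset.univ.filter fun p => y p.1 - y p.2 ≠ y a - y b)
    fun p hp => (Finset.mem_filter.1 hp).2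
  have hx' : ∀ i j, X i j ≠ 0 → y i - y j = y a - y b := fun i j h => by
    by_contra hc
    exact h (hx (i, j) (Finset.mem_filter.2 ⟨Finset.mem_univ _, hc⟩))
  refine ⟨X, hX, fun e => x0 (by rw [e]; rfl), ?_⟩
  ext i l
  rw [pow_three', Matrix.mul_apply, Matrix.zero_apply]
  refine Finset.sum_eq_zero fun k _ => ?_
  rw [Matrix.mul_apply, Finset.sum_mul]
  refine Finset.sum_eq_zero fun j _ => ?_
  by_contra hc
  have e1 := hx' i j (left_ne_zero_of_mul (left_ne_zero_of_mul hc))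
  have e2 := hx' j k (right_ne_zero_of_mul (left_ne_zero_of_mul hc))
  have e3 := hx' k l (right_ne_zero_of_mul hc)
  have pig : ∀ i j k l : Fin 3, i = j ∨ i = k ∨ i = l ∨ j = k ∨ j = l ∨ k = l := by decide
  rcases pig i j k l with rfl | rfl | rfl | rfl | rfl | rfl
  · exact α0 (by linear_combination -e1)
  · exact α0 (by linear_combination -(e1 + e2) / 2)
  · exact α0 (by linear_combination -(e1 + e2 + e3) / 3)
  · exact α0 (by linear_combination -e2)
  · exact α0 (by linear_combination -(e2 + e3) / 2)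
  · exact α0 (by linear_combination -e3)

theorem nil_stmt : NilStmt := by
  intro L Y Z P y hb hY hZ hP hD hn
  have hPQ : P * P⁻¹ = 1 := mul_nonsing_inv _ hP.isUnit
  have hQP : P⁻¹ * P = 1 := nonsing_inv_mul _ hP.isUnit
  generalize P⁻¹ = Q at hPQ hQP
  have c1 : ∀ Z : CM, Q * (P * Z) = Z := fun Z => by rw [← Matrix.mul_assoc, hQP, Matrix.one_mul]
  have c2 : ∀ Z : CM, P * (Q * Z) = Z := fun Z => by rw [← Matrix.mul_assoc, hPQ, Matrix.one_mul]
  have mem : ∀ Z, Z ∈ L.comap (LinearMap.mulLeftRight ℂ (P, Q)) ↔ P * Z * Q ∈ L := fun Z => by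
    rw [Submodule.mem_comap, LinearMap.mulLeftRight_apply]
  have hY' : P * diagonal y * Q = Y := by rw [← hD, Matrix.mul_assoc, hPQ, Matrix.mul_one]
  obtain ⟨X, hX, x0, x3⟩ := diag_ClassC (L.comap (LinearMap.mulLeftRight ℂ (P, Q))) (Q * Z * P) y
    (fun A hA B hB => by
      have := hb _ ((mem _).1 hA) _ ((mem _).1 hB)
      rw [mem]
      simpa only [Matrix.mul_assoc, c1, Matrix.mul_sub, Matrix.sub_mul] using this)
    ((mem _).2 (hY' ▸ hY))
    (by rw [mem]; simpa only [Matrix.mul_assoc, c2, hPQ, Matrix.mul_one] using hZ)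
    (fun e => hn (by
      have := congrArg (fun A => P * A * Q) e
      rw [← hY']
      simpa only [Matrix.mul_assoc, c2, hPQ, Matrix.mul_one] using this))
  refine ⟨_, (mem _).1 hX, fun e => x0 ?_, ?_⟩
  · have := congrArg (fun A => Q * A * P) e
    simpa only [Matrix.mul_assoc, c1, hQP, Matrix.mul_one, Matrix.mul_zero, Matrix.zero_mul]
      using this
  · have : (P * X * Q) ^ 3 = P * X ^ 3 * Q := by
      simp only [pow_three, Matrix.mul_assoc, c1]
    rw [this, x3, Matrix.mul_zero, Matrix.zero_mul]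

end Pool.Agent.MP_5045a8_al.HX

end

section

namespace Pool.Agent.MP_5045a8_al.HX

open Matrix O FT

/-- The matrix of x in the basis P. -/
noncomputable def dm_Tor (P : CM) (x : G3) : CM := P⁻¹ * cm x * P

section
variable {g : G3} {P : CM} {e : C3}

theorem unit_Tor (h : P.det ≠ 0) : IsUnit P.det := isUnit_iff_ne_zero.2 h

theorem one_Tor (h : P.det ≠ 0) : dm_Tor P 1 = 1 := by
  rw [dm_Tor, map_one, Matrix.mul_one, nonsing_inv_mul _ (unit_Tor h)]

theorem mul_Tor (h : P.det ≠ 0) (x y : G3) : dm_Tor P (x * y) = dm_Tor P x * dm_Tor P y := by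
  simp only [dm_Tor, map_mul, Matrix.mul_assoc, mul_nonsing_inv_cancel_left _ _ (unit_Tor h)]

theorem back_Tor (h : P.det ≠ 0) (x : G3) : cm x = P * dm_Tor P x * P⁻¹ := by
  simp only [dm_Tor, Matrix.mul_assoc, mul_nonsing_inv_cancel_left _ _ (unit_Tor h),
    mul_nonsing_inv _ (unit_Tor h), Matrix.mul_one]

theorem inj_Tor (h : P.det ≠ 0) {x y : G3} (hxy : dm_Tor P x = dm_Tor P y) : x = y := by
  have h1 : cm x = cm y := by rw [back_Tor h x, back_Tor h y, hxy]
  ext i j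
  have h2 : ((x.1 i j : ℤ) : ℂ) = ((y.1 i j : ℤ) : ℂ) := congrFun (congrFun h1 i) j
  exact_mod_cast h2

theorem self_Tor (h : Diag g P e) : dm_Tor P g = diagonal e := by
  rw [dm_Tor, Matrix.mul_assoc, h.2.2, nonsing_inv_mul_cancel_left _ _ (unit_Tor h.1)]

theorem diag_Tor (h : Diag g P e) {x : G3} (hx : x ∈ Subgroup.centralizer {g}) :
    dm_Tor P x = diagonal fun i => dm_Tor P x i i := by
  have h1 := congrArg (dm_Tor P) (Subgroup.mem_centralizer_singleton_iff.1 hx)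
  rw [mul_Tor h.1, mul_Tor h.1, self_Tor h] at h1
  ext i j
  by_cases hij : i = j
  · rw [hij, diagonal_apply_eq]
  · have h2 := congrFun (congrFun h1 i) j
    rw [mul_diagonal, diagonal_mul, mul_comm (e i)] at h2
    rw [diagonal_apply_ne _ hij]
    by_contra h3
    exact hij (h.2.1 (mul_left_cancel₀ h3 h2)).symm

theorem chi_Tor (h : Diag g P e) {x : G3} (hx : x ∈ Subgroup.centralizer {g}) (y : G3)
    (i j : Fin 3) : dm_Tor P (x * y) i j = dm_Tor P x i i * dm_Tor P y i j := by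
  rw [mul_Tor h.1, diag_Tor h hx, diagonal_mul, diagonal_apply_eq]

theorem ne_Tor (h : Diag g P e) {x : G3} (hx : x ∈ Subgroup.centralizer {g}) (i : Fin 3) :
    dm_Tor P x i i ≠ 0 := by
  have h1 := chi_Tor h hx x⁻¹ i i
  rw [mul_inv_cancel, one_Tor h.1, one_apply_eq] at h1
  exact left_ne_zero_of_mul_eq_one h1.symm

theorem hpC_Tor (h : Diag g P e) : HP (Subgroup.centralizer {g} : Subgroup G3) := by
  let a : (Subgroup.centralizer {g} : Subgroup G3) → Fin 3 → ℝ :=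
    fun x i => Real.log ‖dm_Tor P x.1 i i‖
  have ha : ∀ x y i, a (x * y) i = a x i + a y i := fun x y i => by
    simp only [a, Subgroup.coe_mul]
    rw [chi_Tor h x.2, norm_mul,
      Real.log_mul (norm_ne_zero_iff.2 (ne_Tor h x.2 i)) (norm_ne_zero_iff.2 (ne_Tor h y.2 i))]
  have h1 : ∀ i, a 1 i = 0 := fun i => by have := ha 1 1 i; rw [mul_one] at this; linarith
  have hi : ∀ x i, a x⁻¹ i = -a x i := fun x i => by
    have := ha x x⁻¹ i
    rw [mul_inv_cancel, h1] at this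
    linarith
  refine Haagerup.hp ⟨fun x => ∑ i, a x i ^ 2, fun x => by positivity, by simp [h1],
    fun x => by simp [hi], fun n x c hc => ?_, fun R => ?_⟩
  · have e1 : ∑ j, ∑ k, c j * c k * ∑ i, a ((x j)⁻¹ * x k) i ^ 2
        = ∑ i, ∑ j, ∑ k, c j * c k * (a (x k) i - a (x j) i) ^ 2 := by
      simp only [Finset.mul_sum, ha, hi, neg_add_eq_sub]
      exact (Finset.sum_congr rfl fun j _ => Finset.sum_comm).trans Finset.sum_comm
    rw [e1]
    refine Finset.sum_nonpos fun i _ => ?_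
    have e2 : ∀ j k, c j * c k * (a (x k) i - a (x j) i) ^ 2 = c j * (c k * a (x k) i ^ 2)
        + c j * a (x j) i ^ 2 * c k - 2 * (c j * a (x j) i * (c k * a (x k) i)) := by
      intro j k; ring
    simp only [e2, Finset.sum_sub_distrib, Finset.sum_add_distrib, ← Finset.mul_sum,
      ← Finset.sum_mul, hc]
    nlinarith [mul_self_nonneg (∑ j, c j * a (x j) i)]
  · let B : ℝ := ∑ p : Fin 3 × Fin 3, ∑ k, ‖P p.1 k‖ * Real.exp (1 + R) * ‖P⁻¹ k p.2‖
    refine (Set.Finite.preimage (f := fun (x : (Subgroup.centralizer {g} : Subgroup G3))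
      (p : Fin 3 × Fin 3) => x.1.1 p.1 p.2) (Function.Injective.injOn fun x y hxy => ?_)
      (finite_of_entries (B ^ 2))).subset fun x hx p => ?_
    · ext i j
      exact congrFun hxy (i, j)
    · have h2 : ∀ k, ‖dm_Tor P x.1 k k‖ ≤ Real.exp (1 + R) := fun k => by
        have h3 : a x k ^ 2 ≤ R := (Finset.single_le_sum (f := fun i => a x i ^ 2)
          (fun _ _ => sq_nonneg _) (Finset.mem_univ k)).trans hx
        refine (Real.log_le_iff_le_exp (norm_pos_iff.2 (ne_Tor h x.2 k))).1 ?_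
        change a x k ≤ _
        nlinarith [sq_nonneg (a x k - 1)]
      have h3 : ((x.1.1 p.1 p.2 : ℤ) : ℂ) = ∑ k, P p.1 k * dm_Tor P x.1 k k * P⁻¹ k p.2 := by
        have := congrFun (congrFun (back_Tor h.1 x.1) p.1) p.2
        rw [diag_Tor h x.2, mul_apply] at this
        simp only [mul_diagonal] at this
        exact this
      have h4 : |((x.1.1 p.1 p.2 : ℤ) : ℝ)| ≤ B := by
        rw [← Complex.norm_intCast, h3]
        refine (norm_sum_le _ _).trans (le_trans (Finset.sum_le_sum fun k _ => ?_)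
          (Finset.single_le_sum (f := fun p : Fin 3 × Fin 3 =>
            ∑ k, ‖P p.1 k‖ * Real.exp (1 + R) * ‖P⁻¹ k p.2‖)
            (fun _ _ => by positivity) (Finset.mem_univ p)))
        rw [norm_mul, norm_mul]
        gcongr
        exact h2 k
      rw [← sq_abs]
      exact pow_le_pow_left₀ (abs_nonneg _) h4 2

theorem conj_Tor {k : G3} (hk : k ∈ TorN g) : k * g * k⁻¹ ∈ Subgroup.centralizer {g} :=
  (Subgroup.mem_normalizer_iff.1 hk g).1 (Subgroup.mem_centralizer_singleton_iff.2 rfl)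

theorem val_Tor (h : Diag g P e) {k : G3} (hk : k ∈ TorN g) (i : Fin 3) :
    ∃ j, dm_Tor P (k * g * k⁻¹) i i = e j := by
  obtain ⟨j, hj⟩ : ∃ j, dm_Tor P k i j ≠ 0 := by
    by_contra hn
    push Not at hn
    have h1 := congrFun (congrFun (mul_Tor h.1 k k⁻¹) i) i
    rw [mul_inv_cancel, one_Tor h.1, one_apply_eq, mul_apply] at h1
    simp [hn] at h1
  have h2 := chi_Tor h (conj_Tor hk) k i j
  rw [inv_mul_cancel_right, mul_Tor h.1, self_Tor h, mul_diagonal, mul_comm] at h2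
  exact ⟨j, (mul_right_cancel₀ hj h2).symm⟩

end

theorem tor_stmt : TorStmt := by
  intro g P e h
  refine HP.of_finiteIndex (H := (Subgroup.centralizer {g}).subgroupOf (TorN g))
    ((hpC_Tor h).of_injective (MonoidHom.mk' (fun x => ⟨x.1.1, x.2⟩) fun _ _ => rfl)
      fun a b hab => Subtype.ext (Subtype.ext (Subtype.mk.inj hab)))
    (relIndex_of_colour (fun k i j => dm_Tor P (k * g * k⁻¹) i i = e j) fun k hk l hl hc => ?_)
  have h1 : k * g * k⁻¹ = l * g * l⁻¹ := by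
    refine inj_Tor h.1 ?_
    rw [diag_Tor h (conj_Tor hk), diag_Tor h (conj_Tor hl)]
    congr 1
    funext i
    obtain ⟨j, hj⟩ := val_Tor h hk i
    exact hj.trans ((congrFun (congrFun hc i) j).mp hj).symm
  rw [Subgroup.mem_centralizer_singleton_iff]
  calc k⁻¹ * l * g = k⁻¹ * (l * g * l⁻¹) * l := by group
    _ = g * (k⁻¹ * l) := by rw [← h1]; group

end Pool.Agent.MP_5045a8_al.HX

end

section

/-! Two finiteness results: groups of exponent 12 and definite orthogonal groups. -/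

namespace Pool.Agent.MP_5045a8_al.HX

open Matrix O FT

theorem bin_Tors (A : M3) (n : ℕ) : ∃ R : M3, (1 + A) ^ n = 1 + (n : ℤ) • A + A * A * R := by
  induction n with
  | zero => exact ⟨0, by simp⟩
  | succ n ih =>
    obtain ⟨R, hR⟩ := ih
    refine ⟨(n : ℤ) • 1 + R * (1 + A), ?_⟩
    rw [pow_succ, hR]
    simp only [Nat.cast_add, Nat.cast_one, add_smul, one_smul, add_mul, mul_add, mul_one, one_mul,
      smul_mul_assoc, mul_smul_comm, mul_assoc]
    abel

theorem zero_Tors (A : M3) (h5 : ∀ i j, (5 : ℤ) ∣ A i j) (h : (1 + A) ^ 12 = 1) : A = 0 := by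
  obtain ⟨R, hR⟩ := bin_Tors A 12
  have e : (12 : ℤ) • A = -(A * A * R) := by
    rw [h, add_assoc, left_eq_add] at hR
    exact eq_neg_of_add_eq_zero_left hR
  have hk : ∀ k : ℕ, ∀ i j, (5 : ℤ) ^ (k + 1) ∣ A i j := by
    intro k
    induction k with
    | zero => simpa using h5
    | succ k ih =>
      intro i j
      have h1 : (5 : ℤ) ^ (k + 1 + 1) ∣ 12 * A i j := by
        have e' : 12 * A i j = -((A * A * R) i j) := congrFun (congrFun e i) j
        rw [e', dvd_neg, Matrix.mul_apply]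
        refine Finset.dvd_sum fun l _ => Dvd.dvd.mul_right ?_ _
        rw [Matrix.mul_apply]
        refine Finset.dvd_sum fun m _ => ?_
        rw [pow_succ]
        exact mul_dvd_mul (ih i m) (h5 m l)
      have hc : IsCoprime ((5 : ℤ) ^ (k + 1 + 1)) 12 :=
        IsCoprime.pow_left ⟨5, -2, by norm_num⟩
      exact hc.dvd_of_dvd_mul_left h1
  ext i j
  refine Int.eq_zero_of_dvd_of_natAbs_lt_natAbs (hk (A i j).natAbs i j) ?_
  rw [Int.natAbs_pow]
  exact (Nat.lt_succ_self _).trans (Nat.lt_pow_self (by norm_num))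

theorem tors_stmt : TorsStmt := by
  intro H hH
  let ρ : G3 →* SpecialLinearGroup (Fin 3) (ZMod 5) :=
    SpecialLinearGroup.map (Int.castRingHom (ZMod 5))
  refine Finite.of_injective (ρ.comp H.subtype) ((injective_iff_map_eq_one _).2 ?_)
  rintro ⟨g, hg⟩ e0
  have e : ρ g = ρ 1 := by rw [map_one]; exact e0
  have hd : ∀ i j, (5 : ℤ) ∣ (mat g - 1) i j := fun i j => by
    have e' : ((g i j : ℤ) : ZMod 5) = (((1 : G3) i j : ℤ) : ZMod 5) :=
      congrArg (fun A : SpecialLinearGroup (Fin 3) (ZMod 5) => A i j) e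
    exact (ZMod.intCast_eq_intCast_iff_dvd_sub _ _ _).1 e'.symm
  have h12 : (1 + (mat g - 1)) ^ 12 = 1 := by
    rw [add_sub_cancel]
    exact congrArg Subtype.val (hH g hg)
  exact Subtype.ext (mat_ext (sub_eq_zero.1 (zero_Tors _ hd h12)))

theorem cs_Tors {B : M3} (hB : Bᵀ = B) (h : ∀ x : V3, 0 ≤ bf B x x) (x y : V3) :
    bf B x y ^ 2 ≤ bf B x x * bf B y y := by
  have key : ∀ s t : ℤ, 0 ≤ s ^ 2 * bf B x x + 2 * s * t * bf B x y + t ^ 2 * bf B y y := by
    intro s t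
    have := h (s • x + t • y)
    rw [bf_add_left, bf_add_right, bf_add_right, bf_smul_left, bf_smul_left, bf_smul_left,
      bf_smul_left, bf_smul_right, bf_smul_right, bf_smul_right, bf_smul_right,
      bf_comm hB y x] at this
    linarith
  rcases (h y).eq_or_lt with h0 | h0
  · have k := key 1 (-(bf B x x + 1) * bf B x y)
    rw [← h0] at k ⊢
    by_contra hc
    have h1 : 1 ≤ bf B x y ^ 2 := by omega
    nlinarith [h x, mul_nonneg (h x) (sub_nonneg.2 h1)]
  · have k := key (bf B y y) (-bf B x y)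
    by_contra hc
    nlinarith [mul_pos h0 (sub_pos.2 (not_le.1 hc))]

theorem pos_Tors {B : M3} (hB : Bᵀ = B) (hd : B.det ≠ 0) (h : ∀ x : V3, 0 ≤ bf B x x) :
    {g : G3 | (mat g)ᵀ * B * mat g = B}.Finite := by
  let y : Fin 3 → V3 := fun i => B.adjugate *ᵥ Pi.single i 1
  let c : Fin 3 × Fin 3 → ℤ := fun p =>
    bf B (Pi.single p.2 1) (Pi.single p.2 1) * bf B (y p.1) (y p.1)
  refine Set.Finite.preimage (f := fun (g : G3) (p : Fin 3 × Fin 3) => mat g p.1 p.2) ?_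
    (finite_of_entries ((∑ p, c p : ℤ) : ℝ)) |>.subset fun g hg p => ?_
  · intro g _ g' _ e
    refine mat_ext ?_
    ext i j
    exact congrFun e (i, j)
  · have hg' : (mat g)ᵀ * B * mat g = B := hg
    have h1 := cs_Tors hB h (mat g *ᵥ Pi.single p.2 1) (y p.1)
    rw [bf_mulVec, hg', bf_adj] at h1
    have h2 : (mat g *ᵥ Pi.single p.2 1) ⬝ᵥ Pi.single p.1 1 = mat g p.1 p.2 := by simp
    rw [h2, mul_pow] at h1
    have h3 : c p ≤ ∑ p, c p :=
      Finset.single_le_sum (fun q _ => mul_nonneg (h _) (h _)) (Finset.mem_univ p)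
    have h4 : 1 ≤ B.det ^ 2 := by
      have : 0 < B.det ^ 2 := by positivity
      omega
    have h5 : mat g p.1 p.2 ^ 2 ≤ ∑ p, c p := by
      have h6 : B.det ^ 2 * mat g p.1 p.2 ^ 2 ≤ c p := h1
      nlinarith [mul_nonneg (sub_nonneg.2 h4) (sq_nonneg (mat g p.1 p.2))]
    exact_mod_cast h5

theorem def_stmt : DefStmt := by
  intro B hB hd hI
  change Set.Finite {g : G3 | (mat g)ᵀ * B * mat g = B}
  by_cases h : ∃ v : V3, v ⬝ᵥ B *ᵥ v < 0
  · have h' : ∀ u : V3, u ⬝ᵥ B *ᵥ u ≤ 0 := fun u => not_lt.1 fun hu => hI ⟨hB, hd, ⟨u, hu⟩, h⟩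
    refine (pos_Tors (B := -B) (by rw [transpose_neg, hB]) ?_ fun x => ?_).subset fun g hg => ?_
    · rw [det_neg]
      exact mul_ne_zero (by simp) hd
    · rw [bf, neg_mulVec, dotProduct_neg]
      exact neg_nonneg.2 (h' x)
    · have hg' : (mat g)ᵀ * B * mat g = B := hg
      change (mat g)ᵀ * -B * mat g = -B
      rw [Matrix.mul_neg, Matrix.neg_mul, hg']
  · exact pos_Tors hB hd fun x => not_lt.1 fun hx => h ⟨x, hx⟩

end Pool.Agent.MP_5045a8_al.HX

end

section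

/-! Powers of transvections in general position generate a free group. -/

namespace Pool.Agent.MP_5045a8_al.HX

open Matrix O FT

theorem pp_Free {G α ι : Type} [Group G] [MulAction G α] [Nontrivial ι] (T : ι → G)
    (X : ι → Set α) (hne : ∀ i, (X i).Nonempty) (hd : Pairwise (Function.onFun Disjoint X))
    (hpp : ∀ i j, i ≠ j → ∀ n : ℤ, n ≠ 0 → ∀ x ∈ X j, T i ^ n • x ∈ X i) :
    Function.Injective (FreeGroup.lift T) := by
  have : FreeGroup.lift T =
      (Monoid.CoprodI.lift fun i => FreeGroup.lift fun _ : Unit => T i).comp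
        (@freeGroupEquivCoprodI ι).toMonoidHom := by
    ext i
    simp
  rw [this, MonoidHom.coe_comp]
  refine Function.Injective.comp ?_ (MulEquiv.injective freeGroupEquivCoprodI)
  refine Monoid.CoprodI.lift_injective_of_ping_pong (H := fun _ : ι => FreeGroup Unit)
    (fun i => FreeGroup.lift fun _ : Unit => T i) (Or.inr ⟨Classical.arbitrary ι, ?_⟩) X hne hd
    fun i j hij => ?_
  · rw [FreeGroup.freeGroupUnitEquivInt.cardinal_eq, Cardinal.mk_int]
    exact (Cardinal.natCast_lt_aleph0 (n := 3)).le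
  · refine FreeGroup.freeGroupUnitEquivInt.forall_congr_left.mpr ?_
    intro n hne1
    have hn : n ≠ 0 := by
      rintro rfl
      apply hne1
      simp [FreeGroup.freeGroupUnitEquivInt]
    rintro _ ⟨x, hx, rfl⟩
    have := hpp i j hij n hn x hx
    change FreeGroup.lift (fun _ => T i) (FreeGroup.of () ^ n) • x ∈ X i
    simpa only [map_zpow, FreeGroup.lift_apply_of] using this

theorem cyc_Free (t : G3) : HP (Subgroup.zpowers t) := by
  refine HP.of_cyclic (H := ⊥) (hp_free.of_injective 1 fun a b _ => Subsingleton.elim a b)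
    ⟨t, Subgroup.mem_zpowers t⟩ ?_
  rintro ⟨_, m, rfl⟩
  refine ⟨m, Subgroup.mem_bot.2 (inv_mul_eq_one.2 (Subtype.ext ?_))⟩
  simp

theorem low_Free {a b c s M : ℤ} (ha : |a| ≤ 2 * M * |b|) (hc : c ≠ 0) :
    (|s| - 2 * M) * |b| ≤ |a + b * (s * c)| := by
  have h1 : |b * (s * c)| - |a| ≤ |a + b * (s * c)| := by
    have := abs_sub (a + b * (s * c)) a
    rw [add_sub_cancel_left] at this
    linarith
  rw [abs_mul, abs_mul] at h1
  have h2 := Int.one_le_abs hc
  nlinarith [mul_nonneg (mul_nonneg (abs_nonneg b) (abs_nonneg s)) (sub_nonneg.2 h2)]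

theorem up_Free {a b c s M : ℤ} (ha : |a| ≤ 2 * M * |b|) (hc : |c| ≤ M) :
    |a + b * (s * c)| ≤ (|s| + 2) * M * |b| := by
  have h1 := abs_add_le a (b * (s * c))
  rw [abs_mul, abs_mul] at h1
  nlinarith [mul_nonneg (mul_nonneg (abs_nonneg b) (abs_nonneg s)) (sub_nonneg.2 hc)]

theorem free_stmt : FreeStmt := by
  intro ι _ x φ h1 h2
  obtain ⟨M, hM⟩ := (Set.finite_range fun p : ι × ι => |φ p.1 ⬝ᵥ x p.2|).bddAbove
  have hM' : ∀ i j, |φ i ⬝ᵥ x j| ≤ M := fun i j => hM ⟨(i, j), rfl⟩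
  rcases subsingleton_or_nontrivial ι with hs | hs
  · refine ⟨1, one_ne_zero, fun t _ => ?_⟩
    rcases isEmpty_or_nonempty ι with he | ⟨⟨i⟩⟩
    · exact (cyc_Free 1).mono ((Subgroup.closure_le _).2 (by rintro _ ⟨j, rfl⟩; exact he.elim j))
    · refine (cyc_Free (t i)).mono ((Subgroup.closure_le _).2 ?_)
      rintro _ ⟨j, rfl⟩
      rw [Subsingleton.elim j i]
      exact Subgroup.mem_zpowers _
  have M0 : 0 ≤ M := (abs_nonneg _).trans (hM' (Classical.arbitrary ι) (Classical.arbitrary ι))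
  refine ⟨4 * M + 2, by omega, fun t ht => ?_⟩
  let _ : MulAction G3 V3 :=
    { smul := fun g v => mat g *ᵥ v
      one_smul := fun v => one_mulVec v
      mul_smul := fun g h v => (mulVec_mulVec v (mat g) (mat h)).symm }
  have hinj : Function.Injective (FreeGroup.lift t) := by
    refine pp_Free t (fun i => {v : V3 | ∀ j, j ≠ i → |φ i ⬝ᵥ v| < |φ j ⬝ᵥ v| ∧
      ∀ k, |φ k ⬝ᵥ v| ≤ 2 * M * |φ j ⬝ᵥ v|}) (fun i => ⟨x i, fun j hj => ?_⟩)
      (fun i l hil => Set.disjoint_left.2 fun v a b => lt_asymm (a l hil.symm).1 (b i hil).1)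
      fun i l hil n hn v hv => ?_
    · have h3 := Int.one_le_abs (h2 j i hj)
      rw [(h1 i).2.2, abs_zero]
      exact ⟨by omega, fun k => by nlinarith [hM' k i]⟩
    · obtain ⟨h3, h4⟩ := hv i hil
      have e : ∀ k, φ k ⬝ᵥ (mat (t i ^ n) *ᵥ v) =
          φ k ⬝ᵥ v + φ i ⬝ᵥ v * (n * (4 * M + 2) * (φ k ⬝ᵥ x i)) := fun k => by
        rw [zpow_tv (ht i), tv_mulVec]
        simp only [dotProduct_add, dotProduct_smul, smul_eq_mul, mul_assoc]
      have h5 : 4 * M + 2 ≤ |n * (4 * M + 2)| := by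
        rw [abs_mul, abs_of_nonneg (by omega : 0 ≤ 4 * M + 2)]
        nlinarith [Int.one_le_abs hn]
      have h6 : 0 < |φ i ⬝ᵥ v| := (abs_nonneg _).trans_lt h3
      intro j hj
      have h7 := low_Free (s := n * (4 * M + 2)) (h4 j) (h2 j i hj)
      change |φ i ⬝ᵥ (mat (t i ^ n) *ᵥ v)| < |φ j ⬝ᵥ (mat (t i ^ n) *ᵥ v)| ∧
        ∀ k, |φ k ⬝ᵥ (mat (t i ^ n) *ᵥ v)| ≤ 2 * M * |φ j ⬝ᵥ (mat (t i ^ n) *ᵥ v)|
      refine ⟨?_, fun k => ?_⟩
      · rw [e, e, (h1 i).2.2, mul_zero, mul_zero, add_zero]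
        nlinarith
      · rw [e, e]
        refine (up_Free (h4 k) (hM' k i)).trans
          (le_trans ?_ (mul_le_mul_of_nonneg_left h7 (by omega)))
        nlinarith [mul_nonneg (mul_nonneg M0 h6.le) (sub_nonneg.2 h5)]
  obtain ⟨f, hf⟩ := Countable.exists_injective_nat ι
  have hF : HP (FreeGroup ι) := hp_free.of_injective (FreeGroup.map fun i => (f i : ℤ))
    (FreeGroup.map_injective fun a b e => hf (by exact_mod_cast e))
  rw [← FreeGroup.range_lift_eq_closure]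
  exact hF.of_injective (MonoidHom.ofInjective hinj).symm.toMonoidHom
    (MonoidHom.ofInjective hinj).symm.injective

end Pool.Agent.MP_5045a8_al.HX

end
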