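import Pool.Agent.Mg.F5045a8a.Gd4655a
import Pool.Agent.Mg.F5045a8a.G63bfc5
import Pool.Agent.Mg.F5045a8a.Gb8ce7f
import Pool.Agent.Mg.F5045a8a.Ged70b4
import Pool.Agent.Mg.F5045a8a.G503e02
import Pool.Agent.Mg.F5045a8a.Gcfd936
import Pool.Agent.Mg.F5045a8a.G324d72
import Pool.Agent.Mg.F5045a8a.G230210
import Pool.Agent.Mg.F5045a8.Gca105f
import Pool.Agent.Mg.F5045a8a.G1d6757
import Pool.Agent.MP_5045a8_al.DefsW

section

/-! First properties of regular unipotent elements. -/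

namespace Pool.Agent.MP_5045a8_al.HX

open Matrix O FT

theorem ker_RegA {N : M3} (h3 : N ^ 3 = 0) (h2 : N ^ 2 ≠ 0) {x y : V3} (hx : N *ᵥ x = 0)
    (hy : N *ᵥ y = 0) : cr x y = 0 := by
  by_contra hw
  set w := cr x y with hwd
  have hn : w ⬝ᵥ w ≠ 0 := (dot_self_pos hw).ne'
  have hrow : ∀ i, (N i ⬝ᵥ w) • w = (w ⬝ᵥ w) • N i := fun i =>
    par_dot (cr_of_perp (congrFun hx i) (congrFun hy i)) w
  have e1 : (w ⬝ᵥ w) • N = vecMulVec (N *ᵥ w) w := by
    ext i j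
    have := congrFun (hrow i) j
    simp only [Pi.smul_apply, smul_eq_mul] at this
    simp only [Matrix.smul_apply, smul_eq_mul, vecMulVec_apply]
    rw [← this]; rfl
  set n := w ⬝ᵥ w with hnd
  set t := w ⬝ᵥ (N *ᵥ w) with htd
  have e2 : n • N ^ 2 = t • N := by
    have : (n • N) * (n • N) = t • (n • N) := by
      rw [e1, vecMulVec_mul_vecMulVec, vecMulVec_smul]
    rw [smul_mul_smul_comm, ← sq N, smul_comm t n, mul_smul] at this
    exact smul_right_injective _ hn this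
  have e3 : t • N ^ 2 = 0 := by
    have : (n • N ^ 2) * N = (t • N) * N := by rw [e2]
    rw [smul_mul_assoc, smul_mul_assoc, ← pow_succ, h3, smul_zero, ← sq] at this
    exact this.symm
  have ht : t = 0 := (smul_eq_zero.1 e3).resolve_right h2
  rw [ht, zero_smul] at e2
  exact h2 ((smul_eq_zero.1 e2).resolve_left hn)

theorem np_RegA {u : G3} {p f : V3} (h : Reg u p f) : (mat u - 1) *ᵥ p = 0 := by
  rw [sub_mulVec, one_mulVec, h.2.2.2.2.1, sub_self]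

theorem nf_RegA {u : G3} {p f : V3} (h : Reg u p f) : f ᵥ* (mat u - 1) = 0 := by
  rw [vecMul_sub, vecMul_one, h.2.2.2.2.2, sub_self]

theorem tr_RegA {u : G3} {p f : V3} (h : Reg u p f) : Reg u.transpose f p := by
  obtain ⟨h3, h2, hp, hf, e1, e2⟩ := h
  have e : mat u.transpose - 1 = (mat u - 1)ᵀ := by
    rw [mat_transpose, transpose_sub, transpose_one]
  refine ⟨?_, ?_, hf, hp, ?_, ?_⟩
  · rw [e, ← transpose_pow, h3, transpose_zero]
  · rw [e, ← transpose_pow]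
    intro h0
    exact h2 (by rw [← transpose_transpose ((mat u - 1) ^ 2), h0, transpose_zero])
  · rw [mat_transpose, mulVec_transpose, e2]
  · rw [mat_transpose, vecMul_transpose, e1]

theorem col_RegA {u : G3} {p f : V3} (h : Reg u p f) (x : V3) :
    cr ((mat u - 1) ^ 2 *ᵥ x) p = 0 := by
  refine ker_RegA h.1 h.2.1 ?_ (np_RegA h)
  rw [mulVec_mulVec, ← pow_succ', h.1, zero_mulVec]

theorem regA_dot {u : G3} {p f : V3} (h : Reg u p f) : f ⬝ᵥ p = 0 := by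
  obtain ⟨x, hx⟩ : ∃ x : V3, (mat u - 1) ^ 2 *ᵥ x ≠ 0 := by
    by_contra hc
    push Not at hc
    exact h.2.1 (ext_of_mulVec_single fun i => by rw [hc, zero_mulVec])
  rw [dotProduct_comm]
  refine par_dot_zero (col_RegA h x) hx ?_
  rw [dotProduct_comm, dotProduct_mulVec, sq, ← vecMul_vecMul, nf_RegA h, zero_vecMul,
    zero_dotProduct]

theorem regA_sq {u : G3} {p f : V3} (h : Reg u p f) :
    ∃ a b : ℤ, a ≠ 0 ∧ b ≠ 0 ∧ a • (mat u - 1) ^ 2 = b • vecMulVec p f := by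
  have hp : p ⬝ᵥ p ≠ 0 := (dot_self_pos h.2.2.1).ne'
  have hf : f ⬝ᵥ f ≠ 0 := (dot_self_pos h.2.2.2.1).ne'
  set r := p ᵥ* (mat u - 1) ^ 2 with hr
  have e1 : (p ⬝ᵥ p) • (mat u - 1) ^ 2 = vecMulVec p r := by
    ext i j
    have := congrFun (par_dot (col_RegA h (Pi.single j 1)) p) i
    simp only [Pi.smul_apply, smul_eq_mul, mulVec_single_one] at this
    simp only [Matrix.smul_apply, smul_eq_mul, vecMulVec_apply]
    rw [dotProduct_comm _ p, mul_comm] at this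
    exact this.symm
  have e2 : (r ⬝ᵥ f) • f = (f ⬝ᵥ f) • r := by
    refine par_dot ?_ f
    have := col_RegA (tr_RegA h) p
    rwa [mat_transpose, ← transpose_one, ← transpose_sub, ← transpose_pow, mulVec_transpose]
      at this
  have e3 : ((f ⬝ᵥ f) * (p ⬝ᵥ p)) • (mat u - 1) ^ 2 = (r ⬝ᵥ f) • vecMulVec p f := by
    rw [mul_smul, e1, ← vecMulVec_smul, ← e2, vecMulVec_smul]
  refine ⟨_, _, mul_ne_zero hf hp, fun h0 => ?_, e3⟩
  rw [h0, zero_smul] at e3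
  exact h.2.1 ((smul_eq_zero.1 e3).resolve_left (mul_ne_zero hf hp))

theorem regA_fixv {u : G3} {p f x : V3} (h : Reg u p f) (hx : cr (mat u *ᵥ x) x = 0) :
    cr x p = 0 := by
  by_cases h0 : x = 0
  · rw [h0, ext3, cr0, cr1, cr2]; simp
  have hn : x ⬝ᵥ x ≠ 0 := (dot_self_pos h0).ne'
  have e := par_dot hx x
  set n := x ⬝ᵥ x with hnd
  set s := (mat u *ᵥ x) ⬝ᵥ x with hsd
  set N := mat u - 1 with hN
  have e1 : n • N *ᵥ x = (s - n) • x := by
    rw [hN, sub_mulVec, one_mulVec, smul_sub, sub_smul, e]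
  have e2 : ∀ k : ℕ, n ^ k • N ^ k *ᵥ x = (s - n) ^ k • x := by
    intro k
    induction k with
    | zero => simp
    | succ k ih =>
      rw [pow_succ N, ← mulVec_mulVec, pow_succ n, mul_smul, ← mulVec_smul, e1, mulVec_smul,
        smul_comm, ih, pow_succ', mul_smul]
  have e3 := e2 3
  rw [h.1, zero_mulVec, smul_zero] at e3
  have e4 : s - n = 0 := pow_eq_zero_iff (three_ne_zero) |>.1
    ((smul_eq_zero.1 e3.symm).resolve_right h0)
  rw [e4, zero_smul] at e1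
  exact ker_RegA h.1 h.2.1 ((smul_eq_zero.1 e1).resolve_left hn) (np_RegA h)

theorem regA_fixc {u : G3} {p f φ : V3} (h : Reg u p f) (hx : cr (φ ᵥ* mat u) φ = 0) :
    cr φ f = 0 :=
  regA_fixv (tr_RegA h) (by rwa [mat_transpose, mulVec_transpose])

theorem regA_onv {u : G3} {p f x : V3} (h : Reg u p f) (hx : f ⬝ᵥ x = 0) :
    cr (mat u *ᵥ x - x) p = 0 := by
  obtain ⟨a, b, ha, -, e⟩ := regA_sq h
  have e1 : a • (mat u - 1) ^ 2 *ᵥ x = 0 := by
    rw [← smul_mulVec, e, smul_mulVec, vecMulVec_mulVec, hx]; simp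
  have e2 : mat u *ᵥ x - x = (mat u - 1) *ᵥ x := by rw [sub_mulVec, one_mulVec]
  rw [e2]
  refine ker_RegA h.1 h.2.1 ?_ (np_RegA h)
  rw [mulVec_mulVec, ← sq]
  exact (smul_eq_zero.1 e1).resolve_left ha

theorem regA_onc {u : G3} {p f φ : V3} (h : Reg u p f) (hx : φ ⬝ᵥ p = 0) :
    cr (φ ᵥ* mat u - φ) f = 0 := by
  have := regA_onv (tr_RegA h) (x := φ) (by rwa [dotProduct_comm])
  rwa [mat_transpose, mulVec_transpose] at this

end Pool.Agent.MP_5045a8_al.HX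

end

section

/-! Two orbits of a quadratic recursion with prescribed integrality. -/

namespace Pool.Agent.MP_5045a8_al.HX

open Matrix O FT

open Polynomial in
/-- The recursion with a variable starting value. -/
noncomputable def st_Hen (l κ μ : ℕ → ℚ) : ℕ → ℚ[X] × ℚ[X]
  | 0 => (X, 0)
  | i + 1 => ((st_Hen l κ μ i).2 + C (l i) * (st_Hen l κ μ i).1 + C (κ i) * (st_Hen l κ μ i).1 ^ 2,
      C (μ i) * (st_Hen l κ μ i).1)

theorem deg_Hen (l κ μ : ℕ → ℚ) (hκ : ∀ i, κ i ≠ 0) (i : ℕ) :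
    (st_Hen l κ μ i).1.natDegree = 2 ^ i ∧ (st_Hen l κ μ i).2.natDegree ≤ 2 ^ i := by
  induction i with
  | zero => simp [st_Hen]
  | succ i ih =>
    have h0 : 0 < 2 ^ i := by positivity
    have h1 : (Polynomial.C (κ i) * (st_Hen l κ μ i).1 ^ 2).natDegree = 2 ^ (i + 1) := by
      rw [Polynomial.natDegree_C_mul (hκ i), Polynomial.natDegree_pow, ih.1, pow_succ']
    have h2 : ∀ c : ℚ, (Polynomial.C c * (st_Hen l κ μ i).1).natDegree ≤ 2 ^ i := fun c =>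
      (Polynomial.natDegree_C_mul_le _ _).trans ih.1.le
    refine ⟨?_, (h2 _).trans (by omega)⟩
    rw [← h1]
    refine Polynomial.natDegree_add_eq_right_of_natDegree_lt ?_
    rw [h1]
    exact ((Polynomial.natDegree_add_le _ _).trans (max_le ih.2 (h2 _))).trans_lt (by omega)

theorem zero_Hen (l κ μ : ℕ → ℚ) (i : ℕ) :
    (st_Hen l κ μ i).1.eval 0 = 0 ∧ (st_Hen l κ μ i).2.eval 0 = 0 := by
  induction i with
  | zero => simp [st_Hen]
  | succ i ih => simp [st_Hen, ih.1, ih.2]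

theorem small_Hen (D : ℚ) (hD : D ≠ 0) (R : Polynomial ℚ) :
    ∃ L : ℤ, L ≠ 0 ∧ ∀ m : ℤ, L ∣ m → ∃ n : ℤ, (m : ℚ) * R.eval (m : ℚ) = n * D := by
  induction R using Polynomial.induction_on' with
  | add p q hp hq =>
    obtain ⟨L, h1, h2⟩ := hp
    obtain ⟨L', h3, h4⟩ := hq
    refine ⟨L * L', mul_ne_zero h1 h3, fun m hm => ?_⟩
    obtain ⟨n, hn⟩ := h2 m ((dvd_mul_right _ _).trans hm)
    obtain ⟨n', hn'⟩ := h4 m ((dvd_mul_left _ _).trans hm)
    exact ⟨n + n', by rw [Polynomial.eval_add, mul_add, hn, hn', Int.cast_add, add_mul]⟩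
  | monomial k a =>
    refine ⟨(a / D).den, by simp, ?_⟩
    rintro m ⟨c, hc⟩
    refine ⟨c * (a / D).num * m ^ k, ?_⟩
    have h1 : ((a / D).num : ℚ) * D = (a / D).den * a := by
      rw [← Rat.den_mul_eq_num, mul_assoc, div_mul_cancel₀ _ hD]
    have h2 : (m : ℚ) = (a / D).den * c := by exact_mod_cast hc
    rw [Polynomial.eval_monomial]
    push_cast
    linear_combination (a * (m : ℚ) ^ k) * h2 - (c * (m : ℚ) ^ k) * h1

theorem small'_Hen (D : ℚ) (hD : D ≠ 0) (P : Polynomial ℚ) (hP : P.eval 0 = 0) :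
    ∃ L : ℤ, L ≠ 0 ∧ ∀ m : ℤ, L ∣ m → ∃ n : ℤ, P.eval (m : ℚ) = n * D := by
  obtain ⟨R, rfl⟩ := Polynomial.X_dvd_iff.2 ((Polynomial.coeff_zero_eq_eval_zero P).trans hP)
  simpa only [Polynomial.eval_mul, Polynomial.eval_X] using small_Hen D hD R

theorem nz_Hen (P : Polynomial ℚ) (hP : P ≠ 0) (L : ℤ) (hL : L ≠ 0) :
    ∃ m : ℤ, L ∣ m ∧ P.eval (m : ℚ) ≠ 0 := by
  by_contra h
  push Not at h
  refine hP (Polynomial.eq_zero_of_infinite_isRoot P (Set.infinite_of_injective_forall_mem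
    (f := fun k : ℤ => ((L * k : ℤ) : ℚ)) (fun a b e => ?_) fun k => h _ (dvd_mul_right _ _)))
  exact mul_left_cancel₀ hL (Int.cast_injective e)

theorem hen_stmt : HenStmt := by
  intro α l κ μ hα hκ hμ
  choose L hL0 hL using fun i => small'_Hen (α i) (hα i) _ (zero_Hen l κ μ i).1
  have h0 : ∏ i ∈ Finset.range 6, L i ≠ 0 := Finset.prod_ne_zero_iff.2 fun i _ => hL0 i
  have hT : (st_Hen l κ μ 6).2.natDegree = 32 := by
    have : (st_Hen l κ μ 6).2 = Polynomial.C (μ 5) * (st_Hen l κ μ 5).1 := rfl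
    rw [this, Polynomial.natDegree_C_mul (hμ 5), (deg_Hen l κ μ hκ 5).1]
    norm_num
  have hS : ((st_Hen l κ μ 6).1 - Polynomial.X).natDegree = 64 := by
    rw [Polynomial.natDegree_sub_eq_left_of_natDegree_lt, (deg_Hen l κ μ hκ 6).1]
    · norm_num
    · rw [(deg_Hen l κ μ hκ 6).1, Polynomial.natDegree_X]
      norm_num
  obtain ⟨m', d', h'⟩ := nz_Hen (st_Hen l κ μ 6).2 (fun e => by simp [e] at hT) _ h0
  obtain ⟨m, d, h⟩ := nz_Hen
    (Polynomial.C ((st_Hen l κ μ 6).2.eval (m' : ℚ)) * ((st_Hen l κ μ 6).1 - Polynomial.X) -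
      Polynomial.C ((st_Hen l κ μ 6).1.eval (m' : ℚ) - m') * (st_Hen l κ μ 6).2) (fun e => by
      have h1 := congrArg Polynomial.natDegree (sub_eq_zero.1 e)
      have h2 := Polynomial.natDegree_C_mul_le ((st_Hen l κ μ 6).1.eval (m' : ℚ) - m')
        (st_Hen l κ μ 6).2
      rw [Polynomial.natDegree_C_mul h', hS] at h1
      omega) _ h0
  have step : ∀ (x : ℚ) (i : ℕ), (st_Hen l κ μ (i + 1)).1.eval x = (st_Hen l κ μ i).2.eval x +
      l i * (st_Hen l κ μ i).1.eval x + κ i * (st_Hen l κ μ i).1.eval x ^ 2 ∧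
      (st_Hen l κ μ (i + 1)).2.eval x = μ i * (st_Hen l κ μ i).1.eval x := fun x i => by
    simp [st_Hen]
  have s0 : ∀ x : ℚ, (st_Hen l κ μ 0).1.eval x = x := fun x => by simp [st_Hen]
  refine ⟨fun i => (st_Hen l κ μ i).1.eval (m : ℚ), fun i => (st_Hen l κ μ i).2.eval (m : ℚ),
    fun i => (st_Hen l κ μ i).1.eval (m' : ℚ), fun i => (st_Hen l κ μ i).2.eval (m' : ℚ),
    by simp [st_Hen], by simp [st_Hen], step _, step _, fun i hi => ?_, fun e => h ?_⟩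
  · have h1 := Finset.dvd_prod_of_mem L (Finset.mem_range.2 hi)
    exact ⟨hL i m (h1.trans d), hL i m' (h1.trans d')⟩
  · simp only [s0] at e
    simp only [Polynomial.eval_sub, Polynomial.eval_mul, Polynomial.eval_C, Polynomial.eval_X]
    linear_combination e

end Pool.Agent.MP_5045a8_al.HX

end

section

namespace Pool.Agent.MP_5045a8_al.HX

open Matrix O FT

lemma Dv_X_LieA (Y : RM) (i j : Fin 3) :
    Dv Y (MvPolynomial.X (i, j)) = ∑ k, MvPolynomial.X (i, k) * MvPolynomial.C (Y k j) := by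
  rw [Dv, MvPolynomial.mkDerivation_X]

lemma Dv_C_LieA (Y : RM) (a : ℝ) : Dv Y (MvPolynomial.C a) = 0 :=
  MvPolynomial.derivation_C _ a

lemma Dv_XC_LieA (Y : RM) (i j : Fin 3) (a : ℝ) :
    Dv Y (MvPolynomial.X (i, j) * MvPolynomial.C a)
      = (∑ k, MvPolynomial.X (i, k) * MvPolynomial.C (Y k j)) * MvPolynomial.C a := by
  rw [Derivation.leibniz, Dv_C_LieA, Dv_X_LieA, smul_zero, zero_add, smul_eq_mul, mul_comm]

lemma Dv_Dv_LieA (Y Z : RM) (i j : Fin 3) :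
    Dv Y (Dv Z (MvPolynomial.X (i, j)))
      = ∑ k, MvPolynomial.X (i, k) * MvPolynomial.C ((Y * Z) k j) := by
  rw [Dv_X_LieA, map_sum]
  simp only [Dv_XC_LieA, Matrix.mul_apply, map_sum, map_mul, Finset.sum_mul, Finset.mul_sum]
  rw [Finset.sum_comm]
  exact Finset.sum_congr rfl fun _ _ => Finset.sum_congr rfl fun _ _ => by ring

lemma Dv_zero_LieA : Dv 0 = 0 := by
  refine MvPolynomial.derivation_ext fun ij => ?_
  obtain ⟨i, j⟩ := ij
  rw [Dv_X_LieA]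
  simp

lemma Dv_add_LieA (Y Z : RM) : Dv (Y + Z) = Dv Y + Dv Z := by
  refine MvPolynomial.derivation_ext fun ij => ?_
  obtain ⟨i, j⟩ := ij
  rw [Derivation.add_apply, Dv_X_LieA, Dv_X_LieA, Dv_X_LieA, ← Finset.sum_add_distrib]
  exact Finset.sum_congr rfl fun k _ => by rw [Matrix.add_apply, map_add, mul_add]

lemma Dv_smul_LieA (c : ℝ) (Y : RM) : Dv (c • Y) = c • Dv Y := by
  refine MvPolynomial.derivation_ext fun ij => ?_
  obtain ⟨i, j⟩ := ij
  rw [Derivation.smul_apply, Dv_X_LieA, Dv_X_LieA, MvPolynomial.smul_eq_C_mul, Finset.mul_sum]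
  exact Finset.sum_congr rfl fun k _ => by
    rw [Matrix.smul_apply, smul_eq_mul, map_mul]; ring

lemma Dv_br_LieA (Y Z : RM) : Dv (Y * Z - Z * Y) = ⁅Dv Y, Dv Z⁆ := by
  refine MvPolynomial.derivation_ext fun ij => ?_
  obtain ⟨i, j⟩ := ij
  rw [Derivation.commutator_apply, Dv_Dv_LieA, Dv_Dv_LieA, Dv_X_LieA, ← Finset.sum_sub_distrib]
  exact Finset.sum_congr rfl fun k _ => by rw [Matrix.sub_apply, map_sub, mul_sub]

theorem lieBr_stmt : LieBrStmt := by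
  intro H Y Z c hY hZ
  refine ⟨fun P _ h _ => ?_, fun P hP h hh => ?_, fun P hP h hh => ?_, fun P hP h hh => ?_⟩
  · rw [Dv_zero_LieA, Derivation.zero_apply, ev, map_zero]
  · have h1 := hY P hP h hh
    have h2 := hZ P hP h hh
    rw [ev] at h1 h2
    rw [Dv_add_LieA, Derivation.add_apply, ev, map_add, h1, h2, add_zero]
  · have h1 := hY P hP h hh
    rw [ev] at h1
    rw [Dv_smul_LieA, Derivation.smul_apply, MvPolynomial.smul_eq_C_mul, ev, map_mul, h1, mul_zero]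
  · have h1 := hY _ (hZ P hP) h hh
    have h2 := hZ _ (hY P hP) h hh
    rw [ev] at h1 h2
    rw [Dv_br_LieA, Derivation.commutator_apply, ev, map_sub, h1, h2, sub_zero]

/-- Restriction to the line 1 + T Y. -/
noncomputable def ln_LieA (Y : RM) : MP →ₐ[ℝ] Polynomial ℝ :=
  MvPolynomial.aeval fun ij : Fin 3 × Fin 3 =>
    Polynomial.C ((1 : RM) ij.1 ij.2) + Polynomial.C (Y ij.1 ij.2) * Polynomial.X

lemma ln_eval_LieA (Y : RM) (P : MP) (t : ℝ) : (ln_LieA Y P).eval t = ev (1 + t • Y) P := by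
  rw [ln_LieA, ev, ← Polynomial.coe_aeval_eq_eval, ← AlgHom.comp_apply, MvPolynomial.comp_aeval,
    MvPolynomial.aeval_eq_eval]
  congr 2
  funext ij
  rw [Matrix.add_apply, Matrix.smul_apply, smul_eq_mul, mul_comm t]
  simp

lemma ln_X_LieA (Y : RM) (i j : Fin 3) :
    ln_LieA Y (MvPolynomial.X (i, j))
      = Polynomial.C ((1 : RM) i j) + Polynomial.C (Y i j) * Polynomial.X := by
  rw [ln_LieA, MvPolynomial.aeval_X]

lemma ln_C_LieA (Y : RM) (a : ℝ) : ln_LieA Y (MvPolynomial.C a) = Polynomial.C a := by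
  rw [ln_LieA, MvPolynomial.aeval_C]; rfl

lemma ln_DX_LieA {Y : RM} (h0 : Y * Y = 0) (i j : Fin 3) :
    ln_LieA Y (Dv Y (MvPolynomial.X (i, j))) = Polynomial.C (Y i j) := by
  have h1 : ∑ k, (1 : RM) i k * Y k j = Y i j := by rw [← Matrix.mul_apply, one_mul]
  have h2 : ∑ k, Y i k * Y k j = 0 := by rw [← Matrix.mul_apply, h0, Matrix.zero_apply]
  rw [Dv_X_LieA, map_sum]
  have e : ∀ k, ln_LieA Y (MvPolynomial.X (i, k) * MvPolynomial.C (Y k j))
      = Polynomial.C ((1 : RM) i k * Y k j) + Polynomial.C (Y i k * Y k j) * Polynomial.X := by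
    intro k
    rw [map_mul, ln_X_LieA, ln_C_LieA, map_mul, map_mul]; ring
  simp only [e]
  rw [Finset.sum_add_distrib, ← Finset.sum_mul, ← map_sum, ← map_sum, h1, h2, map_zero, zero_mul,
    add_zero]

lemma ln_der_LieA {Y : RM} (h0 : Y * Y = 0) (P : MP) :
    Polynomial.derivative (ln_LieA Y P) = ln_LieA Y (Dv Y P) := by
  induction P using MvPolynomial.induction_on with
  | C a => rw [ln_C_LieA, Dv_C_LieA, map_zero, Polynomial.derivative_C]
  | add p q hp hq => rw [map_add, map_add, map_add, map_add, hp, hq]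
  | mul_X p ij hp =>
    obtain ⟨i, j⟩ := ij
    rw [map_mul, Polynomial.derivative_mul, hp, Derivation.leibniz, smul_eq_mul, smul_eq_mul,
      map_add, map_mul, map_mul, ln_DX_LieA h0, ln_X_LieA]
    simp only [map_add, Polynomial.derivative_C, Polynomial.derivative_mul,
      Polynomial.derivative_X]
    ring

theorem lieExp_stmt : LieExpStmt := by
  intro H Y t hY h0 P hP
  have key : ∀ n : ℕ, ∀ P, Van H P → (ln_LieA Y P).coeff n = 0 := by
    intro n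
    induction n with
    | zero =>
      intro P hP
      rw [Polynomial.coeff_zero_eq_eval_zero, ln_eval_LieA, zero_smul, add_zero]
      have := hP 1 H.one_mem
      rwa [mat_one, rm_one] at this
    | succ n ih =>
      intro P hP
      have := ih _ (hY P hP)
      rw [← ln_der_LieA h0, Polynomial.coeff_derivative] at this
      have hn : ((n : ℝ) + 1) ≠ 0 := by positivity
      exact (mul_eq_zero.1 this).resolve_right hn
  have e : ln_LieA Y P = 0 := Polynomial.ext fun n => by rw [key n P hP, Polynomial.coeff_zero]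
  rw [← ln_eval_LieA, e, Polynomial.eval_zero]

end Pool.Agent.MP_5045a8_al.HX

end

section

namespace Pool.Agent.MP_5045a8_al.HX

open Matrix O FT

theorem bne_Cusp {B : M3} (hd : B.det ≠ 0) {p : V3} (hp : p ≠ 0) : B *ᵥ p ≠ 0 := fun e => by
  have h := adj_mulVec (B := B) p
  rw [e, mulVec_zero] at h
  exact smul_ne_zero hd hp h.symm

theorem ind_stmt : IndStmt := by
  rintro B ⟨hs, hd, p, hp, h0⟩
  have h1 := dot_self_pos (bne_Cusp hd hp)
  have key : ∀ t : ℤ, bf B (B *ᵥ p + t • p) (B *ᵥ p + t • p) =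
      bf B (B *ᵥ p) (B *ᵥ p) + 2 * t * (B *ᵥ p) ⬝ᵥ (B *ᵥ p) := by
    intro t
    have h2 : bf B p p = 0 := h0
    have h3 : bf B (B *ᵥ p) p = (B *ᵥ p) ⬝ᵥ (B *ᵥ p) := rfl
    rw [bf_add_left, bf_add_right, bf_add_right, bf_smul_left, bf_smul_left, bf_smul_right,
      bf_smul_right, h2, bf_comm hs p, h3]
    ring
  have a1 := le_abs_self (bf B (B *ᵥ p) (B *ᵥ p))
  have a2 := neg_abs_le (bf B (B *ᵥ p) (B *ᵥ p))
  have a3 := abs_nonneg (bf B (B *ᵥ p) (B *ᵥ p))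
  refine ⟨hs, hd, ⟨_, lt_of_lt_of_eq ?_ (key (|bf B (B *ᵥ p) (B *ᵥ p)| + 1)).symm⟩,
    _, lt_of_eq_of_lt (key (-(|bf B (B *ᵥ p) (B *ᵥ p)| + 1))) ?_⟩ <;> nlinarith

theorem skew_Cusp {B : M3} (hs : Bᵀ = B) (c : V3) : (B *ᵥ c) ᵥ* Am B c = 0 := by
  rw [← mulVec_transpose, mulVec_mulVec, am_skew hs, neg_mulVec, ← mulVec_mulVec, am_self,
    mulVec_zero, neg_zero]

theorem reg_Cusp {B : M3} (hs : Bᵀ = B) (hd : B.det ≠ 0) {c : V3} (hc : c ≠ 0)
    (h0 : nq B c c = 0) {y : ℤ} (hy : y ≠ 0) {u : G3} (hu : mat u = gm B c 1 y) :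
    Reg u c (B *ᵥ c) := by
  have h3 := am_cube hs c
  rw [h0, zero_smul] at h3
  have h3' : Am B c * Am B c * Am B c = 0 := by rw [Matrix.mul_assoc, h3]
  have h4 : Am B c * Am B c * (Am B c * Am B c) = 0 := by
    rw [← Matrix.mul_assoc, h3', Matrix.zero_mul]
  have e1 : mat u - 1 = (2 * y) • Am B c + (2 * y ^ 2) • (Am B c * Am B c) := by
    rw [hu, gm, mul_one]
    abel
  have e2 : (mat u - 1) ^ 2 = (2 * y * (2 * y)) • (Am B c * Am B c) := by
    rw [sq, e1]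
    simp only [Matrix.mul_add, Matrix.add_mul, Matrix.smul_mul, Matrix.mul_smul, h3, h3', h4,
      smul_zero, add_zero, smul_smul]
  refine ⟨?_, ?_, hc, bne_Cusp hd hc, by rw [hu, gm_fix], ?_⟩
  · rw [pow_succ, e2, e1]
    simp only [Matrix.mul_add, Matrix.smul_mul, Matrix.mul_smul, h3', h4, smul_zero, add_zero]
  · rw [e2, am_sq hs, h0, zero_smul, add_zero]
    exact smul_ne_zero (by positivity) (smul_ne_zero hd (vecMulVec_ne_zero hc (bne_Cusp hd hc)))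
  · rw [hu, gm, vecMul_add, vecMul_add, vecMul_one, vecMul_smul, vecMul_smul, ← vecMul_vecMul,
      skew_Cusp hs]
    simp

theorem cusp_stmt : CuspStmt := by
  intro B K c hs hd hK hc hb
  have h0 : nq B c c = 0 := by rw [nq, hb, mul_zero]
  have hp : ∀ y : ℤ, (1 : ℤ) ^ 2 - nq B c c * y ^ 2 = 1 := fun y => by rw [h0]; ring
  let φ : Multiplicative ℤ →* G3 := MonoidHom.mk'
    (fun y => ⟨gm B c 1 y.toAdd, gm_det hs c (hp _)⟩) fun a b => Subtype.ext (by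
      show gm B c 1 (a.toAdd + b.toAdd) = gm B c 1 a.toAdd * gm B c 1 b.toAdd
      rw [gm_mul hs c (hp _) (hp _), h0]
      congr 1 <;> ring)
  have hφ : ∀ y : ℤ, mat (φ (Multiplicative.ofAdd y)) = gm B c 1 y := fun _ => rfl
  obtain ⟨k, hk, -, hm⟩ := Subgroup.exists_pow_mem_of_relIndex_ne_zero hK
    (a := φ (Multiplicative.ofAdd 1)) (mem_SOq.2 (gm_orth hs c (hp 1)))
  rw [← map_pow, ← ofAdd_nsmul, nsmul_one] at hm
  have hk' : (0 : ℤ) < k := by exact_mod_cast hk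
  refine ⟨k, hk', _, hm.1, hm.2, reg_Cusp hs hd hc h0 hk'.ne' (hφ k), fun n => ?_⟩
  rw [← map_zpow, ← ofAdd_zsmul, hφ, smul_eq_mul]

theorem eig_Cusp {B : M3} (hs : Bᵀ = B) {v z : V3} {s : ℤ} (h0 : s ≠ 0)
    (h : Am B v *ᵥ z = s • z) : z ⬝ᵥ B *ᵥ z = 0 := by
  have h1 : bf B (Am B v *ᵥ z) z = - bf B z (Am B v *ᵥ z) := by
    rw [bf, bf, mulVec_mulVec, ← vecMul_transpose, ← dotProduct_mulVec, mulVec_mulVec,
      am_skew hs, neg_mulVec, dotProduct_neg]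
  rw [h, bf_smul_left, bf_smul_right] at h1
  have h2 : s * bf B z z = 0 := by linarith
  exact (mul_eq_zero.1 h2).resolve_left h0

theorem ani_stmt : AniStmt := by
  rintro B v hs hd hpos ⟨s, h⟩
  have hv : v ≠ 0 := by
    rintro rfl
    simp [nq, bf] at hpos
  have h0 : s ≠ 0 := by
    rintro rfl
    omega
  obtain ⟨w, hw, h1, -⟩ := exists_perp_ne (f' := 0) (bne_Cusp hd hv)
  have h2 : Am B v *ᵥ (Am B v *ᵥ w) = (s * s) • w := by
    rw [mulVec_mulVec, am_sq hs, add_mulVec, smul_mulVec, smul_mulVec, one_mulVec,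
      vecMulVec_mulVec, h1, h]
    simp
  refine ⟨hs, hd, ?_⟩
  by_cases h3 : Am B v *ᵥ w + s • w = 0
  · exact ⟨w, hw, eig_Cusp (v := v) hs (neg_ne_zero.2 h0)
      (by rw [neg_smul]; exact eq_neg_of_add_eq_zero_left h3)⟩
  · refine ⟨_, h3, eig_Cusp (v := v) hs h0 ?_⟩
    rw [mulVec_add, h2, mulVec_smul, smul_add, smul_smul, add_comm]

end Pool.Agent.MP_5045a8_al.HX

end

section

/-! A non-square value on an orbit, and the rotation given by the Pell equation. -/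

namespace Pool.Agent.MP_5045a8_al.HX

open Matrix O FT

theorem so_Nsq {B : M3} {h : G3} (hh : h ∈ SOq B) (x : V3) :
    bf B (mat h *ᵥ x) (mat h *ᵥ x) = bf B x x := by
  rw [bf_mulVec, mem_SOq.1 hh]

theorem mul_Nsq (g h : G3) (x : V3) : mat (g * h) *ᵥ x = mat g *ᵥ (mat h *ᵥ x) := by
  rw [mat_mul, mulVec_mulVec]

theorem dot_Nsq {B : M3} (h : Bᵀ = B) (c x : V3) : (B *ᵥ c) ⬝ᵥ x = bf B c x := by
  rw [dotProduct_comm, bf_comm h, bf]

theorem nsq_stmt (hC : CuspStmt) (hP : PosStmt) (hO : OffStmt) (hQ : QuartStmt) : NsqStmt := by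
  intro B K c hB hK hn hc hi
  obtain ⟨g, hg, h, hh, hh', hpos⟩ := hP B K c hB hK hn hc
  by_cases hsq : IsSquare (nq B (mat g *ᵥ (mat h *ᵥ c)) (mat g *ᵥ (mat h *ᵥ c)))
  swap
  · exact ⟨g * h, K.mul_mem hg hh, by rwa [mul_Nsq], by rwa [mul_Nsq]⟩
  have c1 : mat h *ᵥ c ≠ 0 := mulVec_ne hc h
  have c2 : bf B (mat h *ᵥ c) (mat h *ᵥ c) = 0 := by rw [so_Nsq hh', hi]
  obtain ⟨y, hy, u, hu, -, hr, hun⟩ := hC B K _ hB.1 hB.2.1 hK c1 c2
  have c3 : B *ᵥ (mat h *ᵥ c) ≠ 0 := hr.2.2.2.1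
  obtain ⟨h1, a1, a2, a3⟩ := (hO B K _ _ hB hK c3 c1).1
  obtain ⟨h2, b1, b2, b3⟩ := (hO B K _ _ hB hK c3 (mulVec_ne c1 g)).1
  rw [dot_Nsq hB.1] at a3 b3
  have b4 : bf B (mat h2 *ᵥ (mat g *ᵥ (mat h *ᵥ c))) (mat h2 *ᵥ (mat g *ᵥ (mat h *ᵥ c))) ≠ 0 := by
    rw [so_Nsq b2]
    intro e
    rw [nq, e, mul_zero] at hpos
    exact lt_irrefl _ hpos
  obtain ⟨n, w, hw, w1, w2⟩ := hQ B g _ _ _ y hB.1 hB.2.1 hy.ne' c2 (by rw [so_Nsq a2, c2]) a3 b4
    b3 hpos hsq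
  rw [← hun] at hw
  rcases hw with rfl | rfl
  · refine ⟨g * (u ^ n * (h1 * h)), K.mul_mem hg (K.mul_mem (K.zpow_mem hu n) (K.mul_mem a1 hh)),
      ?_⟩
    simp only [mul_Nsq]
    exact ⟨w1, w2⟩
  · refine ⟨g * (u ^ n * (h2 * (g * h))),
      K.mul_mem hg (K.mul_mem (K.zpow_mem hu n) (K.mul_mem b1 (K.mul_mem hg hh))), ?_⟩
    simp only [mul_Nsq]
    exact ⟨w1, w2⟩

theorem rot_Nsq {B : M3} (h : Bᵀ = B) {c φ : V3} {x y : ℤ} (hx : 0 < x) (hy : 0 < y)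
    (hsq : ¬ IsSquare (nq B c c)) (p1 : φ ≠ 0) (p0 : φ ⬝ᵥ c = 0) :
    cr φ (φ ᵥ* gm B c x y) ≠ 0 := by
  have q1 := core_sq h c φ
  rw [p0, mul_zero, zero_smul, zero_add] at q1
  intro e
  have k1 : cr φ (φ ᵥ* Am B c) = 0 := by
    rw [core_gm, q1] at e
    apply smul_right_injective V3 (show 2 * x * y ≠ 0 by positivity)
    generalize φ ᵥ* Am B c = t at e
    simp only [ext3, cr0, cr1, cr2, Pi.add_apply, Pi.smul_apply, smul_eq_mul, Pi.zero_apply] at e ⊢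
    exact ⟨by linear_combination e.1, by linear_combination e.2.1, by linear_combination e.2.2⟩
  have k2 := par_dot k1 φ
  have k3 := congrArg (· ᵥ* Am B c) k2
  simp only [smul_vecMul, q1] at k3
  have hs := (dot_self_pos p1).ne'
  generalize φ ⬝ᵥ φ = s at k2 k3 hs
  generalize φ ᵥ* Am B c ⬝ᵥ φ = m at k2 k3
  have k4 : s ^ 2 * nq B c c = m ^ 2 := by
    apply smul_left_injective ℤ p1
    linear_combination (exp := 1) s • k3 + m • k2
  obtain ⟨k, rfl⟩ := (Int.pow_dvd_pow_iff two_ne_zero).1 ⟨_, k4.symm⟩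
  exact hsq ⟨k, mul_left_cancel₀ (pow_ne_zero 2 hs) (by linear_combination k4)⟩

theorem pell_stmt : PellStmt := by
  intro B K p φ g hB hK hg hpos hsq h1 h0
  obtain ⟨x, y, hx, hy, -, d, hd, e1, -⟩ := exists_gm hB hpos hsq hK 0
  have a1 : mat g⁻¹ *ᵥ (mat g *ᵥ p) = p := by rw [mulVec_mulVec, mat_inv_mul, one_mulVec]
  have a2 := rot_Nsq hB hx hy hsq (vecMul_ne h1 g⁻¹) (by rw [← dotProduct_mulVec, a1, h0])
  refine ⟨g⁻¹ * (d * g), K.mul_mem (K.inv_mem hg) (K.mul_mem hd hg), ?_, fun e => a2 ?_⟩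
  · rw [mul_Nsq, mul_Nsq, e1, gm_fix, a1]
  · have a3 : φ ᵥ* mat g⁻¹ ᵥ* mat d = φ ᵥ* mat (g⁻¹ * (d * g)) ᵥ* mat g⁻¹ := by
      rw [vecMul_vecMul, vecMul_vecMul, ← mat_mul, ← mat_mul, mul_assoc, mul_assoc,
        mul_inv_cancel, mul_one]
    rw [← e1, a3]
    rcases par_unit h1 _ (cr_comm_zero e) with e' | e'
    · rw [e']
      simp only [ext3, cr0, cr1, cr2, Pi.zero_apply]
      exact ⟨by ring, by ring, by ring⟩
    · rw [e', neg_vecMul]
      simp only [ext3, cr0, cr1, cr2, Pi.zero_apply, Pi.neg_apply]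
      exact ⟨by ring, by ring, by ring⟩

end Pool.Agent.MP_5045a8_al.HX

end

section

/-! The end of the orthogonal case. -/

namespace Pool.Agent.MP_5045a8_al.HX

open Matrix O FT

theorem crs_OEnd (p : V3) : cr p p = 0 := by
  rw [ext3]
  simp only [cr0, cr1, cr2, Pi.zero_apply]
  exact ⟨by ring, by ring, by ring⟩

theorem crn_OEnd (p : V3) : cr (-p) p = 0 := by
  rw [ext3]
  simp only [cr0, cr1, cr2, Pi.zero_apply, Pi.neg_apply]
  exact ⟨by ring, by ring, by ring⟩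

theorem end_OEnd (hO : OffStmt) {B : M3} {K : Subgroup G3} {p : V3} (hB : Ind B) (hK : HP K)
    (hr : K.relIndex (SOq B) ≠ 0) (hp : p ≠ 0) (hl : LatAx (tr K) p) : False := by
  obtain ⟨h, hh, hne⟩ := (hO B K p p hB hr hp hp).2
  have := hl.stab hK.tr h.transpose (mem_tr.2 hh)
  rw [mat_transpose, vecMul_transpose] at this
  rcases this with e | e <;> rw [e] at hne
  exacts [hne (crs_OEnd p), hne (crn_OEnd p)]

theorem rel_OEnd {B : M3} {K : Subgroup G3} (hB : Ind B) (hr : K.relIndex (SOq B) ≠ 0) :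
    (tr K).relIndex (SOq B.adjugate) ≠ 0 := tr_SOq hB ▸ tr_relIndex hr

theorem nle_OEnd {B : M3} {K : Subgroup G3} (hB : Ind B) (hn : ¬ K ≤ SOq B) :
    ¬ tr K ≤ SOq B.adjugate := fun h => hn (tr_le.1 (tr_SOq hB ▸ h))

theorem reg_OEnd (hH : HStmt) {K : Subgroup G3} {p ψ : V3} (hF : Fl K p ψ)
    (h1 : ∃ δ ∈ K, mat δ *ᵥ p = p ∧ cr (ψ ᵥ* mat δ) ψ ≠ 0)
    (h2 : ∃ δ ∈ tr K, mat δ *ᵥ ψ = ψ ∧ cr (p ᵥ* mat δ) p ≠ 0) : LatAx (tr K) p := by
  obtain ⟨g, hg, a1, a2⟩ := h1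
  obtain ⟨h, hh, b1, b2⟩ := h2
  refine hH K p ψ g h.transpose hF hg (mem_tr.1 hh) (by rw [a1, crs_OEnd]) a2 ?_ ?_
  · rw [mat_transpose, vecMul_transpose, b1, crs_OEnd]
  · rwa [mat_transpose, mulVec_transpose]

theorem iso_OEnd {B : M3} (hB : Ind B) (h : Iso B.adjugate) : Iso B := by
  obtain ⟨-, -, φ, h0, h1⟩ := h
  refine ⟨hB.1, hB.2.1, B.adjugate *ᵥ φ, fun e => ?_, ?_⟩
  · have := mulVec_adj (B := B) φ
    rw [e, mulVec_zero] at this
    exact h0 ((smul_eq_zero.1 this.symm).resolve_left hB.2.1)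
  · have := bf_adj (B := B) (B.adjugate *ᵥ φ) φ
    rw [dotProduct_comm _ φ, h1, mul_zero] at this
    exact this

theorem ani_OEnd (hA : AniStmt) (hS : PosStmt) (hP : PellStmt) {B : M3} {K : Subgroup G3}
    {p φ : V3} (hB : Ind B) (hi : ¬ Iso B) (hr : K.relIndex (SOq B) ≠ 0) (hn : ¬ K ≤ SOq B)
    (hp : p ≠ 0) (hφ : φ ≠ 0) (h0 : φ ⬝ᵥ p = 0) :
    ∃ δ ∈ K, mat δ *ᵥ p = p ∧ cr (φ ᵥ* mat δ) φ ≠ 0 := by
  obtain ⟨g, hg, h, hh, -, hpos⟩ := hS B K p hB hr hn hp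
  rw [mulVec_mulVec, ← mat_mul] at hpos
  exact hP B K p φ (g * h) hB.1 hr (mul_mem hg hh) hpos
    (fun hs => hi (hA B _ hB.1 hB.2.1 hpos hs)) hφ h0

theorem o_stmt (hI : IndStmt) (hC : CuspStmt) (hN : NsqStmt) (hP : PellStmt) (hH : HStmt)
    (hO : OffStmt) : OStmt := by
  intro B K hiso hK hr
  by_contra hn
  have hB := hI B hiso
  obtain ⟨-, -, c, hc, h0⟩ := hiso
  obtain ⟨y, -, u, hu, -, hreg, -⟩ := hC B K c hB.1 hB.2.1 hr hc h0
  have hψ : B *ᵥ c ≠ 0 := hreg.2.2.2.1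
  have h1 : bf B.adjugate (B *ᵥ c) (B *ᵥ c) = 0 := by
    rw [bf, adj_mulVec, dotProduct_smul, dotProduct_comm, h0, smul_zero]
  obtain ⟨g, hg, a1, a2⟩ := hN B K c hB hr hn hc h0
  obtain ⟨g', hg', b1, b2⟩ := hN _ _ _ hB.adj (rel_OEnd hB hr) (nle_OEnd hB hn) hψ h1
  exact end_OEnd hO hB hK hr hc (reg_OEnd hH ⟨u, hu, hreg⟩
    (hP B K c _ g hB.1 hr hg a1 a2 hψ (by rw [dotProduct_comm, h0]))
    (hP _ _ _ c g' hB.adj.1 (rel_OEnd hB hr) hg' b1 b2 hc h0))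

theorem uni_stmt (hR : RegStmt) (h : OStmt) (hA : AniStmt) (hS : PosStmt) (hP : PellStmt)
    (hH : HStmt) (hO : OffStmt) : UniStmt := by
  intro B K u hB hK hr hu hu1 hu3
  by_cases hi : Iso B
  · exact h B K hi hK hr
  by_contra hn
  rcases hR.ex hu3 hu1 with ⟨p, f, hreg⟩ | ⟨n, p, f, hp, hf, -, e⟩
  · have hp : p ≠ 0 := hreg.2.2.1
    have hf : f ≠ 0 := hreg.2.2.2.1
    have h0 := hR.dot hreg
    exact end_OEnd hO hB hK hr hp (reg_OEnd hH ⟨u, hu, hreg⟩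
      (ani_OEnd hA hS hP hB hi hr hn hp hf h0)
      (ani_OEnd hA hS hP hB.adj (fun e => hi (iso_OEnd hB e)) (rel_OEnd hB hr) (nle_OEnd hB hn)
        hf hp (by rw [dotProduct_comm, h0])))
  · have hm : Mem K (tv p f) := ⟨u ^ n, zpow_mem hu n, e⟩
    obtain ⟨δ, hδ, a1, a2⟩ := ani_OEnd hA hS hP hB hi hr hn hp hf hm.dot
    have hm' := hm.conj (inv_mem hδ)
    have a3 : mat δ⁻¹ *ᵥ p = p := by
      conv_lhs => rw [← a1, mulVec_mulVec, mat_inv_mul, one_mulVec]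
    rw [inv_inv, a3] at hm'
    exact end_OEnd hO hB hK hr hp (lat_of_two hm'.tr_tv hm.tr_tv hp a2)

end Pool.Agent.MP_5045a8_al.HX

end

section

/-! The statements on regular unipotent elements, without hypotheses. -/

namespace Pool.Agent.MP_5045a8_al.HX

theorem reg_stmt : RegStmt :=
  ⟨regA_dot, regA_sq, regA_fixv, regA_fixc, regB_conj, regB_par, regB_tr, regB_pow, regB_zpow,
    regA_onv, regA_onc, regB_ex⟩

theorem thH : HStmt := h_stmt reg_stmt (cos_stmt reg_stmt) (hex_stmt reg_stmt (hexQ_stmt hen_stmt))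

theorem thParLat : ParLatStmt := parLat_stmt reg_stmt

theorem thU1 : U1Stmt := u1_stmt reg_stmt thH (parConj_stmt reg_stmt) thParLat

theorem thU2 : U2Stmt := u2_stmt reg_stmt thU1 (parConj_stmt reg_stmt) thParLat

theorem thU3 : U3Stmt := u3_stmt reg_stmt thU2 thParLat noPar_stmt

theorem thFinPar : FinParStmt := finPar_stmt reg_stmt

theorem thClass : ClassStmt :=
  class_stmt reg_stmt (lie_stmt lieBr_stmt lieAd_stmt (lieLog_stmt reg_stmt) lieExp_stmt) zd_stmt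
    (r1_stmt span_stmt (full_stmt span_stmt wt_stmt)) (r2_stmt span_stmt so_stmt)

theorem thO : OStmt :=
  o_stmt ind_stmt cusp_stmt (nsq_stmt cusp_stmt pos_stmt off_stmt (quart_stmt runge_stmt alg_stmt))
    pell_stmt thH off_stmt

theorem thUni : UniStmt := uni_stmt reg_stmt thO ani_stmt pos_stmt pell_stmt thH off_stmt

end Pool.Agent.MP_5045a8_al.HX

end

section

/-! Assembly: reducible and irreducible maximal Haagerup subgroups. -/

namespace Pool.Agent.MP_5045a8_al.HX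

open Matrix O FT

theorem transp_eq (K : Subgroup G3) : Transp K = tr K := rfl

theorem fg_tr {H : Subgroup G3} (h : H.FG) : (tr H).FG := by
  let σ : G3 →* G3 := MonoidHom.mk' (fun g => (g.transpose)⁻¹) fun a b => by
    rw [transpose_mul', _root_.mul_inv_rev]
  have e : tr H = H.map σ := by
    ext g
    constructor
    · intro hg
      refine ⟨(g.transpose)⁻¹, H.inv_mem hg, ?_⟩
      change ((g.transpose)⁻¹).transpose⁻¹ = g
      rw [transpose_inv', inv_inv, transpose_transpose']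
    · rintro ⟨k, hk, rfl⟩
      change ((k.transpose)⁻¹).transpose ∈ H
      rw [transpose_inv', transpose_transpose']
      exact H.inv_mem hk
  obtain ⟨S, rfl⟩ := h
  classical
  refine ⟨S.image σ, ?_⟩
  rw [e, MonoidHom.map_closure, Finset.coe_image]

theorem red_core {H : Subgroup G3} {f : V3} (h : MaxHP H) (hf : f ≠ 0) (hs : Stab H f) :
    IsBlockType H ∨ (IsPlaneLift f H ∧ ∀ K, IsPlaneLift f K → H ≤ K → K = H) := by
  by_cases hfa : ∀ g ∈ H, (∀ x, f ⬝ᵥ x = 0 → mat g *ᵥ x = x) → g = 1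
  · refine Or.inr ⟨⟨hs, hfa⟩, fun K hK hle => ?_⟩
    by_contra hne
    exact h.2 K (lt_of_le_of_ne hle (Ne.symm hne)) (hK.hp hf)
  push Not at hfa
  obtain ⟨g, hg, h1, h2⟩ := hfa
  obtain ⟨y, hy, hmy⟩ := mem_of_fix hf hg h2 h1
  left
  by_cases hmv : ∀ k ∈ H, cr y (mat k *ᵥ y) = 0
  · obtain ⟨γ, d, n, e1, e2⟩ := exists_flag hf hmy.dot
    have hd : d ≠ 0 := fun e' => vecMul_ne hf γ (by simp [e1, e'])
    have hn : n ≠ 0 := fun e' => mulVec_ne hy γ⁻¹ (by simp [e2, e'])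
    have hle : cj γ H ≤ P0 := Stab.le_P0 hd (e1 ▸ hs.cj γ)
    refine block_of_std h hle (vc_of_line (a := ![1, 0]) (by simp) ?_)
    rintro _ ⟨k, hk, rfl⟩
    have hk' : γ * k.1 * γ⁻¹ ∈ H := hk
    have c := hmv _ hk'
    obtain ⟨t, ht⟩ : ∃ t : ℤ, (y ⬝ᵥ y) • (mat (γ * k.1 * γ⁻¹) *ᵥ y) = t • y :=
      ⟨_, par_dot c y⟩
    have c2 := congrArg (mat γ⁻¹ *ᵥ ·) ht
    simp only [mulVec_smul, mat_mul, ← mulVec_mulVec] at c2
    rw [mulVec_mulVec, mat_inv_mul, one_mulVec, e2] at c2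
    have c3 := congrFun c2 1
    have hp := (dot_self_pos hy).ne'
    generalize y ⬝ᵥ y = m at c3 hp
    simp [mulVec, hp, hn] at c3
    simp [d2, act_apply, pr_val]
    exact c3
  · push Not at hmv
    obtain ⟨k, hk, hc⟩ := hmv
    have m := hmy.conj hk
    have e := hs k⁻¹ (H.inv_mem hk)
    rcases e with e | e
    · rw [e] at m
      exact block_of_lat h (lat_of_two hmy m hf hc)
    · have m' := m.zsmul' (-1)
      rw [e] at m'
      simp only [neg_smul, one_smul, neg_neg] at m'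
      exact block_of_lat h (lat_of_two hmy m' hf hc)

theorem red_fg (hF : FinStmt) {H : Subgroup G3} {f : V3} (h : MaxHP H) (hfg : H.FG) (hf : f ≠ 0)
    (hs : Stab H f) : IsBlockType H ∨ IsLatticeLift f H :=
  (red_core h hf hs).imp id fun ⟨a, b⟩ => ⟨a, hF H f hf hfg a b, b⟩

theorem eq_of_le {H K : Subgroup G3} (h : MaxHP H) (hle : H ≤ K) (hK : HP K) : H = K := by
  by_contra hne
  exact h.2 K (lt_of_le_of_ne hle hne) hK

theorem irr_core (hFE : FinExtStmt) (hAbs : AbsStmt) (hAb : AbelStmt) (hNE : NoEigStmt)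
    (hSp : SpecStmt) (hTor : TorStmt) (hCl : ClassStmt) (hInd : IndStmt) (hTs : TorsStmt)
    (hPre : PreStmt) (hG : GoodStmt) (hL : Lie2Stmt) (hCom : ComStmt) (hNil : NilStmt)
    (hCx : CxStmt) (hCC : ClassCStmt) (hDef : DefStmt)
    (hS : ∀ B, Ind B → HP (SOq B)) : IrrStmt := by
  intro H h hI hZ
  have hinf : ¬ Finite H := fun hf => by
    obtain ⟨K, h1, h2⟩ := hFE H hf
    exact h.2 K h1 h2
  have tor : ∀ g, NoEig g → H ≤ TorN g →
      (∃ g, NoEig g ∧ H = TorN g) ∨ ∃ B, Ind B ∧ H = SOq B := fun g hg hle => by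
    obtain ⟨P, e, hd, -⟩ := hSp g (hNE g hg)
    exact Or.inl ⟨g, hg, eq_of_le h hle (hTor g P e hd)⟩
  have so : ∀ B, Ind B → H ≤ SOq B →
      (∃ g, NoEig g ∧ H = TorN g) ∨ ∃ B, Ind B ∧ H = SOq B := fun B hB hle =>
    Or.inr ⟨B, hB, eq_of_le h hle (hS B hB)⟩
  by_cases hC : IrrC H
  swap
  · obtain ⟨g, hg, hle⟩ := hAb H hI (hAbs H hI hC)
    exact tor g hg hle
  by_cases hu : ∃ u ∈ H, u ≠ 1 ∧ (mat u - 1) ^ 3 = 0
  · obtain ⟨u, hu, h1, h3⟩ := hu
    obtain ⟨B, hB, hle⟩ := hCl H u hZ hI hu h1 h3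
    exact so B (hInd B hB) hle
  push Not at hu
  obtain ⟨g, hg, hg3⟩ : ∃ g ∈ H, (mat (g ^ 12) - 1) ^ 3 ≠ 0 := by
    by_contra hn
    push Not at hn
    refine hinf (hTs H fun g hg => ?_)
    by_contra h1
    exact hu _ (H.pow_mem hg 12) h1 (hn g hg)
  obtain ⟨P, e, hd, he⟩ := hSp g hg3
  obtain ⟨Y, hY, hGR⟩ := hPre H g P e hg hd he
  have hgood := hG g P e Y hd hY
  obtain ⟨L, hLP, hmem, hden⟩ := hL H
  have hYL := hmem Y hY.2.1 hGR
  by_cases hcom : ∀ h ∈ H, Y * (qm h * Y * qm h⁻¹) = qm h * Y * qm h⁻¹ * Y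
  · obtain ⟨h1, h2⟩ := hCom H g Y hI hY hgood hcom
    exact tor g h1 h2
  push Not at hcom
  obtain ⟨k, hk, hne⟩ := hcom
  obtain ⟨Q, y, hQ, hy⟩ := hgood.dg
  obtain ⟨hLC, -⟩ := hCx H L hLP
  have inL : ∀ Z ∈ L, qc Z ∈ cx L := fun Z hZ => Submodule.subset_span ⟨Z, hZ, rfl⟩
  have qmul : ∀ A B : QM, qc (A * B) = qc A * qc B := fun A B =>
    Matrix.map_mul (L := A) (M := B) (f := Rat.castHom ℂ)
  have qinj : ∀ A B : QM, qc A = qc B → A = B := fun A B e => by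
    ext i j
    have := congrFun (congrFun e i) j
    simpa [qc] using this
  obtain ⟨X, hX, hX0, hX3⟩ := hNil (cx L) (qc Y) (qc (qm k * Y * qm k⁻¹)) Q y hLC.br (inL Y hYL)
    (inL _ (hLP.ad k hk Y hYL)) hQ hy (fun e => hne (qinj _ _ (by rw [qmul, e, ← qmul])))
  rcases hCC H L X hLP hI hC hX hX0 hX3 with h1 | ⟨B, b1, b2, hle⟩
  · exact (hZ (hden h1)).elim
  · by_cases hB : Ind B
    · exact so B hB hle
    · have := hDef B b1 b2 hB
      exact (hinf (Finite.of_injective _ (Subgroup.inclusion_injective hle))).elim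

end Pool.Agent.MP_5045a8_al.HX

end

section

/-! A product of two linear forms changes sign on the cone along a secant. -/

namespace Pool.Agent.MP_5045a8_al.O

open Matrix

theorem sec_small (A b c : ℝ) (hA : A ≠ 0) :
    ∃ ε : ℝ, 0 < ε ∧ ∀ t, t = ε ∨ t = -ε → 0 < A * (A + t * b + t ^ 2 * c) := by
  have h1 : ContinuousAt (fun t : ℝ => A * (A + t * b + t ^ 2 * c)) 0 := by fun_prop
  have h2 := h1.eventually (lt_mem_nhds (a := (0 : ℝ)) (by simpa using hA))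
  obtain ⟨δ, hδ, h3⟩ := Metric.eventually_nhds_iff.1 h2
  refine ⟨δ / 2, half_pos hδ, fun t ht => h3 ?_⟩
  rw [Real.dist_eq, sub_zero, abs_lt]
  rcases ht with rfl | rfl <;> constructor <;> linarith

theorem sec_pair {B : RM} (h : Bᵀ = B) {μ α : R3} (hμ : bf B.adjugate μ μ < 0)
    (hα : α ⨯₃ μ ≠ 0) : ∃ y z : R3, bf B y y = 0 ∧ bf B z z = 0 ∧ bf B y z ≠ 0 ∧ μ ⬝ᵥ y = 0 ∧
      μ ⬝ᵥ z = 0 ∧ α ⬝ᵥ y ≠ 0 := by
  obtain ⟨e, he⟩ : ∃ e, e = α ⨯₃ μ := ⟨_, rfl⟩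
  obtain ⟨f, hf⟩ : ∃ f, f = μ ⨯₃ e := ⟨_, rfl⟩
  have l0 : e ⬝ᵥ e ≠ 0 := fun h0 => hα (he ▸ dotProduct_self_eq_zero.1 h0)
  have m1 : μ ⬝ᵥ e = 0 := by rw [he, dot_cross_self]
  have m2 : μ ⬝ᵥ f = 0 := by rw [hf, dot_self_cross]
  have a1 : α ⬝ᵥ e = 0 := by rw [he, dot_self_cross]
  have a2 : α ⬝ᵥ f = e ⬝ᵥ e := by rw [hf, ← triple_product_permutation, ← he]
  have c1 : e ⨯₃ f = (e ⬝ᵥ e) • μ := by
    rw [hf, cross_cross_eq_smul_sub_smul', m1, zero_smul, sub_zero]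
  have g := gram h e f
  rw [c1, bf_smul_left, bf_smul_right] at g
  have g0 : 0 < bf B e f ^ 2 - bf B e e * bf B f f := by
    have := mul_self_pos.2 l0
    nlinarith
  have hs := bf_comm h f e
  by_cases q0 : bf B e e = 0
  · have b0 : bf B e f ≠ 0 := by
      intro h0
      rw [h0, q0] at g0
      simp at g0
    refine ⟨(2 * bf B e f) • f - bf B f f • e, e, ?_, q0, ?_, ?_, m1, ?_⟩
    · simp only [bf_sub_left, bf_sub_right, bf_smul_left, bf_smul_right, hs, q0]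
      ring
    · simp only [bf_sub_left, bf_smul_left, hs, q0, mul_zero, sub_zero]
      exact mul_ne_zero (mul_ne_zero two_ne_zero b0) b0
    · simp [m1, m2]
    · simp only [dotProduct_sub, dotProduct_smul, a1, a2, smul_eq_mul, mul_zero, sub_zero]
      exact mul_ne_zero (mul_ne_zero two_ne_zero b0) l0
  · obtain ⟨δ, hδ⟩ : ∃ δ : ℝ, δ * δ = bf B e f ^ 2 - bf B e e * bf B f f :=
      ⟨_, Real.mul_self_sqrt g0.le⟩
    refine ⟨(-bf B e f + δ) • e + bf B e e • f, (-bf B e f - δ) • e + bf B e e • f,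
      ?_, ?_, ?_, ?_, ?_, ?_⟩
    · simp only [bf_add_left, bf_add_right, bf_smul_left, bf_smul_right, hs]
      linear_combination bf B e e * hδ
    · simp only [bf_add_left, bf_add_right, bf_smul_left, bf_smul_right, hs]
      linear_combination bf B e e * hδ
    · simp only [bf_add_left, bf_add_right, bf_smul_left, bf_smul_right, hs]
      intro h0
      refine mul_ne_zero q0 g0.ne' ?_
      linear_combination (-1 / 2 : ℝ) * h0 - (1 / 2 : ℝ) * bf B e e * hδ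
    · simp [m1, m2]
    · simp [m1, m2]
    · simp only [dotProduct_add, dotProduct_smul, a1, a2, smul_eq_mul, mul_zero, zero_add]
      exact mul_ne_zero q0 l0

theorem secant {B : RM} (h : Bᵀ = B) (hD : B.det ≠ 0) {μ α : R3}
    (hμ : bf B.adjugate μ μ < 0) (hα : α ⨯₃ μ ≠ 0) :
    (∃ y : R3, bf B y y = 0 ∧ 0 < (α ⬝ᵥ y) * (μ ⬝ᵥ y)) ∧
      ∃ y : R3, bf B y y = 0 ∧ (α ⬝ᵥ y) * (μ ⬝ᵥ y) < 0 := by
  have _ := hD
  obtain ⟨y, z, hy, hz, hyz, my, mz, ay⟩ := sec_pair h hμ hα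
  obtain ⟨r, hr⟩ : ∃ r, r = B.adjugate *ᵥ μ := ⟨_, rfl⟩
  have yr : bf B y r = 0 := by rw [hr, bf_adj, dotProduct_comm, my, mul_zero]
  have zr : bf B z r = 0 := by rw [hr, bf_adj, dotProduct_comm, mz, mul_zero]
  have mr : μ ⬝ᵥ r < 0 := hr ▸ hμ
  obtain ⟨κ, hκ⟩ : ∃ κ : ℝ, bf B r r + 2 * κ * bf B y z = 0 :=
    ⟨-bf B r r / (2 * bf B y z), by field_simp; ring⟩
  obtain ⟨ε, hε, hp⟩ := sec_small (α ⬝ᵥ y) (α ⬝ᵥ r) (κ * (α ⬝ᵥ z)) ay
  have key : ∀ t : ℝ, ∃ w : R3, bf B w w = 0 ∧ (α ⬝ᵥ w) * (μ ⬝ᵥ w) =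
      (α ⬝ᵥ y + t * (α ⬝ᵥ r) + t ^ 2 * (κ * (α ⬝ᵥ z))) * (t * (μ ⬝ᵥ r)) := fun t => by
    refine ⟨y + t • r + (t ^ 2 * κ) • z, ?_, ?_⟩
    · simp only [bf_add_left, bf_add_right, bf_smul_left, bf_smul_right, bf_comm h r y,
        bf_comm h r z, bf_comm h z y, hy, hz, yr, zr]
      linear_combination t ^ 2 * hκ
    · simp only [dotProduct_add, dotProduct_smul, my, mz, smul_eq_mul]
      ring
  obtain ⟨w₁, h1, e1⟩ := key ε
  obtain ⟨w₂, h2, e2⟩ := key (-ε)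
  have p1 := hp ε (Or.inl rfl)
  have p2 := hp (-ε) (Or.inr rfl)
  have n1 : ε * (μ ⬝ᵥ r) < 0 := mul_neg_of_pos_of_neg hε mr
  have n2 : 0 < -ε * (μ ⬝ᵥ r) := by linarith
  rcases lt_or_gt_of_ne ay with ha | ha
  · exact ⟨⟨w₁, h1, e1 ▸ mul_pos_of_neg_of_neg (neg_of_mul_pos_right p1 ha.le) n1⟩,
      w₂, h2, e2 ▸ mul_neg_of_neg_of_pos (neg_of_mul_pos_right p2 ha.le) n2⟩
  · exact ⟨⟨w₂, h2, e2 ▸ mul_pos (pos_of_mul_pos_right p2 ha.le) n2⟩,
      w₁, h1, e1 ▸ mul_neg_of_pos_of_neg (pos_of_mul_pos_right p1 ha.le) n1⟩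

end Pool.Agent.MP_5045a8_al.O

end

section

/-! Haagerup overgroups with an involution preserve the form. -/

namespace Pool.Agent.MP_5045a8_al.O

open Matrix

theorem le_perp {B : M3} {σ : G3} {d : ℤ} {c a : V3} (hI : Invo σ d c a) :
    rv c ⬝ᵥ rv ((2 * d) • B *ᵥ c - bf B c c • a) = 0 := by
  rw [rv_dot, dotProduct_sub, dotProduct_smul, dotProduct_smul, dotProduct_comm c a, hI.2.2, bf,
    smul_eq_mul, smul_eq_mul, mul_comm, sub_self, Int.cast_zero]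

theorem le_cross {B : M3} {σ : G3} {d : ℤ} {c a : V3} (hI : Invo σ d c a)
    (hμ : (2 * d) • B *ᵥ c - bf B c c • a ≠ 0) :
    rv a ⨯₃ rv ((2 * d) • B *ᵥ c - bf B c c • a) ≠ 0 := fun e => by
  have h1 := cross_cross_eq_smul_sub_smul' (rv c) (rv a) (rv ((2 * d) • B *ᵥ c - bf B c c • a))
  rw [e, map_zero, le_perp hI, zero_smul, zero_sub, eq_comm, neg_eq_zero, smul_eq_zero, rv_dot,
    hI.2.2] at h1
  exact h1.elim (fun h => hI.1 (by exact_mod_cast (by simpa using h : (d : ℝ) = 0))) (rv_ne hμ)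

theorem le_end {B : M3} (h : Ind B) {K : Subgroup G3} (hHP : HP K)
    (hK : K.relIndex (SOq B) ≠ 0) {σ : G3} {d : ℤ} {c a : V3} (hσ : σ ∈ K) (hI : Invo σ d c a)
    {y₁ y₂ : R3} (h1 : bf (rm B) y₁ y₁ = 0) (h2 : bf (rm B) y₂ y₂ = 0)
    (p1 : 0 < (rv a ⬝ᵥ y₁) * (rv ((2 * d) • B *ᵥ c - bf B c c • a) ⬝ᵥ y₁))
    (p2 : (rv a ⬝ᵥ y₂) * (rv ((2 * d) • B *ᵥ c - bf B c c • a) ⬝ᵥ y₂) < 0) : False := by
  have e1 := hI.cone h.1 h1
  have e2 := hI.cone h.1 h2
  refine cross h hHP hK hσ hI hσ h2 h1 (lt_of_not_ge fun h' => ?_) (lt_of_not_ge fun h' => ?_)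
  · linarith [mul_nonpos_of_nonneg_of_nonpos (sq_nonneg (d : ℝ)) h']
  · linarith [mul_nonneg (sq_nonneg (d : ℝ)) h']

theorem no_far {B : M3} (h : Ind B) {K : Subgroup G3} (hHP : HP K)
    (hK : K.relIndex (SOq B) ≠ 0) {σ : G3} {d : ℤ} {c a : V3} (hσ : σ ∈ K) (hI : Invo σ d c a)
    (hN : 4 * d ^ 2 * B.det ^ 2 < |nq B c c|) : False := by
  rcases lt_trichotomy (nq B c c) 0 with h0 | h0 | h0
  · have hμ : (2 * d) • B *ᵥ c - bf B c c • a ≠ 0 := fun e => (hI.bound h.1 h.2.1 e).not_gt hN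
    have hr : (rm B).adjugate *ᵥ rv ((2 * d) • B *ᵥ c - bf B c c • a) ≠ 0 := fun e => by
      have := mulVec_adj (B := rm B) (rv ((2 * d) • B *ᵥ c - bf B c c • a))
      rw [e, mulVec_zero, eq_comm, smul_eq_zero] at this
      exact this.elim h.rdet (rv_ne hμ)
    have h1 := h.pos_of_perp (v := rv c) (by rw [nq_cast]; exact_mod_cast h0) hr
      (by rw [nq_comm h.rsymm, nq, bf_adj, le_perp hI, mul_zero, mul_zero])
    rw [nq, bf_adj, dotProduct_comm] at h1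
    obtain ⟨⟨y₁, a1, b1⟩, y₂, a2, b2⟩ := secant h.rsymm h.rdet
      (μ := rv ((2 * d) • B *ᵥ c - bf B c c • a)) (lt_of_not_ge fun h' => by
        rw [bf] at h'
        linarith [mul_nonneg (sq_nonneg (rm B).det) h'])
      (le_cross hI hμ)
    exact le_end h hHP hK hσ hI a1 a2 b1 b2
  · rw [h0, abs_zero] at hN
    exact hN.not_ge (by positivity)
  · have hm : (2 * d) • B.adjugate *ᵥ a - bf B.adjugate a a • c ≠ 0 := fun e =>
      (hI.bound' h.1 h.2.1 e).not_gt hN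
    obtain ⟨⟨y₁, a1, b1⟩, y₂, a2, b2⟩ := secant h.adj.rsymm h.adj.rdet (μ := rv c)
      (α := rv ((2 * d) • B.adjugate *ᵥ a - bf B.adjugate a a • c))
      (by
        rw [rm_adj, adj_adj, bf_cast, bf, smul_mulVec, dotProduct_smul, smul_eq_mul]
        rw [nq, bf, neg_mul, neg_pos] at h0
        exact_mod_cast h0)
      (by
        rw [← cross_anticomm, neg_ne_zero]
        exact le_cross hI.transpose hm)
    exact le_end h.adj hHP.tr (tr_SOq h ▸ tr_relIndex hK) (σ := σ.transpose) hσ hI.transpose a1 a2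
      (by rwa [mul_comm]) (by rwa [mul_comm])

theorem le_SOq {B : M3} (h : Ind B) {K : Subgroup G3} (hHP : HP K)
    (hK : K.relIndex (SOq B) ≠ 0) {s : G3} (hs : s ∈ K) (h1 : s ≠ 1) (h2 : s ^ 2 = 1) :
    K ≤ SOq B := by
  intro k hk
  by_contra hn
  obtain ⟨y, y0, y1⟩ := h.exists_moved hn
  obtain ⟨d, c, a, hI⟩ := exists_invo h1 h2
  have e : ∀ (t : ℝ) (x : R3), bf (t • ((rm (mat k))ᵀ * rm B * rm (mat k))) x x =
      t * bf (rm B) (rm (mat k) *ᵥ x) (rm (mat k) *ᵥ x) := fun t x => by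
    rw [bf_mulVec, bf, bf, smul_mulVec, dotProduct_smul, smul_eq_mul]
  obtain ⟨t, t1, t2⟩ : ∃ t : ℝ, |t| = |(B.det : ℝ)| ∧
      0 < t * bf (rm B) (rm (mat k) *ᵥ y) (rm (mat k) *ᵥ y) := by
    rcases (mul_ne_zero (rm_det B ▸ h.rdet) y1).lt_or_gt with h' | h'
    exacts [⟨-B.det, abs_neg _, by linarith⟩, ⟨B.det, rfl, h'⟩]
  obtain ⟨g, hg, hT⟩ := exists_big h hK _ y0 ((e t y).symm ▸ t2) hI.ne
    ((4 * d ^ 2 * B.det ^ 2 : ℤ) : ℝ)
  have hkg := mul_mem hk hg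
  refine no_far h hHP hK (mul_mem (mul_mem hkg hs) (inv_mem hkg)) (hI.conj (k * g)) ?_
  rw [e, ← rv_mulVec, bf_cast, mulVec_mulVec, ← mat_mul] at hT
  have h3 := hT.trans_le (le_abs_self _)
  rw [abs_mul, t1, ← abs_mul] at h3
  rw [nq, neg_mul, abs_neg]
  exact_mod_cast h3

end Pool.Agent.MP_5045a8_al.O

end

section

/-! The statements on subgroups that are not Zariski dense, without hypotheses. -/

namespace Pool.Agent.MP_5045a8_al.HX

theorem thFin : FinStmt :=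
  fin_stmt (wan_stmt sep_stmt) (tri_stmt posMat_stmt) (ext_stmt pp_stmt)

theorem thIrr : IrrStmt :=
  irr_core (finExt_stmt gen_stmt free_stmt) (abs_stmt span_stmt) (abel_stmt span_stmt) noEig_stmt
    (spec_stmt cub_stmt) tor_stmt thClass ind_stmt tors_stmt
    (pre_stmt (semi_stmt exp_stmt) rat_stmt) good_stmt
    (lie2_stmt lieBr_stmt lieAd_stmt lieExp_stmt zd_stmt) (com_stmt span_stmt) nil_stmt cx_stmt
    (classC_stmt cx_stmt (r1C_stmt spanC_stmt (fullC_stmt spanC_stmt wtC_stmt)) (r2C_stmt soC_stmt)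
      (form_stmt span_stmt))
    def_stmt fun _ h => O.hp_SOq h

end Pool.Agent.MP_5045a8_al.HX

end

section

/-! Maximal Haagerup subgroups of SL(3,Z) that are not Zariski dense. -/

namespace Pool.Agent.MP_5045a8_al.HX

open Matrix O FT

theorem cr_self (a : V3) : cr a a = 0 := by
  simp only [ext3, cr0, cr1, cr2, Pi.zero_apply]
  refine ⟨by ring, by ring, by ring⟩

theorem cr_neg_self (a : V3) : cr (-a) a = 0 := by
  simp only [ext3, cr0, cr1, cr2, Pi.zero_apply, Pi.neg_apply]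
  refine ⟨by ring, by ring, by ring⟩

theorem Stab.cr_eq {K : Subgroup G3} {f : V3} (h : Stab K f) {g : G3} (hg : g ∈ K) :
    cr (f ᵥ* mat g) f = 0 := by
  rcases h g hg with e | e <;> rw [e]
  · exact cr_self f
  · exact cr_neg_self f

theorem par_of_unip {H : Subgroup G3} {f : V3} (hf : f ≠ 0) (hl : IsPlaneLift f H)
    (h : ∀ x : V3, x ≠ 0 → f ⬝ᵥ x = 0 →
      ∃ u ∈ H, (mat u - 1) ^ 3 = 0 ∧ mat u *ᵥ x = x ∧ u ≠ 1) : Par H f := by
  intro x hx hfx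
  obtain ⟨u, hu, h3, hux, h1⟩ := h x hx hfx
  have hs : Stab H f := hl.1
  rcases reg_stmt.ex h3 h1 with ⟨p, φ, hr⟩ | ⟨n, p, φ, hp, hφ, e1, e2⟩
  · refine Or.inr ⟨u, hu, reg_stmt.par hr hx hf (reg_stmt.fixv hr ?_)
      (reg_stmt.fixc hr (Stab.cr_eq hs hu))⟩
    rw [hux]; exact cr_self x
  · left
    have hm : Mem H (tv p φ) := ⟨u ^ n, H.zpow_mem hu n, e2⟩
    have a1 : f ⬝ᵥ p = 0 := hs.dot hm hφ
    have a2 : φ ⬝ᵥ x = 0 := by
      have := congrArg (· *ᵥ x) e1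
      simp only [smul_mulVec, sub_mulVec, one_mulVec, hux, sub_self, smul_zero,
        vecMulVec_mulVec] at this
      have := (smul_eq_zero.1 this.symm).resolve_right hp
      simpa using this
    have a3 : cr f φ ≠ 0 := fun e => by
      have := hl.2 _ (H.zpow_mem hu n) fun z hz => by
        change mat (u ^ n) *ᵥ z = z
        rw [e2, tv_mulVec, par_dot_zero e hf hz]; simp
      rw [this, mat_one, tv, left_eq_add, vecMulVec_eq_zero] at e2
      tauto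
    have a4 : cr x p = 0 := by
      have b1 : cr x (cr f φ) = 0 :=
        cr_of_perp (by rw [dotProduct_comm]; exact hfx) (by rw [dotProduct_comm]; exact a2)
      have b2 : cr p (cr f φ) = 0 :=
        cr_of_perp (by rw [dotProduct_comm]; exact a1) (by rw [dotProduct_comm]; exact hm.dot)
      exact cr_trans a3 b1 b2
    have a5 := par_dot a4 x
    have a6 : p ⬝ᵥ x ≠ 0 := fun e => by
      rw [e, zero_smul, smul_eq_zero] at a5
      exact a5.elim (dot_self_pos hx).ne' hp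
    refine ⟨(p ⬝ᵥ x) • φ, smul_ne_zero a6 hφ, ?_⟩
    rw [← tv_smul, ← a5]
    exact hm.zsmul _

theorem ZDense.cr_eq {H : Subgroup G3} (h : ZDense H) {f : V3}
    (hs : ∀ g ∈ H, cr (f ᵥ* mat g) f = 0) (g : G3) : cr (f ᵥ* mat g) f = 0 := by
  have key : ∀ i j : Fin 3, (∀ g ∈ H, (f ᵥ* mat g) i * f j - (f ᵥ* mat g) j * f i = 0) →
      (f ᵥ* mat g) i * f j - (f ᵥ* mat g) j * f i = 0 := fun i j hij => by
    let P : MvPolynomial (Fin 3 × Fin 3) ℝ :=
      (∑ k, MvPolynomial.C (f k : ℝ) * MvPolynomial.X (k, i)) * MvPolynomial.C (f j : ℝ) -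
        (∑ k, MvPolynomial.C (f k : ℝ) * MvPolynomial.X (k, j)) * MvPolynomial.C (f i : ℝ)
    have ev : ∀ g : G3, MvPolynomial.eval (fun ij => ((g ij.1 ij.2 : ℤ) : ℝ)) P =
        (((f ᵥ* mat g) i * f j - (f ᵥ* mat g) j * f i : ℤ) : ℝ) := fun g => by
      simp [P, vecMul, dotProduct, mat]
    have := h P (fun g hg => by rw [ev, hij g hg]; simp) (rm (mat g)) (by
      rw [rm, ← RingHom.mapMatrix_apply, ← RingHom.map_det, mat_det]; simp)
    have e2 := ev g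
    exact_mod_cast e2.symm.trans this
  rw [ext3]
  exact ⟨key 1 2 fun g hg => congrFun (hs g hg) 0, key 2 0 fun g hg => congrFun (hs g hg) 1,
    key 0 1 fun g hg => congrFun (hs g hg) 2⟩

theorem not_dense_of_stab {H : Subgroup G3} {f : V3} (hf : f ≠ 0) (hs : Stab H f) :
    ¬ ZDense H := fun h => by
  obtain ⟨φ, h0, h1, -⟩ := exists_perp_ne (f' := f) hf
  have h2 : φ ⬝ᵥ f = 0 := by rw [dotProduct_comm]; exact h1
  have := ZDense.cr_eq h (fun g hg => Stab.cr_eq hs hg)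
    (mk3 (tv f φ) (by rw [det_tv, h2, add_zero]))
  rw [mat_mk3, vecMul_tv] at this
  have hp := dot_self_pos hf
  refine cr_ne_of_dot h0 h1 hp.ne' (cr_comm_zero ?_)
  generalize f ⬝ᵥ f = m at this hp
  simp only [ext3, cr0, cr1, cr2, Pi.zero_apply, Pi.add_apply, Pi.smul_apply, smul_eq_mul]
    at this ⊢
  obtain ⟨a, b, c⟩ := this
  refine ⟨mul_left_cancel₀ hp.ne' ?_, mul_left_cancel₀ hp.ne' ?_, mul_left_cancel₀ hp.ne' ?_⟩
  · linear_combination a
  · linear_combination b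
  · linear_combination c

theorem ZDense.tr {H : Subgroup G3} (h : ZDense H) : ZDense (tr H) := by
  intro P hP M hM
  have := h (MvPolynomial.rename Prod.swap P) (fun g hg => by
    rw [MvPolynomial.eval_rename]
    exact hP g.transpose hg) Mᵀ (by rw [det_transpose, hM])
  rw [MvPolynomial.eval_rename] at this
  exact this

theorem not_dense_SOq {B : M3} (hB : B.det ≠ 0) : ¬ ZDense (SOq B) := fun h => by
  have key : ∀ (g : G3) (i j : Fin 3), ((mat g)ᵀ * B * mat g) i j = B i j := fun g i j => by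
    let P : MvPolynomial (Fin 3 × Fin 3) ℝ :=
      (∑ l, (∑ k, MvPolynomial.X (k, i) * MvPolynomial.C (B k l : ℝ)) * MvPolynomial.X (l, j)) -
        MvPolynomial.C (B i j : ℝ)
    have ev : ∀ g : G3, MvPolynomial.eval (fun ij => ((g ij.1 ij.2 : ℤ) : ℝ)) P =
        ((((mat g)ᵀ * B * mat g) i j - B i j : ℤ) : ℝ) := fun g => by
      simp [P, mul_apply, mat]
    have := h P (fun g hg => by
      have e : (mat g)ᵀ * B * mat g = B := hg
      rw [ev, e]; simp) (rm (mat g)) (by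
      rw [rm, ← RingHom.mapMatrix_apply, ← RingHom.map_det, mat_det]; simp)
    have e2 := ev g
    have e3 : ((mat g)ᵀ * B * mat g) i j - B i j = 0 := by exact_mod_cast e2.symm.trans this
    exact sub_eq_zero.1 e3
  let g : G3 := mk3 !![1, 1, 0; 0, 1, 0; 0, 0, 1] (by simp [det_fin_three])
  let g' : G3 := mk3 !![1, 0, 1; 0, 1, 0; 0, 0, 1] (by simp [det_fin_three])
  have a1 := key g 0 1
  have a2 := key g 2 1
  have a3 := key g' 1 2
  simp [g, g', mat_mk3, mul_apply, Fin.sum_univ_three] at a1 a2 a3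
  exact hB (by rw [det_fin_three, a1, a2, a3]; ring)

theorem not_dense_block {H : Subgroup G3} (h : IsBlockType H) : ¬ ZDense H := by
  have key : ∀ (H : Subgroup G3) (γ : G3) (C : Subgroup G2),
      (∀ g : G3, g ∈ H ↔ InBlock C (mat (γ⁻¹ * g * γ))) → ¬ ZDense H := fun H γ C e => by
    have h1 : Stab (cj γ H) ![0, 0, 1] := fun g hg => by
      have := (e _).1 (mem_cj.1 hg)
      simp only [mul_assoc, inv_mul_cancel_left, inv_mul_cancel, mul_one] at this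
      have hp : g ∈ P0 := ⟨this.1, this.2.1⟩
      have hd := P0_det hp
      rcases Int.eq_one_or_neg_one_of_mul_eq_one' hd with ⟨-, d⟩ | ⟨-, d⟩
      · left
        simp only [ext3, vecMul, dot3]
        simp [hp.1, hp.2, d]
      · right
        simp only [ext3, vecMul, dot3]
        simp [hp.1, hp.2, d]
    have h2 := h1.cj γ⁻¹
    have e2 := cj_cj γ⁻¹ H
    rw [inv_inv] at e2
    rw [e2] at h2
    exact not_dense_of_stab (vecMul_ne (by simp) _) h2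
  obtain ⟨γ, C, h1, h2, e | e⟩ := h
  · exact key H γ C e
  · intro hz
    refine key (tr H) (γ.transpose)⁻¹ C (fun g => ?_) (ZDense.tr hz)
    rw [mem_tr, e]
    have : (γ⁻¹ * g.transpose * γ).transpose = γ.transpose⁻¹⁻¹ * g * γ.transpose⁻¹ := by
      rw [transpose_mul', transpose_mul', transpose_inv', inv_inv, transpose_transpose', mul_assoc]
    rw [← this]
    rfl

theorem maxHP_lift {H : Subgroup G3} {f : V3} (h : IsMaxLift f H) (hw : ¬ IsWildLift H) :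
    MaxHP H := by
  obtain ⟨hf, hl, hm⟩ := h
  refine thU3 H f hf ?_ hl hm
  by_cases hfg : H.FG
  · exact thFinPar H f hf hl.1 (thFin H f hf hfg hl hm)
  · refine par_of_unip hf hl fun x hx hfx => ?_
    by_contra hn
    push Not at hn
    exact hw ⟨f, ⟨hf, hl, hm⟩, hfg, x, hx, hfx, hn⟩

theorem maxHP_SOq {B : M3} (hB : Ind B) (ha : ¬ IsAnisoType (SOq B)) : MaxHP (SOq B) := by
  refine ⟨O.hp_SOq hB, fun K hK hH => hK.not_ge ?_⟩
  have hi : K.relIndex (SOq B) ≠ 0 := by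
    rw [Subgroup.relIndex_eq_one.2 hK.le]
    exact one_ne_zero
  by_cases hiso : ∃ p : V3, p ≠ 0 ∧ p ⬝ᵥ B *ᵥ p = 0
  · exact thO B K ⟨hB.1, hB.2.1, hiso⟩ hH hi
  · push Not at hiso
    obtain ⟨s, hs, h2, h1⟩ : ∃ s ∈ SOq B, s ^ 2 = 1 ∧ s ≠ 1 := by
      by_contra hn
      push Not at hn
      exact ha ⟨B, hB, fun p hp => by_contra fun h0 => hiso p h0 hp, rfl, hn⟩
    exact O.le_SOq hB hH hi (hK.le hs) h1 h2

theorem nonDense_iff {H : Subgroup G3} (hx : ¬ IsExceptional H) :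
    (MaxHP H ∧ ¬ ZDense H) ↔ IsBlockType H ∨ (∃ f, IsMaxLift f H ∨ IsMaxLift f (Transp H)) ∨
      ∃ B, Indef B ∧ H = SOq B := by
  simp only [IsExceptional, not_or] at hx
  obtain ⟨ht, ha, hw, hw'⟩ := hx
  constructor
  · rintro ⟨h, hz⟩
    by_cases hI : Irr H
    · rcases thIrr H h hI hz with ⟨g, hg, e⟩ | ⟨B, hB, e⟩
      · exact (ht ⟨g, hg.1, hg.2, e⟩).elim
      · exact Or.inr (Or.inr ⟨B, hB, e⟩)
    · simp only [Irr, not_forall, not_and_or, not_not] at hI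
      obtain ⟨f, hf, hs | hs⟩ := hI
      · exact (red_core h hf hs).imp id fun a => Or.inl ⟨f, Or.inl ⟨hf, a⟩⟩
      · exact (red_core h.tr hf hs).imp (fun a => a.tr) fun a => Or.inl ⟨f, Or.inr ⟨hf, a⟩⟩
  · rintro (h | ⟨f, h | h⟩ | ⟨B, hB, rfl⟩)
    · exact ⟨h.maxHP, not_dense_block h⟩
    · exact ⟨maxHP_lift h hw, not_dense_of_stab h.1 h.2.1.1⟩
    · exact ⟨(maxHP_lift h hw').tr, fun hz => not_dense_of_stab h.1 h.2.1.1 (ZDense.tr hz)⟩
    · exact ⟨maxHP_SOq hB ha, not_dense_SOq hB.2.1⟩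

end Pool.Agent.MP_5045a8_al.HX

end
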